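import Mathlib
import Pool.Agent.Lib.MP_c385f6_ag.Defs

set_option autoImplicit false

/-!
The maximal extension of a function field that is ramified only over places whose residue field
contains a root of a given polynomial, and the sections of its Galois group.
-/

namespace Pool.Agent.Lib.MP_c385f6_ag.Semi

open Polynomial

/-- `f` has no root in the residue field of the valuation ring `A` of `K`. -/
def NoRoot {k K : Type*} [Field k] [Field K] [Algebra k K] (f : k[X]) (A : ValuationSubring K) :
    Prop :=
  ∀ a ∈ A, ¬ A.valuation (aeval a f) < 1

/-- `B` contains `k`, and `f` has no root in the residue field of the valuation ring `B ∩ K`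
of `K`. -/
def Rootless {k Ω : Type*} (K : Type*) [Field k] [Field K] [Field Ω] [Algebra k K] [Algebra k Ω]
    [Algebra K Ω] (f : k[X]) (B : ValuationSubring Ω) : Prop :=
  (∀ c : k, algebraMap k Ω c ∈ B) ∧ NoRoot f (B.comap (algebraMap K Ω))

/-- The maximal extension `K_f` of `K` in `Ω` that is unramified at all places of `K / k` whose
residue field contains no root of `f`: the fixed field of all inertia groups of the valuation
subrings `B` of `Ω` that contain `k` and for which `f` has no root in the residue field
of `B ∩ K`. (For `f = 1` this is the maximal unramified extension `K^ur`.) -/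
noncomputable def openExt (k K Ω : Type*) [Field k] [Field K] [Field Ω] [Algebra k K]
    [Algebra k Ω] [Algebra K Ω] (f : k[X]) : IntermediateField K Ω :=
  IntermediateField.fixedField (⨆ B : {B : ValuationSubring Ω // Rootless K f B}, inertia K B.1)

/-- A section of `Gal(N / K) → Gal_k`, `N` an extension of `K` in `Ω` that contains `k̄`: a
continuous homomorphism `s : Gal_k → Gal(N / K)` such that `s g` acts on the constants (the
elements of `k̄`) as `g`. -/
structure IsSec (k K Ω : Type*) [Field k] [Field K] [Field Ω] [Algebra k Ω] [Algebra K Ω]
    (N : IntermediateField K Ω) (s : AbsGal k Ω →* (N ≃ₐ[K] N)) : Prop where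
  continuous : Continuous s
  restrict : ∀ (g : AbsGal k Ω) (c : algebraicClosure k Ω) (z : N),
    (z : Ω) = c → ((s g z : N) : Ω) = g c

/-- `s` is a section at the place `A` of `K`: the image of `s` is contained in the decomposition
group of a valuation ring `B` of `N` above `A`. -/
def SecAt {k K Ω : Type*} [Field k] [Field K] [Field Ω] [Algebra k Ω] [Algebra K Ω]
    {N : IntermediateField K Ω} (s : AbsGal k Ω →* (N ≃ₐ[K] N)) (A : ValuationSubring K) : Prop :=
  ∃ B : ValuationSubring N, B.comap (algebraMap K N) = A ∧ ∀ g, ∀ z ∈ B, s g z ∈ B

end Pool.Agent.Lib.MP_c385f6_ag.Semi
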