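import Mathlib
import Pool.Agent.Lib.MP_c385f6_ag.Places
import Pool.Agent.Lib.MP_c385f6_ag.Kummer
import Pool.Agent.Lib.MP_c385f6_ag.Cpl.StLoc
import Pool.Agent.Lib.MP_c385f6_ag.Semi.Defs

set_option autoImplicit false

/-!
Auxiliary definitions for the theorem on `openExt` (blueprint MP_c385f6_semi.md).
-/

namespace Pool.Agent.Lib.MP_c385f6_ag.Semi

open Pool.Agent.Lib.MP_c385f6_ag.Cpl Polynomial

section abstract

variable {p : ℕ} {L F E : Type*} [Field L] [Field F] [Field E]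

/-- `u` is a unit of `O` -/
def Ut (O : Subring E) (u : E) : Prop := u ≠ 0 ∧ u ∈ O ∧ u⁻¹ ∈ O

/-- `x - c` is not zero and its inverse is in `O` -/
def Gd (ι : L →+* E) (O : Subring E) (x : E) (c : L) : Prop := x - ι c ≠ 0 ∧ (x - ι c)⁻¹ ∈ O

/-- a system of classes on the units of a subring `O` of the field `E` with many units -/
structure LimD (S : LF p L F) (ι : L →+* E) (O : Subring E) (D : E → L) : Prop where
  const : ∀ c, ι c ∈ O
  dense : ∀ X : Set E, X.Finite → ∀ (c : L) (n : ℤ), ∃ c', S.Gz n (c' - c) ∧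
    ∀ x ∈ X, Gd ι O x c'
  ne : ∀ u, Ut O u → D u ≠ 0
  mul : ∀ u v, Ut O u → Ut O v → Eqv p (D (u * v)) (D u * D v)
  cst : ∀ c, c ≠ 0 → Eqv p (D (ι c)) c
  stein : ∀ u v, Ut O u → Ut O v → u + v = 1 → S.h (D u) (D v) = 0

/-- `x` has the value `a` -/
def VAt (p : ℕ) (ι : L →+* E) (O : Subring E) (D : E → L) (x : E) (a : L) : Prop :=
  ∀ c, Gd ι O x c → c ≠ a → Eqv p (D (x - ι c)) (a - c)

/-- `x` has the value infinity -/
def VInf (p : ℕ) (ι : L →+* E) (O : Subring E) (D : E → L) (x : E) : Prop :=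
  ∀ c c', Gd ι O x c → Gd ι O x c' → Eqv p (D (x - ι c)) (D (x - ι c'))

/-- properties of the values of the elements of `O` -/
structure Vals (p : ℕ) (ι : L →+* E) (O : Subring E) (D : E → L) : Prop where
  alt : ∀ x ∈ O, (∃ a, VAt p ι O D x a) ∨ VInf p ι O D x
  uniq : ∀ x ∈ O, ∀ a a', VAt p ι O D x a → VAt p ι O D x a' → a = a'
  excl : ∀ x ∈ O, ∀ a, VAt p ι O D x a → ¬ VInf p ι O D x
  cst : ∀ c, VAt p ι O D (ι c) c
  add : ∀ x ∈ O, ∀ x' ∈ O, ∀ a a', VAt p ι O D x a → VAt p ι O D x' a' →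
    VAt p ι O D (x + x') (a + a')
  mul : ∀ x ∈ O, ∀ x' ∈ O, ∀ a a', VAt p ι O D x a → VAt p ι O D x' a' →
    VAt p ι O D (x * x') (a * a')
  inv : ∀ x ∈ O, VInf p ι O D x → ∀ c, Gd ι O x c → VAt p ι O D (x - ι c)⁻¹ 0

/-- valuation rings with residue field `L` that are compatible with `D` -/
structure Plc (p : ℕ) (ι : L →+* E) (O : Subring E) (D : E → L) (A : ValuationSubring E) :
    Prop where
  const : ∀ c, ι c ∈ A
  res : ∀ z ∈ A, ∃ c, A.valuation (z - ι c) < 1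
  comp : ∀ u, Ut O u → ∀ c, c ≠ 0 → A.valuation (u - ι c) < 1 → Eqv p (D u) c

end abstract

section galois

variable {k Ω L : Type*} [Field k] [Field Ω] [Algebra k Ω] [Field L] [Algebra k L]
  (φ : L →ₐ[k] algebraicClosure k Ω)

/-- the automorphisms of `k̄` fixing the image of `L` -/
noncomputable def fixGrp : Subgroup (AbsGal k Ω) := φ.fieldRange.fixingSubgroup

theorem mem_fixGrp {g : AbsGal k Ω} : g ∈ fixGrp φ ↔ ∀ a : L, g (φ a) = φ a := by
  rw [fixGrp, IntermediateField.mem_fixingSubgroup_iff]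
  constructor
  · intro h a
    exact h _ ⟨a, rfl⟩
  · rintro h _ ⟨a, rfl⟩
    exact h a

/-- every embedding of `L` is the composition of `φ` with an automorphism -/
theorem exists_extend [CharZero k] [IsAlgClosed Ω] (ψ : L →ₐ[k] algebraicClosure k Ω) :
    ∃ g : AbsGal k Ω, ∀ a : L, g (φ a) = ψ a := by
  have hacF : IsAlgClosure k (algebraicClosure k Ω) := inferInstance
  let χ : φ.fieldRange ≃ₐ[k] ψ.fieldRange :=
    (AlgEquiv.ofInjectiveField φ).symm.trans (AlgEquiv.ofInjectiveField ψ)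
  refine ⟨χ.liftNormal (algebraicClosure k Ω), fun a => ?_⟩
  have h1 := AlgEquiv.liftNormal_commutes χ (algebraicClosure k Ω)
    ((AlgEquiv.ofInjectiveField φ) a)
  have h2 : χ ((AlgEquiv.ofInjectiveField φ) a) = (AlgEquiv.ofInjectiveField ψ) a := by
    show (AlgEquiv.ofInjectiveField ψ) ((AlgEquiv.ofInjectiveField φ).symm
      ((AlgEquiv.ofInjectiveField φ) a)) = _
    rw [AlgEquiv.symm_apply_apply]
  rw [h2] at h1
  exact h1

/-- the elements fixed by `fixGrp φ` are in the image of `φ` -/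
theorem const_of_fixGrp [CharZero k] (K : Type*) [Field K] [Algebra K Ω] [IsAlgClosure K Ω]
    (κ : algebraicClosure k Ω) (h : ∀ g ∈ fixGrp φ, g κ = κ) : ∃ δ : L, φ δ = κ := by
  have hac : IsAlgClosed Ω := IsAlgClosure.isAlgClosed K
  have hacF : IsAlgClosed (algebraicClosure k Ω) := IsAlgClosure.isAlgClosed k
  have h1 : κ ∈ φ.fieldRange := by
    rw [← InfiniteGalois.fixedField_fixingSubgroup φ.fieldRange,
      IntermediateField.mem_fixedField_iff]
    exact h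
  exact h1

end galois

section sections

variable {k K Ω : Type*} [Field k] [Field K] [Field Ω] [Algebra k Ω] [Algebra K Ω]
  {N : IntermediateField K Ω} {L : Type*} [Field L] [Algebra k L]

/-- a section acts on the constants in the natural way -/
theorem IsSec.const {s : AbsGal k Ω →* (N ≃ₐ[K] N)} (hs : IsSec k K Ω N s) (g : AbsGal k Ω)
    (c : algebraicClosure k Ω) (h : (c : Ω) ∈ N) (h' : ((g c : algebraicClosure k Ω) : Ω) ∈ N) :
    s g ⟨c, h⟩ = ⟨g c, h'⟩ :=
  Subtype.ext (hs.restrict g c ⟨c, h⟩ rfl)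

/-- the stabilizers of a section are open -/
theorem IsSec.nhds [Algebra.IsAlgebraic K Ω] {s : AbsGal k Ω →* (N ≃ₐ[K] N)}
    (hs : IsSec k K Ω N s) (γ : N) : {g : AbsGal k Ω | s g γ = γ} ∈ nhds (1 : AbsGal k Ω) := by
  have h1 : IsOpen (MulAction.stabilizer (N ≃ₐ[K] N) γ : Set (N ≃ₐ[K] N)) := by
    have : Algebra.IsIntegral K N := inferInstance
    exact stabilizer_isOpen_of_isIntegral γ
  have h3 : IsOpen (s ⁻¹' (MulAction.stabilizer (N ≃ₐ[K] N) γ : Set (N ≃ₐ[K] N))) :=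
    h1.preimage hs.continuous
  refine h3.mem_nhds ?_ |> Filter.mem_of_superset <| ?_
  · show s 1 ∈ MulAction.stabilizer (N ≃ₐ[K] N) γ
    rw [map_one]; exact Subgroup.one_mem _
  · intro g hg
    exact MulAction.mem_stabilizer_iff.1 hg

/-- the elements of `N` that are fixed by `s(Gal_L)` -/
def fixF (s : AbsGal k Ω →* (N ≃ₐ[K] N)) (φ : L →ₐ[k] algebraicClosure k Ω) :
    IntermediateField K N where
  carrier := {z | ∀ g ∈ fixGrp φ, s g z = z}
  mul_mem' := fun ha hb g hg => by rw [map_mul, ha g hg, hb g hg]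
  add_mem' := fun ha hb g hg => by rw [map_add, ha g hg, hb g hg]
  algebraMap_mem' := fun r g _ => (s g).commutes r
  inv_mem' := fun z hz g hg => by rw [map_inv₀, hz g hg]

/-- the elements of `Ω` that are in `N` and fixed by `s` -/
def fixM (s : AbsGal k Ω →* (N ≃ₐ[K] N)) : IntermediateField K Ω where
  carrier := {z | ∃ h : z ∈ N, ∀ g, s g ⟨z, h⟩ = ⟨z, h⟩}
  mul_mem' := by
    rintro a b ⟨ha, ha'⟩ ⟨hb, hb'⟩
    refine ⟨mul_mem ha hb, fun g => ?_⟩
    have h : (⟨a * b, mul_mem ha hb⟩ : N) = ⟨a, ha⟩ * ⟨b, hb⟩ := rfl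
    rw [h, map_mul, ha' g, hb' g]
  add_mem' := by
    rintro a b ⟨ha, ha'⟩ ⟨hb, hb'⟩
    refine ⟨add_mem ha hb, fun g => ?_⟩
    have h : (⟨a + b, add_mem ha hb⟩ : N) = ⟨a, ha⟩ + ⟨b, hb⟩ := rfl
    rw [h, map_add, ha' g, hb' g]
  algebraMap_mem' := fun r => ⟨N.algebraMap_mem r, fun g => (s g).commutes r⟩
  inv_mem' := by
    rintro a ⟨ha, ha'⟩
    refine ⟨inv_mem ha, fun g => ?_⟩
    have h : (⟨a⁻¹, inv_mem ha⟩ : N) = (⟨a, ha⟩ : N)⁻¹ := rfl
    rw [h, map_inv₀, ha' g]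

/-- the elements of `fixF s φ` that are integral at the places where `f` has no root -/
def intO [Algebra k K] (f : k[X]) (s : AbsGal k Ω →* (N ≃ₐ[K] N))
    (φ : L →ₐ[k] algebraicClosure k Ω) : Subring (fixF s φ) where
  carrier := {z | ∀ B : ValuationSubring Ω, Rootless K f B → ((z : N) : Ω) ∈ B}
  mul_mem' := fun ha hb B hB => B.mul_mem _ _ (ha B hB) (hb B hB)
  add_mem' := fun ha hb B hB => B.add_mem _ _ (ha B hB) (hb B hB)
  neg_mem' := fun ha B hB => B.neg_mem _ (ha B hB)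
  one_mem' := fun B _ => B.one_mem
  zero_mem' := fun B _ => B.zero_mem

end sections

end Pool.Agent.Lib.MP_c385f6_ag.Semi
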