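import Mathlib
import Pool.Agent.Lib.MP_c385f6_ag.Bc.St
import Pool.Agent.Lib.MP_c385f6_ag.Semi.Base

set_option autoImplicit false

/-!
Statements of the modules of the theorem on `openExt` (blueprint MP_c385f6_semi.md in the team
store).
-/

namespace Pool.Agent.Lib.MP_c385f6_ag.Semi

open Pool.Agent.Lib.MP_c385f6_ag.Cpl Polynomial

/-! ### Part A: values -/

/-- (FN) finite nets exist -/
def StFN : Prop :=
  ∀ (p : ℕ) (_ : Fact p.Prime) (L F : Type) (_ : Field L) (_ : Field F) (S : LF p L F) (m : ℤ),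
    ∃ T : Set L, T.Finite ∧ S.Net T m

/-- (V) the values of the elements of `O` -/
def StV.{u} : Prop :=
  ∀ (p : ℕ) (_ : Fact p.Prime) (L F : Type) (_ : Field L) (_ : Field F) (S : LF p L F)
    (E : Type u) (_ : Field E) (ι : L →+* E) (O : Subring E) (D : E → L),
    Bc.Comp.{0} L S → LimD S ι O D → Vals p ι O D

/-- (Pl) existence of the valuation ring -/
def StPl.{u} : Prop :=
  ∀ (p : ℕ) (_ : Fact p.Prime) (L F : Type) (_ : Field L) (_ : Field F) (S : LF p L F)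
    (E : Type u) (_ : Field E) (ι : L →+* E) (O : Subring E) (D : E → L),
    LimD S ι O D → Vals p ι O D → ∃ A : ValuationSubring E, Plc p ι O D A

/-- (Un) uniqueness of the valuation ring -/
def StUn.{u} : Prop :=
  ∀ (p : ℕ) (_ : Fact p.Prime) (L F : Type) (_ : Field L) (_ : Field F) (S : LF p L F)
    (E : Type u) (_ : Field E) (ι : L →+* E) (O : Subring E) (D : E → L),
    LimD S ι O D → Vals p ι O D → ∀ A A' : ValuationSubring E, Plc p ι O D A → Plc p ι O D A' →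
      A = A'

/-! ### Part B: many units -/

/-- (Dep) two elements are algebraically dependent -/
def StDep.{u, v, w} : Prop :=
  ∀ (k : Type u) (K : Type v) (Ω : Type w) (_ : Field k) (_ : Field K) (_ : Field Ω)
    (_ : Algebra k K) (_ : Algebra k Ω) (_ : Algebra K Ω) (_ : IsScalarTower k K Ω)
    (_ : IsAlgClosure K Ω), Algebra.trdeg k K = 1 → ∀ z z' : Ω,
    ∃ Φ : MvPolynomial (Fin 2) k, Φ ≠ 0 ∧ MvPolynomial.aeval ![z, z'] Φ = 0

/-- (Res) residues are constants -/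
def StRes.{u, v, w} : Prop :=
  ∀ (k : Type u) (K : Type v) (Ω : Type w) (_ : Field k) (_ : Field K) (_ : Field Ω)
    (_ : Algebra k K) (_ : Algebra k Ω) (_ : Algebra K Ω) (_ : IsScalarTower k K Ω)
    (_ : IsAlgClosure K Ω), Algebra.trdeg k K = 1 → ∀ B : ValuationSubring Ω,
    (∀ c : k, algebraMap k Ω c ∈ B) → B ≠ ⊤ → ∀ z ∈ B, ∃ α : algebraicClosure k Ω,
      B.valuation (z - (α : Ω)) < 1

/-- (Mv) an automorphism that fixes the residue field of `B ∩ K` and moves `L` -/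
def StMv.{u, v, w} : Prop :=
  ∀ (k : Type u) (K : Type v) (Ω : Type w) (_ : Field k) (_ : CharZero k) (_ : Field K)
    (_ : Field Ω) (_ : Algebra k K) (_ : Algebra k Ω) (_ : Algebra K Ω) (_ : IsScalarTower k K Ω)
    (_ : IsAlgClosure K Ω) (L : Type) (_ : Field L) (_ : Algebra k L)
    (_ : FiniteDimensional k L) (_ : IsGalois k L) (φ : L →ₐ[k] algebraicClosure k Ω) (f : k[X]),
    (∃ r : L, aeval r f = 0) → ∀ B : ValuationSubring Ω, Rootless K f B →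
    ∃ (g : AbsGal k Ω) (σ : L ≃ₐ[k] L), σ ≠ 1 ∧ (∀ c : L, g (φ c) = φ (σ c)) ∧
      ∀ (α : algebraicClosure k Ω) (a : K), algebraMap K Ω a ∈ B →
        B.valuation (algebraMap K Ω a - (α : Ω)) < 1 → g α = α

/-- (Cj) if `z` has the residue `α`, a conjugate of `z` over `K` has the residue `g α` -/
def StCj.{u, v, w} : Prop :=
  ∀ (k : Type u) (K : Type v) (Ω : Type w) (_ : Field k) (_ : Field K) (_ : Field Ω)
    (_ : Algebra k K) (_ : Algebra k Ω) (_ : Algebra K Ω) (_ : IsScalarTower k K Ω)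
    (_ : IsAlgClosure K Ω) (B : ValuationSubring Ω), (∀ c : k, algebraMap k Ω c ∈ B) →
    (∀ z ∈ B, ∃ α : algebraicClosure k Ω, B.valuation (z - (α : Ω)) < 1) →
    ∀ g : AbsGal k Ω, (∀ (α : algebraicClosure k Ω) (a : K), algebraMap K Ω a ∈ B →
      B.valuation (algebraMap K Ω a - (α : Ω)) < 1 → g α = α) →
    ∀ (z : Ω) (α : algebraicClosure k Ω), B.valuation (z - (α : Ω)) < 1 →
      ∃ z' : Ω, aeval z' (minpoly K z) = 0 ∧ B.valuation (z' - (g α : Ω)) < 1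

/-- (Bad) the residues of `z` in `L` satisfy an equation -/
def StBad.{u, v, w} : Prop :=
  ∀ (k : Type u) (K : Type v) (Ω : Type w) (_ : Field k) (_ : CharZero k) (_ : Field K)
    (_ : Field Ω) (_ : Algebra k K) (_ : Algebra k Ω) (_ : Algebra K Ω) (_ : IsScalarTower k K Ω)
    (_ : IsAlgClosure K Ω), Algebra.trdeg k K = 1 → ∀ (L : Type) (_ : Field L) (_ : Algebra k L)
    (_ : FiniteDimensional k L) (_ : IsGalois k L) (φ : L →ₐ[k] algebraicClosure k Ω) (f : k[X]),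
    (∃ r : L, aeval r f = 0) → ∀ z : Ω, ∃ Φ : MvPolynomial (Fin 2) k, Φ ≠ 0 ∧
    ∀ B : ValuationSubring Ω, Rootless K f B → B ≠ ⊤ → ∀ c : L,
      B.valuation (z - (φ c : Ω)) < 1 →
        ∃ σ : L ≃ₐ[k] L, σ ≠ 1 ∧ MvPolynomial.aeval ![c, σ c] Φ = 0

/-- (Den) these equations do not hold everywhere on an open set -/
def StDen.{u} : Prop :=
  ∀ (p : ℕ) (_ : Fact p.Prime) (k : Type u) (L F : Type) (_ : Field k) (_ : CharZero k)
    (_ : Field L) (_ : Field F) (_ : Algebra k L) (_ : FiniteDimensional k L) (_ : IsGalois k L)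
    (S : LF p L F), 0 < S.v (p : L) → ∀ Φ : MvPolynomial (Fin 2) k, Φ ≠ 0 →
    ∀ Z : Set L, Z.Finite → ∀ (c : L) (n : ℤ), ∃ c', S.Gz n (c' - c) ∧ c' ∉ Z ∧
      ∀ σ : L ≃ₐ[k] L, σ ≠ 1 → MvPolynomial.aeval ![c', σ c'] Φ ≠ 0

/-- (Dns) many elements of `L` are not residues of given elements -/
def StDns.{u, v, w} : Prop :=
  ∀ (p : ℕ) (_ : Fact p.Prime) (k : Type u) (K : Type v) (Ω : Type w) (_ : Field k)
    (_ : CharZero k) (_ : Field K) (_ : Field Ω) (_ : Algebra k K) (_ : Algebra k Ω)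
    (_ : Algebra K Ω) (_ : IsScalarTower k K Ω) (_ : IsAlgClosure K Ω), Algebra.trdeg k K = 1 →
    ∀ (L F : Type) (_ : Field L) (_ : Field F) (_ : Algebra k L) (_ : FiniteDimensional k L)
    (_ : IsGalois k L) (S : LF p L F) (φ : L →ₐ[k] algebraicClosure k Ω) (f : k[X]),
    0 < S.v (p : L) → (∃ r : L, aeval r f = 0) → ∀ X : Set Ω, X.Finite → ∀ (c : L) (n : ℤ),
    ∃ c', S.Gz n (c' - c) ∧ ∀ x ∈ X, x ≠ (φ c' : Ω) ∧ ∀ B : ValuationSubring Ω,
      Rootless K f B → ¬ B.valuation (x - (φ c' : Ω)) < 1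

/-! ### Part C: the classes given by a section -/

/-- (ExL) the field `L` -/
def StExL.{u} : Prop :=
  ∀ (p : ℕ) (_ : Fact p.Prime) (k : Type u) (_ : Field k) (_ : Algebra ℚ_[p] k)
    (_ : FiniteDimensional ℚ_[p] k) (f : k[X]), f.natDegree ≠ 0 →
    ∃ (L : Type) (_ : Field L) (_ : Algebra k L) (_ : Algebra ℚ_[p] L)
      (_ : IsScalarTower ℚ_[p] k L), FiniteDimensional k L ∧ FiniteDimensional ℚ_[p] L ∧
      IsGalois k L ∧ (∃ ζ : L, IsPrimitiveRoot ζ p) ∧ ∃ r : L, aeval r f = 0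

/-- (N) properties of `openExt` -/
def StN.{u, v, w} : Prop :=
  ∀ (k : Type u) (K : Type v) (Ω : Type w) (_ : Field k) (_ : CharZero k) (_ : Field K)
    (_ : Field Ω) (_ : Algebra k K) (_ : Algebra k Ω) (_ : Algebra K Ω) (_ : IsScalarTower k K Ω)
    (_ : IsAlgClosure K Ω) (f : k[X]),
    Normal K (openExt k K Ω f) ∧ maxUnramified k K Ω ≤ openExt k K Ω f ∧
    (∀ c : algebraicClosure k Ω, (c : Ω) ∈ openExt k K Ω f) ∧
    (∀ l : ℕ, l ≠ 0 → ∀ y : Ω, y ^ l ∈ openExt k K Ω f →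
      (∀ B : ValuationSubring Ω, Rootless K f B → B.valuation (y ^ l) = 1) →
      y ∈ openExt k K Ω f) ∧
    (∀ σ : Ω ≃ₐ[K] Ω, ∀ B B' : ValuationSubring Ω, (∀ z, z ∈ B' ↔ σ z ∈ B) → Rootless K f B →
      Rootless K f B') ∧
    ((∀ c : k, f.eval c ≠ 0) → ∀ V : ValuationSubring Ω,
      IsRationalPlace k K (V.comap (algebraMap K Ω)) →
      Rootless K f V ∧ ∀ σ ∈ inertia K V, ∀ z ∈ openExt k K Ω f, σ z = z)

/-- (Kum) Kummer theory for the elements fixed by a section -/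
def StKum.{u, v, w} : Prop :=
  ∀ (k : Type u) (K : Type v) (Ω : Type w) (_ : Field k) (_ : CharZero k) (_ : Field K)
    (_ : Field Ω) (_ : Algebra k K) (_ : Algebra k Ω) (_ : Algebra K Ω) (_ : IsScalarTower k K Ω)
    (_ : IsAlgClosure K Ω) (N : IntermediateField K Ω),
    (∀ c : algebraicClosure k Ω, (c : Ω) ∈ N) → ∀ s : AbsGal k Ω →* (N ≃ₐ[K] N),
    IsSec k K Ω N s → ∀ (L : Type) (_ : Field L) (_ : Algebra k L) (_ : FiniteDimensional k L)
    (φ : L →ₐ[k] algebraicClosure k Ω),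
    (∀ z : N, (∀ g ∈ fixGrp φ, s g z = z) → (z : Ω) ∈ algebraicClosure k Ω →
      ∃ c : L, (z : Ω) = (φ c : Ω)) ∧
    ∀ n : ℕ, n ≠ 0 → ∀ ρ : N, ρ ≠ 0 → (∀ g ∈ fixGrp φ, s g (ρ ^ n) = ρ ^ n) →
      ∃ (δ : L) (z : N), δ ≠ 0 ∧ z ≠ 0 ∧ (∀ g ∈ fixGrp φ, s g z = z) ∧
        (ρ : Ω) ^ n = (φ δ : Ω) * (z : Ω) ^ n

/-- (Stb) the Steinberg relation -/
def StStb.{u, v, w} : Prop :=
  ∀ (p : ℕ) (_ : Fact p.Prime) (k : Type u) (K : Type v) (Ω : Type w) (_ : Field k)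
    (_ : CharZero k) (_ : Field K) (_ : Field Ω) (_ : Algebra k K) (_ : Algebra k Ω)
    (_ : Algebra K Ω) (_ : IsScalarTower k K Ω) (_ : IsAlgClosure K Ω)
    (N : IntermediateField K Ω), (∀ c : algebraicClosure k Ω, (c : Ω) ∈ N) →
    ∀ s : AbsGal k Ω →* (N ≃ₐ[K] N), IsSec k K Ω N s → ∀ (L : Type) (_ : Field L)
    (_ : Algebra k L) (_ : FiniteDimensional k L) (φ : L →ₐ[k] algebraicClosure k Ω) (ζ : L),
    IsPrimitiveRoot ζ p → ∀ (a b : L) (Y Z : N), a ≠ 0 → b ≠ 0 → Z ≠ 0 →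
    (∀ g ∈ fixGrp φ, s g Y = Y) → (∀ g ∈ fixGrp φ, s g Z = Z) →
    (φ a : Ω) * (Y : Ω) ^ p + (φ b : Ω) * (Z : Ω) ^ p = 1 →
    (∀ α : algebraicClosure k Ω, α ^ p = φ a → ∃ ρ ∈ N, ρ ^ p = 1 - (α : Ω) * (Y : Ω)) →
    (∃ x : L, a = x ^ p) ∨ NR p a b

/-- (D) the classes given by a section -/
def StD.{u, v, w} : Prop :=
  ∀ (p : ℕ) (_ : Fact p.Prime) (k : Type u) (K : Type v) (Ω : Type w) (_ : Field k)
    (_ : CharZero k) (_ : Field K) (_ : Field Ω) (_ : Algebra k K) (_ : Algebra k Ω)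
    (_ : Algebra K Ω) (_ : IsScalarTower k K Ω) (_ : IsAlgClosure K Ω), Algebra.trdeg k K = 1 →
    ∀ (L F : Type) (_ : Field L) (_ : Field F) (_ : Algebra k L) (_ : FiniteDimensional k L)
    (_ : IsGalois k L) (S : LF p L F) (ζ : L) (φ : L →ₐ[k] algebraicClosure k Ω) (f : k[X]),
    0 < S.v (p : L) → IsPrimitiveRoot ζ p → (∃ r : L, aeval r f = 0) →
    (∀ x y : L, x ≠ 0 → y ≠ 0 → NR p x y → S.h x y = 0) →
    ∀ s : AbsGal k Ω →* (openExt k K Ω f ≃ₐ[K] openExt k K Ω f),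
    IsSec k K Ω (openExt k K Ω f) s →
    ∃ (ι : L →+* fixF s φ) (D : fixF s φ → L),
      (∀ c : L, ((ι c : openExt k K Ω f) : Ω) = (φ c : Ω)) ∧ LimD S ι (intO f s φ) D ∧
      ∀ u, Ut (intO f s φ) u → ∃ Y : fixF s φ, u = ι (D u) * Y ^ p

/-! ### Part D: rational places -/

/-- (Rat) descent of the valuation ring to the elements fixed by the section -/
def StRat.{u, v, w} : Prop :=
  ∀ (p : ℕ) (_ : Fact p.Prime) (k : Type u) (K : Type v) (Ω : Type w) (_ : Field k)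
    (_ : CharZero k) (_ : Field K) (_ : Field Ω) (_ : Algebra k K) (_ : Algebra k Ω)
    (_ : Algebra K Ω) (_ : IsScalarTower k K Ω) (_ : IsAlgClosure K Ω), Algebra.trdeg k K = 1 →
    ∀ (L : Type) (_ : Field L) (_ : Algebra k L) (_ : FiniteDimensional k L)
    (_ : IsGalois k L) (φ : L →ₐ[k] algebraicClosure k Ω) (f : k[X])
    (s : AbsGal k Ω →* (openExt k K Ω f ≃ₐ[K] openExt k K Ω f)),
    IsSec k K Ω (openExt k K Ω f) s →
    ∀ (ι : L →+* fixF s φ) (D : fixF s φ → L),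
    (∀ c : L, ((ι c : openExt k K Ω f) : Ω) = (φ c : Ω)) →
    (∀ u, Ut (intO f s φ) u → D u ≠ 0 ∧ ∃ Y : fixF s φ, u = ι (D u) * Y ^ p) →
    (∀ A A', Plc p ι (intO f s φ) D A → Plc p ι (intO f s φ) D A' → A = A') →
    ∀ A, Plc p ι (intO f s φ) D A →
    ∃ A' : ValuationSubring (fixM s), IsRationalPlace k (fixM s) A'

/-- (Ext) a rational place of the field fixed by a section extends to a place fixed by the
section -/
def StExt.{u, v, w} : Prop :=
  ∀ (k : Type u) (K : Type v) (Ω : Type w) (_ : Field k) (_ : CharZero k) (_ : Field K)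
    (_ : Field Ω) (_ : Algebra k K) (_ : Algebra k Ω) (_ : Algebra K Ω) (_ : IsScalarTower k K Ω)
    (_ : IsAlgClosure K Ω) (N : IntermediateField K Ω), Normal K N →
    (∀ c : algebraicClosure k Ω, (c : Ω) ∈ N) → ∀ s : AbsGal k Ω →* (N ≃ₐ[K] N),
    IsSec k K Ω N s → ∀ A : ValuationSubring (fixM s), IsRationalPlace k (fixM s) A →
    ∃ B : ValuationSubring N,
      (∀ (z : N) (h : (z : Ω) ∈ fixM s), z ∈ B ↔ (⟨z, h⟩ : fixM s) ∈ A) ∧
      ∀ g, ∀ z ∈ B, s g z ∈ B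

/-- (Cmp) places fixed by a section are compatible with the classes -/
def StCmp.{u, v, w} : Prop :=
  ∀ (p : ℕ) (_ : Fact p.Prime) (k : Type u) (K : Type v) (Ω : Type w) (_ : Field k)
    (_ : CharZero k) (_ : Field K) (_ : Field Ω) (_ : Algebra k K) (_ : Algebra k Ω)
    (_ : Algebra K Ω) (_ : IsScalarTower k K Ω) (_ : IsAlgClosure K Ω), Algebra.trdeg k K = 1 →
    ∀ (L : Type) (_ : Field L) (_ : Algebra k L) (_ : FiniteDimensional k L)
    (φ : L →ₐ[k] algebraicClosure k Ω) (f : k[X]), (∀ c : k, f.eval c ≠ 0) →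
    ∀ s : AbsGal k Ω →* (openExt k K Ω f ≃ₐ[K] openExt k K Ω f),
    IsSec k K Ω (openExt k K Ω f) s →
    ∀ (ι : L →+* fixF s φ) (D : fixF s φ → L),
    (∀ c : L, ((ι c : openExt k K Ω f) : Ω) = (φ c : Ω)) →
    (∀ u, Ut (intO f s φ) u → D u ≠ 0 ∧ ∃ Y : fixF s φ, u = ι (D u) * Y ^ p) →
    ∀ B : ValuationSubring (openExt k K Ω f),
    IsRationalPlace k K (B.comap (algebraMap K (openExt k K Ω f))) →
    (∀ g, ∀ z ∈ B, s g z ∈ B) →
    Plc p ι (intO f s φ) D (B.comap (algebraMap (fixF s φ) (openExt k K Ω f)))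

/-- (Tr) extension of valuation rings and transitivity of the Galois group -/
def StTr.{v, w} : Prop :=
  ∀ (K : Type v) (Ω : Type w) (_ : Field K) (_ : CharZero K) (_ : Field Ω) (_ : Algebra K Ω)
    (_ : IsAlgClosure K Ω),
    (∀ A : ValuationSubring K, ∃ V : ValuationSubring Ω, V.comap (algebraMap K Ω) = A) ∧
    ∀ V V' : ValuationSubring Ω, V.comap (algebraMap K Ω) = V'.comap (algebraMap K Ω) →
      ∃ σ : Ω ≃ₐ[K] Ω, ∀ z, z ∈ V ↔ σ z ∈ V'

/-- (Sec) a rational place gives a section -/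
def StSct.{u, v, w} : Prop :=
  ∀ (k : Type u) (K : Type v) (Ω : Type w) (_ : Field k) (_ : CharZero k) (_ : Field K)
    (_ : Field Ω) (_ : Algebra k K) (_ : Algebra k Ω) (_ : Algebra K Ω) (_ : IsScalarTower k K Ω)
    (_ : IsAlgClosure K Ω) (N : IntermediateField K Ω), Normal K N →
    (∀ c : algebraicClosure k Ω, (c : Ω) ∈ N) → ∀ A : ValuationSubring K,
    IsRationalPlace k K A →
    (∀ V : ValuationSubring Ω, V.comap (algebraMap K Ω) = A → ∀ σ ∈ inertia K V, ∀ z ∈ N,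
      σ z = z) →
    ∃ s : AbsGal k Ω →* (N ≃ₐ[K] N), IsSec k K Ω N s ∧ SecAt s A

/-- (Cnj) sections at the same rational place are conjugate -/
def StCnj.{u, v, w} : Prop :=
  ∀ (k : Type u) (K : Type v) (Ω : Type w) (_ : Field k) (_ : CharZero k) (_ : Field K)
    (_ : Field Ω) (_ : Algebra k K) (_ : Algebra k Ω) (_ : Algebra K Ω) (_ : IsScalarTower k K Ω)
    (_ : IsAlgClosure K Ω), Algebra.trdeg k K = 1 → ∀ N : IntermediateField K Ω, Normal K N →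
    (∀ c : algebraicClosure k Ω, (c : Ω) ∈ N) → ∀ A : ValuationSubring K,
    IsRationalPlace k K A →
    (∀ V : ValuationSubring Ω, V.comap (algebraMap K Ω) = A → ∀ σ ∈ inertia K V, ∀ z ∈ N,
      σ z = z) →
    ∀ s s' : AbsGal k Ω →* (N ≃ₐ[K] N), IsSec k K Ω N s → IsSec k K Ω N s' → SecAt s A →
    SecAt s' A → ∃ γ : N ≃ₐ[K] N,
      (∀ (c : algebraicClosure k Ω) (z : N), (z : Ω) = c → γ z = z) ∧
      ∀ g, s' g = γ * s g * γ⁻¹

end Pool.Agent.Lib.MP_c385f6_ag.Semi
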