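import Mathlib
import Pool.Agent.Lib.MP_c385f6_ag.Semi.Stmts

set_option autoImplicit false

/-!
(Bad) the residues of `z` in `L` satisfy an equation.
-/

namespace Pool.Agent.Lib.MP_c385f6_ag.Semi

open Pool.Agent.Lib.MP_c385f6_ag.Cpl Polynomial

namespace BadAux

/-- the values of a polynomial at congruent arguments are congruent -/
theorem aeval_sub {k Ω : Type*} [Field k] [Field Ω] [Algebra k Ω] {B : ValuationSubring Ω}
    (hB : ∀ c : k, algebraMap k Ω c ∈ B) {a b : Fin 2 → Ω} (ha : ∀ i, a i ∈ B)
    (hb : ∀ i, b i ∈ B) (hab : ∀ i, B.valuation (a i - b i) < 1) (Φ : MvPolynomial (Fin 2) k) :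
    MvPolynomial.aeval a Φ ∈ B ∧ MvPolynomial.aeval b Φ ∈ B ∧
      B.valuation (MvPolynomial.aeval a Φ - MvPolynomial.aeval b Φ) < 1 := by
  induction Φ using MvPolynomial.induction_on with
  | C c =>
    rw [MvPolynomial.aeval_C, MvPolynomial.aeval_C]
    refine ⟨hB c, hB c, ?_⟩
    rw [sub_self, map_zero]
    exact zero_lt_one
  | add P Q hP hQ =>
    rw [map_add, map_add]
    refine ⟨B.add_mem _ _ hP.1 hQ.1, B.add_mem _ _ hP.2.1 hQ.2.1, ?_⟩
    rw [add_sub_add_comm]
    exact Valuation.map_add_lt _ hP.2.2 hQ.2.2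
  | mul_X P i hP =>
    rw [map_mul, map_mul, MvPolynomial.aeval_X, MvPolynomial.aeval_X]
    refine ⟨B.mul_mem _ _ hP.1 (ha i), B.mul_mem _ _ hP.2.1 (hb i), ?_⟩
    have e : MvPolynomial.aeval a P * a i - MvPolynomial.aeval b P * b i =
        (MvPolynomial.aeval a P - MvPolynomial.aeval b P) * a i +
          MvPolynomial.aeval b P * (a i - b i) := by ring
    rw [e]
    refine Valuation.map_add_lt _ ?_ ?_
    · rw [map_mul]
      exact lt_of_le_of_lt (mul_le_of_le_one_right' ((B.valuation_le_one_iff _).2 (ha i))) hP.2.2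
    · rw [map_mul]
      exact lt_of_le_of_lt (mul_le_of_le_one_left' ((B.valuation_le_one_iff _).2 hP.2.1)) (hab i)

theorem mem_of_sub {Ω : Type*} [Field Ω] {B : ValuationSubring Ω} {x y : Ω} (hy : y ∈ B)
    (h : B.valuation (x - y) < 1) : x ∈ B := by
  have h1 : x - y ∈ B := (B.valuation_le_one_iff _).1 h.le
  have h2 := B.add_mem _ _ h1 hy
  rwa [sub_add_cancel] at h2

end BadAux

open BadAux

theorem stBad.{u, v, w} (h1 : StDep.{u, v, w}) (h2 : StRes.{u, v, w}) (h3 : StMv.{u, v, w})
    (h4 : StCj.{u, v, w}) : StBad.{u, v, w} := by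
  intro k K Ω _ _ _ _ _ _ _ _ _ htr L _ _ _ _ φ f hr z
  classical
  choose P hP0 hP using h1 k K Ω inferInstance inferInstance inferInstance inferInstance
    inferInstance inferInstance inferInstance inferInstance htr z
  refine ⟨∏ z' ∈ ((minpoly K z).aroots Ω).toFinset, P z',
    Finset.prod_ne_zero_iff.2 fun z' _ => hP0 z', ?_⟩
  intro B hB hBt c hc
  obtain ⟨g, σ, hσ, hg, hfix⟩ := h3 k K Ω inferInstance inferInstance inferInstance inferInstance
    inferInstance inferInstance inferInstance inferInstance inferInstance L inferInstance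
    inferInstance inferInstance inferInstance φ f hr B hB
  have hres := h2 k K Ω inferInstance inferInstance inferInstance inferInstance inferInstance
    inferInstance inferInstance inferInstance htr B hB.1 hBt
  obtain ⟨z', hz', hzv⟩ := h4 k K Ω inferInstance inferInstance inferInstance inferInstance
    inferInstance inferInstance inferInstance inferInstance B hB.1 hres g hfix z (φ c) hc
  refine ⟨σ, hσ, ?_⟩
  rw [map_prod]
  have hint : IsIntegral K z :=
    (Algebra.IsAlgebraic.isAlgebraic (R := K) z).isIntegral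
  refine Finset.prod_eq_zero (i := z') ?_ ?_
  · rw [Multiset.mem_toFinset, mem_aroots]
    exact ⟨minpoly.ne_zero hint, hz'⟩
  · have hmem : ∀ x : L, ((φ x : algebraicClosure k Ω) : Ω) ∈ B := fun x =>
      mem_of_algebraic hB.1 (φ x).2
    rw [hg c] at hzv
    have hcong := aeval_sub (B := B) hB.1 (a := ![z, z'])
      (b := ![((φ c : algebraicClosure k Ω) : Ω), ((φ (σ c) : algebraicClosure k Ω) : Ω)])
      (by
        intro i
        fin_cases i
        · exact mem_of_sub (hmem c) hc
        · exact mem_of_sub (hmem _) hzv)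
      (by
        intro i
        fin_cases i
        · exact hmem c
        · exact hmem _)
      (by
        intro i
        fin_cases i
        · exact hc
        · exact hzv) (P z')
    rw [hP z'] at hcong
    have e : MvPolynomial.aeval ![((φ c : algebraicClosure k Ω) : Ω),
        ((φ (σ c) : algebraicClosure k Ω) : Ω)] (P z') =
        ((φ (MvPolynomial.aeval ![c, σ c] (P z')) : algebraicClosure k Ω) : Ω) := by
      have e1 := MvPolynomial.comp_aeval_apply (f := ![c, σ c])
        (((algebraicClosure k Ω).val).comp φ) (P z')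
      have e2 : (fun i => (((algebraicClosure k Ω).val).comp φ) (![c, σ c] i)) =
          ![((φ c : algebraicClosure k Ω) : Ω), ((φ (σ c) : algebraicClosure k Ω) : Ω)] := by
        funext i
        fin_cases i <;> rfl
      rw [← e2]
      exact e1.symm
    rw [e, zero_sub, Valuation.map_neg] at hcong
    by_contra h0
    have h5 : ((φ (MvPolynomial.aeval ![c, σ c] (P z')) : algebraicClosure k Ω) : Ω) ≠ 0 := by
      intro h6
      apply h0
      have h7 : φ (MvPolynomial.aeval ![c, σ c] (P z')) = 0 := Subtype.ext h6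
      exact (map_eq_zero φ).1 h7
    have h8 := valuation_eq_one hB.1 (φ (MvPolynomial.aeval ![c, σ c] (P z'))).2 h5
    rw [h8] at hcong
    exact lt_irrefl _ hcong.2.2

end Pool.Agent.Lib.MP_c385f6_ag.Semi
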