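import Mathlib
import Pool.Agent.Lib.MP_c385f6_ag.Semi.Stmts

set_option autoImplicit false

/-!
(Cmp) Places fixed by a section are compatible with the classes.
-/

namespace Pool.Agent.Lib.MP_c385f6_ag.Semi

open Pool.Agent.Lib.MP_c385f6_ag.Cpl Polynomial

namespace CmpAux

theorem lt_one_iff {E : Type*} [Field E] (V : ValuationSubring E) (u : E) :
    V.valuation u < 1 ↔ u = 0 ∨ u⁻¹ ∉ V := by
  by_cases hu : u = 0
  · simp [hu]
  · rw [← V.valuation_le_one_iff, map_inv₀, inv_le_one₀, not_le]
    · simp [hu]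
    · exact zero_lt_iff.2 ((Valuation.ne_zero_iff _).2 hu)

theorem comap_lt_one {E E' : Type*} [Field E] [Field E'] (V : ValuationSubring E')
    (f : E →+* E') (x : E) : (V.comap f).valuation x < 1 ↔ V.valuation (f x) < 1 := by
  rw [lt_one_iff, lt_one_iff, ValuationSubring.mem_comap, map_inv₀, map_eq_zero]

theorem pow_sub_lt_one {E : Type*} [Field E] (V : ValuationSubring E) {x y : E} (hx : x ∈ V)
    (hy : y ∈ V) (h : V.valuation (x - y) < 1) (n : ℕ) : V.valuation (x ^ n - y ^ n) < 1 := by
  rw [← geom_sum₂_mul, map_mul]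
  have h1 : V.valuation (∑ i ∈ Finset.range n, x ^ i * y ^ (n - 1 - i)) ≤ 1 :=
    (V.valuation_le_one_iff _).2
      (sum_mem fun i _ => V.mul_mem _ _ (pow_mem hx _) (pow_mem hy _))
  exact (mul_le_of_le_one_left' h1).trans_lt h

end CmpAux

open CmpAux

theorem stCmp.{u, v, w} (h1 : StN.{u, v, w}) (h2 : StRes.{u, v, w}) (h3 : StTr.{w, w}) :
    StCmp.{u, v, w} := by
  intro p hp k K Ω _ _ _ _ _ _ _ _ _ htr L _ _ _ φ f hf s hs ι D hι hD B hBrat hB
  obtain ⟨hnorm, -, hcN, -, -, hrat⟩ := h1 k K Ω inferInstance inferInstance inferInstance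
    inferInstance inferInstance inferInstance inferInstance inferInstance inferInstance f
  have hcK : CharZero K := charZero_of_injective_algebraMap (algebraMap k K).injective
  have hcN' : CharZero (openExt k K Ω f) :=
    charZero_of_injective_algebraMap (algebraMap K (openExt k K Ω f)).injective
  have hacl : IsAlgClosed Ω := IsAlgClosure.isAlgClosed K
  have halgK : Algebra.IsAlgebraic K Ω := IsAlgClosure.isAlgebraic
  have hN' : IsAlgClosure (openExt k K Ω f) Ω :=
    ⟨hacl, Algebra.IsAlgebraic.tower_top (K := K) (openExt k K Ω f)⟩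
  obtain ⟨V, hV⟩ := (h3 (openExt k K Ω f) Ω inferInstance hcN' inferInstance inferInstance hN').1 B
  have hVm : ∀ z : openExt k K Ω f, (z : Ω) ∈ V ↔ z ∈ B := fun z => by rw [← hV]; rfl
  have hVK : V.comap (algebraMap K Ω) = B.comap (algebraMap K (openExt k K Ω f)) := by
    ext z
    rw [ValuationSubring.mem_comap, ValuationSubring.mem_comap, ← hVm]
    rfl
  have hroot : Rootless K f V := (hrat hf V (by rw [hVK]; exact hBrat)).1
  have hkV : ∀ c : k, algebraMap k Ω c ∈ V := hroot.1
  have hVtop : V ≠ ⊤ := by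
    intro h
    apply hBrat.ne_top
    rw [← hVK, h]
    ext z
    simp
  -- valuations below `V`
  have hlt : ∀ z : fixF s φ,
      (B.comap (algebraMap (fixF s φ) (openExt k K Ω f))).valuation z < 1 ↔
        V.valuation ((z : openExt k K Ω f) : Ω) < 1 := by
    intro z
    rw [comap_lt_one, ← hV, comap_lt_one]
    rfl
  have hmem : ∀ z : fixF s φ, z ∈ B.comap (algebraMap (fixF s φ) (openExt k K Ω f)) ↔
      ((z : openExt k K Ω f) : Ω) ∈ V := by
    intro z
    rw [ValuationSubring.mem_comap, hVm]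
    rfl
  have hconst : ∀ α : algebraicClosure k Ω, V.valuation (α : Ω) < 1 → α = 0 := by
    intro α hα
    by_contra h0
    have h := valuation_eq_one hkV α.2 (fun h => h0 (Subtype.ext h))
    rw [h] at hα
    exact lt_irrefl _ hα
  -- the section preserves `V`
  have hBi : ∀ g (z : openExt k K Ω f), z ∈ B ↔ s g z ∈ B := by
    intro g z
    refine ⟨hB g z, fun h => ?_⟩
    have h' := hB g⁻¹ _ h
    rw [map_inv] at h'
    have h'' : (s g)⁻¹ (s g z) = z := (s g).symm_apply_apply z
    rwa [h''] at h'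
  have hBlt : ∀ g (z : openExt k K Ω f), V.valuation (z : Ω) < 1 →
      V.valuation ((s g z : openExt k K Ω f) : Ω) < 1 := by
    intro g z hz
    rw [lt_one_iff] at hz ⊢
    rcases hz with hz | hz
    · left
      have hz' : z = 0 := Subtype.ext hz
      rw [hz', map_zero]
      rfl
    · right
      intro h
      apply hz
      have e1 : ((s g z : openExt k K Ω f) : Ω)⁻¹ =
          ((s g z⁻¹ : openExt k K Ω f) : Ω) := by
        rw [map_inv₀]
        rfl
      have e2 : (z : Ω)⁻¹ = ((z⁻¹ : openExt k K Ω f) : Ω) := rfl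
      rw [e1, hVm, ← hBi, ← hVm] at h
      rw [e2]
      exact h
  have hres : ∀ z : fixF s φ, ((z : openExt k K Ω f) : Ω) ∈ V →
      ∃ c, V.valuation (((z - ι c : fixF s φ) : openExt k K Ω f) : Ω) < 1 := by
    intro z hz
    obtain ⟨α, hα⟩ := h2 k K Ω inferInstance inferInstance inferInstance inferInstance
      inferInstance inferInstance inferInstance inferInstance htr V hkV hVtop _ hz
    have hfix : ∀ g ∈ fixGrp φ, g α = α := by
      intro g hg
      have e1 := hBlt g ((z : openExt k K Ω f) - ⟨α, hcN α⟩) hα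
      have e2 : s g ((z : openExt k K Ω f) - ⟨α, hcN α⟩) =
          (z : openExt k K Ω f) - ⟨g α, hcN (g α)⟩ := by
        rw [map_sub, z.2 g hg, hs.const g α (hcN α) (hcN (g α))]
      rw [e2] at e1
      have e3 : V.valuation (((z : openExt k K Ω f) : Ω) - (g α : algebraicClosure k Ω)) < 1 := e1
      have e4 : V.valuation (((g α - α : algebraicClosure k Ω)) : Ω) < 1 := by
        have e5 : ((g α - α : algebraicClosure k Ω) : Ω) =
            (((z : openExt k K Ω f) : Ω) - (α : Ω)) -
              (((z : openExt k K Ω f) : Ω) - (g α : algebraicClosure k Ω)) := by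
          have e6 : ((g α - α : algebraicClosure k Ω) : Ω) =
            ((g α : algebraicClosure k Ω) : Ω) - (α : Ω) := rfl
          rw [e6]
          ring
        rw [e5]
        exact (Valuation.map_sub _ _ _).trans_lt (max_lt hα e3)
      exact sub_eq_zero.1 (hconst _ e4)
    obtain ⟨δ, hδ⟩ := const_of_fixGrp φ K α hfix
    refine ⟨δ, ?_⟩
    have e7 : (((z - ι δ : fixF s φ) : openExt k K Ω f) : Ω) =
        ((z : openExt k K Ω f) : Ω) - (α : Ω) := by
      have e8 : (((z - ι δ : fixF s φ) : openExt k K Ω f) : Ω) =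
        ((z : openExt k K Ω f) : Ω) - ((ι δ : openExt k K Ω f) : Ω) := rfl
      rw [e8, hι, hδ]
    rw [e7]
    exact hα
  have hιV : ∀ c, (((ι c : fixF s φ) : openExt k K Ω f) : Ω) ∈ V := by
    intro c
    rw [hι]
    exact mem_of_algebraic hkV (φ c).2
  have hι1 : ∀ c, c ≠ 0 → V.valuation (((ι c : fixF s φ) : openExt k K Ω f) : Ω) = 1 := by
    intro c hc
    rw [hι]
    refine valuation_eq_one hkV (φ c).2 fun h => ?_
    have h' : φ c = 0 := Subtype.ext h
    exact hc ((map_eq_zero φ).1 h')
  have hι0 : ∀ c, V.valuation (((ι c : fixF s φ) : openExt k K Ω f) : Ω) < 1 → c = 0 := by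
    intro c hc
    by_contra h0
    rw [hι1 c h0] at hc
    exact lt_irrefl _ hc
  refine ⟨fun c => ?_, fun z hz => ?_, fun u hu c hc hlt' => ?_⟩
  · rw [hmem]
    exact hιV c
  · rw [hmem] at hz
    obtain ⟨c, hc⟩ := hres z hz
    exact ⟨c, (hlt _).2 hc⟩
  · rw [hlt] at hlt'
    obtain ⟨hd, Y, hY⟩ := hD u hu
    have hp0 : p ≠ 0 := hp.out.ne_zero
    have hsub : ∀ x y : fixF s φ, (((x - y : fixF s φ) : openExt k K Ω f) : Ω) =
        ((x : openExt k K Ω f) : Ω) - ((y : openExt k K Ω f) : Ω) := fun x y => rfl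
    have hmul : ∀ x y : fixF s φ, (((x * y : fixF s φ) : openExt k K Ω f) : Ω) =
        ((x : openExt k K Ω f) : Ω) * ((y : openExt k K Ω f) : Ω) := fun x y => rfl
    have hpow : ∀ (x : fixF s φ) (n : ℕ), (((x ^ n : fixF s φ) : openExt k K Ω f) : Ω) =
        ((x : openExt k K Ω f) : Ω) ^ n := fun x n => rfl
    have hu1 : V.valuation ((u : openExt k K Ω f) : Ω) = 1 := by
      rw [hsub] at hlt'
      have e1 : V.valuation ((u : openExt k K Ω f) : Ω) =
          V.valuation (((ι c : fixF s φ) : openExt k K Ω f) : Ω) := by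
        have e2 : V.valuation (((u : openExt k K Ω f) : Ω) -
            (((ι c : fixF s φ) : openExt k K Ω f) : Ω)) <
            V.valuation (((ι c : fixF s φ) : openExt k K Ω f) : Ω) := by
          rw [hι1 c hc]
          exact hlt'
        have e3 := Valuation.map_add_eq_of_lt_left V.valuation e2
        rw [add_sub_cancel] at e3
        exact e3
      rw [e1, hι1 c hc]
    have hY1 : V.valuation ((Y : openExt k K Ω f) : Ω) = 1 := by
      rw [hY, hmul, hpow, map_mul, map_pow, hι1 _ hd, one_mul] at hu1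
      exact (pow_eq_one_iff_left hp0).1 hu1
    have hYV : ((Y : openExt k K Ω f) : Ω) ∈ V := (V.valuation_le_one_iff _).1 hY1.le
    obtain ⟨y, hy⟩ := hres Y hYV
    rw [hsub] at hy
    have hy0 : y ≠ 0 := by
      rintro rfl
      rw [map_zero] at hy
      have e1 : (((0 : fixF s φ) : openExt k K Ω f) : Ω) = 0 := rfl
      rw [e1, sub_zero, hY1] at hy
      exact lt_irrefl _ hy
    have e1 := pow_sub_lt_one V hYV (hιV y) hy p
    have e2 : V.valuation (((u - ι (D u * y ^ p) : fixF s φ) : openExt k K Ω f) : Ω) < 1 := by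
      have e3 : (((u - ι (D u * y ^ p) : fixF s φ) : openExt k K Ω f) : Ω) =
          ((ι (D u) : fixF s φ) : Ω) * (((Y : openExt k K Ω f) : Ω) ^ p -
            (((ι y : fixF s φ) : openExt k K Ω f) : Ω) ^ p) := by
        have e4 : u - ι (D u * y ^ p) = ι (D u) * (Y ^ p - ι y ^ p) := by
          rw [map_mul, map_pow, mul_sub, ← hY]
        rw [e4]
        rfl
      rw [e3, map_mul, hι1 _ hd, one_mul]
      exact e1
    have e5 : c - D u * y ^ p = 0 := by
      apply hι0
      have e6 : ι (c - D u * y ^ p) = (u - ι (D u * y ^ p)) - (u - ι c) := by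
        rw [map_sub]
        ring
      rw [e6, hsub (u - ι (D u * y ^ p))]
      exact (Valuation.map_sub _ _ _).trans_lt (max_lt e2 hlt')
    have e7 : c = D u * y ^ p := sub_eq_zero.1 e5
    refine ⟨y⁻¹, inv_ne_zero hy0, ?_⟩
    rw [e7, inv_pow, mul_assoc, mul_inv_cancel₀ (pow_ne_zero _ hy0), mul_one]

end Pool.Agent.Lib.MP_c385f6_ag.Semi
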