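import Mathlib
import Pool.Agent.Lib.MP_c385f6_ag.Bc.Basic
import Pool.Agent.Lib.MP_c385f6_ag.Semi.Stmts

set_option autoImplicit false

/-!
The classes given by a section (part (D) of the blueprint MP_c385f6_semi.md).
-/

namespace Pool.Agent.Lib.MP_c385f6_ag.Semi

open Pool.Agent.Lib.MP_c385f6_ag.Cpl Polynomial

namespace ClsAux

section val

variable {Ω : Type*} [Field Ω] (B : ValuationSubring Ω)

theorem val_eq_one {u : Ω} (h0 : u ≠ 0) (h : u ∈ B) (h' : u⁻¹ ∈ B) : B.valuation u = 1 := by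
  have h1 : B.valuation u ≤ 1 := (B.valuation_le_one_iff u).2 h
  have h2 : B.valuation u⁻¹ ≤ 1 := (B.valuation_le_one_iff _).2 h'
  rw [map_inv₀] at h2
  have h3 : B.valuation u ≠ 0 := (Valuation.ne_zero_iff _).2 h0
  exact le_antisymm h1 ((inv_le_one₀ (zero_lt_iff.2 h3)).1 h2)

theorem val_of_pow {n : ℕ} (hn : n ≠ 0) {u : Ω} (h : B.valuation (u ^ n) = 1) :
    B.valuation u = 1 := by
  rw [map_pow] at h
  rcases lt_trichotomy (B.valuation u) 1 with h1 | h1 | h1
  · have := pow_lt_one₀ zero_le' h1 hn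
    rw [h] at this
    exact absurd this (lt_irrefl _)
  · exact h1
  · have := one_lt_pow₀ h1 hn
    rw [h] at this
    exact absurd this (lt_irrefl _)

theorem val_one_sub {n : ℕ} {x : Ω} (hx : B.valuation x = 1) (h : B.valuation (1 - x ^ n) = 1) :
    B.valuation (1 - x) = 1 := by
  have hxB : x ∈ B := (B.valuation_le_one_iff x).1 hx.le
  have h1 : B.valuation (1 - x) ≤ 1 :=
    (B.valuation_le_one_iff _).2 (sub_mem (one_mem B) hxB)
  have h2 : B.valuation (∑ i ∈ Finset.range n, x ^ i) ≤ 1 :=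
    (B.valuation_le_one_iff _).2 (sum_mem fun i _ => pow_mem hxB i)
  have h3 := mul_neg_geom_sum x n
  rw [← h3, map_mul] at h
  refine le_antisymm h1 ?_
  calc (1 : B.ValueGroup) = B.valuation (1 - x) * B.valuation (∑ i ∈ Finset.range n, x ^ i) :=
        h.symm
    _ ≤ B.valuation (1 - x) * 1 := by gcongr
    _ = _ := mul_one _

theorem inv_mem_of {x : Ω} (h : ¬ B.valuation x < 1) : x⁻¹ ∈ B := by
  rw [← B.valuation_le_one_iff, map_inv₀]
  push Not at h
  have h3 : 0 < B.valuation x := lt_of_lt_of_le zero_lt_one h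
  exact (inv_le_one₀ h3).2 h

end val

section main

variable {k K Ω : Type*} [Field k] [Field K] [Field Ω] [Algebra k K] [Algebra k Ω]
  [Algebra K Ω] {N : IntermediateField K Ω} {L : Type*} [Field L] [Algebra k L]

/-- the constants -/
noncomputable def iota {s : AbsGal k Ω →* (N ≃ₐ[K] N)} (hs : IsSec k K Ω N s)
    (hN : ∀ c : algebraicClosure k Ω, (c : Ω) ∈ N) (φ : L →ₐ[k] algebraicClosure k Ω) :
    L →+* fixF s φ where
  toFun := fun c => ⟨⟨(φ c : Ω), hN (φ c)⟩, fun g hg => by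
    apply Subtype.ext
    rw [hs.restrict g (φ c) ⟨(φ c : Ω), hN (φ c)⟩ rfl, (mem_fixGrp φ).1 hg c]⟩
  map_one' := by
    apply Subtype.ext; apply Subtype.ext
    show ((φ 1 : algebraicClosure k Ω) : Ω) = 1
    rw [map_one]; rfl
  map_zero' := by
    apply Subtype.ext; apply Subtype.ext
    show ((φ 0 : algebraicClosure k Ω) : Ω) = 0
    rw [map_zero]; rfl
  map_add' := fun a b => by
    apply Subtype.ext; apply Subtype.ext
    show ((φ (a + b) : algebraicClosure k Ω) : Ω) = (φ a : Ω) + (φ b : Ω)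
    rw [map_add]; rfl
  map_mul' := fun a b => by
    apply Subtype.ext; apply Subtype.ext
    show ((φ (a * b) : algebraicClosure k Ω) : Ω) = (φ a : Ω) * (φ b : Ω)
    rw [map_mul]; rfl

theorem iota_coe {s : AbsGal k Ω →* (N ≃ₐ[K] N)} (hs : IsSec k K Ω N s)
    (hN : ∀ c : algebraicClosure k Ω, (c : Ω) ∈ N) (φ : L →ₐ[k] algebraicClosure k Ω) (c : L) :
    ((iota hs hN φ c : N) : Ω) = (φ c : Ω) := rfl

/-- uniqueness of the classes -/
theorem uniq {s : AbsGal k Ω →* (N ≃ₐ[K] N)} (φ : L →ₐ[k] algebraicClosure k Ω)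
    (hk : ∀ z : N, (∀ g ∈ fixGrp φ, s g z = z) → (z : Ω) ∈ algebraicClosure k Ω →
      ∃ c : L, (z : Ω) = (φ c : Ω)) (ι : L →+* fixF s φ)
    (hι : ∀ c : L, ((ι c : N) : Ω) = (φ c : Ω)) {p : ℕ} (hp : p ≠ 0) {d d' : L} (hd : d ≠ 0)
    (hd' : d' ≠ 0) {Y Y' : fixF s φ} (hY : Y ≠ 0) (hY' : Y' ≠ 0)
    (h : ι d * Y ^ p = ι d' * Y' ^ p) : Eqv p d d' := by
  have hι0 : ι d' ≠ 0 := (map_ne_zero ι).2 hd'
  have h1 : (Y' / Y) ^ p = ι (d / d') := by
    rw [div_pow, map_div₀, div_eq_div_iff (pow_ne_zero _ hY) hι0, mul_comm, ← h]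
  have h2 : (((Y' / Y : fixF s φ) : N) : Ω) ^ p = (φ (d / d') : Ω) := by
    rw [← hι, ← h1]
    rfl
  have h3 : (((Y' / Y : fixF s φ) : N) : Ω) ∈ algebraicClosure k Ω := by
    rw [mem_algebraicClosure_iff]
    refine IsAlgebraic.of_pow (n := p) (Nat.pos_of_ne_zero hp) ?_
    rw [h2]
    exact mem_algebraicClosure_iff.1 (φ (d / d')).2
  obtain ⟨c, hc⟩ := hk ((Y' / Y : fixF s φ) : N) (fun g hg => (Y' / Y : fixF s φ).2 g hg) h3
  have h4 : φ (d / d') = φ (c ^ p) := by
    apply Subtype.ext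
    rw [← h2, hc, map_pow]
    rfl
  have h5 : d / d' = c ^ p := φ.toRingHom.injective h4
  refine ⟨c, ?_, ?_⟩
  · rintro rfl
    rw [zero_pow hp] at h5
    exact div_ne_zero hd hd' h5
  · rw [← h5, mul_div_cancel₀ _ hd']

end main

end ClsAux

open ClsAux

/-- (D) the classes given by a section -/
theorem stD.{u, v, w} (h1 : StKum.{u, v, w}) (h2 : StStb.{u, v, w}) (h3 : StN.{u, v, w})
    (h4 : StDns.{u, v, w}) : StD.{u, v, w} := by
  intro p _ k K Ω _ _ _ _ _ _ _ _ _ htr L F _ _ _ _ _ S ζ φ f hv hζ hr hNR s hs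
  have hac : IsAlgClosed Ω := IsAlgClosure.isAlgClosed K
  have hp : p ≠ 0 := (Fact.out : p.Prime).ne_zero
  obtain ⟨-, -, hN, hroot, -, -⟩ := h3 k K Ω inferInstance inferInstance inferInstance
    inferInstance inferInstance inferInstance inferInstance inferInstance inferInstance f
  obtain ⟨hk1, hk2⟩ := h1 k K Ω inferInstance inferInstance inferInstance inferInstance
    inferInstance inferInstance inferInstance inferInstance inferInstance (openExt k K Ω f) hN s
    hs L inferInstance inferInstance inferInstance φ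
  let ι : L →+* fixF s φ := iota hs hN φ
  have hι : ∀ c : L, ((ι c : openExt k K Ω f) : Ω) = (φ c : Ω) := fun c => rfl
  -- units have valuation one
  have hval : ∀ u : fixF s φ, Ut (intO f s φ) u → ∀ B : ValuationSubring Ω, Rootless K f B →
      B.valuation (((u : openExt k K Ω f) : Ω)) = 1 := by
    intro u hu B hB
    refine val_eq_one B ?_ (hu.2.1 B hB) (hu.2.2 B hB)
    intro h0
    exact hu.1 (Subtype.ext (Subtype.ext h0))
  -- existence of the classes
  have hex : ∀ u : fixF s φ, Ut (intO f s φ) u → ∃ d : L, d ≠ 0 ∧ ∃ Y : fixF s φ, Y ≠ 0 ∧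
      u = ι d * Y ^ p := by
    intro u hu
    obtain ⟨ρ, hρ⟩ := IsAlgClosed.exists_pow_nat_eq ((u : openExt k K Ω f) : Ω)
      (Nat.pos_of_ne_zero hp)
    have hρN : ρ ∈ openExt k K Ω f := by
      refine hroot p hp ρ ?_ fun B hB => ?_
      · rw [hρ]
        exact (u : openExt k K Ω f).2
      · rw [hρ]
        exact hval u hu B hB
    have e1 : (⟨ρ, hρN⟩ : openExt k K Ω f) ^ p = (u : openExt k K Ω f) := Subtype.ext hρ
    have e0 : (⟨ρ, hρN⟩ : openExt k K Ω f) ≠ 0 := by
      intro h0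
      rw [h0, zero_pow hp] at e1
      exact hu.1 (Subtype.ext e1.symm)
    obtain ⟨δ, z, hδ, hz, hzf, hz'⟩ := hk2 p hp ⟨ρ, hρN⟩ e0 (by
      intro g hg
      rw [e1]
      exact u.2 g hg)
    refine ⟨δ, hδ, ⟨z, hzf⟩, ?_, ?_⟩
    · intro h0
      exact hz (congrArg Subtype.val h0)
    · apply Subtype.ext; apply Subtype.ext
      rw [← hρ]
      exact hz'
  classical
  let D : fixF s φ → L := fun u =>
    if h : Ut (intO f s φ) u then (hex u h).choose else 1
  have hD : ∀ u : fixF s φ, Ut (intO f s φ) u → D u ≠ 0 ∧ ∃ Y : fixF s φ, Y ≠ 0 ∧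
      u = ι (D u) * Y ^ p := by
    intro u hu
    have : D u = (hex u hu).choose := dif_pos hu
    rw [this]
    exact (hex u hu).choose_spec
  have huq : ∀ {d d' : L} (_ : d ≠ 0) (_ : d' ≠ 0) {Y Y' : fixF s φ} (_ : Y ≠ 0) (_ : Y' ≠ 0)
      (_ : ι d * Y ^ p = ι d' * Y' ^ p), Eqv p d d' := fun hd hd' _ _ hY hY' h =>
    uniq φ hk1 ι hι hp hd hd' hY hY' h
  have hconst : ∀ c, ι c ∈ intO f s φ := by
    intro c B hB
    exact mem_of_algebraic hB.1 (φ c).2
  refine ⟨ι, D, hι, ⟨hconst, ?_, fun u hu => (hD u hu).1, ?_, ?_, ?_⟩, fun u hu => ?_⟩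
  · -- dense
    intro X hX c n
    obtain ⟨c', hc', hc''⟩ := h4 p inferInstance k K Ω inferInstance inferInstance inferInstance
      inferInstance inferInstance inferInstance inferInstance inferInstance inferInstance htr
      L F inferInstance inferInstance inferInstance inferInstance inferInstance S φ f hv hr
      ((fun x : fixF s φ => ((x : openExt k K Ω f) : Ω)) '' X) (hX.image _) c n
    refine ⟨c', hc', fun x hx => ?_⟩
    obtain ⟨h5, h6⟩ := hc'' _ ⟨x, hx, rfl⟩
    refine ⟨?_, ?_⟩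
    · intro h0
      apply h5
      have := congrArg (fun z : fixF s φ => ((z : openExt k K Ω f) : Ω)) (sub_eq_zero.1 h0)
      exact this
    · intro B hB
      exact inv_mem_of B (h6 B hB)
  · -- mul
    intro u v hu hv
    have huv : Ut (intO f s φ) (u * v) :=
      ⟨mul_ne_zero hu.1 hv.1, mul_mem hu.2.1 hv.2.1, by
        rw [mul_inv]; exact mul_mem hu.2.2 hv.2.2⟩
    obtain ⟨a0, Y, hY, ha⟩ := hD u hu
    obtain ⟨b0, Z, hZ, hb⟩ := hD v hv
    obtain ⟨c0, W, hW, hc⟩ := hD (u * v) huv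
    refine huq c0 (mul_ne_zero a0 b0) hW (mul_ne_zero hY hZ) ?_
    rw [← hc, map_mul, mul_pow]
    calc u * v = (ι (D u) * Y ^ p) * (ι (D v) * Z ^ p) := by rw [← ha, ← hb]
      _ = _ := by ring
  · -- cst
    intro c hc
    have hu : Ut (intO f s φ) (ι c) :=
      ⟨(map_ne_zero ι).2 hc, hconst c, by rw [← map_inv₀]; exact hconst _⟩
    obtain ⟨a0, Y, hY, ha⟩ := hD (ι c) hu
    refine huq a0 hc hY one_ne_zero ?_
    rw [← ha, one_pow, mul_one]
  · -- stein
    intro u v hu hv huv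
    obtain ⟨a0, Y, hY, ha⟩ := hD u hu
    obtain ⟨b0, Z, hZ, hb⟩ := hD v hv
    have haΩ : ((u : openExt k K Ω f) : Ω) =
        (φ (D u) : Ω) * ((Y : openExt k K Ω f) : Ω) ^ p := by
      have := congrArg (fun z : fixF s φ => ((z : openExt k K Ω f) : Ω)) ha
      exact this
    have hbΩ : ((v : openExt k K Ω f) : Ω) =
        (φ (D v) : Ω) * ((Z : openExt k K Ω f) : Ω) ^ p := by
      have := congrArg (fun z : fixF s φ => ((z : openExt k K Ω f) : Ω)) hb
      exact this
    have huvΩ : ((u : openExt k K Ω f) : Ω) + ((v : openExt k K Ω f) : Ω) = 1 := by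
      have := congrArg (fun z : fixF s φ => ((z : openExt k K Ω f) : Ω)) huv
      exact this
    have hmain := h2 p inferInstance k K Ω inferInstance inferInstance inferInstance
      inferInstance inferInstance inferInstance inferInstance inferInstance inferInstance
      (openExt k K Ω f) hN s hs L inferInstance inferInstance inferInstance φ ζ hζ (D u) (D v)
      (Y : openExt k K Ω f) (Z : openExt k K Ω f) a0 b0
      (fun h0 => hZ (Subtype.ext h0)) (fun g hg => Y.2 g hg) (fun g hg => Z.2 g hg)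
      (by rw [← haΩ, ← hbΩ]; exact huvΩ) (by
        intro α hα
        obtain ⟨ρ, hρ⟩ := IsAlgClosed.exists_pow_nat_eq
          (1 - (α : Ω) * ((Y : openExt k K Ω f) : Ω)) (Nat.pos_of_ne_zero hp)
        refine ⟨ρ, ?_, hρ⟩
        refine hroot p hp ρ ?_ fun B hB => ?_
        · rw [hρ]
          exact sub_mem (one_mem _) (mul_mem (hN α) (Y : openExt k K Ω f).2)
        · rw [hρ]
          have e1 : ((α : Ω) * ((Y : openExt k K Ω f) : Ω)) ^ p = ((u : openExt k K Ω f) : Ω) := by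
            rw [mul_pow, haΩ, ← hα]
            rfl
          refine val_one_sub B (n := p) (val_of_pow B hp ?_) ?_
          · rw [e1]
            exact hval u hu B hB
          · rw [e1]
            have e2 : (1 : Ω) - ((u : openExt k K Ω f) : Ω) = ((v : openExt k K Ω f) : Ω) := by
              rw [← huvΩ]; ring
            rw [e2]
            exact hval v hv B hB)
    rcases hmain with ⟨x, hx⟩ | hNR'
    · rw [hx]
      refine SymAux.h_pow_p_left S x _ ?_ b0
      rintro rfl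
      rw [zero_pow hp] at hx
      exact a0 hx
    · exact hNR _ _ a0 b0 hNR'
  · obtain ⟨-, Y, -, hY⟩ := hD u hu
    exact ⟨Y, hY⟩

end Pool.Agent.Lib.MP_c385f6_ag.Semi
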