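import Mathlib
import Pool.Agent.Lib.MP_c385f6_ag.Semi.Defs

set_option autoImplicit false

/-!
Extensions of function fields that are closed under `p`-th roots of units, and the section
conjecture for them.
-/

namespace Pool.Agent.Lib.MP_c385f6_ag.Semi

open Polynomial

section
variable {k K Ω : Type*} [Field k] [Field K] [Field Ω] [Algebra k K] [Algebra k Ω] [Algebra K Ω]

/-- `z` is a unit at all places of `K / k` whose residue field contains no root of `f`. -/
def IsUnitAway (K : Type*) [Field K] [Algebra k K] [Algebra K Ω] (f : k[X]) (z : Ω) : Prop :=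
  ∀ B : ValuationSubring Ω, Rootless K f B → B.valuation z = 1

/-- `N` is a Galois extension of `K` in `K_f` (`openExt k K Ω f`) that contains `k̄`, and if `N`
contains `y ^ p` and `y ^ p` is a unit at all places whose residue field contains no root of `f`,
then `N` contains `y`. -/
structure RootClosed (p : ℕ) (f : k[X]) (N : IntermediateField K Ω) : Prop where
  normal : Normal K N
  const : ∀ c : algebraicClosure k Ω, (c : Ω) ∈ N
  le : N ≤ openExt k K Ω f
  root : ∀ y : Ω, y ^ p ∈ N → IsUnitAway K f (y ^ p) → y ∈ N

/-- the extension of `K` generated by `N` and the `p`-th roots of the elements of `N` that are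
units at all places whose residue field contains no root of `f` -/
def rootExt (p : ℕ) (f : k[X]) (N : IntermediateField K Ω) : IntermediateField K Ω :=
  IntermediateField.adjoin K ((N : Set Ω) ∪ {y | y ^ p ∈ N ∧ IsUnitAway K f (y ^ p)})

end

section
variable (k K Ω : Type*) [Field k] [Field K] [Field Ω] [Algebra k K] [Algebra k Ω] [Algebra K Ω]

/-- the extension `K k̄` of `K` -/
def constExt (k K Ω : Type*) [Field k] [Field K] [Field Ω] [Algebra k Ω] [Algebra K Ω] :
    IntermediateField K Ω :=
  IntermediateField.adjoin K (algebraicClosure k Ω : Set Ω)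

/-- the extension obtained from `K k̄` by adjoining twice the `p`-th roots of units -/
def twoStep (p : ℕ) (f : k[X]) : IntermediateField K Ω :=
  rootExt p f (rootExt p f (constExt k K Ω))

/-- The maximal pro-`p` extension of `K k̄` in `N`: the extension of `K` generated by those
elements `z` of `N` that are fixed, for some `n`, by the `p ^ n`-th powers of all automorphisms of
`Ω` over `K k̄` (so the Galois closure of `K k̄ (z)` over `K k̄` has a Galois group with exponent
dividing `p ^ n`). -/
def maxProP (k K Ω : Type*) [Field k] [Field K] [Field Ω] [Algebra k Ω] [Algebra K Ω] (p : ℕ)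
    (N : IntermediateField K Ω) : IntermediateField K Ω :=
  IntermediateField.adjoin K {z | z ∈ N ∧ ∃ n : ℕ, ∀ g : Ω ≃ₐ[K] Ω,
    (∀ c : algebraicClosure k Ω, g (c : Ω) = c) → (g ^ (p ^ n)) z = z}

end

/-- A section of `Gal(N / K) → Gal_k`, `N` an extension of `K` in `Ω` that contains `k̄`: a
continuous homomorphism `s : Gal_k → Gal(N / K)` such that `s g` acts on the constants (the
elements of `k̄`) as `g`. -/
structure Sec (k K Ω : Type*) [Field k] [Field K] [Field Ω] [Algebra k Ω] [Algebra K Ω]
    (N : IntermediateField K Ω) where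
  toFun : AbsGal k Ω → (N ≃ₐ[K] N)
  map_mul : ∀ g h : AbsGal k Ω, toFun (g * h) = toFun g * toFun h
  continuous : Continuous toFun
  restrict : ∀ (g : AbsGal k Ω) (c : algebraicClosure k Ω) (z : N),
    (z : Ω) = c → ((toFun g z : N) : Ω) = g c

section
variable {k K Ω : Type*} [Field k] [Field K] [Field Ω] [Algebra k Ω] [Algebra K Ω]
  {N N' : IntermediateField K Ω}

/-- `s` is a section at the place `A` of `K`: the image of `s` is contained in the decomposition
group of a valuation ring `B` of `N` above `A`. -/
def Sec.At (s : Sec k K Ω N) (A : ValuationSubring K) : Prop :=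
  ∃ B : ValuationSubring N, B.comap (algebraMap K N) = A ∧ ∀ g, ∀ z ∈ B, s.toFun g z ∈ B

/-- `s` and `s'` are conjugate under `Gal(N / K k̄)`. -/
def Sec.Conj (s s' : Sec k K Ω N) : Prop :=
  ∃ γ : N ≃ₐ[K] N, (∀ (c : algebraicClosure k Ω) (z : N), (z : Ω) = c → γ z = z) ∧
    ∀ g, ∀ z, s'.toFun g (γ z) = γ (s.toFun g z)

/-- The section `s'` of `Gal(N' / K) → Gal_k` lifts the section `s` of `Gal(N / K) → Gal_k`: the
automorphisms `s' g` and `s g` agree on `N ∩ N'`. -/
def Sec.Lifts (s' : Sec k K Ω N') (s : Sec k K Ω N) : Prop :=
  ∀ g, ∀ (z' : N') (z : N), (z' : Ω) = z → ((s'.toFun g z' : N') : Ω) = (s.toFun g z : N)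

end

/-- The section conjecture for the Galois extension `N` of `K` (with `k̄` in `N`): each section of
`Gal(N / K) → Gal_k` is a section at a unique `k`-rational place of `K`, there is a section at each
`k`-rational place of `K`, and two sections are conjugate under `Gal(N / K k̄)` if and only if they
are sections at the same `k`-rational place. -/
def SectionConjecture (k K Ω : Type*) [Field k] [Field K] [Field Ω] [Algebra k K] [Algebra k Ω]
    [Algebra K Ω] (N : IntermediateField K Ω) : Prop :=
  (∀ s : Sec k K Ω N, ∃! A : ValuationSubring K, IsRationalPlace k K A ∧ s.At A) ∧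
  (∀ A : ValuationSubring K, IsRationalPlace k K A → ∃ s : Sec k K Ω N, s.At A) ∧
  (∀ s s' : Sec k K Ω N, s.Conj s' ↔
    ∃ A : ValuationSubring K, IsRationalPlace k K A ∧ s.At A ∧ s'.At A)

end Pool.Agent.Lib.MP_c385f6_ag.Semi
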