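import Mathlib
import Pool.Agent.Lib.MP_c385f6_ag.Semi.Base
import Pool.Agent.Lib.MP_c385f6_ag.Semi.Defs2

set_option autoImplicit false

/-!
Extensions of function fields that are closed under `p`-th roots of units (integral elements).
-/

namespace Pool.Agent.Lib.MP_c385f6_ag.Semi

open Polynomial

/-- the elements of a subextension of `N` that are integral at the places whose residue field
contains no root of `f` -/
def intE {k K Ω : Type*} [Field k] [Field K] [Field Ω] [Algebra k K] [Algebra k Ω] [Algebra K Ω]
    (f : k[X]) {N : IntermediateField K Ω} (E : IntermediateField K N) : Subring E where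
  carrier := {z | ∀ B : ValuationSubring Ω, Rootless K f B → ((z : N) : Ω) ∈ B}
  mul_mem' := fun ha hb B hB => B.mul_mem _ _ (ha B hB) (hb B hB)
  add_mem' := fun ha hb B hB => B.add_mem _ _ (ha B hB) (hb B hB)
  neg_mem' := fun ha B hB => B.neg_mem _ (ha B hB)
  one_mem' := fun B _ => B.one_mem
  zero_mem' := fun B _ => B.zero_mem

end Pool.Agent.Lib.MP_c385f6_ag.Semi
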