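import Mathlib
import Pool.Agent.Lib.MP_c385f6_ag.Semi.Cls
import Pool.Agent.Lib.MP_c385f6_ag.Semi.GBase

set_option autoImplicit false

/-!
The classes given by a section, for extensions closed under `p`-th roots of units.
-/

namespace Pool.Agent.Lib.MP_c385f6_ag.Semi

open Pool.Agent.Lib.MP_c385f6_ag.Cpl Polynomial ClsAux

universe u v w

section
variable {k : Type u} {K : Type v} {Ω : Type w} [ik : Field k] [ic : CharZero k] [iK : Field K]
  [iO : Field Ω] [iakK : Algebra k K] [iakO : Algebra k Ω] [iaKO : Algebra K Ω]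
  [ist : IsScalarTower k K Ω] [ial : IsAlgClosure K Ω]
  {L F : Type} [iL : Field L] [iF : Field F] [iLk : Algebra k L] [iLf : FiniteDimensional k L]
  [iLg : IsGalois k L]

omit ic ist ial iLf iLg in
/-- uniqueness of the classes -/
theorem guniq {N : IntermediateField K Ω} {s : AbsGal k Ω →* (N ≃ₐ[K] N)}
    (φ : L →ₐ[k] algebraicClosure k Ω)
    (hk : ∀ z : N, (∀ g ∈ fixGrp φ, s g z = z) → (z : Ω) ∈ algebraicClosure k Ω →
      ∃ c : L, (z : Ω) = (φ c : Ω)) {p : ℕ} (hp : p ≠ 0) {d d' : L} (hd : d ≠ 0)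
    (hd' : d' ≠ 0) {Y Y' : N} (hYf : ∀ g ∈ fixGrp φ, s g Y = Y)
    (hYf' : ∀ g ∈ fixGrp φ, s g Y' = Y') (hY : Y ≠ 0) (hY' : Y' ≠ 0)
    (h : (φ d : Ω) * (Y : Ω) ^ p = (φ d' : Ω) * (Y' : Ω) ^ p) : Eqv p d d' := by
  have hYΩ : (Y : Ω) ≠ 0 := fun h0 => hY (Subtype.ext h0)
  have hι0 : (φ d' : Ω) ≠ 0 := by
    intro h0
    exact hd' (φ.toRingHom.injective (by rw [map_zero]; exact Subtype.ext h0))
  have h2 : (((Y' / Y : N)) : Ω) ^ p = (φ (d / d') : Ω) := by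
    have h3 : ((φ (d / d') : algebraicClosure k Ω) : Ω) = (φ d : Ω) / (φ d' : Ω) := by
      rw [map_div₀]
      rfl
    have h4 : (((Y' / Y : N)) : Ω) = (Y' : Ω) / (Y : Ω) := rfl
    rw [h3, h4, div_pow, div_eq_div_iff (pow_ne_zero _ hYΩ) hι0, mul_comm, ← h]
  have h3 : (((Y' / Y : N)) : Ω) ∈ algebraicClosure k Ω := by
    rw [mem_algebraicClosure_iff]
    refine IsAlgebraic.of_pow (n := p) (Nat.pos_of_ne_zero hp) ?_
    rw [h2]
    exact mem_algebraicClosure_iff.1 (φ (d / d')).2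
  obtain ⟨c, hc⟩ := hk (Y' / Y) (fun g hg => by rw [map_div₀, hYf g hg, hYf' g hg]) h3
  have h4 : φ (d / d') = φ (c ^ p) := by
    apply Subtype.ext
    rw [← h2, hc, map_pow]
    rfl
  have h5 : d / d' = c ^ p := φ.toRingHom.injective h4
  refine ⟨c, ?_, ?_⟩
  · rintro rfl
    rw [zero_pow hp] at h5
    exact div_ne_zero hd hd' h5
  · rw [← h5, mul_div_cancel₀ _ hd']

variable (p : ℕ) [hpf : Fact p.Prime] (S : LF p L F)

/-- the classes given by a section -/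
theorem gcls (h1 : StKum.{u, v, w}) (h2 : StStb.{u, v, w}) (h4 : StDns.{u, v, w})
    (htr : Algebra.trdeg k K = 1) (φ : L →ₐ[k] algebraicClosure k Ω) (f : k[X])
    (hv : 0 < S.v (p : L)) {ζ : L} (hζ : IsPrimitiveRoot ζ p) (hr : ∃ r : L, aeval r f = 0)
    (hNR : ∀ x y : L, x ≠ 0 → y ≠ 0 → NR p x y → S.h x y = 0)
    {N : IntermediateField K Ω} (hN : ∀ c : algebraicClosure k Ω, (c : Ω) ∈ N)
    {s : AbsGal k Ω →* (N ≃ₐ[K] N)} (hs : IsSec k K Ω N s) (E : IntermediateField K N)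
    (hEs : ∀ z ∈ E, ∀ g ∈ fixGrp φ, s g z = z)
    (hEc : ∀ c : L, (⟨(φ c : Ω), hN (φ c)⟩ : N) ∈ E)
    (hroot : ∀ (z : N) (y : Ω), z ∈ E → (z : Ω) = y ^ p → IsUnitAway K f (y ^ p) → y ∈ N)
    (hroot' : ∀ (z : N) (y : Ω), z ∈ E → (z : Ω) = y ^ p → IsUnitAway K f (y ^ p) →
      IsUnitAway K f (1 - y ^ p) → ∀ ρ, ρ ^ p = 1 - y → ρ ∈ N) :
    ∃ (ι : L →+* E) (D : E → L), (∀ c : L, ((ι c : N) : Ω) = (φ c : Ω)) ∧
      LimD S ι (intE f E) D ∧
      ∀ u : E, Ut (intE f E) u → D u ≠ 0 ∧ ∃ Y : N, (∀ g ∈ fixGrp φ, s g Y = Y) ∧ Y ≠ 0 ∧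
        ((u : N) : Ω) = (φ (D u) : Ω) * (Y : Ω) ^ p := by
  have hac : IsAlgClosed Ω := IsAlgClosure.isAlgClosed K
  have hp : p ≠ 0 := (Fact.out : p.Prime).ne_zero
  obtain ⟨hk1, hk2⟩ := h1 k K Ω ik ic iK iO iakK iakO iaKO ist ial N hN s hs L iL iLk iLf φ
  let ι : L →+* E :=
    { toFun := fun c => ⟨⟨(φ c : Ω), hN (φ c)⟩, hEc c⟩
      map_one' := by
        apply Subtype.ext; apply Subtype.ext
        show ((φ 1 : algebraicClosure k Ω) : Ω) = 1
        rw [map_one]; rfl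
      map_zero' := by
        apply Subtype.ext; apply Subtype.ext
        show ((φ 0 : algebraicClosure k Ω) : Ω) = 0
        rw [map_zero]; rfl
      map_add' := fun a b => by
        apply Subtype.ext; apply Subtype.ext
        show ((φ (a + b) : algebraicClosure k Ω) : Ω) = (φ a : Ω) + (φ b : Ω)
        rw [map_add]; rfl
      map_mul' := fun a b => by
        apply Subtype.ext; apply Subtype.ext
        show ((φ (a * b) : algebraicClosure k Ω) : Ω) = (φ a : Ω) * (φ b : Ω)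
        rw [map_mul]; rfl }
  have hι : ∀ c : L, ((ι c : N) : Ω) = (φ c : Ω) := fun c => rfl
  -- units have valuation one
  have hval : ∀ u : E, Ut (intE f E) u → IsUnitAway K f ((u : N) : Ω) := by
    intro u hu B hB
    refine val_eq_one B ?_ (hu.2.1 B hB) (hu.2.2 B hB)
    intro h0
    exact hu.1 (Subtype.ext (Subtype.ext h0))
  -- existence of the classes
  have hex : ∀ u : E, Ut (intE f E) u → ∃ d : L, d ≠ 0 ∧ ∃ Y : N,
      (∀ g ∈ fixGrp φ, s g Y = Y) ∧ Y ≠ 0 ∧ ((u : N) : Ω) = (φ d : Ω) * (Y : Ω) ^ p := by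
    intro u hu
    obtain ⟨ρ, hρ⟩ := IsAlgClosed.exists_pow_nat_eq ((u : N) : Ω) (Nat.pos_of_ne_zero hp)
    have hρN : ρ ∈ N := by
      refine hroot u ρ u.2 hρ.symm ?_
      rw [hρ]
      exact hval u hu
    have e1 : (⟨ρ, hρN⟩ : N) ^ p = (u : N) := Subtype.ext hρ
    have e0 : (⟨ρ, hρN⟩ : N) ≠ 0 := by
      intro h0
      rw [h0, zero_pow hp] at e1
      exact hu.1 (Subtype.ext e1.symm)
    obtain ⟨δ, z, hδ, hz, hzf, hz'⟩ := hk2 p hp ⟨ρ, hρN⟩ e0 (by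
      intro g hg
      rw [e1]
      exact hEs _ u.2 g hg)
    refine ⟨δ, hδ, z, hzf, hz, ?_⟩
    rw [← hρ]
    exact hz'
  classical
  let D : E → L := fun u => if h : Ut (intE f E) u then (hex u h).choose else 1
  have hD : ∀ u : E, Ut (intE f E) u → D u ≠ 0 ∧ ∃ Y : N,
      (∀ g ∈ fixGrp φ, s g Y = Y) ∧ Y ≠ 0 ∧ ((u : N) : Ω) = (φ (D u) : Ω) * (Y : Ω) ^ p := by
    intro u hu
    have : D u = (hex u hu).choose := dif_pos hu
    rw [this]
    exact (hex u hu).choose_spec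
  have hconst : ∀ c, ι c ∈ intE f E := by
    intro c B hB
    exact mem_of_algebraic hB.1 (φ c).2
  refine ⟨ι, D, hι, ⟨hconst, ?_, fun u hu => (hD u hu).1, ?_, ?_, ?_⟩, hD⟩
  · -- dense
    intro X hX c n
    obtain ⟨c', hc', hc''⟩ := h4 p hpf k K Ω ik ic iK iO iakK iakO iaKO ist ial htr
      L F iL iF iLk iLf iLg S φ f hv hr
      ((fun x : E => ((x : N) : Ω)) '' X) (hX.image _) c n
    refine ⟨c', hc', fun x hx => ?_⟩
    obtain ⟨h5, h6⟩ := hc'' _ ⟨x, hx, rfl⟩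
    refine ⟨?_, ?_⟩
    · intro h0
      apply h5
      have := congrArg (fun z : E => ((z : N) : Ω)) (sub_eq_zero.1 h0)
      exact this
    · intro B hB
      exact inv_mem_of B (h6 B hB)
  · -- mul
    intro u v hu hv
    have huv : Ut (intE f E) (u * v) :=
      ⟨mul_ne_zero hu.1 hv.1, mul_mem hu.2.1 hv.2.1, by
        rw [mul_inv]; exact mul_mem hu.2.2 hv.2.2⟩
    obtain ⟨a0, Y, hYf, hY, ha⟩ := hD u hu
    obtain ⟨b0, Z, hZf, hZ, hb⟩ := hD v hv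
    obtain ⟨c0, W, hWf, hW, hc⟩ := hD (u * v) huv
    refine guniq φ hk1 hp c0 (mul_ne_zero a0 b0) hWf (Y' := Y * Z)
      (fun g hg => by rw [map_mul, hYf g hg, hZf g hg]) hW (mul_ne_zero hY hZ) ?_
    rw [← hc, map_mul]
    calc ((u : N) : Ω) * ((v : N) : Ω)
        = ((φ (D u) : Ω) * (Y : Ω) ^ p) * ((φ (D v) : Ω) * (Z : Ω) ^ p) := by rw [← ha, ← hb]
      _ = ((φ (D u) : Ω) * (φ (D v) : Ω)) * ((Y : Ω) * (Z : Ω)) ^ p := by ring
  · -- cst
    intro c hc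
    have hu : Ut (intE f E) (ι c) :=
      ⟨(map_ne_zero ι).2 hc, hconst c, by rw [← map_inv₀]; exact hconst _⟩
    obtain ⟨a0, Y, hYf, hY, ha⟩ := hD (ι c) hu
    refine guniq φ hk1 hp a0 hc hYf (Y' := 1) (fun g _ => map_one _) hY one_ne_zero ?_
    rw [← ha, hι]
    show (φ c : Ω) = (φ c : Ω) * (1 : Ω) ^ p
    rw [one_pow, mul_one]
  · -- stein
    intro u v hu hv huv
    obtain ⟨a0, Y, hYf, hY, haΩ⟩ := hD u hu
    obtain ⟨b0, Z, hZf, hZ, hbΩ⟩ := hD v hv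
    have huvΩ : ((u : N) : Ω) + ((v : N) : Ω) = 1 :=
      congrArg (fun z : E => ((z : N) : Ω)) huv
    have hmain := h2 p hpf k K Ω ik ic iK iO iakK iakO iaKO ist ial
      N hN s hs L iL iLk iLf φ ζ hζ (D u) (D v) Y Z a0 b0 hZ hYf hZf
      (by rw [← haΩ, ← hbΩ]; exact huvΩ) (by
        intro α hα
        obtain ⟨ρ, hρ⟩ := IsAlgClosed.exists_pow_nat_eq
          (1 - (α : Ω) * (Y : Ω)) (Nat.pos_of_ne_zero hp)
        have e1 : ((α : Ω) * (Y : Ω)) ^ p = ((u : N) : Ω) := by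
          rw [mul_pow, haΩ, ← hα]
          rfl
        refine ⟨ρ, ?_, hρ⟩
        refine hroot' u ((α : Ω) * (Y : Ω)) u.2 e1.symm ?_ ?_ ρ hρ
        · rw [e1]
          exact hval u hu
        · rw [e1]
          have e2 : (1 : Ω) - ((u : N) : Ω) = ((v : N) : Ω) := by
            rw [← huvΩ]; ring
          rw [e2]
          exact hval v hv)
    rcases hmain with ⟨x, hx⟩ | hNR'
    · rw [hx]
      refine SymAux.h_pow_p_left S x _ ?_ b0
      rintro rfl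
      rw [zero_pow hp] at hx
      exact a0 hx
    · exact hNR _ _ a0 b0 hNR'

omit ic ist iLf iLg iL iF iLk hpf in
/-- roots of `1 - y` are roots of units -/
theorem isUnitAway_one_sub [IsAlgClosed Ω] {f : k[X]} {y : Ω} (hp : p ≠ 0)
    (h1 : IsUnitAway K f (y ^ p)) (h2 : IsUnitAway K f (1 - y ^ p)) :
    IsUnitAway K f (1 - y) := fun B hB =>
  val_one_sub B (n := p) (val_of_pow B hp (h1 B hB)) (h2 B hB)

end

end Pool.Agent.Lib.MP_c385f6_ag.Semi
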