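import Mathlib
import Pool.Agent.Lib.MP_c385f6_ag.Semi.Cmp
import Pool.Agent.Lib.MP_c385f6_ag.Semi.GCls

set_option autoImplicit false

/-!
Places fixed by a section are compatible with the classes, for extensions closed under `p`-th roots
of units.
-/

namespace Pool.Agent.Lib.MP_c385f6_ag.Semi

open Pool.Agent.Lib.MP_c385f6_ag.Cpl Polynomial CmpAux

universe u v w

section
variable {k : Type u} {K : Type v} {Ω : Type w} [ik : Field k] [ic : CharZero k] [iK : Field K]
  [iO : Field Ω] [iakK : Algebra k K] [iakO : Algebra k Ω] [iaKO : Algebra K Ω]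
  [ist : IsScalarTower k K Ω] [ial : IsAlgClosure K Ω]
  {L : Type} [iL : Field L] [iLk : Algebra k L] [iLf : FiniteDimensional k L]
  (p : ℕ) [hpf : Fact p.Prime]

/-- compatibility of places fixed by a section -/
theorem gcmp (h1 : StN.{u, v, w}) (h2 : StRes.{u, v, w}) (h3 : StTr.{w, w})
    (htr : Algebra.trdeg k K = 1) (φ : L →ₐ[k] algebraicClosure k Ω)
    (f : k[X]) (hf : ∀ c : k, f.eval c ≠ 0) {N : IntermediateField K Ω}
    (hcN : ∀ c : algebraicClosure k Ω, (c : Ω) ∈ N)
    {s : AbsGal k Ω →* (N ≃ₐ[K] N)} (hs : IsSec k K Ω N s) (E : IntermediateField K N)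
    (hEs : ∀ z ∈ E, ∀ g ∈ fixGrp φ, s g z = z) {ι : L →+* E} {D : E → L}
    (hι : ∀ c : L, ((ι c : N) : Ω) = (φ c : Ω))
    (hD : ∀ u : E, Ut (intE f E) u → D u ≠ 0 ∧ ∃ Y : N, (∀ g ∈ fixGrp φ, s g Y = Y) ∧ Y ≠ 0 ∧
        ((u : N) : Ω) = (φ (D u) : Ω) * (Y : Ω) ^ p) (B : ValuationSubring N)
    (hBrat : IsRationalPlace k K (B.comap (algebraMap K N))) (hB : ∀ g, ∀ z ∈ B, s g z ∈ B) :
    Plc p ι (intE f E) D (B.comap (algebraMap E N)) := by
  obtain ⟨hnorm, -, -, -, -, hrat⟩ := h1 k K Ω ik ic iK iO iakK iakO iaKO ist ial f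
  have hcK : CharZero K := charZero_of_injective_algebraMap (algebraMap k K).injective
  have hcN' : CharZero N := charZero_of_injective_algebraMap (algebraMap K N).injective
  have hacl : IsAlgClosed Ω := IsAlgClosure.isAlgClosed K
  have halgK : Algebra.IsAlgebraic K Ω := IsAlgClosure.isAlgebraic
  have hN' : IsAlgClosure N Ω := ⟨hacl, Algebra.IsAlgebraic.tower_top (K := K) N⟩
  obtain ⟨V, hV⟩ := (h3 N Ω inferInstance hcN' inferInstance inferInstance hN').1 B
  have hVm : ∀ z : N, (z : Ω) ∈ V ↔ z ∈ B := fun z => by rw [← hV]; rfl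
  have hVK : V.comap (algebraMap K Ω) = B.comap (algebraMap K N) := by
    ext z
    rw [ValuationSubring.mem_comap, ValuationSubring.mem_comap, ← hVm]
    rfl
  have hroot : Rootless K f V := (hrat hf V (by rw [hVK]; exact hBrat)).1
  have hkV : ∀ c : k, algebraMap k Ω c ∈ V := hroot.1
  have hVtop : V ≠ ⊤ := by
    intro h
    apply hBrat.ne_top
    rw [← hVK, h]
    ext z
    simp
  -- valuations below `V`
  have hlt : ∀ z : E, (B.comap (algebraMap E N)).valuation z < 1 ↔
        V.valuation ((z : N) : Ω) < 1 := by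
    intro z
    rw [comap_lt_one, ← hV, comap_lt_one]
    rfl
  have hmem : ∀ z : E, z ∈ B.comap (algebraMap E N) ↔ ((z : N) : Ω) ∈ V := by
    intro z
    rw [ValuationSubring.mem_comap, hVm]
    rfl
  have hconst : ∀ α : algebraicClosure k Ω, V.valuation (α : Ω) < 1 → α = 0 := by
    intro α hα
    by_contra h0
    have h := valuation_eq_one hkV α.2 (fun h => h0 (Subtype.ext h))
    rw [h] at hα
    exact lt_irrefl _ hα
  -- the section preserves `V`
  have hBi : ∀ g (z : N), z ∈ B ↔ s g z ∈ B := by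
    intro g z
    refine ⟨hB g z, fun h => ?_⟩
    have h' := hB g⁻¹ _ h
    rw [map_inv] at h'
    have h'' : (s g)⁻¹ (s g z) = z := (s g).symm_apply_apply z
    rwa [h''] at h'
  have hBlt : ∀ g (z : N), V.valuation (z : Ω) < 1 → V.valuation ((s g z : N) : Ω) < 1 := by
    intro g z hz
    rw [lt_one_iff] at hz ⊢
    rcases hz with hz | hz
    · left
      have hz' : z = 0 := Subtype.ext hz
      rw [hz', map_zero]
      rfl
    · right
      intro h
      apply hz
      have e1 : ((s g z : N) : Ω)⁻¹ = ((s g z⁻¹ : N) : Ω) := by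
        rw [map_inv₀]
        rfl
      have e2 : (z : Ω)⁻¹ = ((z⁻¹ : N) : Ω) := rfl
      rw [e1, hVm, ← hBi, ← hVm] at h
      rw [e2]
      exact h
  have hres : ∀ z : N, (∀ g ∈ fixGrp φ, s g z = z) → (z : Ω) ∈ V →
      ∃ c : L, V.valuation ((z : Ω) - (φ c : Ω)) < 1 := by
    intro z hzf hz
    obtain ⟨α, hα⟩ := h2 k K Ω ik iK iO iakK iakO iaKO ist ial htr V hkV hVtop _ hz
    have hfix : ∀ g ∈ fixGrp φ, g α = α := by
      intro g hg
      have e1 := hBlt g (z - ⟨α, hcN α⟩) hα
      have e2 : s g (z - ⟨α, hcN α⟩) = z - ⟨g α, hcN (g α)⟩ := by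
        rw [map_sub, hzf g hg, hs.const g α (hcN α) (hcN (g α))]
      rw [e2] at e1
      have e3 : V.valuation ((z : Ω) - (g α : algebraicClosure k Ω)) < 1 := e1
      have e4 : V.valuation (((g α - α : algebraicClosure k Ω)) : Ω) < 1 := by
        have e5 : ((g α - α : algebraicClosure k Ω) : Ω) =
            ((z : Ω) - (α : Ω)) - ((z : Ω) - (g α : algebraicClosure k Ω)) := by
          have e6 : ((g α - α : algebraicClosure k Ω) : Ω) =
            ((g α : algebraicClosure k Ω) : Ω) - (α : Ω) := rfl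
          rw [e6]
          ring
        rw [e5]
        exact (Valuation.map_sub _ _ _).trans_lt (max_lt hα e3)
      exact sub_eq_zero.1 (hconst _ e4)
    obtain ⟨δ, hδ⟩ := const_of_fixGrp φ K α hfix
    exact ⟨δ, by rw [hδ]; exact hα⟩
  have hιV : ∀ c, ((φ c : algebraicClosure k Ω) : Ω) ∈ V := fun c => mem_of_algebraic hkV (φ c).2
  have hι1 : ∀ c, c ≠ 0 → V.valuation ((φ c : algebraicClosure k Ω) : Ω) = 1 := by
    intro c hc
    refine valuation_eq_one hkV (φ c).2 fun h => ?_
    have h' : φ c = 0 := Subtype.ext h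
    exact hc ((map_eq_zero φ).1 h')
  have hι0 : ∀ c, V.valuation ((φ c : algebraicClosure k Ω) : Ω) < 1 → c = 0 := by
    intro c hc
    by_contra h0
    rw [hι1 c h0] at hc
    exact lt_irrefl _ hc
  have hsub : ∀ (x : E) (c : L), (((x - ι c : E) : N) : Ω) =
      ((x : N) : Ω) - ((φ c : algebraicClosure k Ω) : Ω) := by
    intro x c
    rw [← hι]
    rfl
  refine ⟨fun c => ?_, fun z hz => ?_, fun u hu c hc hlt' => ?_⟩
  · rw [hmem, hι]
    exact hιV c
  · rw [hmem] at hz
    obtain ⟨c, hc⟩ := hres z (hEs z z.2) hz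
    exact ⟨c, (hlt _).2 (by rw [hsub]; exact hc)⟩
  · rw [hlt, hsub] at hlt'
    obtain ⟨hd, Y, hYf, hY0, hY⟩ := hD u hu
    have hp0 : p ≠ 0 := hpf.out.ne_zero
    have hu1 : V.valuation ((u : N) : Ω) = 1 := by
      have e2 : V.valuation (((u : N) : Ω) - ((φ c : algebraicClosure k Ω) : Ω)) <
          V.valuation ((φ c : algebraicClosure k Ω) : Ω) := by
        rw [hι1 c hc]
        exact hlt'
      have e3 := Valuation.map_add_eq_of_lt_left V.valuation e2
      rw [add_sub_cancel, hι1 c hc] at e3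
      exact e3
    have hY1 : V.valuation (Y : Ω) = 1 := by
      rw [hY, map_mul, map_pow, hι1 _ hd, one_mul] at hu1
      exact (pow_eq_one_iff_left hp0).1 hu1
    have hYV : (Y : Ω) ∈ V := (V.valuation_le_one_iff _).1 hY1.le
    obtain ⟨y, hy⟩ := hres Y hYf hYV
    have hy0 : y ≠ 0 := by
      rintro rfl
      rw [map_zero] at hy
      have e1 : (((0 : algebraicClosure k Ω)) : Ω) = 0 := rfl
      rw [e1, sub_zero, hY1] at hy
      exact lt_irrefl _ hy
    have e1 := pow_sub_lt_one V hYV (hιV y) hy p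
    have e0 : ((φ (D u * y ^ p) : algebraicClosure k Ω) : Ω) =
        (φ (D u) : Ω) * (φ y : Ω) ^ p := by
      rw [map_mul, map_pow]
      rfl
    have e2 : V.valuation (((u : N) : Ω) - ((φ (D u * y ^ p) : algebraicClosure k Ω) : Ω)) < 1 := by
      have e3 : ((u : N) : Ω) - ((φ (D u * y ^ p) : algebraicClosure k Ω) : Ω) =
          (φ (D u) : Ω) * ((Y : Ω) ^ p - (φ y : Ω) ^ p) := by
        rw [e0, hY]
        ring
      rw [e3, map_mul, hι1 _ hd, one_mul]
      exact e1
    have e5 : c - D u * y ^ p = 0 := by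
      apply hι0
      have e6 : ((φ (c - D u * y ^ p) : algebraicClosure k Ω) : Ω) =
          (((u : N) : Ω) - ((φ (D u * y ^ p) : algebraicClosure k Ω) : Ω)) -
            (((u : N) : Ω) - ((φ c : algebraicClosure k Ω) : Ω)) := by
        rw [map_sub]
        have e7 : ((φ c - φ (D u * y ^ p) : algebraicClosure k Ω) : Ω) =
          (φ c : Ω) - (φ (D u * y ^ p) : Ω) := rfl
        rw [e7]
        ring
      rw [e6]
      exact (Valuation.map_sub _ _ _).trans_lt (max_lt e2 hlt')
    have e7 : c = D u * y ^ p := sub_eq_zero.1 e5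
    refine ⟨y⁻¹, inv_ne_zero hy0, ?_⟩
    rw [e7, inv_pow, mul_assoc, mul_inv_cancel₀ (pow_ne_zero _ hy0), mul_one]

end

end Pool.Agent.Lib.MP_c385f6_ag.Semi
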