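import Mathlib
import Pool.Agent.Lib.MP_c385f6_ag.Semi.Stmts

set_option autoImplicit false

/-!
Descent of the valuation ring to the elements fixed by the section.
-/

namespace Pool.Agent.Lib.MP_c385f6_ag.Semi

open Pool.Agent.Lib.MP_c385f6_ag.Cpl Polynomial

namespace RatAux

theorem lt_one_iff {E : Type*} [Field E] (V : ValuationSubring E) (u : E) :
    V.valuation u < 1 ↔ u = 0 ∨ u⁻¹ ∉ V := by
  by_cases hu : u = 0
  · simp [hu]
  · rw [← V.valuation_le_one_iff, map_inv₀, inv_le_one₀, not_le]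
    · simp [hu]
    · exact zero_lt_iff.2 ((Valuation.ne_zero_iff _).2 hu)

theorem comap_lt_one {E E' : Type*} [Field E] [Field E'] (V : ValuationSubring E')
    (f : E →+* E') (x : E) : (V.comap f).valuation x < 1 ↔ V.valuation (f x) < 1 := by
  rw [lt_one_iff, lt_one_iff, ValuationSubring.mem_comap, map_inv₀, map_eq_zero]

section galois

variable {k Ω L : Type*} [Field k] [Field Ω] [Algebra k Ω] [Field L] [Algebra k L]
  (φ : L →ₐ[k] algebraicClosure k Ω)

theorem exists_sig [Normal k L] (g : AbsGal k Ω) :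
    ∃ σ : L ≃ₐ[k] L, ∀ c, g (φ c) = φ (σ c) := by
  let _ : Algebra L (algebraicClosure k Ω) := φ.toRingHom.toAlgebra
  have _ : IsScalarTower k L (algebraicClosure k Ω) :=
    IsScalarTower.of_algebraMap_eq' φ.comp_algebraMap.symm
  exact ⟨g.restrictNormal L, fun c => (AlgEquiv.restrictNormal_commutes g L c).symm⟩

theorem conj_mem [Normal k L] (g : AbsGal k Ω) {h : AbsGal k Ω} (hh : h ∈ fixGrp φ) :
    g⁻¹ * h * g ∈ fixGrp φ := by
  rw [mem_fixGrp] at hh ⊢
  intro a
  obtain ⟨σ, hσ⟩ := exists_sig φ g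
  show g⁻¹ (h (g (φ a))) = φ a
  rw [hσ, hh, ← hσ]
  exact g.symm_apply_apply _

end galois

section tau

variable {k K Ω : Type*} [Field k] [Field K] [Field Ω] [Algebra k Ω] [Algebra K Ω]
  {N : IntermediateField K Ω} {L : Type*} [Field L] [Algebra k L] [Normal k L]
  (s : AbsGal k Ω →* (N ≃ₐ[K] N)) (φ : L →ₐ[k] algebraicClosure k Ω)

/-- the action of `g` on the elements fixed by `s(Gal_L)` -/
noncomputable def tau (g : AbsGal k Ω) : fixF s φ →+* fixF s φ :=
  (((s g : N ≃ₐ[K] N) : N →+* N).comp (algebraMap (fixF s φ) N)).codRestrict (fixF s φ)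
    (fun z => by
      show ∀ h ∈ fixGrp φ, s h (s g (z : N)) = s g (z : N)
      intro h hh
      have h1 : s h (s g (z : N)) = s g (s (g⁻¹ * h * g) (z : N)) := by
        rw [← AlgEquiv.mul_apply, ← AlgEquiv.mul_apply, ← map_mul, ← map_mul]
        congr 2
        group
      rw [h1, z.2 _ (conj_mem φ g hh)])

theorem tau_coe (g : AbsGal k Ω) (z : fixF s φ) : ((tau s φ g z : fixF s φ) : N) = s g (z : N) :=
  rfl

/-- the elements of `fixM s` are in `fixF s φ` -/
noncomputable def incl : fixM s →+* fixF s φ where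
  toFun z := ⟨⟨z.1, z.2.1⟩, fun g _ => z.2.2 g⟩
  map_one' := rfl
  map_mul' _ _ := rfl
  map_zero' := rfl
  map_add' _ _ := rfl

omit [Normal k L] in
theorem incl_coe (z : fixM s) : (((incl s φ z : fixF s φ) : N) : Ω) = z := rfl

theorem tau_incl (g : AbsGal k Ω) (z : fixM s) : tau s φ g (incl s φ z) = incl s φ z :=
  Subtype.ext (z.2.2 g)

end tau

end RatAux

open RatAux

theorem stRat.{u, v, w} (h1 : StN.{u, v, w}) (h2 : StKum.{u, v, w}) : StRat.{u, v, w} := by
  intro p hp k K Ω _ _ _ _ _ _ _ _ _ htr L _ _ _ _ φ f s hs ι D hι hD huniq A hA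
  obtain ⟨hnorm, -, hcN, -, hroot, -⟩ := h1 k K Ω inferInstance inferInstance inferInstance
    inferInstance inferInstance inferInstance inferInstance inferInstance inferInstance f
  have hfix := (h2 k K Ω inferInstance inferInstance inferInstance inferInstance inferInstance
    inferInstance inferInstance inferInstance inferInstance (openExt k K Ω f) hcN s hs L
    inferInstance inferInstance inferInstance φ).1
  have hnL : Normal k L := IsGalois.to_normal
  have halg : Algebra.IsAlgebraic K Ω := IsAlgClosure.isAlgebraic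
  have hnΩ : Normal K Ω := IsAlgClosure.normal K Ω
  have hacΩ : IsAlgClosed Ω := IsAlgClosure.isAlgClosed K
  -- the action on constants
  have hτι : ∀ (g : AbsGal k Ω) (σ : L ≃ₐ[k] L), (∀ c, g (φ c) = φ (σ c)) → ∀ c,
      tau s φ g (ι c) = ι (σ c) := by
    intro g σ hσ c
    apply Subtype.ext
    apply Subtype.ext
    rw [tau_coe, hs.restrict g (φ c) _ (hι c), hσ, hι]
  -- the action on the integral elements
  have hτO : ∀ (g : AbsGal k Ω) (z : fixF s φ), z ∈ intO f s φ → tau s φ g z ∈ intO f s φ := by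
    intro g z hz B hB
    let σ : Ω ≃ₐ[K] Ω := (s g).liftNormal Ω
    have hσ : ∀ y : openExt k K Ω f, σ (y : Ω) = ((s g y : openExt k K Ω f) : Ω) :=
      fun y => AlgEquiv.liftNormal_commutes (s g) Ω y
    have hB' := hroot σ B (B.comap (σ : Ω →+* Ω)) (fun z => Iff.rfl) hB
    have h3 := hz _ hB'
    rw [ValuationSubring.mem_comap] at h3
    have h4 : (σ : Ω →+* Ω) (((z : openExt k K Ω f)) : Ω) =
        ((s g (z : openExt k K Ω f) : openExt k K Ω f) : Ω) := hσ _
    rw [h4] at h3
    exact h3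
  have hτU : ∀ (g : AbsGal k Ω) (u : fixF s φ), Ut (intO f s φ) u →
      Ut (intO f s φ) (tau s φ g u) := by
    rintro g u ⟨hu0, hu1, hu2⟩
    refine ⟨(_root_.map_ne_zero (tau s φ g)).2 hu0, hτO g u hu1, ?_⟩
    rw [← map_inv₀]
    exact hτO g _ hu2
  -- the classes
  have hτD : ∀ (g : AbsGal k Ω) (σ : L ≃ₐ[k] L), (∀ c, g (φ c) = φ (σ c)) → ∀ u,
      Ut (intO f s φ) u → Eqv p (D (tau s φ g u)) (σ (D u)) := by
    intro g σ hσ u hu
    obtain ⟨hd1, Y1, hY1⟩ := hD _ (hτU g u hu)
    obtain ⟨hd2, Y2, hY2⟩ := hD _ hu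
    have hp0 : p ≠ 0 := hp.out.ne_zero
    have hu' := hτU g u hu
    have e1 : tau s φ g u = ι (σ (D u)) * (tau s φ g Y2) ^ p := by
      conv_lhs => rw [hY2]
      rw [map_mul, map_pow, hτι g σ hσ]
    have hY1' : Y1 ≠ 0 := by
      rintro rfl
      apply hu'.1
      rw [hY1, zero_pow hp0, mul_zero]
    have hY2' : tau s φ g Y2 ≠ 0 := by
      intro h
      apply hu'.1
      rw [e1, h, zero_pow hp0, mul_zero]
    have hσd : σ (D u) ≠ 0 := (_root_.map_ne_zero σ).2 hd2
    have hισ : ι (σ (D u)) ≠ 0 := (_root_.map_ne_zero ι).2 hσd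
    have hW : (tau s φ g Y2 / Y1) ^ p = ι (D (tau s φ g u) / σ (D u)) := by
      rw [map_div₀, div_pow, div_eq_div_iff (pow_ne_zero _ hY1') hισ, mul_comm _ (ι _), ← e1]
      exact hY1
    set W : fixF s φ := tau s φ g Y2 / Y1 with hWdef
    have hW0 : W ≠ 0 := div_ne_zero hY2' hY1'
    have hWalg : ((W : openExt k K Ω f) : Ω) ∈ algebraicClosure k Ω := by
      have h3 : ((W : openExt k K Ω f) : Ω) ^ p =
          ((φ (D (tau s φ g u) / σ (D u)) : algebraicClosure k Ω) : Ω) := by
        rw [← hι, ← hW]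
        rfl
      rw [mem_algebraicClosure_iff]
      refine IsAlgebraic.of_pow (hp.out.pos) ?_
      rw [h3]
      exact mem_algebraicClosure_iff.1 (φ _).2
    obtain ⟨c, hc⟩ := hfix (W : openExt k K Ω f) W.2 hWalg
    have hWc : W = ι c := by
      apply Subtype.ext
      apply Subtype.ext
      rw [hc, hι]
    refine ⟨c, ?_, ?_⟩
    · rintro rfl
      apply hW0
      rw [hWc, map_zero]
    · rw [hWc, ← map_pow] at hW
      have h4 := ι.injective hW
      rw [h4, mul_div_cancel₀ _ hσd]
  -- stability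
  have hstab : ∀ g : AbsGal k Ω, A.comap (tau s φ g) = A := by
    intro g
    obtain ⟨σ, hσ⟩ := exists_sig φ g
    refine huniq _ _ ⟨fun c => ?_, fun z hz => ?_, fun u hu c hc hlt => ?_⟩ hA
    · rw [ValuationSubring.mem_comap, hτι g σ hσ]
      exact hA.const _
    · rw [ValuationSubring.mem_comap] at hz
      obtain ⟨c, hc⟩ := hA.res _ hz
      refine ⟨σ.symm c, ?_⟩
      rw [comap_lt_one, map_sub, hτι g σ hσ, AlgEquiv.apply_symm_apply]
      exact hc
    · rw [comap_lt_one, map_sub, hτι g σ hσ] at hlt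
      have h3 := hA.comp _ (hτU g u hu) (σ c) ((_root_.map_ne_zero σ).2 hc) hlt
      obtain ⟨z1, hz1, e1⟩ := hτD g σ hσ u hu
      obtain ⟨z2, hz2, e2⟩ := h3
      refine ⟨σ.symm (z2 / z1), (_root_.map_ne_zero σ.symm).2 (div_ne_zero hz2 hz1), ?_⟩
      apply σ.injective
      rw [map_mul, map_pow, AlgEquiv.apply_symm_apply, div_pow, mul_div_assoc', ← e2, e1,
        mul_div_assoc, div_self (pow_ne_zero _ hz1), mul_one]
  have hstab' : ∀ (g : AbsGal k Ω) (x : fixF s φ), A.valuation x < 1 →
      A.valuation (tau s φ g x) < 1 := by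
    intro g x hx
    rw [← comap_lt_one, hstab g]
    exact hx
  -- constants of valuation less than one
  have hconst : ∀ c : L, A.valuation (ι c) < 1 → c = 0 := by
    intro c hc
    by_contra h0
    rw [lt_one_iff] at hc
    rcases hc with hc | hc
    · exact h0 ((map_eq_zero ι).1 hc)
    · apply hc
      rw [← map_inv₀]
      exact hA.const _
  have hκ : ∀ c : k, incl s φ (algebraMap k (fixM s) c) = ι (algebraMap k L c) := by
    intro c
    apply Subtype.ext
    apply Subtype.ext
    rw [incl_coe, hι, φ.commutes]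
    rfl
  have hres : ∀ z : fixM s, incl s φ z ∈ A →
      ∃ c : k, A.valuation (incl s φ (z - algebraMap k (fixM s) c)) < 1 := by
    intro z hz
    obtain ⟨c, hc⟩ := hA.res _ hz
    have hcσ : ∀ σ : L ≃ₐ[k] L, σ c = c := by
      intro σ
      obtain ⟨g, hg⟩ := exists_extend φ (φ.comp σ.toAlgHom)
      have h3 := hstab' g _ hc
      rw [map_sub, tau_incl, hτι g σ hg] at h3
      have h4 : ι (σ c - c) = (incl s φ z - ι c) - (incl s φ z - ι (σ c)) := by
        rw [map_sub]
        ring
      have h5 : A.valuation (ι (σ c - c)) < 1 := by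
        rw [h4]
        exact (Valuation.map_sub _ _ _).trans_lt (max_lt hc h3)
      exact sub_eq_zero.1 (hconst _ h5)
    obtain ⟨c0, hc0⟩ := (InfiniteGalois.mem_range_algebraMap_iff_fixed (k := k) c).2 hcσ
    refine ⟨c0, ?_⟩
    rw [map_sub, hκ, hc0]
    exact hc
  refine ⟨A.comap (incl s φ), ?_, fun c => ?_, fun z hz => ?_⟩
  · intro htop
    have h3 : Algebra.IsAlgebraic k K := by
      refine ⟨fun x => ?_⟩
      obtain ⟨c, hc⟩ := hres (algebraMap K (fixM s) x) (by
        rw [← ValuationSubring.mem_comap, htop]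
        exact ValuationSubring.mem_top _)
      rw [← comap_lt_one, htop, lt_one_iff] at hc
      rcases hc with hc | hc
      · have h4 : x = algebraMap k K c := by
          rw [sub_eq_zero, IsScalarTower.algebraMap_apply k K (fixM s)] at hc
          exact (algebraMap K (fixM s)).injective hc
        rw [h4]
        exact isAlgebraic_algebraMap c
      · exact absurd (ValuationSubring.mem_top _) hc
    rw [trdeg_eq_zero] at htr
    exact zero_ne_one htr
  · rw [ValuationSubring.mem_comap, hκ]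
    exact hA.const _
  · rw [ValuationSubring.mem_comap] at hz
    obtain ⟨c, hc⟩ := hres z hz
    exact ⟨c, (comap_lt_one _ _ _).2 hc⟩

end Pool.Agent.Lib.MP_c385f6_ag.Semi
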