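import Mathlib
import Pool.Agent.Lib.MP_c385f6_ag.Semi.Rat
import Pool.Agent.Lib.MP_c385f6_ag.Semi.GCls

set_option autoImplicit false

/-!
Equivariance of the valuation ring given by a section, for extensions closed under `p`-th roots of
units.
-/

namespace Pool.Agent.Lib.MP_c385f6_ag.Semi

open Pool.Agent.Lib.MP_c385f6_ag.Cpl Polynomial RatAux

universe u v w

section
variable {k : Type u} {K : Type v} {Ω : Type w} [ik : Field k] [ic : CharZero k] [iK : Field K]
  [iO : Field Ω] [iakK : Algebra k K] [iakO : Algebra k Ω] [iaKO : Algebra K Ω]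
  [ist : IsScalarTower k K Ω] [ial : IsAlgClosure K Ω]
  {L : Type} [iL : Field L] [iLk : Algebra k L] [iLf : FiniteDimensional k L]
  [iLg : IsGalois k L]

/-- the action of `g` on a stable subextension -/
noncomputable def gtau {N : IntermediateField K Ω} (s : AbsGal k Ω →* (N ≃ₐ[K] N))
    (E : IntermediateField K N) (hE : ∀ g, ∀ z ∈ E, s g z ∈ E) (g : AbsGal k Ω) : E →+* E :=
  (((s g : N ≃ₐ[K] N) : N →+* N).comp (algebraMap E N)).codRestrict E
    (fun z => hE g z z.2)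

variable (p : ℕ) [hpf : Fact p.Prime]

/-- equivariance of the valuation ring -/
theorem grat (h1 : StN.{u, v, w}) (h2 : StKum.{u, v, w}) (φ : L →ₐ[k] algebraicClosure k Ω)
    (f : k[X]) {N : IntermediateField K Ω} (hN : ∀ c : algebraicClosure k Ω, (c : Ω) ∈ N)
    {s : AbsGal k Ω →* (N ≃ₐ[K] N)} (hs : IsSec k K Ω N s) (E : IntermediateField K N)
    (hEst : ∀ g, ∀ z ∈ E, s g z ∈ E) {ι : L →+* E} {D : E → L}
    (hι : ∀ c : L, ((ι c : N) : Ω) = (φ c : Ω))
    (hD : ∀ u : E, Ut (intE f E) u → D u ≠ 0 ∧ ∃ Y : N, (∀ g ∈ fixGrp φ, s g Y = Y) ∧ Y ≠ 0 ∧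
        ((u : N) : Ω) = (φ (D u) : Ω) * (Y : Ω) ^ p)
    (huniq : ∀ A A', Plc p ι (intE f E) D A → Plc p ι (intE f E) D A' → A = A')
    {A : ValuationSubring E} (hA : Plc p ι (intE f E) D A) :
    (∀ g, A.comap (gtau s E hEst g) = A) ∧
    ∀ z : E, z ∈ A → (∀ g, s g z = z) → ∃ c : k, A.valuation (z - ι (algebraMap k L c)) < 1 := by
  obtain ⟨-, -, -, -, hroot, -⟩ := h1 k K Ω ik ic iK iO iakK iakO iaKO ist ial f
  have hfix := (h2 k K Ω ik ic iK iO iakK iakO iaKO ist ial N hN s hs L iL iLk iLf φ).1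
  have hnL : Normal k L := IsGalois.to_normal
  have halg : Algebra.IsAlgebraic K Ω := IsAlgClosure.isAlgebraic
  have hnΩ : Normal K Ω := IsAlgClosure.normal K Ω
  have hacΩ : IsAlgClosed Ω := IsAlgClosure.isAlgClosed K
  have hp0 : p ≠ 0 := hpf.out.ne_zero
  have hcoe : ∀ g (z : E), ((gtau s E hEst g z : E) : N) = s g (z : N) := fun g z => rfl
  -- the action on constants
  have hτι : ∀ (g : AbsGal k Ω) (σ : L ≃ₐ[k] L), (∀ c, g (φ c) = φ (σ c)) → ∀ c,
      gtau s E hEst g (ι c) = ι (σ c) := by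
    intro g σ hσ c
    apply Subtype.ext
    apply Subtype.ext
    rw [hcoe, hs.restrict g (φ c) _ (hι c), hσ, hι]
  -- the action on the integral elements
  have hτO : ∀ (g : AbsGal k Ω) (z : E), z ∈ intE f E → gtau s E hEst g z ∈ intE f E := by
    intro g z hz B hB
    let σ : Ω ≃ₐ[K] Ω := (s g).liftNormal Ω
    have hσ : ∀ y : N, σ (y : Ω) = ((s g y : N) : Ω) :=
      fun y => AlgEquiv.liftNormal_commutes (s g) Ω y
    have hB' := hroot σ B (B.comap (σ : Ω →+* Ω)) (fun z => Iff.rfl) hB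
    have h3 := hz _ hB'
    rw [ValuationSubring.mem_comap] at h3
    have h4 : (σ : Ω →+* Ω) ((z : N) : Ω) = ((s g (z : N) : N) : Ω) := hσ _
    rw [h4] at h3
    exact h3
  have hτU : ∀ (g : AbsGal k Ω) (u : E), Ut (intE f E) u → Ut (intE f E) (gtau s E hEst g u) := by
    rintro g u ⟨hu0, hu1, hu2⟩
    refine ⟨(_root_.map_ne_zero (gtau s E hEst g)).2 hu0, hτO g u hu1, ?_⟩
    rw [← map_inv₀]
    exact hτO g _ hu2
  -- the classes
  have hτD : ∀ (g : AbsGal k Ω) (σ : L ≃ₐ[k] L), (∀ c, g (φ c) = φ (σ c)) → ∀ u,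
      Ut (intE f E) u → Eqv p (D (gtau s E hEst g u)) (σ (D u)) := by
    intro g σ hσ u hu
    obtain ⟨hd1, Y1, hYf1, hY10, hY1⟩ := hD _ (hτU g u hu)
    obtain ⟨hd2, Y2, hYf2, hY20, hY2⟩ := hD _ hu
    have hσd : σ (D u) ≠ 0 := (_root_.map_ne_zero σ).2 hd2
    refine guniq φ hfix hp0 hd1 hσd hYf1 (Y' := s g Y2) ?_ hY10
      ((_root_.map_ne_zero (s g)).2 hY20) ?_
    · intro h hh
      have h1 : s h (s g Y2) = s g (s (g⁻¹ * h * g) Y2) := by
        rw [← AlgEquiv.mul_apply, ← AlgEquiv.mul_apply, ← map_mul, ← map_mul]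
        congr 2
        group
      rw [h1, hYf2 _ (conj_mem φ g hh)]
    · rw [← hY1, hcoe]
      have e1 : (u : N) = ⟨(φ (D u) : Ω), hN _⟩ * Y2 ^ p := Subtype.ext hY2
      rw [e1, map_mul, map_pow]
      have e2 : s g ⟨(φ (D u) : Ω), hN _⟩ = ⟨(φ (σ (D u)) : Ω), hN _⟩ := by
        apply Subtype.ext
        rw [hs.restrict g (φ (D u)) _ rfl, hσ]
      rw [e2]
      rfl
  -- stability
  have hstab : ∀ g : AbsGal k Ω, A.comap (gtau s E hEst g) = A := by
    intro g
    obtain ⟨σ, hσ⟩ := exists_sig φ g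
    refine huniq _ _ ⟨fun c => ?_, fun z hz => ?_, fun u hu c hc hlt => ?_⟩ hA
    · rw [ValuationSubring.mem_comap, hτι g σ hσ]
      exact hA.const _
    · rw [ValuationSubring.mem_comap] at hz
      obtain ⟨c, hc⟩ := hA.res _ hz
      refine ⟨σ.symm c, ?_⟩
      rw [comap_lt_one, map_sub, hτι g σ hσ, AlgEquiv.apply_symm_apply]
      exact hc
    · rw [comap_lt_one, map_sub, hτι g σ hσ] at hlt
      have h3 := hA.comp _ (hτU g u hu) (σ c) ((_root_.map_ne_zero σ).2 hc) hlt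
      obtain ⟨z1, hz1, e1⟩ := hτD g σ hσ u hu
      obtain ⟨z2, hz2, e2⟩ := h3
      refine ⟨σ.symm (z2 / z1), (_root_.map_ne_zero σ.symm).2 (div_ne_zero hz2 hz1), ?_⟩
      apply σ.injective
      rw [map_mul, map_pow, AlgEquiv.apply_symm_apply, div_pow, mul_div_assoc', ← e2, e1,
        mul_div_assoc, div_self (pow_ne_zero _ hz1), mul_one]
  refine ⟨hstab, fun z hz hzf => ?_⟩
  have hstab' : ∀ (g : AbsGal k Ω) (x : E), A.valuation x < 1 →
      A.valuation (gtau s E hEst g x) < 1 := by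
    intro g x hx
    rw [← comap_lt_one, hstab g]
    exact hx
  -- constants of valuation less than one
  have hconst : ∀ c : L, A.valuation (ι c) < 1 → c = 0 := by
    intro c hc
    by_contra h0
    rw [lt_one_iff] at hc
    rcases hc with hc | hc
    · exact h0 ((map_eq_zero ι).1 hc)
    · apply hc
      rw [← map_inv₀]
      exact hA.const _
  obtain ⟨c, hc⟩ := hA.res _ hz
  have hzτ : ∀ g, gtau s E hEst g z = z := fun g => Subtype.ext (hzf g)
  have hcσ : ∀ σ : L ≃ₐ[k] L, σ c = c := by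
    intro σ
    obtain ⟨g, hg⟩ := exists_extend φ (φ.comp σ.toAlgHom)
    have h3 := hstab' g _ hc
    rw [map_sub, hzτ, hτι g σ hg] at h3
    have h4 : ι (σ c - c) = (z - ι c) - (z - ι (σ c)) := by
      rw [map_sub]
      ring
    have h5 : A.valuation (ι (σ c - c)) < 1 := by
      rw [h4]
      exact (Valuation.map_sub _ _ _).trans_lt (max_lt hc h3)
    exact sub_eq_zero.1 (hconst _ h5)
  obtain ⟨c0, hc0⟩ := (InfiniteGalois.mem_range_algebraMap_iff_fixed (k := k) c).2 hcσ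
  refine ⟨c0, ?_⟩
  rw [hc0]
  exact hc

end

end Pool.Agent.Lib.MP_c385f6_ag.Semi
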