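import Mathlib
import Pool.Agent.Lib.MP_c385f6_ag.Semi.Stmts
import Pool.Agent.Lib.MP_c385f6_ag.Semi.GBase

set_option autoImplicit false

/-!
Adjunction of `p`-th roots of units.
-/

namespace Pool.Agent.Lib.MP_c385f6_ag.Semi

open Pool.Agent.Lib.MP_c385f6_ag.Cpl Polynomial IntermediateField

universe u v w

section
variable {k : Type u} {K : Type v} {Ω : Type w} [ik : Field k] [ic : CharZero k] [iK : Field K]
  [iO : Field Ω] [iakK : Algebra k K] [iakO : Algebra k Ω] [iaKO : Algebra K Ω]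
  [ist : IsScalarTower k K Ω] [ial : IsAlgClosure K Ω]

/-- an intermediate field generated by a stable set is normal -/
theorem normal_adjoin [Normal K Ω] {S : Set Ω} (hS : ∀ σ : Ω ≃ₐ[K] Ω, ∀ z ∈ S, σ z ∈ adjoin K S) :
    Normal K (adjoin K S) := by
  rw [IntermediateField.normal_iff_forall_map_le']
  intro σ
  rw [IntermediateField.adjoin_map, IntermediateField.adjoin_le_iff]
  rintro _ ⟨z, hz, rfl⟩
  exact hS σ z hz

omit ic ist ial in
theorem apply_mem_of_normal [Normal K Ω] {N : IntermediateField K Ω} (hN : Normal K N)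
    (σ : Ω ≃ₐ[K] Ω) {z : Ω} (hz : z ∈ N) : σ z ∈ N := by
  rw [IntermediateField.normal_iff_forall_map_le'] at hN
  exact hN σ ⟨z, hz, rfl⟩

theorem isUnitAway_apply (h1 : StN.{u, v, w}) {f : k[X]} {z : Ω} (hz : IsUnitAway K f z)
    (σ : Ω ≃ₐ[K] Ω) : IsUnitAway K f (σ z) := by
  intro B hB
  obtain ⟨-, -, -, -, hroot, -⟩ := h1 k K Ω ik ic iK iO iakK iakO iaKO ist ial f
  have hB' := hroot σ B (B.comap (σ : Ω →+* Ω)) (fun z => Iff.rfl) hB
  have h2 := hz _ hB'
  have h3 : ∀ x : Ω, (B.comap (σ : Ω →+* Ω)).valuation x ≤ 1 ↔ B.valuation (σ x) ≤ 1 := by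
    intro x
    rw [ValuationSubring.valuation_le_one_iff, ValuationSubring.valuation_le_one_iff]
    exact Iff.rfl
  have hz0 : z ≠ 0 := by
    rintro rfl
    rw [map_zero] at h2
    exact zero_ne_one h2
  have h4 : B.valuation (σ z) ≤ 1 := (h3 z).1 h2.le
  have h5 : B.valuation (σ z⁻¹) ≤ 1 := (h3 _).1 (by rw [map_inv₀, h2, inv_one])
  rw [map_inv₀, map_inv₀] at h5
  have h6 : B.valuation (σ z) ≠ 0 := (Valuation.ne_zero_iff _).2 ((map_ne_zero σ).2 hz0)
  exact le_antisymm h4 ((inv_le_one₀ (zero_lt_iff.2 h6)).1 h5)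

/-- properties kept by `rootExt` -/
theorem rootExt_props (h1 : StN.{u, v, w}) {p : ℕ} (hp : p ≠ 0) {f : k[X]}
    {N : IntermediateField K Ω} (hN : Normal K N) (hle : N ≤ openExt k K Ω f) :
    Normal K (rootExt p f N) ∧ N ≤ rootExt p f N ∧ rootExt p f N ≤ openExt k K Ω f := by
  have hnΩ : Normal K Ω := IsAlgClosure.normal K Ω
  obtain ⟨-, -, -, hroot, -, -⟩ := h1 k K Ω ik ic iK iO iakK iakO iaKO ist ial f
  refine ⟨normal_adjoin ?_, ?_, ?_⟩
  · rintro σ z (hz | ⟨hz, hz'⟩)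
    · exact IntermediateField.subset_adjoin K _ (Or.inl (apply_mem_of_normal hN σ hz))
    · refine IntermediateField.subset_adjoin K _ (Or.inr ⟨?_, ?_⟩)
      · rw [← map_pow]
        exact apply_mem_of_normal hN σ hz
      · rw [← map_pow]
        exact isUnitAway_apply h1 hz' σ
  · intro z hz
    exact IntermediateField.subset_adjoin K _ (Or.inl hz)
  · unfold rootExt
    rw [IntermediateField.adjoin_le_iff]
    rintro z (hz | ⟨hz, hz'⟩)
    · exact hle hz
    · exact hroot p hp z (hle hz) hz'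

/-- properties of the extension generated by the constants -/
theorem constExt_props (h1 : StN.{u, v, w}) (f : k[X]) :
    Normal K (constExt k K Ω) ∧ (∀ c : algebraicClosure k Ω, (c : Ω) ∈ constExt k K Ω) ∧
      constExt k K Ω ≤ openExt k K Ω f := by
  have hnΩ : Normal K Ω := IsAlgClosure.normal K Ω
  obtain ⟨-, -, hc, -, -, -⟩ := h1 k K Ω ik ic iK iO iakK iakO iaKO ist ial f
  refine ⟨normal_adjoin ?_, fun c => IntermediateField.subset_adjoin K _ c.2, ?_⟩
  · intro σ z hz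
    refine IntermediateField.subset_adjoin K _ ?_
    have h2 : z ∈ algebraicClosure k Ω := hz
    have h3 : σ z ∈ algebraicClosure k Ω := by
      rw [mem_algebraicClosure_iff] at h2 ⊢
      exact IsAlgebraic.algHom (σ.toAlgHom.restrictScalars k) h2
    exact h3
  · unfold constExt
    rw [IntermediateField.adjoin_le_iff]
    intro z hz
    exact hc ⟨z, hz⟩

/-- `openExt` is closed under roots of units -/
theorem rootClosed_openExt (h1 : StN.{u, v, w}) {p : ℕ} (hp : p ≠ 0) (f : k[X]) :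
    RootClosed p f (openExt k K Ω f) := by
  obtain ⟨hn, -, hc, hroot, -, -⟩ := h1 k K Ω ik ic iK iO iakK iakO iaKO ist ial f
  exact ⟨hn, hc, le_refl _, hroot p hp⟩

omit ic ist ial iakK in
theorem pow_apply_of_le {p n m : ℕ} (h : n ≤ m)
    {g : Ω ≃ₐ[K] Ω} {z : Ω} (hz : (g ^ (p ^ n)) z = z) : (g ^ (p ^ m)) z = z := by
  obtain ⟨d, rfl⟩ := Nat.exists_eq_add_of_le h
  have h1 : g ^ (p ^ n) ∈ MulAction.stabilizer (Ω ≃ₐ[K] Ω) z := hz
  have h2 := pow_mem h1 (p ^ d)
  rw [← pow_mul, ← pow_add] at h2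
  exact h2

variable (k) in
/-- the field `maxProP` -/
def proPField (p : ℕ) (N : IntermediateField K Ω) : IntermediateField K Ω where
  carrier := {z | z ∈ N ∧ ∃ n : ℕ, ∀ g : Ω ≃ₐ[K] Ω,
    (∀ c : algebraicClosure k Ω, g (c : Ω) = c) → (g ^ (p ^ n)) z = z}
  mul_mem' := by
    rintro a b ⟨ha, n, hn⟩ ⟨hb, m, hm⟩
    refine ⟨mul_mem ha hb, max n m, fun g hg => ?_⟩
    rw [map_mul, pow_apply_of_le (le_max_left n m) (hn g hg),
      pow_apply_of_le (le_max_right n m) (hm g hg)]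
  add_mem' := by
    rintro a b ⟨ha, n, hn⟩ ⟨hb, m, hm⟩
    refine ⟨add_mem ha hb, max n m, fun g hg => ?_⟩
    rw [map_add, pow_apply_of_le (le_max_left n m) (hn g hg),
      pow_apply_of_le (le_max_right n m) (hm g hg)]
  algebraMap_mem' := fun x => ⟨N.algebraMap_mem x, 0, fun g _ => AlgEquiv.commutes _ x⟩
  inv_mem' := by
    rintro a ⟨ha, n, hn⟩
    exact ⟨inv_mem ha, n, fun g hg => by rw [map_inv₀, hn g hg]⟩

omit ic iakK ist ial in
theorem mem_maxProP {p : ℕ} {N : IntermediateField K Ω} {z : Ω} : z ∈ maxProP k K Ω p N ↔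
    z ∈ N ∧ ∃ n : ℕ, ∀ g : Ω ≃ₐ[K] Ω,
      (∀ c : algebraicClosure k Ω, g (c : Ω) = c) → (g ^ (p ^ n)) z = z := by
  have h : maxProP k K Ω p N = proPField k p N :=
    le_antisymm (IntermediateField.adjoin_le_iff.2 fun z hz => hz)
      fun z hz => IntermediateField.subset_adjoin K _ hz
  rw [h]
  exact Iff.rfl

/-- the maximal pro-`p` extension is closed under roots of units -/
theorem RootClosed.maxProP {p : ℕ} (hp : p ≠ 0) {f : k[X]} {N : IntermediateField K Ω}
    (hN : RootClosed p f N) : RootClosed p f (maxProP k K Ω p N) := by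
  have hnΩ : Normal K Ω := IsAlgClosure.normal K Ω
  refine ⟨?_, ?_, fun z hz => hN.le (mem_maxProP.1 hz).1, ?_⟩
  · rw [IntermediateField.normal_iff_forall_map_le']
    rintro σ _ ⟨z, hz₀, rfl⟩
    obtain ⟨hz, n, hzn⟩ := mem_maxProP.1 hz₀
    refine mem_maxProP.2 ⟨apply_mem_of_normal hN.normal σ hz, n, fun g hg => ?_⟩
    have h2 : ∀ c : algebraicClosure k Ω, (σ⁻¹ * g * σ) (c : Ω) = c := by
      intro c
      have h3 : σ (c : Ω) ∈ algebraicClosure k Ω := by
        have h4 := c.2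
        rw [mem_algebraicClosure_iff] at h4 ⊢
        exact IsAlgebraic.algHom (σ.toAlgHom.restrictScalars k) h4
      show σ⁻¹ (g (σ (c : Ω))) = c
      have h5 : g (σ (c : Ω)) = σ (c : Ω) := hg ⟨σ (c : Ω), h3⟩
      rw [h5]
      exact σ.symm_apply_apply _
    have h3 := hzn (σ⁻¹ * g * σ) h2
    have h4 : (σ⁻¹ * g * σ) ^ (p ^ n) = σ⁻¹ * g ^ (p ^ n) * σ := by
      have h5 := conj_pow (i := p ^ n) (a := σ⁻¹) (b := g)
      rwa [inv_inv] at h5
    rw [h4] at h3
    have h5 : σ⁻¹ ((g ^ (p ^ n)) (σ z)) = z := h3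
    have h6 : σ (σ⁻¹ ((g ^ (p ^ n)) (σ z))) = (g ^ (p ^ n)) (σ z) := σ.apply_symm_apply _
    rw [h5] at h6
    exact h6.symm
  · intro c
    refine mem_maxProP.2 ⟨hN.const c, 0, fun g hg => ?_⟩
    rw [pow_zero, pow_one]
    exact hg c
  · intro y hy₀ hy'
    obtain ⟨hy, n, hyn⟩ := mem_maxProP.1 hy₀
    refine mem_maxProP.2 ⟨hN.root y hy hy', n + 1, fun g hg => ?_⟩
    rcases eq_or_ne y 0 with rfl | hy0
    · exact map_zero _
    have hh := hyn g hg
    rw [pow_succ, pow_mul]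
    set h := g ^ (p ^ n) with hdef
    have h2 : (h y / y) ^ p = 1 := by
      rw [div_pow, ← map_pow, hh, div_self (pow_ne_zero _ hy0)]
    have h3 : h y / y ∈ algebraicClosure k Ω := by
      rw [mem_algebraicClosure_iff]
      refine ⟨Polynomial.X ^ p - Polynomial.C 1, (Polynomial.monic_X_pow_sub_C 1 hp).ne_zero, ?_⟩
      simp [h2]
    have h4 : ∀ c : algebraicClosure k Ω, h (c : Ω) = c := by
      intro c
      have h5 : g ∈ MulAction.stabilizer (Ω ≃ₐ[K] Ω) (c : Ω) := hg c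
      exact pow_mem h5 (p ^ n)
    have h5 : ∀ j : ℕ, (h ^ j) y = (h y / y) ^ j * y := by
      intro j
      induction j with
      | zero => rw [pow_zero, pow_zero, one_mul]; rfl
      | succ j ih =>
        have h6 : (h ^ (j + 1)) y = h ((h ^ j) y) := by
          rw [pow_succ']
          rfl
        have h7 : h (h y / y) = h y / y := h4 ⟨_, h3⟩
        rw [h6, ih, map_mul, map_pow, h7, pow_succ, mul_assoc, div_mul_cancel₀ _ hy0]
    rw [h5, h2, one_mul]

variable (K Ω) in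
/-- iterated adjunction of roots of units -/
def rootTower (p : ℕ) (f : k[X]) : ℕ → IntermediateField K Ω
  | 0 => constExt k K Ω
  | n + 1 => rootExt p f (rootTower p f n)

theorem rootTower_props (h1 : StN.{u, v, w}) {p : ℕ} (hp : p ≠ 0) (f : k[X]) (n : ℕ) :
    Normal K (rootTower K Ω p f n) ∧ rootTower K Ω p f n ≤ openExt k K Ω f := by
  induction n with
  | zero =>
    obtain ⟨h2, -, h3⟩ := constExt_props (K := K) (Ω := Ω) h1 f
    exact ⟨h2, h3⟩
  | succ n ih =>
    obtain ⟨h2, -, h3⟩ := rootExt_props h1 hp ih.1 ih.2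
    exact ⟨h2, h3⟩

theorem rootTower_mono (h1 : StN.{u, v, w}) {p : ℕ} (hp : p ≠ 0) (f : k[X]) :
    Monotone (rootTower K Ω p f) := by
  refine monotone_nat_of_le_succ fun n => ?_
  obtain ⟨h2, h3⟩ := rootTower_props (K := K) (Ω := Ω) h1 hp f n
  exact (rootExt_props h1 hp h2 h3).2.1

/-- the union of the tower is closed under roots of units -/
theorem rootClosed_rootTower (h1 : StN.{u, v, w}) {p : ℕ} (hp : p ≠ 0) (f : k[X]) :
    RootClosed p f (⨆ n, rootTower K Ω p f n) := by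
  have hdir : Directed (· ≤ ·) (rootTower K Ω p f) := (rootTower_mono h1 hp f).directed_le
  have hmem : ∀ z : Ω, z ∈ (⨆ n, rootTower K Ω p f n) ↔ ∃ n, z ∈ rootTower K Ω p f n := by
    intro z
    rw [← SetLike.mem_coe, IntermediateField.coe_iSup_of_directed hdir, Set.mem_iUnion]
    rfl
  have hnΩ : Normal K Ω := IsAlgClosure.normal K Ω
  refine ⟨?_, ?_, ?_, ?_⟩
  · rw [IntermediateField.normal_iff_forall_map_le']
    rintro σ _ ⟨z, hz, rfl⟩
    obtain ⟨n, hn⟩ := (hmem z).1 hz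
    exact (hmem _).2 ⟨n, apply_mem_of_normal (rootTower_props h1 hp f n).1 σ hn⟩
  · intro c
    exact (hmem _).2 ⟨0, (constExt_props h1 f).2.1 c⟩
  · exact iSup_le fun n => (rootTower_props h1 hp f n).2
  · intro y hy hy'
    obtain ⟨n, hn⟩ := (hmem _).1 hy
    exact (hmem _).2 ⟨n + 1, IntermediateField.subset_adjoin K _ (Or.inr ⟨hn, hy'⟩)⟩

end

end Pool.Agent.Lib.MP_c385f6_ag.Semi
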