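import Mathlib
import Pool.Agent.Lib.MP_c385f6_ag.Semi.GRat
import Pool.Agent.Lib.MP_c385f6_ag.Semi.GCmp
import Pool.Agent.Lib.MP_c385f6_ag.Semi.RootExt
import Pool.Agent.Lib.MP_c385f6_ag.PlaceSection

set_option autoImplicit false

/-!
Assembly of the theorem on sections, for extensions closed under `p`-th roots of units.
-/

namespace Pool.Agent.Lib.MP_c385f6_ag.Semi

open Pool.Agent.Lib.MP_c385f6_ag.Cpl Polynomial IntermediateField

universe u v w

/-- all modules -/
structure Mods : Prop where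
  lf : StLF
  comp : Bc.StComp.{0}
  vals : StV.{w}
  pl : StPl.{w}
  un : StUn.{w}
  exl : StExL.{u}
  nn : StN.{u, v, w}
  kum : StKum.{u, v, w}
  stb : StStb.{u, v, w}
  dns : StDns.{u, v, w}
  res : StRes.{u, v, w}
  tr : StTr.{w, w}
  ext : StExt.{u, v, w}
  sct : StSct.{u, v, w}
  cnj : StCnj.{u, v, w}

section
variable {k : Type u} {K : Type v} {Ω : Type w} [ik : Field k] [ic : CharZero k] [iK : Field K]
  [iO : Field Ω] [iakK : Algebra k K] [iakO : Algebra k Ω] [iaKO : Algebra K Ω]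
  [ist : IsScalarTower k K Ω] [ial : IsAlgClosure K Ω]

theorem exists_transc (htr : Algebra.trdeg k K = 1) : ∃ x : K, Transcendental k x := by
  by_contra h
  push Not at h
  have h1 : Algebra.IsAlgebraic k K := ⟨fun x => not_not.1 (h x)⟩
  rw [trdeg_eq_zero_iff.2 h1] at htr
  exact zero_ne_one htr

/-- a valuation ring with residue field `k` is a rational place -/
theorem rational_of_res (htr : Algebra.trdeg k K = 1) {A : ValuationSubring K}
    (hc : ∀ c : k, algebraMap k K c ∈ A)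
    (hres : ∀ z ∈ A, ∃ c : k, A.valuation (z - algebraMap k K c) < 1) :
    IsRationalPlace k K A := by
  refine ⟨?_, hc, hres⟩
  intro htop
  obtain ⟨x, hx⟩ := exists_transc (K := K) htr
  obtain ⟨c, hc⟩ := hres x (by rw [htop]; trivial)
  rw [valuation_lt_one_iff_mem] at hc
  rcases hc with hc | hc
  · apply hx
    rw [sub_eq_zero.1 hc]
    exact isAlgebraic_algebraMap c
  · apply hc
    rw [htop]
    trivial

/-- a rational place of the field fixed by a section restricts to a rational place of `K` -/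
theorem rational_of_fixM (htr : Algebra.trdeg k K = 1) {N : IntermediateField K Ω}
    {s : AbsGal k Ω →* (N ≃ₐ[K] N)} {A : ValuationSubring (fixM s)}
    (hA : IsRationalPlace k (fixM s) A) {B : ValuationSubring N}
    (hB : ∀ (z : N) (h : (z : Ω) ∈ fixM s), z ∈ B ↔ (⟨z, h⟩ : fixM s) ∈ A) :
    IsRationalPlace k K (B.comap (algebraMap K N)) := by
  have hmem : ∀ x : K, x ∈ B.comap (algebraMap K N) ↔ algebraMap K (fixM s) x ∈ A := by
    intro x
    have h1 : ((algebraMap K N x : N) : Ω) ∈ fixM s := (fixM s).algebraMap_mem x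
    rw [ValuationSubring.mem_comap, hB _ h1]
    rfl
  have hlt : ∀ x : K, A.valuation (algebraMap K (fixM s) x) < 1 →
      (B.comap (algebraMap K N)).valuation x < 1 := by
    intro x hx
    rw [valuation_lt_one_iff_mem] at hx ⊢
    rcases hx with hx | hx
    · left
      exact (map_eq_zero _).1 hx
    · right
      rw [hmem, map_inv₀]
      exact hx
  have hconst : ∀ c : k, algebraMap k K c ∈ B.comap (algebraMap K N) := by
    intro c
    rw [hmem]
    have h1 := hA.const_mem c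
    rwa [IsScalarTower.algebraMap_apply k K (fixM s)] at h1
  refine rational_of_res htr hconst fun z hz => ?_
  obtain ⟨c, hc⟩ := hA.residue _ ((hmem z).1 hz)
  refine ⟨c, hlt _ ?_⟩
  rw [map_sub, ← IsScalarTower.algebraMap_apply k K (fixM s)]
  exact hc

variable (p : ℕ) [hp : Fact p.Prime] [iA : Algebra ℚ_[p] k] [iD : FiniteDimensional ℚ_[p] k]

include hp iA iD in
/-- the field `L` and the local data -/
theorem exists_local (M : Mods.{u, v, w}) (hac : IsAlgClosed Ω) (f : k[X]) (hf : f.natDegree ≠ 0) :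
    ∃ (L F : Type) (_ : Field L) (_ : Field F) (_ : Algebra k L) (_ : FiniteDimensional k L)
      (_ : IsGalois k L) (S : LF p L F) (ζ : L), IsPrimitiveRoot ζ p ∧ (∃ r : L, aeval r f = 0) ∧
      0 < S.v (p : L) ∧ (∀ x y : L, x ≠ 0 → y ≠ 0 → NR p x y → S.h x y = 0) ∧
      Bc.Comp.{0} L S ∧ Nonempty (L →ₐ[k] algebraicClosure k Ω) := by
  have hack : IsAlgClosed (algebraicClosure k Ω) := IsAlgClosure.isAlgClosed k
  obtain ⟨L, iL, iLk, iLp, iLt, hfin, hfinp, hgal, ⟨ζ, hζ⟩, hr⟩ := M.exl p hp k ik iA iD f hf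
  obtain ⟨F, iF, S, -, hNR, -, -, hv⟩ := M.lf p hp L iL iLp hfinp ζ hζ
  have hcomp : Bc.Comp.{0} L S :=
    M.comp p hp L L F iL iL iF iLp hfinp (Algebra.id L) inferInstance S hv
  exact ⟨L, F, iL, iF, iLk, hfin, hgal, S, ζ, hζ, hr, hv,
    fun x y hx hy h => (hNR x y hx hy).2 h, hcomp, ⟨IsAlgClosed.lift⟩⟩

variable {L F : Type} [iL : Field L] [iF : Field F] [iLk : Algebra k L]
  [iLf : FiniteDimensional k L] [iLg : IsGalois k L]

/-- the data given by a section -/
theorem exists_data (M : Mods.{u, v, w}) (htr : Algebra.trdeg k K = 1) (S : LF p L F)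
    (hcomp : Bc.Comp.{0} L S) (φ : L →ₐ[k] algebraicClosure k Ω) (f : k[X])
    (hv : 0 < S.v (p : L)) {ζ : L} (hζ : IsPrimitiveRoot ζ p) (hr : ∃ r : L, aeval r f = 0)
    (hNR : ∀ x y : L, x ≠ 0 → y ≠ 0 → NR p x y → S.h x y = 0)
    {N : IntermediateField K Ω} (hN : ∀ c : algebraicClosure k Ω, (c : Ω) ∈ N)
    {s : AbsGal k Ω →* (N ≃ₐ[K] N)} (hs : IsSec k K Ω N s) (E : IntermediateField K N)
    (hEs : ∀ z ∈ E, ∀ g ∈ fixGrp φ, s g z = z)
    (hEc : ∀ c : L, (⟨(φ c : Ω), hN (φ c)⟩ : N) ∈ E)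
    (hroot : ∀ (z : N) (y : Ω), z ∈ E → (z : Ω) = y ^ p → IsUnitAway K f (y ^ p) → y ∈ N)
    (hroot' : ∀ (z : N) (y : Ω), z ∈ E → (z : Ω) = y ^ p → IsUnitAway K f (y ^ p) →
      IsUnitAway K f (1 - y ^ p) → ∀ ρ, ρ ^ p = 1 - y → ρ ∈ N) :
    ∃ (ι : L →+* E) (D : E → L), (∀ c : L, ((ι c : N) : Ω) = (φ c : Ω)) ∧
      (∀ u : E, Ut (intE f E) u → D u ≠ 0 ∧ ∃ Y : N, (∀ g ∈ fixGrp φ, s g Y = Y) ∧ Y ≠ 0 ∧
        ((u : N) : Ω) = (φ (D u) : Ω) * (Y : Ω) ^ p) ∧
      (∀ A A', Plc p ι (intE f E) D A → Plc p ι (intE f E) D A' → A = A') ∧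
      ∃ A, Plc p ι (intE f E) D A := by
  obtain ⟨ι, D, hι, hL, hD⟩ := gcls p S M.kum M.stb M.dns htr φ f hv hζ hr hNR hN hs E hEs hEc
    hroot hroot'
  have hV := M.vals p hp L F iL iF S E inferInstance ι (intE f E) D hcomp hL
  exact ⟨ι, D, hι, hD, fun A A' => M.un p hp L F iL iF S E inferInstance ι (intE f E) D hL hV A A',
    M.pl p hp L F iL iF S E inferInstance ι (intE f E) D hL hV⟩

include hp iA iD in
/-- a section comes from a unique rational place -/
theorem exists_unique_place (M : Mods.{u, v, w}) (htr : Algebra.trdeg k K = 1) (f : k[X])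
    (hf : f.natDegree ≠ 0) (h0 : ∀ c : k, f.eval c ≠ 0) {N : IntermediateField K Ω}
    (hN : RootClosed p f N) {s : AbsGal k Ω →* (N ≃ₐ[K] N)} (hs : IsSec k K Ω N s) :
    ∃! A : ValuationSubring K, IsRationalPlace k K A ∧ SecAt s A := by
  have hac : IsAlgClosed Ω := IsAlgClosure.isAlgClosed K
  have hp0 : p ≠ 0 := hp.out.ne_zero
  obtain ⟨L, F, iL, iF, iLk, iLf, iLg, S, ζ, hζ, hr, hv, hNR, hcomp, ⟨φ⟩⟩ :=
    exists_local p M hac f hf
  obtain ⟨ι, D, hι, hD, huni, A, hA⟩ := exists_data p M htr S hcomp φ f hv hζ hr hNR hN.const hs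
    (fixF s φ) (fun z hz => hz) (fun c g hg => by
      apply Subtype.ext
      rw [hs.restrict g (φ c) ⟨(φ c : Ω), hN.const (φ c)⟩ rfl, (mem_fixGrp φ).1 hg c])
    (fun z y hz hzy hy => hN.root y (by rw [← hzy]; exact z.2) hy)
    (fun z y hz hzy hy hy' ρ hρ => by
      have h1 : y ∈ N := hN.root y (by rw [← hzy]; exact z.2) hy
      refine hN.root ρ ?_ ?_
      · rw [hρ]
        exact sub_mem (one_mem _) h1
      · rw [hρ]
        exact isUnitAway_one_sub p hp0 hy hy')
  -- the place of the field fixed by the section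
  have hEst : ∀ g, ∀ z ∈ fixF s φ, s g z ∈ fixF s φ := fun g z hz =>
    (RatAux.tau s φ g ⟨z, hz⟩).2
  obtain ⟨hst, hres⟩ := grat p M.nn M.kum φ f hN.const hs (fixF s φ) hEst hι hD huni hA
  have hκ : ∀ c : k, RatAux.incl s φ (algebraMap k (fixM s) c) = ι (algebraMap k L c) := by
    intro c
    apply Subtype.ext
    apply Subtype.ext
    rw [RatAux.incl_coe, hι, φ.commutes]
    rfl
  have hA' : IsRationalPlace k (fixM s) (A.comap (RatAux.incl s φ)) := by
    have hc : ∀ c : k, algebraMap k (fixM s) c ∈ A.comap (RatAux.incl s φ) := by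
      intro c
      rw [ValuationSubring.mem_comap, hκ]
      exact hA.const _
    have hr : ∀ z ∈ A.comap (RatAux.incl s φ), ∃ c : k,
        (A.comap (RatAux.incl s φ)).valuation (z - algebraMap k (fixM s) c) < 1 := by
      intro z hz
      obtain ⟨c, hc⟩ := hres (RatAux.incl s φ z) hz fun g => z.2.2 g
      refine ⟨c, ?_⟩
      rw [RatAux.comap_lt_one, map_sub, hκ]
      exact hc
    refine ⟨?_, hc, hr⟩
    intro htop
    obtain ⟨x, hx⟩ := exists_transc (K := K) htr
    obtain ⟨c, hc⟩ := hr (algebraMap K (fixM s) x) (by rw [htop]; trivial)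
    rw [valuation_lt_one_iff_mem] at hc
    rcases hc with hc | hc
    · apply hx
      have h4 : x = algebraMap k K c := by
        rw [sub_eq_zero, IsScalarTower.algebraMap_apply k K (fixM s)] at hc
        exact (algebraMap K (fixM s)).injective hc
      rw [h4]
      exact isAlgebraic_algebraMap c
    · apply hc
      rw [htop]
      trivial
  obtain ⟨B, hB, hBs⟩ := M.ext k K Ω ik ic iK iO iakK iakO iaKO ist ial N hN.normal hN.const s hs
    _ hA'
  have hrat := rational_of_fixM htr hA' hB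
  refine ⟨B.comap (algebraMap K N), ⟨hrat, B, rfl, hBs⟩, ?_⟩
  rintro A₁ ⟨hA₁, B₁, rfl, hB₁⟩
  have h1 := gcmp p M.nn M.res M.tr htr φ f h0 hN.const hs (fixF s φ) (fun z hz => hz) hι hD B₁
    hA₁ hB₁
  have h2 := gcmp p M.nn M.res M.tr htr φ f h0 hN.const hs (fixF s φ) (fun z hz => hz) hι hD B
    hrat hBs
  have h3 := huni _ _ h1 h2
  ext x
  have h4 : algebraMap K (fixF s φ) x ∈ B₁.comap (algebraMap (fixF s φ) N) ↔
      algebraMap K (fixF s φ) x ∈ B.comap (algebraMap (fixF s φ) N) := by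
    rw [h3]
  exact h4

end

end Pool.Agent.Lib.MP_c385f6_ag.Semi
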