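import Mathlib
import Pool.Agent.Lib.MP_c385f6_ag.Semi.GMain

set_option autoImplicit false

/-!
A section of the Galois group of a small extension gives a rational place.
-/

namespace Pool.Agent.Lib.MP_c385f6_ag.Semi

open Pool.Agent.Lib.MP_c385f6_ag.Cpl Polynomial IntermediateField

universe u v w

section
variable {k : Type u} {K : Type v} {Ω : Type w} [ik : Field k] [ic : CharZero k] [iK : Field K]
  [iO : Field Ω] [iakK : Algebra k K] [iakO : Algebra k Ω] [iaKO : Algebra K Ω]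
  [ist : IsScalarTower k K Ω] [ial : IsAlgClosure K Ω]
  (p : ℕ) [hp : Fact p.Prime] [iA : Algebra ℚ_[p] k] [iD : FiniteDimensional ℚ_[p] k]

omit hp iA iD in
theorem twoStep_props (h1 : StN.{u, v, w}) (hp0 : p ≠ 0) (f : k[X]) :
    Normal K (twoStep k K Ω p f) ∧ (∀ c : algebraicClosure k Ω, (c : Ω) ∈ twoStep k K Ω p f) ∧
      rootExt p f (constExt k K Ω) ≤ twoStep k K Ω p f ∧
      twoStep k K Ω p f ≤ openExt k K Ω f := by
  obtain ⟨n1, c1, l1⟩ := constExt_props (K := K) (Ω := Ω) h1 f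
  obtain ⟨n2, l2, l2'⟩ := rootExt_props h1 hp0 n1 l1
  obtain ⟨n3, l3, l3'⟩ := rootExt_props h1 hp0 n2 l2'
  exact ⟨n3, fun c => l3 (l2 (c1 c)), l3, l3'⟩

include hp iA iD in
/-- a section of the Galois group of the small extension gives a rational place -/
theorem exists_place_small (M : Mods.{u, v, w}) (htr : Algebra.trdeg k K = 1) (f : k[X])
    (hf : f.natDegree ≠ 0)
    {s : AbsGal k Ω →* (twoStep k K Ω p f ≃ₐ[K] twoStep k K Ω p f)}
    (hs : IsSec k K Ω (twoStep k K Ω p f) s) :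
    ∃ A : ValuationSubring K, IsRationalPlace k K A := by
  have hac : IsAlgClosed Ω := IsAlgClosure.isAlgClosed K
  have hp0 : p ≠ 0 := hp.out.ne_zero
  obtain ⟨hnor, hcN, hle, -⟩ := twoStep_props (K := K) (Ω := Ω) p M.nn hp0 f
  obtain ⟨L, F, iL, iF, iLk, iLf, iLg, S, ζ, hζ, hr, hv, hNR, hcomp, ⟨φ⟩⟩ :=
    exists_local p M hac f hf
  have hnL : Normal k L := IsGalois.to_normal
  let T : Set (twoStep k K Ω p f) := {z | ∃ c : L, (z : Ω) = (φ c : Ω)}
  let E : IntermediateField K (twoStep k K Ω p f) := adjoin K T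
  have hEs : ∀ z ∈ E, ∀ g ∈ fixGrp φ, s g z = z := by
    have h1 : E ≤ fixF s φ := by
      rw [IntermediateField.adjoin_le_iff]
      rintro z ⟨c, hc⟩ g hg
      apply Subtype.ext
      rw [hs.restrict g (φ c) z hc, (mem_fixGrp φ).1 hg c, hc]
    exact fun z hz => h1 hz
  have hEst : ∀ g, ∀ z ∈ E, s g z ∈ E := by
    intro g z hz
    have h1 : E.map (s g : twoStep k K Ω p f →ₐ[K] twoStep k K Ω p f) ≤ E := by
      rw [IntermediateField.adjoin_map, IntermediateField.adjoin_le_iff]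
      rintro _ ⟨z, ⟨c, hc⟩, rfl⟩
      obtain ⟨σ, hσ⟩ := RatAux.exists_sig φ g
      refine IntermediateField.subset_adjoin K T ⟨σ c, ?_⟩
      rw [← hσ]
      exact hs.restrict g (φ c) z hc
    exact h1 ⟨z, hz, rfl⟩
  have hEK : ∀ z ∈ E, (z : Ω) ∈ constExt k K Ω := by
    intro z hz
    have h1 : E.map (twoStep k K Ω p f).val ≤ constExt k K Ω := by
      rw [IntermediateField.adjoin_map, IntermediateField.adjoin_le_iff]
      rintro _ ⟨z, ⟨c, hc⟩, rfl⟩
      have h2 : ((twoStep k K Ω p f).val z : Ω) = (φ c : Ω) := hc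
      rw [h2]
      exact (constExt_props (K := K) (Ω := Ω) M.nn f).2.1 _
    exact h1 ⟨z, hz, rfl⟩
  have hone : ∀ (z : twoStep k K Ω p f) (y : Ω), z ∈ E → (z : Ω) = y ^ p →
      IsUnitAway K f (y ^ p) → y ∈ rootExt p f (constExt k K Ω) := by
    intro z y hz hzy hy
    refine IntermediateField.subset_adjoin K _ (Or.inr ⟨?_, hy⟩)
    rw [← hzy]
    exact hEK z hz
  obtain ⟨ι, D, hι, hD, huni, A, hA⟩ := exists_data p M htr S hcomp φ f hv hζ hr hNR hcN hs
    E hEs (fun c => IntermediateField.subset_adjoin K T ⟨c, rfl⟩)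
    (fun z y hz hzy hy => hle (hone z y hz hzy hy))
    (fun z y hz hzy hy hy' ρ hρ => by
      have h1 := hone z y hz hzy hy
      refine IntermediateField.subset_adjoin K _ (Or.inr ⟨?_, ?_⟩)
      · rw [hρ]
        exact sub_mem (one_mem _) h1
      · rw [hρ]
        exact isUnitAway_one_sub p hp0 hy hy')
  obtain ⟨-, hres⟩ := grat p M.nn M.kum φ f hcN hs E hEst hι hD huni hA
  have hκ : ∀ c : k, algebraMap K E (algebraMap k K c) = ι (algebraMap k L c) := by
    intro c
    apply Subtype.ext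
    apply Subtype.ext
    rw [hι, φ.commutes]
    exact (IsScalarTower.algebraMap_apply k K Ω c).symm
  refine ⟨A.comap (algebraMap K E), rational_of_res htr (fun c => ?_) fun z hz => ?_⟩
  · rw [ValuationSubring.mem_comap, hκ]
    exact hA.const _
  · obtain ⟨c, hc⟩ := hres (algebraMap K E z) hz fun g => (s g).commutes z
    refine ⟨c, ?_⟩
    rw [RatAux.comap_lt_one, map_sub, hκ]
    exact hc

end

end Pool.Agent.Lib.MP_c385f6_ag.Semi
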