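import Mathlib
import Pool.Agent.Lib.MP_c385f6_ag.Semi.Small

set_option autoImplicit false

/-!
Sections of the fundamental group that lift to `openExt`.
-/

namespace Pool.Agent.Lib.MP_c385f6_ag.Semi

open Pool.Agent.Lib.MP_c385f6_ag.Cpl Polynomial

universe u v w

section
variable {k : Type u} {K : Type v} {Ω : Type w} [ik : Field k] [iK : Field K]
  [iO : Field Ω] [iakO : Algebra k Ω] [iaKO : Algebra K Ω]

/-- the inclusion of intermediate fields as an algebra -/
@[reducible] noncomputable def incAlg {E N : IntermediateField K Ω} (hEN : E ≤ N) : Algebra E N :=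
  (IntermediateField.inclusion hEN).toRingHom.toAlgebra

theorem incAlg_tower {E N : IntermediateField K Ω} (hEN : E ≤ N) :
    letI := incAlg hEN
    IsScalarTower K E N := by
  letI := incAlg hEN
  exact IsScalarTower.of_algebraMap_eq fun x => ((IntermediateField.inclusion hEN).commutes x).symm

/-- restriction of sections to a smaller normal extension -/
theorem exists_restrict [Algebra.IsAlgebraic K Ω] {E N : IntermediateField K Ω} (hEN : E ≤ N)
    [Normal K E]
    {s : AbsGal k Ω →* (N ≃ₐ[K] N)} (hs : IsSec k K Ω N s) :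
    ∃ σ : AbsGal k Ω →* (E ≃ₐ[K] E), IsSec k K Ω E σ ∧
      ∀ g (z : E), ((σ g z : E) : Ω) = (s g (IntermediateField.inclusion hEN z) : N) := by
  letI := incAlg hEN
  haveI := incAlg_tower hEN
  let σ : AbsGal k Ω →* (E ≃ₐ[K] E) := (AlgEquiv.restrictNormalHom E).comp s
  have hσ : ∀ g (z : E), ((σ g z : E) : Ω) = (s g (IntermediateField.inclusion hEN z) : N) :=
    fun g z => congrArg Subtype.val (AlgEquiv.restrictNormal_commutes (s g) E z)
  refine ⟨σ, ⟨?_, ?_⟩, hσ⟩
  · apply continuous_of_continuousAt_one _ (continuousAt_def.mpr _)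
    intro U hU
    rw [map_one, krullTopology_mem_nhds_one_iff] at hU
    obtain ⟨L, hL, hO⟩ := hU
    obtain ⟨b⟩ : Nonempty (Module.Basis (Module.Free.ChooseBasisIndex K L) K L) :=
      ⟨Module.Free.chooseBasis K L⟩
    have h1 : (⋂ i, {g : AbsGal k Ω | s g (IntermediateField.inclusion hEN (b i : E)) =
        IntermediateField.inclusion hEN (b i : E)}) ∈ nhds (1 : AbsGal k Ω) := by
      rw [Filter.iInter_mem]
      exact fun i => hs.nhds _
    refine Filter.mem_of_superset h1 fun g hg => ?_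
    apply hO
    simp only [SetLike.mem_coe, IntermediateField.mem_fixingSubgroup_iff]
    intro y hy
    have h2 : ((σ g).toLinearMap.comp L.val.toLinearMap : L →ₗ[K] E) = L.val.toLinearMap := by
      apply b.ext
      intro i
      apply Subtype.ext
      show ((σ g (b i : E) : E) : Ω) = _
      rw [hσ, Set.mem_iInter.1 hg i]
      rfl
    exact LinearMap.congr_fun h2 ⟨y, hy⟩
  · intro g c z hz
    rw [hσ]
    exact hs.restrict g c _ hz

/-- restriction of sections and places -/
theorem secAt_restrict {E N : IntermediateField K Ω} (hEN : E ≤ N)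
    {s : AbsGal k Ω →* (N ≃ₐ[K] N)} {σ : AbsGal k Ω →* (E ≃ₐ[K] E)}
    (hσ : ∀ g (z : E), ((σ g z : E) : Ω) = (s g (IntermediateField.inclusion hEN z) : N))
    {A : ValuationSubring K} (h : SecAt s A) : SecAt σ A := by
  obtain ⟨B, hB, hs⟩ := h
  refine ⟨B.comap (IntermediateField.inclusion hEN).toRingHom, ?_, ?_⟩
  · rw [← hB]
    ext x
    exact Iff.rfl
  · intro g z hz
    rw [ValuationSubring.mem_comap] at hz ⊢
    have h1 : (IntermediateField.inclusion hEN).toRingHom (σ g z) =
        s g (IntermediateField.inclusion hEN z) := Subtype.ext (hσ g z)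
    rw [h1]
    exact hs g _ hz

end

section
variable {k : Type u} {K : Type v} {Ω : Type w} [ik : Field k] [ic : CharZero k] [iK : Field K]
  [iO : Field Ω] [iakK : Algebra k K] [iakO : Algebra k Ω] [iaKO : Algebra K Ω]
  [ist : IsScalarTower k K Ω] [ial : IsAlgClosure K Ω]
variable (p : ℕ) [hp : Fact p.Prime] [iA : Algebra ℚ_[p] k] [iD : FiniteDimensional ℚ_[p] k]

include hp iA iD in
/-- A section of the fundamental group lifts to `openExt` if and only if it comes from a rational
place. -/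
theorem lift_iff (M : Mods.{u, v, w}) (htr : Algebra.trdeg k K = 1) (f : k[X])
    (hf : f.natDegree ≠ 0) (h0 : ∀ c : k, f.eval c ≠ 0)
    {σ : AbsGal k Ω →* PiOne k K Ω} (hσ : IsSection k K Ω σ) :
    (∃ A : ValuationSubring K, IsRationalPlace k K A ∧ SecAt σ A) ↔
      ∃ s : AbsGal k Ω →* (openExt k K Ω f ≃ₐ[K] openExt k K Ω f),
        IsSec k K Ω (openExt k K Ω f) s ∧
        ∀ g (z : maxUnramified k K Ω) (z' : openExt k K Ω f), (z' : Ω) = z →
          ((s g z' : openExt k K Ω f) : Ω) = ((σ g z : maxUnramified k K Ω) : Ω) := by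
  obtain ⟨hnor, hle, hcst, -, -, hin⟩ := M.nn k K Ω ik ic iK iO iakK iakO iaKO ist ial f
  have halg : Algebra.IsAlgebraic K Ω := IsAlgClosure.isAlgebraic
  have hnE : Normal K (maxUnramified k K Ω) := normal_maxUnramified k K Ω
  have hsec : IsSec k K Ω (maxUnramified k K Ω) σ := ⟨hσ.continuous, hσ.restrict⟩
  constructor
  · rintro ⟨A, hA, hσA⟩
    obtain ⟨s₀, hs₀, hs₀A⟩ := M.sct k K Ω ik ic iK iO iakK iakO iaKO ist ial (openExt k K Ω f) hnor
      hcst A hA fun V hV σ hσ z hz => (hin h0 V (by rw [hV]; exact hA)).2 σ hσ z hz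
    obtain ⟨σ₀, hσ₀, hres⟩ := exists_restrict hle hs₀
    obtain ⟨γ, hγc, hγ⟩ := M.cnj k K Ω ik ic iK iO iakK iakO iaKO ist ial htr
      (maxUnramified k K Ω) hnE (fun c => const_mem_maxUnramified c.2) A hA
      (by
        intro V hV τ hτ z hz
        refine inertia_ur (fun c => ?_) hτ hz
        have h1 : algebraMap k K c ∈ V.comap (algebraMap K Ω) := by
          rw [hV]
          exact hA.const_mem c
        rw [IsScalarTower.algebraMap_apply k K Ω]
        exact h1) σ₀ σ hσ₀ hsec (secAt_restrict hle hres hs₀A) hσA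
    letI := incAlg hle
    haveI := incAlg_tower hle
    let γ' : openExt k K Ω f ≃ₐ[K] openExt k K Ω f := γ.liftNormal (openExt k K Ω f)
    have hγ' : ∀ z : maxUnramified k K Ω, γ' (IntermediateField.inclusion hle z) =
        IntermediateField.inclusion hle (γ z) := fun z =>
      AlgEquiv.liftNormal_commutes γ (openExt k K Ω f) z
    have hγi : ∀ z : maxUnramified k K Ω, γ'⁻¹ (IntermediateField.inclusion hle z) =
        IntermediateField.inclusion hle (γ⁻¹ z) := by
      intro z
      apply γ'.injective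
      rw [hγ']
      show (γ' * γ'⁻¹) _ = IntermediateField.inclusion hle ((γ * γ⁻¹) z)
      rw [mul_inv_cancel, mul_inv_cancel]
      rfl
    let s : AbsGal k Ω →* (openExt k K Ω f ≃ₐ[K] openExt k K Ω f) :=
      (MulAut.conj γ').toMonoidHom.comp s₀
    have hs : ∀ g, s g = γ' * s₀ g * γ'⁻¹ := fun g => rfl
    have hsz : ∀ g (z : maxUnramified k K Ω), s g (IntermediateField.inclusion hle z) =
        IntermediateField.inclusion hle (σ g z) := by
      intro g z
      rw [hs, hγ g]
      show γ' (s₀ g (γ'⁻¹ (IntermediateField.inclusion hle z))) =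
        IntermediateField.inclusion hle (γ (σ₀ g (γ⁻¹ z)))
      rw [hγi, ← hγ']
      congr 1
      exact Subtype.ext (hres g (γ⁻¹ z)).symm
    refine ⟨s, ⟨?_, ?_⟩, ?_⟩
    · have h1 : Continuous fun g => γ' * s₀ g * γ'⁻¹ :=
        (continuous_const.mul hs₀.continuous).mul continuous_const
      exact h1
    · intro g c z hz
      have h1 : z = IntermediateField.inclusion hle ⟨c, const_mem_maxUnramified c.2⟩ :=
        Subtype.ext hz
      rw [h1, hsz]
      exact hσ.restrict g c _ rfl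
    · intro g z z' hz
      have h1 : z' = IntermediateField.inclusion hle z := Subtype.ext hz
      rw [h1, hsz]
      rfl
  · rintro ⟨s, hs, hlift⟩
    obtain ⟨A, ⟨hA, hsA⟩, -⟩ :=
      exists_unique_place p M htr f hf h0 (rootClosed_openExt M.nn hp.out.ne_zero f) hs
    exact ⟨A, hA, secAt_restrict hle (fun g z => (hlift g z _ rfl).symm) hsA⟩

include hp iA iD in
/-- the small extension has a section if and only if there is a rational place -/
theorem small_iff (M : Mods.{u, v, w}) (htr : Algebra.trdeg k K = 1) (f : k[X])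
    (hf : f.natDegree ≠ 0) (h0 : ∀ c : k, f.eval c ≠ 0) :
    (∃ s : AbsGal k Ω →* (twoStep k K Ω p f ≃ₐ[K] twoStep k K Ω p f),
      IsSec k K Ω (twoStep k K Ω p f) s) ↔
      ∃ A : ValuationSubring K, IsRationalPlace k K A := by
  constructor
  · rintro ⟨s, hs⟩
    exact exists_place_small p M htr f hf hs
  · rintro ⟨A, hA⟩
    have halg : Algebra.IsAlgebraic K Ω := IsAlgClosure.isAlgebraic
    obtain ⟨hnor, -, hcst, -, -, hin⟩ := M.nn k K Ω ik ic iK iO iakK iakO iaKO ist ial f
    obtain ⟨hn2, -, -, hle⟩ := twoStep_props (K := K) (Ω := Ω) p M.nn hp.out.ne_zero f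
    obtain ⟨s₀, hs₀, -⟩ := M.sct k K Ω ik ic iK iO iakK iakO iaKO ist ial (openExt k K Ω f) hnor
      hcst A hA fun V hV σ hσ z hz => (hin h0 V (by rw [hV]; exact hA)).2 σ hσ z hz
    obtain ⟨σ₀, hσ₀, -⟩ := exists_restrict hle hs₀
    exact ⟨σ₀, hσ₀⟩

omit ic ist ial iakK in
/-- conjugate sections come from the same places -/
theorem secAt_conj {N : IntermediateField K Ω} {s s' : AbsGal k Ω →* (N ≃ₐ[K] N)}
    {A : ValuationSubring K} (h : SecAt s A) (γ : N ≃ₐ[K] N)
    (hγ : ∀ g, s' g = γ * s g * γ⁻¹) : SecAt s' A := by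
  obtain ⟨B, hB, hs⟩ := h
  refine ⟨B.comap (γ⁻¹ : N ≃ₐ[K] N).toRingEquiv.toRingHom, ?_, ?_⟩
  · rw [← hB]
    ext x
    rw [ValuationSubring.mem_comap, ValuationSubring.mem_comap, ValuationSubring.mem_comap]
    have h1 : (γ⁻¹ : N ≃ₐ[K] N).toRingEquiv.toRingHom (algebraMap K N x) = algebraMap K N x :=
      (γ⁻¹ : N ≃ₐ[K] N).commutes x
    rw [h1]
  · intro g z hz
    rw [ValuationSubring.mem_comap] at hz ⊢
    have h1 : (γ⁻¹ : N ≃ₐ[K] N).toRingEquiv.toRingHom (s' g z) = s g ((γ⁻¹ : N ≃ₐ[K] N) z) := by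
      show (γ⁻¹ * s' g) z = (s g * γ⁻¹) z
      rw [hγ g, ← mul_assoc, ← mul_assoc, inv_mul_cancel, one_mul]
    rw [h1]
    exact hs g _ hz

include hp iA iD in
/-- the bijection -/
theorem bijection (M : Mods.{u, v, w}) (htr : Algebra.trdeg k K = 1) (f : k[X])
    (hf : f.natDegree ≠ 0) (h0 : ∀ c : k, f.eval c ≠ 0) {N : IntermediateField K Ω}
    (hN : RootClosed p f N) :
    (∀ s : AbsGal k Ω →* (N ≃ₐ[K] N), IsSec k K Ω N s →
      ∃! A : ValuationSubring K, IsRationalPlace k K A ∧ SecAt s A) ∧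
    (∀ A : ValuationSubring K, IsRationalPlace k K A →
      ∃ s : AbsGal k Ω →* (N ≃ₐ[K] N), IsSec k K Ω N s ∧ SecAt s A) ∧
    (∀ s s' : AbsGal k Ω →* (N ≃ₐ[K] N), IsSec k K Ω N s → IsSec k K Ω N s' →
      ∀ A A' : ValuationSubring K, IsRationalPlace k K A → IsRationalPlace k K A' →
      SecAt s A → SecAt s' A' →
      (A = A' ↔ ∃ γ : N ≃ₐ[K] N,
        (∀ (c : algebraicClosure k Ω) (z : N), (z : Ω) = c → γ z = z) ∧
        ∀ g, s' g = γ * s g * γ⁻¹)) := by
  obtain ⟨-, -, -, -, -, hin⟩ := M.nn k K Ω ik ic iK iO iakK iakO iaKO ist ial f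
  have hI : ∀ A : ValuationSubring K, IsRationalPlace k K A → ∀ V : ValuationSubring Ω,
      V.comap (algebraMap K Ω) = A → ∀ σ ∈ inertia K V, ∀ z ∈ N, σ z = z :=
    fun A hA V hV σ hσ z hz => (hin h0 V (by rw [hV]; exact hA)).2 σ hσ z (hN.le hz)
  refine ⟨fun s hs => exists_unique_place p M htr f hf h0 hN hs, ?_, ?_⟩
  · intro A hA
    exact M.sct k K Ω ik ic iK iO iakK iakO iaKO ist ial N hN.normal hN.const A hA (hI A hA)
  · intro s s' hs hs' A A' hA hA' hsA hsA'
    constructor
    · rintro rfl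
      exact M.cnj k K Ω ik ic iK iO iakK iakO iaKO ist ial htr N hN.normal hN.const A hA
        (hI A hA) s s' hs hs' hsA hsA'
    · rintro ⟨γ, -, hγ⟩
      exact (exists_unique_place p M htr f hf h0 hN hs').unique ⟨hA, secAt_conj hsA γ hγ⟩
        ⟨hA', hsA'⟩

end

end Pool.Agent.Lib.MP_c385f6_ag.Semi
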