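import Mathlib
import Pool.Agent.Lib.MP_c385f6_ag.Semi.Lift

set_option autoImplicit false

/-!
The theorems on sections for the type of sections `Sec`.
-/

namespace Pool.Agent.Lib.MP_c385f6_ag.Semi

open Pool.Agent.Lib.MP_c385f6_ag.Cpl Polynomial

universe u v w

section
variable {k K Ω : Type*} [Field k] [Field K] [Field Ω] [Algebra k Ω] [Algebra K Ω]
  {N : IntermediateField K Ω}

/-- the homomorphism of a section -/
def Sec.hom (s : Sec k K Ω N) : AbsGal k Ω →* (N ≃ₐ[K] N) := MonoidHom.mk' s.toFun s.map_mul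

theorem Sec.isSec (s : Sec k K Ω N) : IsSec k K Ω N s.hom := ⟨s.continuous, s.restrict⟩

/-- the section of a homomorphism -/
def IsSec.toSec {s : AbsGal k Ω →* (N ≃ₐ[K] N)} (h : IsSec k K Ω N s) : Sec k K Ω N :=
  ⟨s, map_mul s, h.continuous, h.restrict⟩

theorem Sec.conj_iff (s s' : Sec k K Ω N) : s.Conj s' ↔ ∃ γ : N ≃ₐ[K] N,
    (∀ (c : algebraicClosure k Ω) (z : N), (z : Ω) = c → γ z = z) ∧
      ∀ g, s'.hom g = γ * s.hom g * γ⁻¹ := by
  constructor
  · rintro ⟨γ, h1, h2⟩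
    refine ⟨γ, h1, fun g => ?_⟩
    rw [eq_mul_inv_iff_mul_eq]
    exact AlgEquiv.ext fun z => h2 g z
  · rintro ⟨γ, h1, h2⟩
    refine ⟨γ, h1, fun g z => ?_⟩
    have h3 := h2 g
    rw [eq_mul_inv_iff_mul_eq] at h3
    exact congrArg (fun a : N ≃ₐ[K] N => a z) h3

end

section
variable {k : Type u} {K : Type v} {Ω : Type w} [ik : Field k] [ic : CharZero k] [iK : Field K]
  [iO : Field Ω] [iakK : Algebra k K] [iakO : Algebra k Ω] [iaKO : Algebra K Ω]
  [ist : IsScalarTower k K Ω] [ial : IsAlgClosure K Ω]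
  (p : ℕ) [hp : Fact p.Prime] [iA : Algebra ℚ_[p] k] [iD : FiniteDimensional ℚ_[p] k]

include hp iA iD in
/-- the section conjecture for `N` -/
theorem sectionConjecture (M : Mods.{u, v, w}) (htr : Algebra.trdeg k K = 1) (f : k[X])
    (hf : f.natDegree ≠ 0) (h0 : ∀ c : k, f.eval c ≠ 0) {N : IntermediateField K Ω}
    (hN : RootClosed p f N) : SectionConjecture k K Ω N := by
  obtain ⟨h1, h2, h3⟩ := bijection p M htr f hf h0 hN
  have h1' : ∀ s : Sec k K Ω N, ∃! A : ValuationSubring K, IsRationalPlace k K A ∧ s.At A :=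
    fun s => h1 s.hom s.isSec
  refine ⟨h1', fun A hA => ?_, fun s s' => ?_⟩
  · obtain ⟨s, hs, hsA⟩ := h2 A hA
    exact ⟨hs.toSec, hsA⟩
  · rw [Sec.conj_iff]
    constructor
    · intro h4
      obtain ⟨A, ⟨hA, hsA⟩, -⟩ := h1' s
      obtain ⟨A', ⟨hA', hsA'⟩, -⟩ := h1' s'
      have h5 : A = A' := (h3 s.hom s'.hom s.isSec s'.isSec A A' hA hA' hsA hsA').2 h4
      subst h5
      exact ⟨A, hA, hsA, hsA'⟩
    · rintro ⟨A, hA, hsA, hsA'⟩
      exact (h3 s.hom s'.hom s.isSec s'.isSec A A hA hA hsA hsA').1 rfl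

include hp iA iD in
/-- sections for the small extension -/
theorem nonempty_sec_iff (M : Mods.{u, v, w}) (htr : Algebra.trdeg k K = 1) (f : k[X])
    (hf : f.natDegree ≠ 0) (h0 : ∀ c : k, f.eval c ≠ 0) :
    Nonempty (Sec k K Ω (twoStep k K Ω p f)) ↔
      ∃ A : ValuationSubring K, IsRationalPlace k K A := by
  refine Iff.trans ?_ (small_iff (K := K) (Ω := Ω) p M htr f hf h0)
  exact ⟨fun ⟨s⟩ => ⟨s.hom, s.isSec⟩, fun ⟨_, hs⟩ => ⟨hs.toSec⟩⟩

include hp iA iD in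
/-- sections of the fundamental group that lift -/
theorem at_iff_lifts (M : Mods.{u, v, w}) (htr : Algebra.trdeg k K = 1) (f : k[X])
    (hf : f.natDegree ≠ 0) (h0 : ∀ c : k, f.eval c ≠ 0)
    (σ : Sec k K Ω (maxUnramified k K Ω)) :
    (∃ A : ValuationSubring K, IsRationalPlace k K A ∧ σ.At A) ↔
      ∃ s : Sec k K Ω (openExt k K Ω f), s.Lifts σ := by
  have h1 := lift_iff p M htr f hf h0 (σ := σ.hom) ⟨σ.continuous, σ.restrict⟩
  refine Iff.trans h1 ?_
  constructor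
  · rintro ⟨s, hs, h2⟩
    exact ⟨hs.toSec, fun g z' z hz => h2 g z z' hz⟩
  · rintro ⟨s, h2⟩
    exact ⟨s.hom, s.isSec, fun g z z' hz => h2 g z' z hz⟩

end

end Pool.Agent.Lib.MP_c385f6_ag.Semi
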