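import Pool.Agent.Lib.MP_c385f6_ag.Semi.Stmts

set_option autoImplicit false

/-!
(Cj) If `z` has the residue `α`, a conjugate of `z` over `K` has the residue `g α`.
-/

namespace Pool.Agent.Lib.MP_c385f6_ag.Semi

open Polynomial

namespace CjAux

section
variable {Ω Γ₀ : Type*} [Field Ω] [LinearOrderedCommGroupWithZero Γ₀] (v : Valuation Ω Γ₀)

theorem close_mul {x x' y y' : Ω} (hx : v (x - x') < 1) (hy : v (y - y') < 1) (hx' : v x ≤ 1)
    (hy' : v y' ≤ 1) : v (x * y - x' * y') < 1 := by
  have h : x * y - x' * y' = x * (y - y') + (x - x') * y' := by ring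
  rw [h]
  refine v.map_add_lt ?_ ?_
  · rw [map_mul]
    exact mul_lt_one_of_nonneg_of_lt_one_right hx' zero_le hy
  · rw [map_mul]
    exact mul_lt_one_of_nonneg_of_lt_one_left zero_le hx hy'

theorem close_pow {x x' : Ω} (hx : v (x - x') < 1) (h1 : v x ≤ 1) (h2 : v x' ≤ 1) (n : ℕ) :
    v (x ^ n - x' ^ n) < 1 := by
  induction n with
  | zero => rw [pow_zero, pow_zero, sub_self, map_zero]; exact zero_lt_one
  | succ n ih =>
    rw [pow_succ, pow_succ]
    refine close_mul v ih hx ?_ h2
    rw [map_pow]
    exact pow_le_one₀ zero_le h1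

/-- the Gauss norm of a product of linear factors -/
theorem coeff_le {t : Ω} (ht : v t ≤ 1) (s : Multiset Ω) (hs : ∀ z ∈ s, 1 ≤ v (t - z)) (j : ℕ) :
    v ((s.map fun a => X - C a).prod.coeff j) ≤ v ((s.map fun a => X - C a).prod.eval t) := by
  induction s using Multiset.induction_on generalizing j with
  | empty =>
    rw [Multiset.map_zero, Multiset.prod_zero, eval_one, map_one, coeff_one]
    split_ifs
    · rw [map_one]
    · rw [map_zero]; exact zero_le
  | cons z s ih =>
    have hz : 1 ≤ v (t - z) := hs z (Multiset.mem_cons_self z s)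
    have ih' := ih fun y hy => hs y (Multiset.mem_cons_of_mem hy)
    rw [Multiset.map_cons, Multiset.prod_cons, eval_mul, eval_sub, eval_X, eval_C, map_mul]
    have hz' : v z ≤ v (t - z) := by
      have h1 : z = t - (t - z) := by ring
      calc v z = v (t - (t - z)) := by rw [← h1]
        _ ≤ max (v t) (v (t - z)) := v.map_sub _ _
        _ ≤ v (t - z) := max_le (ht.trans hz) le_rfl
    have h2 : v (z * (s.map fun a => X - C a).prod.coeff j) ≤
        v (t - z) * v ((s.map fun a => X - C a).prod.eval t) := by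
      rw [map_mul]
      exact mul_le_mul' hz' (ih' j)
    rw [sub_mul, coeff_sub, coeff_C_mul]
    cases j with
    | zero =>
      rw [coeff_X_mul_zero, zero_sub, Valuation.map_neg]
      exact h2
    | succ j =>
      rw [coeff_X_mul]
      refine (v.map_sub _ _).trans (max_le ?_ h2)
      calc v ((s.map fun a => X - C a).prod.coeff j)
          ≤ v ((s.map fun a => X - C a).prod.eval t) := ih' j
        _ = 1 * v ((s.map fun a => X - C a).prod.eval t) := (one_mul _).symm
        _ ≤ _ := mul_le_mul' hz le_rfl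

end

end CjAux

open CjAux

/-- (Cj) -/
theorem stCj.{u, v, w} : StCj.{u, v, w} := by
  intro k K Ω _ _ _ _ _ _ _ _ B hk hres g hg z α hα
  classical
  have hacl : IsAlgClosed Ω := IsAlgClosure.isAlgClosed K
  have halg : Algebra.IsAlgebraic K Ω := IsAlgClosure.isAlgebraic
  obtain ⟨m, hm⟩ : ∃ m : K[X], m = minpoly K z := ⟨_, rfl⟩
  have hmm : m.Monic := by rw [hm]; exact minpoly.monic (Algebra.IsIntegral.isIntegral z)
  have hmz : aeval z m = 0 := by rw [hm]; exact minpoly.aeval K z
  rw [← hm]
  have hcst : ∀ β : algebraicClosure k Ω, B.valuation (β : Ω) ≤ 1 := fun β =>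
    (B.valuation_le_one_iff _).2 (mem_of_algebraic hk β.2)
  -- a coefficient of maximal valuation
  obtain ⟨i₀, -, hi₀⟩ := Finset.exists_max_image (Finset.range (m.natDegree + 1))
    (fun i => B.valuation (algebraMap K Ω (m.coeff i))) ⟨0, by simp⟩
  have hpos : B.valuation (algebraMap K Ω (m.coeff i₀)) ≠ 0 := by
    intro h0
    have h1 := hi₀ m.natDegree (by simp)
    rw [h0, hmm.coeff_natDegree, map_one, map_one] at h1
    exact absurd h1 (not_le.2 zero_lt_one)
  have hne : m.coeff i₀ ≠ 0 := by
    intro h0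
    rw [h0, map_zero, map_zero] at hpos
    exact hpos rfl
  obtain ⟨b, hb⟩ : ∃ b : K, b = (m.coeff i₀)⁻¹ := ⟨_, rfl⟩
  have hcoef : ∀ i, B.valuation (algebraMap K Ω (b * m.coeff i)) ≤ 1 := by
    intro i
    by_cases hi : i ∈ Finset.range (m.natDegree + 1)
    · have h1 := hi₀ i hi
      rw [hb, map_mul, map_mul, map_inv₀, map_inv₀]
      calc (B.valuation (algebraMap K Ω (m.coeff i₀)))⁻¹ *
            B.valuation (algebraMap K Ω (m.coeff i))
          ≤ (B.valuation (algebraMap K Ω (m.coeff i₀)))⁻¹ *
            B.valuation (algebraMap K Ω (m.coeff i₀)) := mul_le_mul' le_rfl h1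
        _ = 1 := inv_mul_cancel₀ hpos
    · rw [coeff_eq_zero_of_natDegree_lt (by
        rw [Finset.mem_range, not_lt] at hi
        omega), mul_zero, map_zero, map_zero]
      exact zero_le
  -- the residues of the coefficients
  have hβ : ∀ i, ∃ β : algebraicClosure k Ω,
      B.valuation (algebraMap K Ω (b * m.coeff i) - (β : Ω)) < 1 := fun i =>
    hres _ ((B.valuation_le_one_iff _).1 (hcoef i))
  choose β hβ using hβ
  have hgβ : ∀ i, g (β i) = β i := fun i =>
    hg (β i) (b * m.coeff i) ((B.valuation_le_one_iff _).1 (hcoef i)) (hβ i)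
  have hsum : ∀ x : Ω, ∑ i ∈ Finset.range (m.natDegree + 1),
      algebraMap K Ω (b * m.coeff i) * x ^ i = algebraMap K Ω b * aeval x m := by
    intro x
    rw [aeval_eq_sum_range, Finset.mul_sum]
    refine Finset.sum_congr rfl fun i _ => ?_
    rw [map_mul, Algebra.smul_def]
    ring
  have hclose : ∀ (x : Ω) (γ : algebraicClosure k Ω), B.valuation (x - γ) < 1 →
      B.valuation (algebraMap K Ω b * aeval x m -
        ∑ i ∈ Finset.range (m.natDegree + 1), (β i : Ω) * (γ : Ω) ^ i) < 1 := by
    intro x γ hx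
    rw [← hsum, ← Finset.sum_sub_distrib]
    refine B.valuation.map_sum_lt one_ne_zero fun i _ => ?_
    have hx1 : B.valuation x ≤ 1 := by
      have h1 : x = (x - γ) + γ := by ring
      rw [h1]
      exact (B.valuation.map_add _ _).trans (max_le hx.le (hcst γ))
    refine close_mul _ (hβ i) (close_pow _ hx hx1 (hcst γ) i) (hcoef i) ?_
    rw [map_pow]
    exact pow_le_one₀ zero_le (hcst γ)
  -- the equation of the residue
  have h1 : ∑ i ∈ Finset.range (m.natDegree + 1), β i * α ^ i = 0 := by
    by_contra hcon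
    have h2 := hclose z α hα
    rw [hmz, mul_zero, zero_sub, Valuation.map_neg] at h2
    have h3 : ((∑ i ∈ Finset.range (m.natDegree + 1), β i * α ^ i : algebraicClosure k Ω) : Ω) =
        ∑ i ∈ Finset.range (m.natDegree + 1), (β i : Ω) * (α : Ω) ^ i := by
      push_cast
      rfl
    rw [← h3, valuation_eq_one hk (Subtype.coe_prop _) (fun h0 => hcon (Subtype.ext h0))] at h2
    exact lt_irrefl _ h2
  have h4 : ∑ i ∈ Finset.range (m.natDegree + 1), β i * g α ^ i = 0 := by
    have h5 := congrArg g h1
    rw [map_sum, map_zero] at h5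
    rw [← h5]
    refine Finset.sum_congr rfl fun i _ => ?_
    rw [map_mul, map_pow, hgβ]
  have h6 : B.valuation (algebraMap K Ω b * aeval (g α : Ω) m) < 1 := by
    have h7 := hclose (g α : Ω) (g α) (by rw [sub_self, map_zero]; exact zero_lt_one)
    have h3 : ((∑ i ∈ Finset.range (m.natDegree + 1), β i * g α ^ i : algebraicClosure k Ω) : Ω) =
        ∑ i ∈ Finset.range (m.natDegree + 1), (β i : Ω) * (g α : Ω) ^ i := by
      push_cast
      rfl
    rw [← h3, h4] at h7
    simpa using h7
  -- the roots
  by_contra hcon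
  push Not at hcon
  have hsp : (m.map (algebraMap K Ω)) = ((m.map (algebraMap K Ω)).roots.map fun a => X - C a).prod :=
    (IsAlgClosed.splits (m.map (algebraMap K Ω))).eq_prod_roots_of_monic (hmm.map _)
  have hroot : ∀ y ∈ (m.map (algebraMap K Ω)).roots, 1 ≤ B.valuation ((g α : Ω) - y) := by
    intro y hy
    have h7 : aeval y m = 0 := by
      have h8 := (mem_roots'.1 hy).2
      rw [IsRoot.def, eval_map_algebraMap] at h8
      exact h8
    have h9 := hcon y h7
    rwa [← Valuation.map_neg, neg_sub] at h9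
  have h10 := coeff_le B.valuation (hcst (g α)) _ hroot i₀
  rw [← hsp, coeff_map, eval_map_algebraMap] at h10
  have h11 : (1 : B.ValueGroup) ≤ B.valuation (algebraMap K Ω b * aeval (g α : Ω) m) := by
    rw [map_mul]
    calc (1 : B.ValueGroup) = B.valuation (algebraMap K Ω b) *
          B.valuation (algebraMap K Ω (m.coeff i₀)) := by
          rw [hb, map_inv₀, map_inv₀, inv_mul_cancel₀ hpos]
      _ ≤ _ := mul_le_mul' le_rfl h10
  exact absurd h6 (not_lt.2 h11)

end Pool.Agent.Lib.MP_c385f6_ag.Semi
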