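import Mathlib
import Pool.Agent.Lib.MP_c385f6_ag.PlaceSection
import Pool.Agent.Lib.MP_c385f6_ag.Semi.Stmts

set_option autoImplicit false

/-!
(Cnj) Sections at the same rational place are conjugate.
-/

namespace Pool.Agent.Lib.MP_c385f6_ag.Semi

open Polynomial
open scoped Pointwise

namespace CnjAux

universe u v w

section
variable {k : Type u} {K : Type v} {Ω : Type w} [Field k] [CharZero k] [Field K] [Field Ω]
  [Algebra k K] [Algebra k Ω] [Algebra K Ω] [IsScalarTower k K Ω] [IsAlgClosure K Ω]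

/-- an automorphism over `K` of `N` that preserves the valuation ring below `V` and is trivial on
the constants is trivial -/
theorem eq_one (h1 : StRes.{u, v, w}) (h3 : StTr.{w, w}) (htr : Algebra.trdeg k K = 1)
    (N : IntermediateField K Ω) (hN : Normal K N)
    (hc : ∀ c : algebraicClosure k Ω, (c : Ω) ∈ N) {A : ValuationSubring K}
    (hA : IsRationalPlace k K A)
    (hI : ∀ V : ValuationSubring Ω, V.comap (algebraMap K Ω) = A → ∀ σ ∈ inertia K V, ∀ z ∈ N,
      σ z = z)
    (V : ValuationSubring Ω) (hV : V.comap (algebraMap K Ω) = A) (τ : N ≃ₐ[K] N)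
    (hτ : ∀ z : N, (z : Ω) ∈ V ↔ ((τ z : N) : Ω) ∈ V)
    (hτc : ∀ (c : algebraicClosure k Ω) (z : N), (z : Ω) = c → τ z = z) : τ = 1 := by
  have hKN : Normal K Ω := IsAlgClosure.normal K Ω
  have hcK : CharZero K := charZero_of_injective_algebraMap (algebraMap k K).injective
  have hcN : CharZero N := charZero_of_injective_algebraMap (algebraMap K N).injective
  have hacl : IsAlgClosed Ω := IsAlgClosure.isAlgClosed K
  have halgK : Algebra.IsAlgebraic K Ω := IsAlgClosure.isAlgebraic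
  have hN' : IsAlgClosure N Ω := ⟨hacl, Algebra.IsAlgebraic.tower_top (K := K) N⟩
  let t : Ω ≃ₐ[K] Ω := τ.liftNormal Ω
  have ht : ∀ z : N, t (z : Ω) = ((τ z : N) : Ω) := fun z => τ.liftNormal_commutes Ω z
  let W : ValuationSubring Ω := V.comap (t : Ω →+* Ω)
  have hW : ∀ z, z ∈ W ↔ t z ∈ V := fun z => Iff.rfl
  have hcomap : V.comap (algebraMap N Ω) = W.comap (algebraMap N Ω) := by
    ext z
    rw [ValuationSubring.mem_comap, ValuationSubring.mem_comap, hW]
    have := ht z
    show (z : Ω) ∈ V ↔ t (z : Ω) ∈ V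
    rw [this]
    exact hτ z
  obtain ⟨ρ, hρ⟩ := (h3 N Ω inferInstance hcN inferInstance inferInstance hN').2 V W hcomap
  let σ : Ω ≃ₐ[K] Ω := (ρ.restrictScalars K).trans t
  have hσ : ∀ z, σ z = t (ρ z) := fun z => rfl
  have hσV : ∀ z, z ∈ V ↔ σ z ∈ V := by
    intro z
    rw [hρ z, hW, hσ]
  have hσN : ∀ z : N, σ (z : Ω) = ((τ z : N) : Ω) := by
    intro z
    rw [hσ, ← ht z]
    congr 1
    exact ρ.commutes z
  have hkV : ∀ c : k, algebraMap k Ω c ∈ V := by
    intro c
    have h := hA.const_mem c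
    rw [← hV, ValuationSubring.mem_comap, ← IsScalarTower.algebraMap_apply] at h
    exact h
  have hVtop : V ≠ ⊤ := by
    intro h
    apply hA.ne_top
    rw [← hV, h]
    ext z
    simp
  have hσc : ∀ c : algebraicClosure k Ω, σ (c : Ω) = c := by
    intro c
    have h := hσN ⟨c, hc c⟩
    rw [hτc c ⟨c, hc c⟩ rfl] at h
    exact h
  have hlt : ∀ z, V.valuation z < 1 → V.valuation (σ z) < 1 := by
    intro z hz
    rw [valuation_lt_one_iff_mem] at hz ⊢
    rcases hz with hz | hz
    · left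
      rw [hz, map_zero]
    · right
      rw [← map_inv₀, ← hσV]
      exact hz
  have hmem : σ ∈ inertia K V := by
    refine mem_inertia_of ?_ fun y hy => ?_
    · rw [MulAction.mem_stabilizer_iff]
      ext z
      rw [ValuationSubring.mem_pointwise_smul_iff_inv_smul_mem]
      have h : σ (σ⁻¹ • z) = z := by
        show σ (σ⁻¹ z) = z
        exact σ.apply_symm_apply z
      rw [hσV, h]
    · obtain ⟨α, hα⟩ := h1 k K Ω inferInstance inferInstance inferInstance inferInstance
        inferInstance inferInstance inferInstance inferInstance htr V hkV hVtop y hy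
      have h : σ y - y = σ (y - (α : Ω)) - (y - (α : Ω)) := by
        rw [map_sub, hσc α]
        ring
      rw [h]
      exact (V.valuation.map_sub _ _).trans_lt (max_lt (hlt _ hα) hα)
  ext z
  have h := hI V hV σ hmem z z.2
  rw [hσN z] at h
  exact h

end

end CnjAux

open CnjAux in
theorem stCnj.{u, v, w} (h1 : StRes.{u, v, w}) (h2 : StTr.{v, w}) (h3 : StTr.{w, w}) :
    StCnj.{u, v, w} := by
  intro k K Ω _ _ _ _ _ _ _ _ _ htr N hN hc A hA hI s s' hs hs' ⟨B, hBA, hB⟩ ⟨B', hBA', hB'⟩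
  have hKN : Normal K Ω := IsAlgClosure.normal K Ω
  have hcK : CharZero K := charZero_of_injective_algebraMap (algebraMap k K).injective
  have hcN : CharZero N := charZero_of_injective_algebraMap (algebraMap K N).injective
  have hacl : IsAlgClosed Ω := IsAlgClosure.isAlgClosed K
  have halgK : Algebra.IsAlgebraic K Ω := IsAlgClosure.isAlgebraic
  have hN' : IsAlgClosure N Ω := ⟨hacl, Algebra.IsAlgebraic.tower_top (K := K) N⟩
  obtain ⟨V, hV⟩ := (h3 N Ω inferInstance hcN inferInstance inferInstance hN').1 B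
  obtain ⟨V', hV'⟩ := (h3 N Ω inferInstance hcN inferInstance inferInstance hN').1 B'
  have hVm : ∀ z : N, (z : Ω) ∈ V ↔ z ∈ B := fun z => by rw [← hV]; rfl
  have hVm' : ∀ z : N, (z : Ω) ∈ V' ↔ z ∈ B' := fun z => by rw [← hV']; rfl
  have hVA : V.comap (algebraMap K Ω) = A := by
    rw [← hBA]
    ext z
    rw [ValuationSubring.mem_comap, ValuationSubring.mem_comap, ← hVm]
    rfl
  have hVA' : V'.comap (algebraMap K Ω) = A := by
    rw [← hBA']
    ext z
    rw [ValuationSubring.mem_comap, ValuationSubring.mem_comap, ← hVm']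
    rfl
  obtain ⟨ρ, hρ⟩ := (h2 K Ω inferInstance hcK inferInstance inferInstance inferInstance).2 V V'
    (hVA.trans hVA'.symm)
  let σ : N ≃ₐ[K] N := ρ.restrictNormal N
  have hσ : ∀ z : N, ((σ z : N) : Ω) = ρ z := fun z => ρ.restrictNormal_commutes N z
  have hacF : IsAlgClosure k (algebraicClosure k Ω) := inferInstance
  have hnk : Normal k (algebraicClosure k Ω) := IsAlgClosure.normal k _
  let g0 : AbsGal k Ω := (ρ.restrictScalars k).restrictNormal (algebraicClosure k Ω)
  have hg0 : ∀ c : algebraicClosure k Ω, ((g0 c : algebraicClosure k Ω) : Ω) = ρ c :=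
    fun c => (ρ.restrictScalars k).restrictNormal_commutes (algebraicClosure k Ω) c
  -- the sections preserve the valuation rings
  have hBi : ∀ g (z : N), z ∈ B ↔ s g z ∈ B := by
    intro g z
    refine ⟨hB g z, fun h => ?_⟩
    have h' := hB g⁻¹ _ h
    rw [map_inv] at h'
    have h'' : (s g)⁻¹ (s g z) = z := (s g).symm_apply_apply z
    rwa [h''] at h'
  have hBi' : ∀ g (z : N), z ∈ B' ↔ s' g z ∈ B' := by
    intro g z
    refine ⟨hB' g z, fun h => ?_⟩
    have h' := hB' g⁻¹ _ h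
    rw [map_inv] at h'
    have h'' : (s' g)⁻¹ (s' g z) = z := (s' g).symm_apply_apply z
    rwa [h''] at h'
  -- the action of the sections on the constants
  have hsc : ∀ g (c : algebraicClosure k Ω), s g ⟨c, hc c⟩ = ⟨g c, hc (g c)⟩ :=
    fun g c => hs.const g c _ _
  have hsc' : ∀ g (c : algebraicClosure k Ω), s' g ⟨c, hc c⟩ = ⟨g c, hc (g c)⟩ :=
    fun g c => hs'.const g c _ _
  have hσc : ∀ c : algebraicClosure k Ω, σ ⟨c, hc c⟩ = ⟨g0 c, hc (g0 c)⟩ := by
    intro c
    apply Subtype.ext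
    rw [hσ]
    exact (hg0 c).symm
  let γ : N ≃ₐ[K] N := (s' g0)⁻¹ * σ
  have hγ : ∀ z, s' g0 (γ z) = σ z := fun z => (s' g0).apply_symm_apply (σ z)
  have hγc : ∀ c : algebraicClosure k Ω, γ ⟨c, hc c⟩ = ⟨c, hc c⟩ := by
    intro c
    apply (s' g0).injective
    rw [hγ, hσc, hsc']
  have hγB : ∀ z, z ∈ B ↔ γ z ∈ B' := by
    intro z
    rw [hBi' g0, hγ, ← hVm, ← hVm', hσ]
    exact hρ z
  refine ⟨γ, ?_, fun h => ?_⟩
  · intro c z hz
    have hz' : z = ⟨c, hc c⟩ := Subtype.ext hz
    rw [hz', hγc]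
  · have key : (s' h)⁻¹ * (γ * s h * γ⁻¹) = 1 := by
      have e1 : ∀ z, s' h (((s' h)⁻¹ * (γ * s h * γ⁻¹) : N ≃ₐ[K] N) z) = γ (s h (γ⁻¹ z)) :=
        fun z => (s' h).apply_symm_apply _
      have e2 : ∀ z, γ (γ⁻¹ z) = z := fun z => γ.apply_symm_apply z
      refine eq_one h1 h3 htr N hN hc hA hI V' hVA' _ ?_ ?_
      · intro z
        rw [hVm', hVm', hBi' h (((s' h)⁻¹ * (γ * s h * γ⁻¹) : N ≃ₐ[K] N) z), e1, ← hγB, ← hBi,
          hγB, e2]
      · intro c z hz
        have hz' : z = ⟨c, hc c⟩ := Subtype.ext hz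
        apply (s' h).injective
        rw [e1, hz', hsc']
        have e3 : γ⁻¹ ⟨c, hc c⟩ = ⟨c, hc c⟩ := by
          apply γ.injective
          rw [e2, hγc]
        rw [e3, hsc, hγc]
    exact (inv_mul_eq_one.1 key)

end Pool.Agent.Lib.MP_c385f6_ag.Semi
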