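import Mathlib
import Pool.Agent.Lib.MP_c385f6_ag.Semi.Defs2

set_option autoImplicit false

/-!
Extensions with divisible value groups.
-/

namespace Pool.Agent.Lib.MP_c385f6_ag.Semi

open Polynomial

/-- The value group of every place of `K / k` whose residue field contains a root of `f` is
`p`-divisible. -/
def ValuesDivisible {k : Type*} (K : Type*) [Field k] [Field K] [Algebra k K] (p : ℕ) (f : k[X]) :
    Prop :=
  ∀ A : ValuationSubring K, (∀ c : k, algebraMap k K c ∈ A) → ¬ NoRoot f A →
    ∀ x : K, ∃ y : K, A.valuation (y ^ p) = A.valuation x

/-- The maximal extension of `K` in `Ω` in which all `k`-rational places of `K` split completely: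
the fixed field of the decomposition groups of all valuation rings of `Ω` above `k`-rational places
of `K`. -/
noncomputable def totSplit (k K Ω : Type*) [Field k] [Field K] [Field Ω] [Algebra k K]
    [Algebra K Ω] : IntermediateField K Ω :=
  IntermediateField.fixedField
    (⨆ V : {V : ValuationSubring Ω // IsRationalPlace k K (V.comap (algebraMap K Ω))},
      V.1.decompositionSubgroup K)

end Pool.Agent.Lib.MP_c385f6_ag.Semi
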