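import Mathlib
import Pool.Agent.Lib.MP_c385f6_ag.Cpl.Sym
import Pool.Agent.Lib.MP_c385f6_ag.Semi.Stmts

set_option autoImplicit false

/-!
(Den) Polynomials in an element and its conjugate do not vanish on open sets.
-/

namespace Pool.Agent.Lib.MP_c385f6_ag.Semi

open Pool.Agent.Lib.MP_c385f6_ag.Cpl MvPolynomial

universe u

namespace Den

variable {k : Type u} {L : Type} [Field k] [Field L] [Algebra k L]

/-- the substitution `X₀ ↦ c + q (X₀ + e X₁)`, `X₁ ↦ c' + q (X₀ + e' X₁)` -/
noncomputable def sb (c c' q e e' : L) (Φ : MvPolynomial (Fin 2) k) : MvPolynomial (Fin 2) L :=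
  aeval ![C c + C q * (X 0 + C e * X 1), C c' + C q * (X 0 + C e' * X 1)] Φ

theorem eval_sb (c c' q e e' : L) (Φ : MvPolynomial (Fin 2) k) (x : Fin 2 → L) :
    eval x (sb c c' q e e' Φ) =
      aeval ![c + q * (x 0 + e * x 1), c' + q * (x 0 + e' * x 1)] Φ := by
  have h : eval x (sb c c' q e e' Φ) =
      ((aeval x : MvPolynomial (Fin 2) L →ₐ[L] L).restrictScalars k) (sb c c' q e e' Φ) := by
    rw [AlgHom.restrictScalars_apply, aeval_eq_eval]
  rw [h, sb, comp_aeval_apply]
  congr 1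
  congr 1
  funext i
  fin_cases i <;> simp

theorem sb_ne [CharZero L] {c c' q e e' : L} (hq : q ≠ 0) (he : e' ≠ e)
    {Φ : MvPolynomial (Fin 2) k} (hΦ : Φ ≠ 0) : sb c c' q e e' Φ ≠ 0 := by
  intro h0
  apply hΦ
  have hinj : Function.Injective (algebraMap k L) := (algebraMap k L).injective
  apply map_injective (algebraMap k L) hinj
  rw [map_zero]
  apply MvPolynomial.funext
  intro y
  have hd : e' - e ≠ 0 := sub_ne_zero.2 he
  have h1 := eval_sb c c' q e e' Φ
    ![(y 0 - c) / q - e * (((y 1 - c') - (y 0 - c)) / (q * (e' - e))),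
      ((y 1 - c') - (y 0 - c)) / (q * (e' - e))]
  rw [h0, map_zero] at h1
  have e0 : c + q * ((y 0 - c) / q - e * (((y 1 - c') - (y 0 - c)) / (q * (e' - e))) +
      e * (((y 1 - c') - (y 0 - c)) / (q * (e' - e)))) = y 0 := by
    field_simp
    ring
  have e1 : c' + q * ((y 0 - c) / q - e * (((y 1 - c') - (y 0 - c)) / (q * (e' - e))) +
      e' * (((y 1 - c') - (y 0 - c)) / (q * (e' - e)))) = y 1 := by
    field_simp
    ring
  simp only [Matrix.cons_val_zero, Matrix.cons_val_one] at h1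
  rw [e0, e1] at h1
  have h2 : (![y 0, y 1] : Fin 2 → L) = y := by
    funext i
    fin_cases i <;> rfl
  rw [h2] at h1
  rw [eval_map, map_zero, ← aeval_def]
  exact h1.symm

/-- the polynomial of the condition `≠ z` -/
theorem lin_ne [CharZero L] {c q e z : L} (hq : q ≠ 0) :
    (C c + C q * (X 0 + C e * X 1) - C z : MvPolynomial (Fin 2) L) ≠ 0 := by
  intro h0
  have h1 := congrArg (eval (![0, 0] : Fin 2 → L)) h0
  have h2 := congrArg (eval (![1, 0] : Fin 2 → L)) h0
  simp at h1 h2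
  apply hq
  linear_combination h2 - h1

end Den

open Den in
/-- (Den) these equations do not hold everywhere on an open set -/
theorem stDen : StDen.{u} := by
  classical
  intro p hp k L F _ _ _ _ _ _ _ S hv Φ hΦ Z hZ c n
  have hcL : CharZero L := charZero_of_injective_algebraMap (algebraMap k L).injective
  have hp0 : (p : L) ≠ 0 := fun h => by
    rw [h, S.v_zero] at hv
    exact lt_irrefl _ hv
  obtain ⟨e, he⟩ := Field.exists_primitive_element k L
  have htop : Algebra.adjoin k {e} = ⊤ := by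
    rw [← IntermediateField.adjoin_simple_toSubalgebra_of_isAlgebraic
      (Algebra.IsAlgebraic.isAlgebraic e), he, IntermediateField.top_toSubalgebra]
  have hσ : ∀ σ : L ≃ₐ[k] L, σ ≠ 1 → σ e ≠ e := by
    intro σ hσ h1
    apply hσ
    have h2 : (σ : L →ₐ[k] L) = AlgHom.id k L := by
      refine AlgHom.ext_of_adjoin_eq_top htop fun x hx => ?_
      rw [Set.mem_singleton_iff] at hx
      subst hx
      exact h1
    exact AlgEquiv.ext fun x => DFunLike.congr_fun h2 x
  obtain ⟨M, hM⟩ : ∃ M : ℕ, n - min 0 (S.v e) ≤ M := ⟨_, Int.self_le_toNat _⟩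
  set q : L := (p : L) ^ M with hq
  have hq0 : q ≠ 0 := pow_ne_zero _ hp0
  have hqv : S.Gz M q := by
    right
    rw [hq, SymAux.v_pow S _ hp0]
    nlinarith
  set R : MvPolynomial (Fin 2) L :=
    (∏ σ ∈ (Finset.univ.filter fun σ : L ≃ₐ[k] L => σ ≠ 1), sb c (σ c) q e (σ e) Φ) *
      ∏ z ∈ hZ.toFinset, (C c + C q * (X 0 + C e * X 1) - C z) with hR
  have hR0 : R ≠ 0 := by
    refine mul_ne_zero (Finset.prod_ne_zero_iff.2 fun σ hs => ?_)
      (Finset.prod_ne_zero_iff.2 fun z _ => lin_ne hq0)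
    exact sb_ne hq0 (hσ σ (Finset.mem_filter.1 hs).2) hΦ
  obtain ⟨x, hx, hxR⟩ : ∃ x ∈ Set.pi Set.univ (fun _ : Fin 2 => Set.range (Nat.cast : ℕ → L)),
      eval x R ≠ 0 := by
    by_contra hno
    push Not at hno
    apply hR0
    refine MvPolynomial.funext_set (fun _ : Fin 2 => Set.range (Nat.cast : ℕ → L))
      (fun _ => Set.infinite_range_of_injective Nat.cast_injective) fun x hx => ?_
    rw [hno x hx, map_zero]
  obtain ⟨a, ha⟩ := hx 0 (Set.mem_univ _)
  obtain ⟨b, hb⟩ := hx 1 (Set.mem_univ _)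
  rw [hR, map_mul, map_prod, map_prod] at hxR
  obtain ⟨h1, h2⟩ := mul_ne_zero_iff.1 hxR
  rw [Finset.prod_ne_zero_iff] at h1 h2
  refine ⟨c + q * (a + e * b), ?_, ?_, ?_⟩
  · rw [add_sub_cancel_left]
    have g1 : S.Gz (min 0 (S.v e)) (a : L) :=
      Or.inr ((min_le_left _ _).trans (SymAux.int_nat S a))
    have g2 : S.Gz (min 0 (S.v e)) (e * b) := by
      have := SymAux.gz_mul S (n := S.v e) (x := e) (Or.inr le_rfl) (SymAux.int_nat S b)
      exact SymAux.gz_mono S (min_le_right _ _) this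
    exact SymAux.gz_mono S (by omega) (SymAux.gz_mul_gz S hqv (SymAux.gz_add S g1 g2))
  · intro hz
    have h3 := h2 _ (hZ.mem_toFinset.2 hz)
    apply h3
    simp only [map_sub, map_add, map_mul, eval_C, eval_X, ← ha, ← hb]
    exact sub_self _
  · intro σ hs
    have h3 := h1 σ (Finset.mem_filter.2 ⟨Finset.mem_univ _, hs⟩)
    rw [eval_sb, ← ha, ← hb] at h3
    have e1 : σ (c + q * (a + e * b)) = σ c + q * (a + σ e * b) := by
      rw [map_add, map_mul, map_add, map_mul, hq, map_pow, map_natCast, map_natCast, map_natCast]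
    rw [e1]
    exact h3

end Pool.Agent.Lib.MP_c385f6_ag.Semi
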