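import Mathlib
import Pool.Agent.Lib.MP_c385f6_ag.Semi.Stmts

set_option autoImplicit false

/-!
Module Dep: two elements are algebraically dependent.
-/

namespace Pool.Agent.Lib.MP_c385f6_ag.Semi

theorem stDep.{u, v, w} : StDep.{u, v, w} := by
  intro k K Ω _ _ _ _ _ _ _ hcl htr z z'
  have halg : Algebra.IsAlgebraic K Ω := IsAlgClosure.isAlgebraic
  by_contra hcon
  push Not at hcon
  have hind : AlgebraicIndependent k ![z, z'] := by
    rw [algebraicIndependent_iff]
    intro Φ hΦ
    by_contra h0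
    exact hcon Φ h0 hΦ
  have h1 := hind.lift_cardinalMk_le_trdeg
  have h2 := lift_trdeg_add_eq k K Ω
  rw [htr, trdeg_eq_zero (R := K) (A := Ω), Cardinal.lift_one, Cardinal.lift_zero, add_zero] at h2
  have h3 : Algebra.trdeg k Ω = 1 := Cardinal.lift_eq_one.mp h2.symm
  rw [h3] at h1
  simp only [Cardinal.mk_fin, Cardinal.lift_natCast, Cardinal.lift_one] at h1
  exact absurd h1 (by norm_num)

end Pool.Agent.Lib.MP_c385f6_ag.Semi
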