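import Mathlib
import Pool.Agent.Lib.MP_c385f6_ag.Semi.Stmts

set_option autoImplicit false

/-!
Properties of `openExt`: module N of the theorem on `openExt`.
-/

namespace Pool.Agent.Lib.MP_c385f6_ag.Semi

open Polynomial
open scoped Pointwise

namespace NfAux

section
variable {K Ω : Type*} [Field K] [Field Ω] [Algebra K Ω]

theorem mem_inertia_of {V : ValuationSubring Ω} {σ : Ω ≃ₐ[K] Ω}
    (hdec : σ ∈ V.decompositionSubgroup K) (h : ∀ y ∈ V, V.valuation (σ y - y) < 1) :
    σ ∈ inertia K V := by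
  refine ⟨⟨σ, hdec⟩, ?_, rfl⟩
  show MulSemiringAction.toRingAut (V.decompositionSubgroup K) (IsLocalRing.ResidueField V)
    ⟨σ, hdec⟩ = 1
  ext r
  obtain ⟨y, rfl⟩ := IsLocalRing.residue_surjective r
  show (⟨σ, hdec⟩ : V.decompositionSubgroup K) • (IsLocalRing.residue V y) =
    IsLocalRing.residue V y
  rw [← IsLocalRing.ResidueField.residue_smul, ← sub_eq_zero, ← map_sub,
    IsLocalRing.residue_eq_zero_iff, ValuationSubring.valuation_lt_one_iff]
  exact h y y.2

theorem valuation_lt_one_iff_mem (V : ValuationSubring Ω) (u : Ω) :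
    V.valuation u < 1 ↔ u = 0 ∨ u⁻¹ ∉ V := by
  by_cases hu : u = 0
  · simp [hu]
  · rw [← V.valuation_le_one_iff, map_inv₀, inv_le_one₀, not_le]
    · simp [hu]
    · exact zero_lt_iff.2 ((Valuation.ne_zero_iff _).2 hu)

/-- Conjugation of inertia groups. -/
theorem inertia_conj {V : ValuationSubring Ω} {σ τ : Ω ≃ₐ[K] Ω} (hτ : τ ∈ inertia K V) :
    σ⁻¹ * τ * σ ∈ inertia K (σ⁻¹ • V) := by
  have hdec : τ • V = V := by
    obtain ⟨τ', -, rfl⟩ := hτ
    exact τ'.2
  refine mem_inertia_of ?_ fun y hy => ?_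
  · rw [MulAction.mem_stabilizer_iff, smul_smul, mul_assoc, mul_inv_cancel, mul_one, ← smul_smul,
      hdec]
  · rw [ValuationSubring.mem_inv_pointwise_smul_iff] at hy
    have h1 := inertia_valuation hτ hy
    rw [valuation_lt_one_iff_mem] at h1 ⊢
    have h2 : σ ((σ⁻¹ * τ * σ) y - y) = τ (σ y) - σ y := by
      rw [map_sub]
      show (σ * (σ⁻¹ * τ * σ)) y - σ y = _
      rw [mul_assoc, mul_inv_cancel_left]
      rfl
    rcases h1 with h1 | h1
    · left
      apply σ.injective
      rw [h2, map_zero]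
      exact h1
    · right
      rw [ValuationSubring.mem_inv_pointwise_smul_iff]
      intro h3
      apply h1
      have h4 : σ • ((σ⁻¹ * τ * σ) y - y)⁻¹ = (τ (σ y) - σ y)⁻¹ := by
        rw [← h2]
        exact map_inv₀ σ _
      rw [h4] at h3
      exact h3

end

section
variable {k K Ω : Type*} [Field k] [Field K] [Field Ω] [Algebra k K] [Algebra k Ω]
  [Algebra K Ω] [IsScalarTower k K Ω] {f : k[X]}

/-- Inertia groups act trivially on `openExt`. -/
theorem inertia_open {B : ValuationSubring Ω} (hB : Rootless K f B)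
    {σ : Ω ≃ₐ[K] Ω} (hσ : σ ∈ inertia K B) {z : Ω} (hz : z ∈ openExt k K Ω f) : σ z = z := by
  rw [openExt, IntermediateField.mem_fixedField_iff] at hz
  exact hz σ (le_iSup (fun B : {B : ValuationSubring Ω // Rootless K f B} =>
    inertia K B.1) ⟨B, hB⟩ hσ)

theorem mem_openExt {z : Ω} (h : ∀ B : ValuationSubring Ω, Rootless K f B →
    ∀ σ ∈ inertia K B, σ z = z) : z ∈ openExt k K Ω f := by
  rw [openExt, IntermediateField.mem_fixedField_iff]
  intro g hg
  have h1 : (⨆ B : {B : ValuationSubring Ω // Rootless K f B}, inertia K B.1) ≤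
      MulAction.stabilizer (Ω ≃ₐ[K] Ω) z := by
    refine iSup_le fun B σ hσ => ?_
    rw [MulAction.mem_stabilizer_iff]
    exact h B.1 B.2 σ hσ
  exact MulAction.mem_stabilizer_iff.1 (h1 hg)

/-- Part 2. -/
theorem ur_le : maxUnramified k K Ω ≤ openExt k K Ω f := by
  intro z hz
  refine mem_openExt fun B hB σ hσ => ?_
  rw [maxUnramified, IntermediateField.mem_fixedField_iff] at hz
  exact hz σ (le_iSup (fun B : {B : ValuationSubring Ω // ∀ c : k, algebraMap k Ω c ∈ B} =>
    inertia K B.1) ⟨B, hB.1⟩ hσ)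

/-- Part 5. -/
theorem rootless_conj (σ : Ω ≃ₐ[K] Ω) {B B' : ValuationSubring Ω}
    (h : ∀ z, z ∈ B' ↔ σ z ∈ B) (hB : Rootless K f B) : Rootless K f B' := by
  have hc : B'.comap (algebraMap K Ω) = B.comap (algebraMap K Ω) := by
    ext a
    rw [ValuationSubring.mem_comap, ValuationSubring.mem_comap, h, σ.commutes]
  refine ⟨fun c => ?_, ?_⟩
  · rw [h, IsScalarTower.algebraMap_apply k K Ω, σ.commutes, ← IsScalarTower.algebraMap_apply]
    exact hB.1 c
  · rw [hc]
    exact hB.2

theorem stable (σ : Ω ≃ₐ[K] Ω) {z : Ω} (hz : z ∈ openExt k K Ω f) :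
    σ z ∈ openExt k K Ω f := by
  refine mem_openExt fun B hB τ hτ => ?_
  have hB' : Rootless K f (σ⁻¹ • B) := by
    refine rootless_conj σ (fun z => ?_) hB
    rw [ValuationSubring.mem_inv_pointwise_smul_iff]
    rfl
  have h1 := inertia_open hB' (inertia_conj (σ := σ) hτ) hz
  have h2 : σ ((σ⁻¹ * τ * σ) z) = σ z := by rw [h1]
  have h3 : σ ((σ⁻¹ * τ * σ) z) = τ (σ z) := by
    show (σ * (σ⁻¹ * τ * σ)) z = _
    rw [mul_assoc, mul_inv_cancel_left]
    rfl
  rw [← h3, h2]

/-- Part 6, first half. -/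
theorem noRoot_of_rational {A : ValuationSubring K} (hA : IsRationalPlace k K A)
    (hf : ∀ c : k, f.eval c ≠ 0) : NoRoot f A := by
  intro a ha hlt
  obtain ⟨c, hc⟩ := hA.residue a ha
  let φ : k →+* A := (algebraMap k K).codRestrict A hA.const_mem
  let a' : A := ⟨a, ha⟩
  have hφ : (A.subtype).comp φ = algebraMap k K := rfl
  have h1 : (((f.map φ).eval a' : A) : K) = aeval a f := by
    rw [eval_map]
    show A.subtype (eval₂ φ a' f) = _
    rw [hom_eval₂, hφ]
    rfl
  have h2 : (((f.map φ).eval (φ c) : A) : K) = algebraMap k K (f.eval c) := by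
    rw [eval_map, eval₂_at_apply]
    rfl
  obtain ⟨q, hq⟩ := sub_dvd_eval_sub a' (φ c) (f.map φ)
  have h3 : aeval a f - algebraMap k K (f.eval c) = (a - algebraMap k K c) * (q : K) := by
    rw [← h1, ← h2]
    exact congrArg (fun z : A => (z : K)) hq
  have h4 : A.valuation (aeval a f - algebraMap k K (f.eval c)) < 1 := by
    rw [h3, map_mul]
    exact mul_lt_one_of_lt_of_le hc (A.valuation_le_one q)
  have h5 : A.valuation (algebraMap k K (f.eval c)) < 1 := by
    have h6 : algebraMap k K (f.eval c) =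
        aeval a f - (aeval a f - algebraMap k K (f.eval c)) := by ring
    rw [h6]
    exact Valuation.map_sub_lt _ hlt h4
  rw [valuation_lt_one_iff_mem] at h5
  rcases h5 with h5 | h5
  · exact hf c ((algebraMap k K).injective (by rw [h5, map_zero]))
  · apply h5
    rw [← map_inv₀]
    exact hA.const_mem _

end

end NfAux

open NfAux in
/-- (N) properties of `openExt` -/
theorem stN.{u, v, w} : StN.{u, v, w} := by
  intro k K Ω _ _ _ _ _ _ _ _ _ f
  have hrat : (∀ c : k, f.eval c ≠ 0) → ∀ V : ValuationSubring Ω,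
      IsRationalPlace k K (V.comap (algebraMap K Ω)) → Rootless K f V := by
    intro hf V hV
    refine ⟨fun c => ?_, noRoot_of_rational hV hf⟩
    have h := hV.const_mem c
    rw [ValuationSubring.mem_comap, ← IsScalarTower.algebraMap_apply] at h
    exact h
  refine ⟨?_, ur_le, fun c => ur_le (const_mem_maxUnramified c.2), ?_, ?_, ?_⟩
  · have : Normal K Ω := IsAlgClosure.normal K Ω
    rw [IntermediateField.normal_iff_forall_map_le']
    rintro σ _ ⟨z, hz, rfl⟩
    exact stable σ hz
  · intro l hl y hy hv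
    refine mem_openExt fun B hB σ hσ => ?_
    have h1 : B.valuation y ^ l = 1 := by rw [← map_pow]; exact hv B hB
    have h2 : B.valuation y = 1 := (pow_eq_one_iff_of_nonneg zero_le hl).1 h1
    exact inertia_root hB.1 hσ hl h2 (inertia_open hB hσ hy)
  · intro σ B B' h hB
    exact rootless_conj σ h hB
  · intro hf V hV
    exact ⟨hrat hf V hV, fun σ hσ z hz => inertia_open (hrat hf V hV) hσ hz⟩

end Pool.Agent.Lib.MP_c385f6_ag.Semi
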