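import Mathlib
import Pool.Agent.Lib.MP_c385f6_ag.Semi.RootExt
import Pool.Agent.Lib.MP_c385f6_ag.Semi.Nf
import Pool.Agent.Lib.MP_c385f6_ag.Semi.Defs3

set_option autoImplicit false

/-!
Extensions `K` for which `K^ur` is closed under roots of units.
-/

namespace Pool.Agent.Lib.MP_c385f6_ag.Semi

open Pool.Agent.Lib.MP_c385f6_ag.Cpl Polynomial IntermediateField

universe u v w

section
variable {K Ω : Type*} [Field K] [Field Ω] [Algebra K Ω]

/-- the value group of an algebraic extension is torsion over the value group of `K` -/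
theorem exists_pow_valuation (B : ValuationSubring Ω) {y : Ω} (hy : y ≠ 0)
    (hal : IsAlgebraic K y) :
    ∃ m : ℕ, m ≠ 0 ∧ ∃ x : K, B.valuation (y ^ m) = B.valuation (algebraMap K Ω x) := by
  obtain ⟨P, hP0, hP⟩ := hal
  set t : ℕ → Ω := fun i => algebraMap K Ω (P.coeff i) * y ^ i with ht
  have hsum : ∑ i ∈ P.support, t i = 0 := by
    rw [← hP, aeval_def, eval₂_eq_sum, Polynomial.sum]
  have hne : P.support.Nonempty := support_nonempty.2 hP0
  obtain ⟨j, hj, hmax⟩ := Finset.exists_max_image P.support (fun i => B.valuation (t i)) hne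
  have hcoeff : ∀ i ∈ P.support, algebraMap K Ω (P.coeff i) ≠ 0 := fun i hi =>
    (_root_.map_ne_zero _).2 (mem_support_iff.1 hi)
  have ht0 : ∀ i ∈ P.support, B.valuation (t i) ≠ 0 := fun i hi =>
    (Valuation.ne_zero_iff _).2 (mul_ne_zero (hcoeff i hi) (pow_ne_zero _ hy))
  have h1 : ∃ i ∈ P.support, i ≠ j ∧ B.valuation (t i) = B.valuation (t j) := by
    by_contra hcon
    push Not at hcon
    have h2 := Valuation.map_sum_eq_of_lt B.valuation hj (fun i hi => by
      obtain ⟨hi1, hi2⟩ := Finset.mem_sdiff.1 hi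
      exact lt_of_le_of_ne (hmax i hi1) (hcon i hi1 (by simpa using hi2)))
    rw [hsum, map_zero] at h2
    exact ht0 j hj h2.symm
  obtain ⟨i, hi, hij, hv⟩ := h1
  have h3 : ∀ a b : ℕ, a ∈ P.support → b ∈ P.support → a < b →
      B.valuation (t a) = B.valuation (t b) → ∃ m : ℕ, m ≠ 0 ∧ ∃ x : K,
        B.valuation (y ^ m) = B.valuation (algebraMap K Ω x) := by
    intro a b ha hb hab hvv
    refine ⟨b - a, by omega, P.coeff a / P.coeff b, ?_⟩
    have h4 : y ^ b = y ^ (b - a) * y ^ a := by rw [← pow_add]; congr 1; omega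
    simp only [ht, map_mul] at hvv
    rw [h4, map_mul] at hvv
    have hya : B.valuation (y ^ a) ≠ 0 := (Valuation.ne_zero_iff _).2 (pow_ne_zero _ hy)
    have hcb : B.valuation (algebraMap K Ω (P.coeff b)) ≠ 0 :=
      (Valuation.ne_zero_iff _).2 (hcoeff b hb)
    rw [map_div₀, map_div₀, eq_div_iff hcb]
    rw [← mul_assoc] at hvv
    have h5 := mul_right_cancel₀ hya hvv
    rw [h5, mul_comm]
  rcases lt_or_gt_of_ne hij with h | h
  · exact h3 i j hi hj h hv
  · exact h3 j i hj hi h hv.symm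

end

section
variable {k K Ω : Type*} [Field k] [Field K] [Field Ω] [Algebra k K] [Algebra k Ω] [Algebra K Ω]
  [IsScalarTower k K Ω]

/-- inertia acts trivially on `p`-th roots if the value group of `K` is `p`-divisible -/
theorem inertia_divisible [Algebra.IsAlgebraic K Ω] {B : ValuationSubring Ω}
    (hB : ∀ c : k, algebraMap k Ω c ∈ B) {σ : Ω ≃ₐ[K] Ω} (hσ : σ ∈ inertia K B) {p : ℕ}
    (hp : p.Prime) (hdiv : ∀ x : K, ∃ y : K,
      B.valuation (algebraMap K Ω (y ^ p)) = B.valuation (algebraMap K Ω x))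
    {y : Ω} (hy : σ (y ^ p) = y ^ p) : σ y = y := by
  rcases eq_or_ne y 0 with rfl | hy0
  · exact map_zero _
  obtain ⟨m, hm, x, hx⟩ := exists_pow_valuation (K := K) B hy0 (Algebra.IsAlgebraic.isAlgebraic y)
  have key : ∀ a m' : ℕ, m = p ^ a * m' → ∃ t : K,
      B.valuation (y ^ m') = B.valuation (algebraMap K Ω t) := by
    intro a
    induction a with
    | zero => intro m' h; exact ⟨x, by rw [← hx, h, pow_zero, one_mul]⟩
    | succ a ih =>
      intro m' h
      obtain ⟨t, ht⟩ := ih (p * m') (by rw [h]; ring)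
      obtain ⟨z, hz⟩ := hdiv t
      refine ⟨z, ?_⟩
      rw [← hz, map_pow, map_pow] at ht
      rw [mul_comm, pow_mul, map_pow] at ht
      rw [map_pow]
      exact (pow_left_inj₀ zero_le zero_le hp.ne_zero).1 ht
  obtain ⟨a, m', hm', hmm⟩ := Nat.exists_eq_pow_mul_and_not_dvd hm p hp.ne_one
  obtain ⟨t, ht⟩ := key a m' hmm
  have ht0 : algebraMap K Ω t ≠ 0 := by
    intro h
    rw [h, map_zero] at ht
    exact (Valuation.ne_zero_iff _).2 (pow_ne_zero m' hy0) ht
  have h1 : σ (y ^ m') = y ^ m' := by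
    refine inertia_kummer hB hσ hp.ne_zero ht0 (σ.commutes t) ?_ ht
    rw [← pow_mul, mul_comm, pow_mul, map_pow, hy]
  have h2 : (σ y / y) ^ p = 1 := by
    rw [div_pow, ← map_pow, hy, div_self (pow_ne_zero _ hy0)]
  have h3 : (σ y / y) ^ m' = 1 := by
    rw [div_pow, ← map_pow, h1, div_self (pow_ne_zero _ hy0)]
  have h4 : Nat.Coprime p m' := (Nat.Prime.coprime_iff_not_dvd hp).2 hm'
  have h5 : σ y / y = 1 := by
    have h6 : (σ y / y) ^ Nat.gcd p m' = 1 := pow_gcd_eq_one.2 ⟨h2, h3⟩
    rwa [h4, pow_one] at h6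
  rwa [div_eq_one_iff_eq hy0] at h5

end

section
variable {k : Type u} {K : Type v} {Ω : Type w} [ik : Field k] [ic : CharZero k] [iK : Field K]
  [iO : Field Ω] [iakK : Algebra k K] [iakO : Algebra k Ω] [iaKO : Algebra K Ω]
  [ist : IsScalarTower k K Ω] [ial : IsAlgClosure K Ω]

/-- the maximal unramified extension is closed under roots of units if the value groups are
divisible -/
theorem rootClosed_maxUnramified {p : ℕ} (hp : p.Prime) {f : k[X]}
    (hdiv : ValuesDivisible K p f) : RootClosed p f (maxUnramified k K Ω) := by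
  have halg : Algebra.IsAlgebraic K Ω := IsAlgClosure.isAlgebraic
  refine ⟨normal_maxUnramified k K Ω, fun c => const_mem_maxUnramified c.2, NfAux.ur_le, ?_⟩
  intro y hy hu
  have hur : ∀ B : ValuationSubring Ω, (∀ c : k, algebraMap k Ω c ∈ B) → ∀ σ ∈ inertia K B,
      ∀ z ∈ maxUnramified k K Ω, σ z = z := by
    intro B hB σ hσ z hz
    rw [maxUnramified, IntermediateField.mem_fixedField_iff] at hz
    exact hz σ (le_iSup (fun B : {B : ValuationSubring Ω // ∀ c : k, algebraMap k Ω c ∈ B} =>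
      inertia K B.1) ⟨B, hB⟩ hσ)
  refine mem_maxUnramified fun B hB σ hσ => ?_
  by_cases hno : NoRoot f (B.comap (algebraMap K Ω))
  · have h1 : B.valuation y ^ p = 1 := by rw [← map_pow]; exact hu B ⟨hB, hno⟩
    have h2 : B.valuation y = 1 := (pow_eq_one_iff_of_nonneg zero_le hp.ne_zero).1 h1
    exact inertia_root hB hσ hp.ne_zero h2 (hur B hB σ hσ _ hy)
  · refine inertia_divisible hB hσ hp (fun x => ?_) (hur B hB σ hσ _ hy)
    obtain ⟨z, hz⟩ := hdiv (B.comap (algebraMap K Ω)) (fun c => by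
      rw [ValuationSubring.mem_comap, ← IsScalarTower.algebraMap_apply]
      exact hB c) hno x
    refine ⟨z, ?_⟩
    have h3 : ∀ a b : K, (B.comap (algebraMap K Ω)).valuation a ≤
        (B.comap (algebraMap K Ω)).valuation b →
        B.valuation (algebraMap K Ω a) ≤ B.valuation (algebraMap K Ω b) := by
      intro a b hab
      rcases eq_or_ne b 0 with rfl | hb
      · rw [map_zero, nonpos_iff_eq_zero, Valuation.zero_iff] at hab
        rw [hab]
      have hb' : (B.comap (algebraMap K Ω)).valuation b ≠ 0 := (Valuation.ne_zero_iff _).2 hb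
      have h4 : (B.comap (algebraMap K Ω)).valuation (a / b) ≤ 1 := by
        rw [map_div₀]
        exact div_le_one_of_le₀ hab zero_le
      rw [ValuationSubring.valuation_le_one_iff, ValuationSubring.mem_comap,
        ← ValuationSubring.valuation_le_one_iff, map_div₀, map_div₀] at h4
      have hb2 : B.valuation (algebraMap K Ω b) ≠ 0 :=
        (Valuation.ne_zero_iff _).2 ((_root_.map_ne_zero _).2 hb)
      rwa [div_le_one₀ (zero_lt_iff.2 hb2)] at h4
    exact le_antisymm (h3 _ _ hz.le) (h3 _ _ hz.ge)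

/-- intersections -/
theorem RootClosed.inf {p : ℕ} {f : k[X]} {N N' : IntermediateField K Ω} (h : RootClosed p f N)
    (h' : RootClosed p f N') : RootClosed p f (N ⊓ N') := by
  have hnΩ : Normal K Ω := IsAlgClosure.normal K Ω
  refine ⟨?_, fun c => ⟨h.const c, h'.const c⟩, le_trans inf_le_left h.le,
    fun y hy hu => ⟨h.root y hy.1 hu, h'.root y hy.2 hu⟩⟩
  rw [IntermediateField.normal_iff_forall_map_le']
  rintro σ _ ⟨z, hz, rfl⟩
  exact ⟨apply_mem_of_normal h.normal σ hz.1, apply_mem_of_normal h'.normal σ hz.2⟩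

end

end Pool.Agent.Lib.MP_c385f6_ag.Semi
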