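import Mathlib
import Pool.Agent.Lib.MP_c385f6_ag.Semi.Stmts

set_option autoImplicit false

/-!
(Dns) many elements of `L` are not residues of given elements.
-/

namespace Pool.Agent.Lib.MP_c385f6_ag.Semi

open Pool.Agent.Lib.MP_c385f6_ag.Cpl Polynomial

namespace DnsAux

/-- an element of valuation less than one for the trivial valuation ring is zero -/
theorem eq_zero_of_top {E : Type*} [Field E] {y : E}
    (h : (⊤ : ValuationSubring E).valuation y < 1) : y = 0 := by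
  by_contra hy
  have h1 : (⊤ : ValuationSubring E).valuation y⁻¹ ≤ 1 :=
    ((⊤ : ValuationSubring E).valuation_le_one_iff y⁻¹).2 (ValuationSubring.mem_top _)
  have h2 : (⊤ : ValuationSubring E).valuation (y * y⁻¹) < 1 := by
    rw [map_mul]
    exact mul_lt_one_of_lt_of_le h h1
  rw [mul_inv_cancel₀ hy, map_one] at h2
  exact lt_irrefl _ h2

end DnsAux

open DnsAux in
theorem stDns.{u, v, w} (h1 : StBad.{u, v, w}) (h2 : StDen.{u}) : StDns.{u, v, w} := by
  intro p hp k K Ω i1 i2 i3 i4 i5 i6 i7 i8 i9 htr L F j1 j2 j3 j4 j5 S φ f hv hf X hX c n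
  classical
  have hbad := h1 k K Ω i1 i2 i3 i4 i5 i6 i7 i8 i9 htr L j1 j3 j4 j5 φ f hf
  choose Φ hΦ0 hΦ using hbad
  have hΨ : ∏ x ∈ hX.toFinset, Φ x ≠ 0 := Finset.prod_ne_zero_iff.2 fun x _ => hΦ0 x
  have hinj : Function.Injective fun c : L => (φ c : Ω) := fun a b hab =>
    φ.injective (Subtype.ext hab)
  have hZ : ((fun c : L => (φ c : Ω)) ⁻¹' X).Finite := hX.preimage hinj.injOn
  obtain ⟨c', hc1, hc2, hc3⟩ := h2 p hp k L F i1 i2 j1 j2 j3 j4 j5 S hv _ hΨ _ hZ c n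
  refine ⟨c', hc1, fun x hx => ?_⟩
  have hne : x ≠ (φ c' : Ω) := fun h => hc2 (by
    show (φ c' : Ω) ∈ X
    rw [← h]
    exact hx)
  refine ⟨hne, fun B hB hlt => ?_⟩
  by_cases htop : B = ⊤
  · subst htop
    exact hne (sub_eq_zero.1 (eq_zero_of_top hlt))
  · obtain ⟨σ, hσ, h⟩ := hΦ x B hB htop c' hlt
    refine hc3 σ hσ ?_
    rw [map_prod]
    exact Finset.prod_eq_zero (hX.mem_toFinset.2 hx) h

end Pool.Agent.Lib.MP_c385f6_ag.Semi
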