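import Pool.Agent.Lib.MP_c385f6_ag.Semi.Stmts

set_option autoImplicit false

/-!
Existence of a finite Galois extension `L` of `k` that contains a root of a given polynomial and the
`p`-th roots of unity.
-/

namespace Pool.Agent.Lib.MP_c385f6_ag.Semi

open Polynomial

universe u

theorem stExL : StExL.{u} := by
  intro p hp k _ _ _ f hf
  have hp0 : (p : ℕ) ≠ 0 := hp.out.ne_zero
  have halg : Algebra.IsAlgebraic ℚ_[p] k := Algebra.IsAlgebraic.of_finite ℚ_[p] k
  let φ : k →ₐ[ℚ_[p]] AlgebraicClosure ℚ_[p] := IsAlgClosed.lift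
  let : Algebra k (AlgebraicClosure ℚ_[p]) := φ.toRingHom.toAlgebra
  have tower : IsScalarTower ℚ_[p] k (AlgebraicClosure ℚ_[p]) :=
    IsScalarTower.of_algebraMap_eq fun x => (φ.commutes x).symm
  have : CharZero k := charZero_of_injective_algebraMap (algebraMap ℚ_[p] k).injective
  set g : k[X] := (X ^ p - 1) * f with hg
  have hf0 : f ≠ 0 := by
    rintro rfl
    exact hf natDegree_zero
  have hX0 : (X ^ p - 1 : k[X]) ≠ 0 := (monic_X_pow_sub_C (1 : k) hp0).ne_zero
  have hg0 : g ≠ 0 := mul_ne_zero hX0 hf0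
  let L : IntermediateField k (AlgebraicClosure ℚ_[p]) :=
    IntermediateField.adjoin k (g.rootSet (AlgebraicClosure ℚ_[p]))
  have hsplit : IsSplittingField k L g :=
    IntermediateField.adjoin_rootSet_isSplittingField (IsAlgClosed.splits _)
  have hfin : FiniteDimensional k L := IsSplittingField.finiteDimensional L g
  have hnorm : Normal k L := Normal.of_isSplittingField g
  have hgal : IsGalois k L := ⟨⟩
  have hfin' : FiniteDimensional ℚ_[p] L := FiniteDimensional.trans ℚ_[p] k L
  refine ⟨L, inferInstance, inferInstance, inferInstance, inferInstance, hfin, hfin', hgal, ?_, ?_⟩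
  · have : NeZero (p : AlgebraicClosure ℚ_[p]) := ⟨Nat.cast_ne_zero.mpr hp0⟩
    obtain ⟨ζ, hζ⟩ := HasEnoughRootsOfUnity.exists_primitiveRoot (AlgebraicClosure ℚ_[p]) p
    have hmem : ζ ∈ L := by
      apply IntermediateField.subset_adjoin
      rw [mem_rootSet]
      refine ⟨hg0, ?_⟩
      rw [hg, map_mul, map_sub, map_pow, aeval_X, map_one, hζ.pow_eq_one, sub_self, zero_mul]
    refine ⟨⟨ζ, hmem⟩, ?_⟩
    refine IsPrimitiveRoot.of_map_of_injective (f := L.val) ?_ L.val.injective
    exact hζ
  · obtain ⟨r, hr⟩ := IsAlgClosed.exists_aeval_eq_zero (AlgebraicClosure ℚ_[p]) f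
      (fun h => hf (natDegree_eq_of_degree_eq_some h))
    have hmem : r ∈ L := by
      apply IntermediateField.subset_adjoin
      rw [mem_rootSet]
      refine ⟨hg0, ?_⟩
      rw [hg, map_mul, hr, mul_zero]
    refine ⟨⟨r, hmem⟩, ?_⟩
    have h1 : L.val (aeval (⟨r, hmem⟩ : L) f) = 0 := by
      rw [← aeval_algHom_apply]
      exact hr
    exact L.val.injective (h1.trans (map_zero L.val).symm)

end Pool.Agent.Lib.MP_c385f6_ag.Semi
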