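import Mathlib
import Pool.Agent.Lib.MP_c385f6_ag.PlaceMain
import Pool.Agent.Lib.MP_c385f6_ag.Semi.Stmts

set_option autoImplicit false

/-!
(Ext) a rational place of the field fixed by a section extends to a place fixed by the section.
-/

namespace Pool.Agent.Lib.MP_c385f6_ag.Semi

open Polynomial

namespace ExtAux

section dec
variable {M Ω : Type*} [Field M] [Field Ω] [Algebra M Ω] [Algebra.IsAlgebraic M Ω]

/-- the elements of `decSub A V` preserve `V` -/
theorem decSub_mem {A : ValuationSubring M} {V : ValuationSubring Ω}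
    (hV : ∀ a ∈ A, algebraMap M Ω a ∈ V) {σ : Ω ≃ₐ[M] Ω} (hσ : σ ∈ decSub A V) {y : Ω}
    (hy : y ∈ V) : σ y ∈ V := by
  obtain ⟨b, c, hb, hc, hc1, rfl⟩ := exists_quotient A hV hy
  have hσb : IsIntegral A (σ b) := IsIntegral.map (σ.toAlgHom.restrictScalars A) hb
  have hσc : IsIntegral A (σ c) := IsIntegral.map (σ.toAlgHom.restrictScalars A) hc
  have h1 : V.valuation (σ b) ≤ 1 := (V.valuation_le_one_iff _).2 (integral_mem A hV hσb)
  have h2 : V.valuation (σ c) ≤ 1 := (V.valuation_le_one_iff _).2 (integral_mem A hV hσc)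
  have h3 : ¬ V.valuation (σ c) < 1 := by
    rw [hσ c hc, hc1]
    exact lt_irrefl _
  have h4 : V.valuation (σ c) = 1 := le_antisymm h2 (not_lt.1 h3)
  rw [← V.valuation_le_one_iff, map_div₀, map_div₀, h4, div_one]
  exact h1

end dec

section main
variable {k K Ω : Type*} [Field k] [CharZero k] [Field K] [Field Ω] [Algebra k K] [Algebra k Ω]
  [Algebra K Ω] [IsScalarTower k K Ω] [IsAlgClosure K Ω]

omit [IsScalarTower k K Ω] in
/-- an automorphism over the field fixed by the section that acts on the constants as `g`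
acts on `N` as `s g` -/
theorem agree {N : IntermediateField K Ω} [Normal K N]
    (hc : ∀ c : algebraicClosure k Ω, (c : Ω) ∈ N) {s : AbsGal k Ω →* (N ≃ₐ[K] N)}
    (hs : IsSec k K Ω N s) {g : AbsGal k Ω} {σ : Ω ≃ₐ[fixM s] Ω}
    (hσ : ∀ c : algebraicClosure k Ω, σ (c : Ω) = (g c : Ω)) (z : N) :
    ((s g z : N) : Ω) = σ z := by
  have hac : IsAlgClosed Ω := IsAlgClosure.isAlgClosed K
  have hcK : CharZero K := charZero_of_injective_algebraMap (algebraMap k K).injective
  have halg : Algebra.IsAlgebraic K Ω := IsAlgClosure.isAlgebraic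
  have hgN : IsGalois K N := {}
  have hacF : IsAlgClosed (algebraicClosure k Ω) := IsAlgClosure.isAlgClosed k
  have hgk : IsGalois k (algebraicClosure k Ω) := {}
  let σK : Ω ≃ₐ[K] Ω := σ.restrictScalars K
  let τ : N ≃ₐ[K] N := AlgEquiv.restrictNormalHom N σK
  have hτ : ∀ z : N, ((τ z : N) : Ω) = σ z :=
    fun z => AlgEquiv.restrictNormal_commutes σK N z
  let H : ClosedSubgroup (N ≃ₐ[K] N) :=
    ⟨s.range, by
      have h1 : IsCompact (Set.range s) := isCompact_range hs.continuous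
      exact h1.isClosed⟩
  have hH : (IntermediateField.fixedField (H : Subgroup (N ≃ₐ[K] N))).fixingSubgroup = H.1 :=
    InfiniteGalois.fixingSubgroup_fixedField H
  have hρ : (s g)⁻¹ * τ ∈ H.1 := by
    rw [← hH, IntermediateField.mem_fixingSubgroup_iff]
    intro x hx
    rw [IntermediateField.mem_fixedField_iff] at hx
    have hx' : ∀ g, s g x = x := fun g => hx (s g) ⟨g, rfl⟩
    have hxM : (x : Ω) ∈ fixM s := ⟨x.2, hx'⟩
    have h1 : τ x = x := Subtype.ext ((hτ x).trans (σ.commutes (⟨x, hxM⟩ : fixM s)))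
    show (s g)⁻¹ (τ x) = x
    rw [h1, ← map_inv]
    exact hx' _
  obtain ⟨h, hh⟩ : ∃ h, s h = (s g)⁻¹ * τ := hρ
  have hh1 : h = 1 := by
    ext c
    have h1 := hs.restrict h c ⟨c, hc c⟩ rfl
    rw [← h1, hh]
    show (((s g)⁻¹ (τ ⟨c, hc c⟩) : N) : Ω) = c
    have h2 : τ ⟨c, hc c⟩ = s g ⟨c, hc c⟩ := by
      apply Subtype.ext
      rw [hτ, hs.restrict g c ⟨c, hc c⟩ rfl]
      exact hσ c
    rw [h2]
    show ((((s g)⁻¹ * s g) ⟨c, hc c⟩ : N) : Ω) = c
    rw [inv_mul_cancel]
    rfl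
  rw [hh1, map_one] at hh
  have h3 : τ = s g := by
    rw [eq_comm, inv_mul_eq_one] at hh
    exact hh.symm
  rw [← hτ, h3]

end main

end ExtAux

open ExtAux in
theorem stExt.{u, v, w} : StExt.{u, v, w} := by
  intro k K Ω _ _ _ _ _ _ _ _ _ N hN hc s hs A hA
  have hac : IsAlgClosed Ω := IsAlgClosure.isAlgClosed K
  have halg : Algebra.IsAlgebraic K Ω := IsAlgClosure.isAlgebraic
  have halg' : Algebra.IsAlgebraic (fixM s) Ω := Algebra.IsAlgebraic.tower_top (K := K) (fixM s)
  have hM : IsAlgClosure (fixM s) Ω := ⟨hac, halg'⟩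
  have hT : IsScalarTower k (fixM s) Ω := IsScalarTower.of_algebraMap_eq fun x => rfl
  obtain ⟨V, hV, hV'⟩ := exists_above (Ω := Ω) A
  obtain ⟨-, hlift⟩ := exists_dec_lift hA hV hV'
  refine ⟨V.comap (algebraMap N Ω), fun z h => ?_, fun g z hz => ?_⟩
  · constructor
    · intro hz
      by_contra hcon
      have h1 : (⟨z, h⟩ : fixM s)⁻¹ ∈ A := (A.mem_or_inv_mem _).resolve_left hcon
      have h2 : A.valuation (⟨z, h⟩ : fixM s)⁻¹ < 1 := by
        rw [valuation_lt_one_iff_mem]
        right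
        rwa [inv_inv]
      have h3 := hV' _ h1 h2
      rw [valuation_lt_one_iff_mem, map_inv₀, inv_inv] at h3
      rcases h3 with h3 | h3
      · have h4 : (⟨z, h⟩ : fixM s) = 0 := by
          apply (algebraMap (fixM s) Ω).injective
          rw [map_zero]
          exact inv_eq_zero.1 h3
        exact hcon (h4 ▸ A.zero_mem)
      · exact h3 hz
    · intro hz
      exact hV _ hz
  · obtain ⟨σ, hσ, hσc⟩ := hlift g
    show ((s g z : N) : Ω) ∈ V
    rw [agree hc hs hσc z]
    exact decSub_mem hV hσ hz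

end Pool.Agent.Lib.MP_c385f6_ag.Semi
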