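import Mathlib
import Pool.Agent.Lib.MP_c385f6_ag.Semi.Stmts

set_option autoImplicit false

/-!
Module Kum: Kummer theory for the elements fixed by a section.
-/

namespace Pool.Agent.Lib.MP_c385f6_ag.Semi

open Polynomial

universe u v w

namespace KumAux

section

variable {k : Type u} {K : Type v} {Ω : Type w} [Field k] [CharZero k] [Field K] [Field Ω]
  [Algebra k K] [Algebra k Ω] [Algebra K Ω] [IsScalarTower k K Ω] [IsAlgClosure K Ω]
  {N : IntermediateField K Ω} (hN : ∀ c : algebraicClosure k Ω, (c : Ω) ∈ N)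

/-- the constants in `N` -/
def cn : algebraicClosure k Ω →+* N where
  toFun c := ⟨c, hN c⟩
  map_one' := rfl
  map_mul' _ _ := rfl
  map_zero' := rfl
  map_add' _ _ := rfl

omit [CharZero k] [Algebra k K] [IsScalarTower k K Ω] [IsAlgClosure K Ω] in
theorem coe_cn (c : algebraicClosure k Ω) : ((cn hN c : N) : Ω) = c := rfl

variable {s : AbsGal k Ω →* (N ≃ₐ[K] N)} (hs : IsSec k K Ω N s)
include hs

omit [CharZero k] [Algebra k K] [IsScalarTower k K Ω] [IsAlgClosure K Ω] in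
theorem sec_cn (g : AbsGal k Ω) (c : algebraicClosure k Ω) : s g (cn hN c) = cn hN (g c) :=
  hs.const g c (hN c) (hN (g c))

variable {L : Type} [Field L] [Algebra k L] [FiniteDimensional k L]
  (φ : L →ₐ[k] algebraicClosure k Ω)

omit [Algebra k K] [IsScalarTower k K Ω] [FiniteDimensional k L] in
theorem part_one (z : N) (hz : ∀ g ∈ fixGrp φ, s g z = z) (hzc : (z : Ω) ∈ algebraicClosure k Ω) :
    ∃ c : L, (z : Ω) = (φ c : Ω) := by
  obtain ⟨c, hc⟩ := const_of_fixGrp φ K (⟨(z : Ω), hzc⟩ : algebraicClosure k Ω) (by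
    intro g hg
    apply Subtype.ext
    have h3 := hs.restrict g ⟨(z : Ω), hzc⟩ z rfl
    rw [hz g hg] at h3
    exact h3.symm)
  exact ⟨c, by rw [hc]⟩

omit [Algebra k K] [IsScalarTower k K Ω] in
include hN in
theorem part_two {n : ℕ} (hn : n ≠ 0) (ρ : N) (hρ0 : ρ ≠ 0)
    (hρ : ∀ g ∈ fixGrp φ, s g (ρ ^ n) = ρ ^ n) :
    ∃ (δ : L) (z : N), δ ≠ 0 ∧ z ≠ 0 ∧ (∀ g ∈ fixGrp φ, s g z = z) ∧
      (ρ : Ω) ^ n = (φ δ : Ω) * (z : Ω) ^ n := by
  classical
  have hac : IsAlgClosed Ω := IsAlgClosure.isAlgClosed K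
  have halg : Algebra.IsAlgebraic K Ω := IsAlgClosure.isAlgebraic
  have hacF : IsAlgClosed (algebraicClosure k Ω) := IsAlgClosure.isAlgClosed k
  let ι : algebraicClosure k Ω →+* N := cn hN
  have hnF : NeZero (n : algebraicClosure k Ω) := by
    have : CharZero (algebraicClosure k Ω) :=
      charZero_of_injective_algebraMap (algebraMap k (algebraicClosure k Ω)).injective
    exact ⟨Nat.cast_ne_zero.2 hn⟩
  have : NeZero n := ⟨hn⟩
  obtain ⟨ξ, hξ⟩ := HasEnoughRootsOfUnity.exists_primitiveRoot (algebraicClosure k Ω) n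
  have hζL : IsPrimitiveRoot (ι ξ) n := hξ.map_of_injective ι.injective
  have hχex : ∀ g : AbsGal k Ω, ∃ c : algebraicClosure k Ω, g ∈ fixGrp φ → c ≠ 0 ∧ c ^ n = 1 ∧
      s g ρ = ι c * ρ := by
    intro g
    by_cases hg : g ∈ fixGrp φ
    swap
    · exact ⟨0, fun h => absurd h hg⟩
    have h1 : (s g ρ / ρ) ^ n = 1 := by
      rw [div_pow, ← map_pow, hρ g hg, div_self (pow_ne_zero _ hρ0)]
    obtain ⟨i, _, hi⟩ := hζL.eq_pow_of_pow_eq_one h1
    refine ⟨ξ ^ i, fun _ => ⟨pow_ne_zero _ (hξ.ne_zero hn), ?_, ?_⟩⟩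
    · rw [← pow_mul, mul_comm, pow_mul, hξ.pow_eq_one, one_pow]
    · rw [map_pow, hi]; field_simp
  choose χ hχ' using hχex
  have hχ0 : ∀ g ∈ fixGrp φ, χ g ≠ 0 := fun g hg => (hχ' g hg).1
  have hχn : ∀ g ∈ fixGrp φ, χ g ^ n = 1 := fun g hg => (hχ' g hg).2.1
  have hχ : ∀ g ∈ fixGrp φ, s g ρ = ι (χ g) * ρ := fun g hg => (hχ' g hg).2.2
  have hcancel : ∀ c c' : algebraicClosure k Ω, ι c * ρ = ι c' * ρ → c = c' := by
    intro c c' h
    exact ι.injective (mul_right_cancel₀ hρ0 h)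
  obtain ⟨κ, hκ0, hκ⟩ := exists_kummer (fixGrp φ) χ (fun g hg => hχ0 g hg)
    (by
      intro g hg h hh
      apply hcancel
      rw [← hχ _ (mul_mem hg hh), map_mul, AlgEquiv.mul_apply, hχ h hh, map_mul, sec_cn hN hs,
        hχ g hg, map_mul]
      show ι (g (χ h)) * (ι (χ g) * ρ) = _
      ring)
    (by
      have h2 : IsOpen (fixGrp φ : Set (AbsGal k Ω)) := by
        have : FiniteDimensional k φ.fieldRange :=
          (AlgEquiv.ofInjectiveField φ).toLinearEquiv.finiteDimensional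
        exact φ.fieldRange.fixingSubgroup_isOpen
      refine Filter.mem_of_superset
        (Filter.inter_mem (hs.nhds ρ) (h2.mem_nhds (Subgroup.one_mem _))) ?_
      rintro g ⟨hg, hg2⟩
      refine ⟨hg2, ?_⟩
      apply hcancel
      rw [← hχ g hg2, map_one, one_mul]
      exact hg)
  have hκL : ι κ ≠ 0 := by
    intro h
    exact hκ0 (ι.injective (by rw [h, map_zero]))
  obtain ⟨δ, hδ⟩ := const_of_fixGrp φ K (κ ^ n) (by
    intro g hg
    rw [map_pow, hκ g hg, mul_pow, hχn g hg, one_mul])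
  refine ⟨δ, ρ / ι κ, ?_, div_ne_zero hρ0 hκL, ?_, ?_⟩
  · rintro rfl
    rw [map_zero] at hδ
    exact pow_ne_zero n hκ0 hδ.symm
  · intro g hg
    have h1 : s g (ι κ) = ι (χ g) * ι κ := by
      rw [← map_mul, ← hκ g hg]
      exact sec_cn hN hs g κ
    have h2 : ι (χ g) ≠ 0 := by
      intro h
      exact hχ0 g hg (ι.injective (by rw [h, map_zero]))
    rw [map_div₀, h1, hχ g hg]
    exact mul_div_mul_left _ _ h2
  · have h3 : ρ ^ n = ι (φ δ) * (ρ / ι κ) ^ n := by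
      rw [hδ, map_pow, div_pow]
      field_simp
    exact congrArg (fun x : N => (x : Ω)) h3

end

end KumAux

theorem stKum : StKum.{u, v, w} := by
  intro k K Ω _ _ _ _ _ _ _ _ _ N hN s hs L _ _ _ φ
  exact ⟨fun z hz hzc => KumAux.part_one hs φ z hz hzc,
    fun n hn ρ hρ0 hρ => KumAux.part_two hN hs φ hn ρ hρ0 hρ⟩

end Pool.Agent.Lib.MP_c385f6_ag.Semi
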