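import Mathlib
import Pool.Agent.Lib.MP_c385f6_ag.Semi.Stmts

set_option autoImplicit false

/-!
(Mv) An automorphism that fixes the residue field of `B ∩ K` and moves `L`.
-/

namespace Pool.Agent.Lib.MP_c385f6_ag.Semi

open Pool.Agent.Lib.MP_c385f6_ag.Cpl Polynomial

namespace MvAux

theorem lt_one_iff {E : Type*} [Field E] (V : ValuationSubring E) (u : E) :
    V.valuation u < 1 ↔ u = 0 ∨ u⁻¹ ∉ V := by
  by_cases hu : u = 0
  · simp [hu]
  · rw [← V.valuation_le_one_iff, map_inv₀, inv_le_one₀, not_le]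
    · simp [hu]
    · exact zero_lt_iff.2 ((Valuation.ne_zero_iff _).2 hu)

theorem comap_lt_one {E E' : Type*} [Field E] [Field E'] (V : ValuationSubring E')
    (f : E →+* E') (x : E) : (V.comap f).valuation x < 1 ↔ V.valuation (f x) < 1 := by
  rw [lt_one_iff, lt_one_iff, ValuationSubring.mem_comap, map_inv₀, map_eq_zero]

section
variable {Ω Γ₀ : Type*} [Field Ω] [LinearOrderedCommGroupWithZero Γ₀] (v : Valuation Ω Γ₀)

theorem close_mul {x x' y y' : Ω} (hx : v (x - x') < 1) (hy : v (y - y') < 1) (hx' : v x ≤ 1)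
    (hy' : v y' ≤ 1) : v (x * y - x' * y') < 1 := by
  have h : x * y - x' * y' = x * (y - y') + (x - x') * y' := by ring
  rw [h]
  refine v.map_add_lt ?_ ?_
  · rw [map_mul]
    exact mul_lt_one_of_nonneg_of_lt_one_right hx' zero_le hy
  · rw [map_mul]
    exact mul_lt_one_of_nonneg_of_lt_one_left zero_le hx hy'

theorem close_pow {x x' : Ω} (hx : v (x - x') < 1) (h1 : v x ≤ 1) (h2 : v x' ≤ 1) (n : ℕ) :
    v (x ^ n - x' ^ n) < 1 := by
  induction n with
  | zero => rw [pow_zero, pow_zero, sub_self, map_zero]; exact zero_lt_one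
  | succ n ih =>
    rw [pow_succ, pow_succ]
    refine close_mul v ih hx ?_ h2
    rw [map_pow]
    exact pow_le_one₀ zero_le h1

theorem close_aeval {k : Type*} [Field k] [Algebra k Ω] (hk : ∀ c : k, v (algebraMap k Ω c) ≤ 1)
    {x x' : Ω} (hx : v (x - x') < 1) (h1 : v x ≤ 1) (h2 : v x' ≤ 1) (f : k[X]) :
    v (aeval x f - aeval x' f) < 1 := by
  induction f using Polynomial.induction_on' with
  | add p q hp hq =>
    rw [map_add, map_add]
    have h : aeval x p + aeval x q - (aeval x' p + aeval x' q) =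
        (aeval x p - aeval x' p) + (aeval x q - aeval x' q) := by ring
    rw [h]
    exact v.map_add_lt hp hq
  | monomial n c =>
    rw [aeval_monomial, aeval_monomial]
    refine close_mul v ?_ (close_pow v hx h1 h2 n) (hk c) ?_
    · rw [sub_self, map_zero]
      exact zero_lt_one
    · rw [map_pow]
      exact pow_le_one₀ zero_le h2

end

section galois

variable {k Ω L : Type*} [Field k] [Field Ω] [Algebra k Ω] [Field L] [Algebra k L]
  (φ : L →ₐ[k] algebraicClosure k Ω)

theorem exists_sig [Normal k L] (g : AbsGal k Ω) :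
    ∃ σ : L ≃ₐ[k] L, ∀ c, g (φ c) = φ (σ c) := by
  let _ : Algebra L (algebraicClosure k Ω) := φ.toRingHom.toAlgebra
  have _ : IsScalarTower k L (algebraicClosure k Ω) :=
    IsScalarTower.of_algebraMap_eq' φ.comp_algebraMap.symm
  exact ⟨g.restrictNormal L, fun c => (AlgEquiv.restrictNormal_commutes g L c).symm⟩

end galois

section res

variable {k K Ω : Type*} [Field k] [Field K] [Field Ω] [Algebra k K] [Algebra k Ω] [Algebra K Ω]
  [IsScalarTower k K Ω] {B : ValuationSubring Ω} (hB : ∀ c : k, algebraMap k Ω c ∈ B)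

theorem cst_le_one (hB : ∀ c : k, algebraMap k Ω c ∈ B) (α : algebraicClosure k Ω) :
    B.valuation (α : Ω) ≤ 1 :=
  (B.valuation_le_one_iff _).2 (mem_of_algebraic hB α.2)

/-- The constants which are residues of elements of `K`. -/
def resField (hB : ∀ c : k, algebraMap k Ω c ∈ B) :
    IntermediateField k (algebraicClosure k Ω) where
  carrier := {α | ∃ a : K, algebraMap K Ω a ∈ B ∧ B.valuation (algebraMap K Ω a - (α : Ω)) < 1}
  mul_mem' := by
    rintro α β ⟨a, ha, ha'⟩ ⟨b, hb, hb'⟩
    refine ⟨a * b, ?_, ?_⟩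
    · rw [map_mul]
      exact B.mul_mem _ _ ha hb
    · rw [map_mul]
      exact close_mul B.valuation ha' hb' ((B.valuation_le_one_iff _).2 ha) (cst_le_one hB β)
  add_mem' := by
    rintro α β ⟨a, ha, ha'⟩ ⟨b, hb, hb'⟩
    refine ⟨a + b, ?_, ?_⟩
    · rw [map_add]
      exact B.add_mem _ _ ha hb
    · have h : algebraMap K Ω (a + b) - ((α + β : algebraicClosure k Ω) : Ω) =
          (algebraMap K Ω a - (α : Ω)) + (algebraMap K Ω b - (β : Ω)) := by
        rw [map_add]
        push_cast
        ring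
      rw [h]
      exact B.valuation.map_add_lt ha' hb'
  algebraMap_mem' := by
    intro c
    refine ⟨algebraMap k K c, ?_, ?_⟩
    · rw [← IsScalarTower.algebraMap_apply]
      exact hB c
    · rw [← IsScalarTower.algebraMap_apply]
      have h : ((algebraMap k (algebraicClosure k Ω) c : algebraicClosure k Ω) : Ω) =
          algebraMap k Ω c := rfl
      rw [h, sub_self, map_zero]
      exact zero_lt_one
  inv_mem' := by
    rintro α ⟨a, ha, ha'⟩
    by_cases h0 : α = 0
    · refine ⟨0, ?_, ?_⟩
      · rw [map_zero]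
        exact B.zero_mem
      · rw [h0, inv_zero, map_zero]
        have h : (((0 : algebraicClosure k Ω)) : Ω) = 0 := rfl
        rw [h, sub_zero, map_zero]
        exact zero_lt_one
    · have hα0 : (α : Ω) ≠ 0 := fun h => h0 (Subtype.ext h)
      have hα : B.valuation (α : Ω) = 1 := valuation_eq_one hB α.2 hα0
      have haα : B.valuation (algebraMap K Ω a) = 1 := by
        have h1 : algebraMap K Ω a = (algebraMap K Ω a - (α : Ω)) + (α : Ω) := by ring
        have h2 : B.valuation (algebraMap K Ω a - (α : Ω)) < B.valuation (α : Ω) := by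
          rw [hα]
          exact ha'
        rw [h1, Valuation.map_add_eq_of_lt_right _ h2, hα]
      have ha0 : algebraMap K Ω a ≠ 0 := by
        intro h
        rw [h, map_zero] at haα
        exact zero_ne_one haα
      refine ⟨a⁻¹, ?_, ?_⟩
      · rw [← B.valuation_le_one_iff, map_inv₀, map_inv₀, haα, inv_one]
      · have h1 : algebraMap K Ω a⁻¹ - ((α⁻¹ : algebraicClosure k Ω) : Ω) =
            -((algebraMap K Ω a - (α : Ω)) * ((algebraMap K Ω a)⁻¹ * (α : Ω)⁻¹)) := by
          rw [map_inv₀]
          have h2 : ((α⁻¹ : algebraicClosure k Ω) : Ω) = (α : Ω)⁻¹ := rfl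
          rw [h2]
          field_simp
          ring
        rw [h1, Valuation.map_neg, map_mul, map_mul, map_inv₀, map_inv₀, haα, hα, inv_one,
          mul_one, mul_one]
        exact ha'

theorem mem_resField {α : algebraicClosure k Ω} :
    α ∈ resField (K := K) hB ↔
      ∃ a : K, algebraMap K Ω a ∈ B ∧ B.valuation (algebraMap K Ω a - (α : Ω)) < 1 := Iff.rfl

end res

end MvAux

open MvAux in
/-- (Mv) -/
theorem stMv.{u, v, w} : StMv.{u, v, w} := by
  intro k K Ω _ _ _ _ _ _ _ _ _ L _ _ _ _ φ f hr B hB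
  obtain ⟨r, hr⟩ := hr
  obtain ⟨hBk, hNR⟩ := hB
  have hac : IsAlgClosed Ω := IsAlgClosure.isAlgClosed K
  have hacF : IsAlgClosed (algebraicClosure k Ω) := IsAlgClosure.isAlgClosed k
  -- `φ r` is not a residue
  have h1 : φ r ∉ resField (K := K) hBk := by
    rintro ⟨a, ha, ha'⟩
    refine hNR a ha ?_
    rw [comap_lt_one]
    have h2 : algebraMap K Ω (aeval a f) = aeval (algebraMap K Ω a) f :=
      (aeval_algebraMap_apply Ω a f).symm
    have h3 : aeval ((φ r : algebraicClosure k Ω) : Ω) f = 0 := by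
      have h4 : aeval (φ r) f = 0 := by
        rw [aeval_algHom_apply, hr, map_zero]
      have h5 : aeval ((φ r : algebraicClosure k Ω) : Ω) f =
          ((aeval (φ r) f : algebraicClosure k Ω) : Ω) :=
        aeval_algebraMap_apply Ω (φ r) f
      rw [h5, h4]
      rfl
    have h6 := close_aeval B.valuation (k := k) (fun c => (B.valuation_le_one_iff _).2 (hBk c)) ha'
      ((B.valuation_le_one_iff _).2 ha) (cst_le_one hBk (φ r)) f
    rw [h3, sub_zero] at h6
    rw [h2]
    exact h6
  -- an automorphism which moves it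
  obtain ⟨g, hg, hgr⟩ : ∃ g ∈ (resField (K := K) hBk).fixingSubgroup, g (φ r) ≠ φ r := by
    by_contra hcon
    push Not at hcon
    apply h1
    rw [← InfiniteGalois.fixedField_fixingSubgroup (resField (K := K) hBk),
      IntermediateField.mem_fixedField_iff]
    exact hcon
  obtain ⟨σ, hσ⟩ := exists_sig φ g
  refine ⟨g, σ, ?_, hσ, ?_⟩
  · rintro rfl
    exact hgr (hσ r)
  · intro α a ha ha'
    rw [IntermediateField.mem_fixingSubgroup_iff] at hg
    exact hg α ⟨a, ha, ha'⟩

end Pool.Agent.Lib.MP_c385f6_ag.Semi
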