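import Mathlib
import Pool.Agent.Lib.MP_c385f6_ag.Semi.Stmts

set_option autoImplicit false

/-!
Existence of the valuation ring.
-/

namespace Pool.Agent.Lib.MP_c385f6_ag.Semi

open Pool.Agent.Lib.MP_c385f6_ag.Cpl Polynomial

namespace PlAux

variable {p : ℕ} {L F E : Type*} [Field L] [Field F] [Field E] {S : LF p L F} {ι : L →+* E}
  {O : Subring E} {D : E → L}

/-- the elements of `O` with a finite value -/
def V0 (hl : LimD S ι O D) (hv : Vals p ι O D) : Subring E where
  carrier := {x | x ∈ O ∧ ∃ a, VAt p ι O D x a}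
  mul_mem' := by
    rintro x y ⟨hx, a, ha⟩ ⟨hy, b, hb⟩
    exact ⟨O.mul_mem hx hy, a * b, hv.mul x hx y hy a b ha hb⟩
  add_mem' := by
    rintro x y ⟨hx, a, ha⟩ ⟨hy, b, hb⟩
    exact ⟨O.add_mem hx hy, a + b, hv.add x hx y hy a b ha hb⟩
  one_mem' := by
    refine ⟨O.one_mem, 1, ?_⟩
    have h := hv.cst 1
    rwa [map_one] at h
  zero_mem' := by
    refine ⟨O.zero_mem, 0, ?_⟩
    have h := hv.cst 0
    rwa [map_zero] at h
  neg_mem' := by
    rintro x ⟨hx, a, ha⟩
    refine ⟨O.neg_mem hx, (-1) * a, ?_⟩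
    have h := hv.mul (ι (-1)) (hl.const (-1)) x hx (-1) a (hv.cst (-1)) ha
    have e : ι (-1) * x = -x := by rw [map_neg, map_one, neg_one_mul]
    rwa [e] at h

/-- the elements with value `0` -/
def I0 (hl : LimD S ι O D) (hv : Vals p ι O D) : Ideal (V0 hl hv) where
  carrier := {x | VAt p ι O D (x : E) 0}
  add_mem' := by
    intro x y hx hy
    have h := hv.add x x.2.1 y y.2.1 0 0 hx hy
    rw [add_zero] at h
    exact h
  zero_mem' := by
    have h := hv.cst 0
    rw [map_zero] at h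
    exact h
  smul_mem' := by
    intro c x hx
    obtain ⟨a, ha⟩ := c.2.2
    have h := hv.mul c c.2.1 x x.2.1 a 0 ha hx
    rw [mul_zero] at h
    exact h

lemma I0_ne_top (hl : LimD S ι O D) (hv : Vals p ι O D) : I0 hl hv ≠ ⊤ := by
  intro h
  have h1 : (1 : V0 hl hv) ∈ I0 hl hv := by rw [h]; exact Submodule.mem_top
  have h2 : VAt p ι O D (1 : E) 0 := h1
  have h3 := hv.cst 1
  rw [map_one] at h3
  exact zero_ne_one (hv.uniq 1 O.one_mem 0 1 h2 h3)

end PlAux

open PlAux in
theorem stPl.{u} : StPl.{u} := by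
  intro p _ L F _ _ S E _ ι O D hl hv
  obtain ⟨A, hA1, hA2⟩ := Ideal.image_subset_nonunits_valuationSubring (I0 hl hv) (I0_ne_top hl hv)
  refine ⟨A, ?_⟩
  have hmem : ∀ x, x ∈ A ↔ A.valuation x ≤ 1 := fun x => (A.valuation_le_one_iff x).symm
  have hconst : ∀ c, ι c ∈ A := fun c => hA1 ⟨hl.const c, c, hv.cst c⟩
  have f1 : ∀ x ∈ O, VAt p ι O D x 0 → A.valuation x < 1 := by
    intro x hx h0
    have h := hA2 ⟨⟨x, hx, 0, h0⟩, h0, rfl⟩
    exact (ValuationSubring.mem_nonunits_iff A).mp h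
  have f2 : ∀ x ∈ O, ∀ a, VAt p ι O D x a → A.valuation (x - ι a) < 1 := by
    intro x hx a ha
    have h := hv.add x hx (ι (-a)) (hl.const (-a)) a (-a) ha (hv.cst (-a))
    have e : x + ι (-a) = x - ι a := by rw [map_neg, sub_eq_add_neg]
    rw [e, add_neg_cancel] at h
    exact f1 _ (O.sub_mem hx (hl.const a)) h
  have f3 : ∀ c, c ≠ 0 → A.valuation (ι c) = 1 := by
    intro c hc
    have h1 : A.valuation (ι c) ≤ 1 := (hmem _).mp (hconst c)
    have h2 : A.valuation (ι c⁻¹) ≤ 1 := (hmem _).mp (hconst c⁻¹)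
    have h3 : A.valuation (ι c) * A.valuation (ι c⁻¹) = 1 := by
      rw [← map_mul, ← map_mul, mul_inv_cancel₀ hc, map_one, map_one]
    refine le_antisymm h1 ?_
    rw [← h3]
    exact mul_le_of_le_one_right' h2
  have f4 : ∀ c c' : L, A.valuation (ι c - ι c') < 1 → c = c' := by
    intro c c' h
    by_contra hne
    rw [← map_sub, f3 _ (sub_ne_zero.mpr hne)] at h
    exact lt_irrefl _ h
  have f5 : ∀ x y : E, x * y = 1 → A.valuation x < 1 → ¬ A.valuation y ≤ 1 := by
    intro x y h hx hy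
    have h1 : A.valuation x * A.valuation y = 1 := by rw [← map_mul, h, map_one]
    have h2 : A.valuation x * A.valuation y < 1 := mul_lt_one_of_lt_of_le hx hy
    rw [h1] at h2
    exact lt_irrefl _ h2
  refine ⟨hconst, ?_, ?_⟩
  · intro z hz
    obtain ⟨s, -, hs⟩ := hl.dense {z} (Set.finite_singleton z) 0 0
    obtain ⟨hs1, hs2⟩ := hs z rfl
    have hzs : A.valuation (z - ι s) ≤ 1 := (hmem _).mp (sub_mem hz (hconst s))
    set y := (z - ι s)⁻¹ with hy
    have hyz : y * (z - ι s) = 1 := inv_mul_cancel₀ hs1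
    rcases hv.alt y hs2 with ⟨b, hb⟩ | hinf
    · by_cases hb0 : b = 0
      · subst hb0
        exact absurd hzs (f5 y _ hyz (f1 y hs2 hb))
      · refine ⟨s + b⁻¹, ?_⟩
        have h1 := f2 y hs2 b hb
        have hιb : ι b ≠ 0 := (map_ne_zero ι).mpr hb0
        have hy0 : y ≠ 0 := inv_ne_zero hs1
        have h2 : A.valuation y = 1 := by
          have e : y = ι b + (y - ι b) := by ring
          rw [e, Valuation.map_add_eq_of_lt_left _ (by rw [f3 b hb0]; exact h1), f3 b hb0]
        have e : z - ι (s + b⁻¹) = -(y - ι b) * (y * ι b)⁻¹ := by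
          rw [map_add, map_inv₀]
          have e2 : z - ι s = y⁻¹ := by rw [hy, inv_inv]
          rw [← sub_sub, e2]
          field_simp
          ring
        rw [e, map_mul, Valuation.map_neg, map_inv₀, map_mul, h2, f3 b hb0, one_mul, inv_one,
          mul_one]
        exact h1
    · obtain ⟨t, -, ht⟩ := hl.dense {y} (Set.finite_singleton y) 0 0
      have ht' := ht y rfl
      have h1 := f1 _ ht'.2 (hv.inv y hs2 hinf t ht')
      have h2 : ¬ A.valuation (y - ι t) ≤ 1 := f5 _ _ (inv_mul_cancel₀ ht'.1) h1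
      have h3 : ¬ A.valuation y ≤ 1 := fun h =>
        h2 ((hmem _).mp (sub_mem ((hmem _).mpr h) (hconst t)))
      refine ⟨s, ?_⟩
      by_contra h4
      rw [not_lt] at h4
      have h5 : A.valuation (z - ι s) = 1 := le_antisymm hzs h4
      have h6 : A.valuation y * A.valuation (z - ι s) = 1 := by rw [← map_mul, hyz, map_one]
      rw [h5, mul_one] at h6
      exact h3 h6.le
  · rintro u ⟨hu0, huO, huO'⟩ c hc huc
    have hu : u ∈ A := by
      have h1 : u - ι c ∈ A := (hmem _).mpr huc.le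
      have h2 := A.add_mem _ _ h1 (hconst c)
      rwa [sub_add_cancel] at h2
    have hgd : Gd ι O u 0 := by
      refine ⟨by rwa [map_zero, sub_zero], by rwa [map_zero, sub_zero]⟩
    rcases hv.alt u huO with ⟨a, ha⟩ | hinf
    · have h1 := f2 u huO a ha
      have hac : a = c := by
        apply f4
        have e : ι a - ι c = (u - ι c) - (u - ι a) := by ring
        rw [e]
        exact (A.valuation.map_sub _ _).trans_lt (max_lt huc h1)
      subst hac
      have h2 := ha 0 hgd (Ne.symm hc)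
      rwa [map_zero, sub_zero, sub_zero] at h2
    · exfalso
      obtain ⟨s, -, hs⟩ := hl.dense {u} (Set.finite_singleton u) 0 0
      have hs' := hs u rfl
      have h1 := f1 _ hs'.2 (hv.inv u huO hinf s hs')
      exact f5 _ _ (inv_mul_cancel₀ hs'.1) h1 ((hmem _).mp (sub_mem hu (hconst s)))

end Pool.Agent.Lib.MP_c385f6_ag.Semi
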