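import Mathlib
import Pool.Agent.Lib.MP_c385f6_ag.Semi.Stmts

set_option autoImplicit false

/-!
Module (Res): residues of a non-trivial valuation are constants.
-/

namespace Pool.Agent.Lib.MP_c385f6_ag.Semi

open Polynomial

universe u v w

namespace ResAux

variable {k Ω : Type*} [Field k] [Field Ω] [Algebra k Ω] {B : ValuationSubring Ω}

/-- values of polynomials at integral elements are integral -/
theorem aeval_mem (hB : ∀ c : k, algebraMap k Ω c ∈ B) {z : Ω} (hz : z ∈ B) (q : k[X]) :
    aeval z q ∈ B := by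
  rw [aeval_eq_sum_range]
  refine sum_mem fun i _ => ?_
  rw [Algebra.smul_def]
  exact mul_mem (hB _) (pow_mem hz i)

theorem aevalAeval_mem (hB : ∀ c : k, algebraMap k Ω c ∈ B) {z t : Ω} (hz : z ∈ B) (ht : t ∈ B)
    (P : k[X][X]) : aevalAeval z t P ∈ B := by
  induction P using Polynomial.induction_on' with
  | add P Q hP hQ =>
    rw [map_add]
    exact add_mem hP hQ
  | monomial n a =>
    have h1 : (monomial n a : k[X][X]) = C a * X ^ n := (C_mul_X_pow_eq_monomial).symm
    rw [h1, map_mul, map_pow, aevalAeval_C, aevalAeval_Y]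
    exact mul_mem (aeval_mem hB hz a) (pow_mem ht n)

/-- an equation in `z` and `t`, `|t| < 1`, gives a polynomial with `|q(z)| < 1` -/
theorem exists_poly (hB : ∀ c : k, algebraMap k Ω c ∈ B) {z t : Ω} (hz : z ∈ B)
    (ht0 : t ≠ 0) (ht : B.valuation t < 1) {P : k[X][X]} (hP : P ≠ 0)
    (h : aevalAeval z t P = 0) : ∃ q : k[X], q ≠ 0 ∧ B.valuation (aeval z q) < 1 := by
  have htB : t ∈ B := (B.valuation_le_one_iff t).1 ht.le
  have h1 : (X : k[X][X]) ^ P.natTrailingDegree ∣ P := by
    rw [X_pow_dvd_iff]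
    intro d hd
    exact coeff_eq_zero_of_lt_natTrailingDegree hd
  obtain ⟨Q, hQ⟩ := h1
  have h2 : aevalAeval z t Q = 0 := by
    have h3 : t ^ P.natTrailingDegree * aevalAeval z t Q = 0 := by
      rw [← h]
      conv_rhs => rw [hQ]
      rw [map_mul, map_pow, aevalAeval_Y]
    exact (mul_eq_zero.1 h3).resolve_left (pow_ne_zero _ ht0)
  have h4 : Q.coeff 0 ≠ 0 := by
    have h5 : P.coeff P.natTrailingDegree ≠ 0 := by
      rw [← trailingCoeff]
      exact fun h0 => hP (trailingCoeff_eq_zero.1 h0)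
    have h6 : P.coeff P.natTrailingDegree = Q.coeff 0 := by
      have h7 := congrArg (fun R : k[X][X] => R.coeff P.natTrailingDegree) hQ
      have h8 : (X ^ P.natTrailingDegree * Q).coeff P.natTrailingDegree = Q.coeff 0 := by
        have := coeff_X_pow_mul Q P.natTrailingDegree 0
        rwa [zero_add] at this
      exact h7.trans h8
    rwa [← h6]
  refine ⟨Q.coeff 0, h4, ?_⟩
  have h5 : aeval z (Q.coeff 0) = -(t * aevalAeval z t Q.divX) := by
    have h6 := congrArg (aevalAeval z t) (divX_mul_X_add Q)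
    rw [map_add, map_mul, aevalAeval_Y, aevalAeval_C, h2] at h6
    linear_combination h6
  rw [h5, Valuation.map_neg, map_mul]
  exact mul_lt_one_of_lt_of_le ht ((B.valuation_le_one_iff _).2 (aevalAeval_mem hB hz htB _))

/-- a polynomial with `|q(z)| < 1` gives a constant near `z` -/
theorem exists_const [IsAlgClosed Ω] (hB : ∀ c : k, algebraMap k Ω c ∈ B) {z : Ω} (hz : z ∈ B)
    {q : k[X]} (hq : q ≠ 0) (h : B.valuation (aeval z q) < 1) :
    ∃ α : algebraicClosure k Ω, B.valuation (z - (α : Ω)) < 1 := by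
  by_contra hno
  push Not at hno
  have h1 : ∀ α ∈ (q.map (algebraMap k Ω)).roots, B.valuation (z - α) = 1 := by
    intro α hα
    have h2 : q.map (algebraMap k Ω) ≠ 0 := (Polynomial.map_ne_zero_iff
      (algebraMap k Ω).injective).2 hq
    have h3 : aeval α q = 0 := by
      have := (mem_roots h2).1 hα
      rwa [IsRoot.def, eval_map_algebraMap] at this
    have h4 : α ∈ algebraicClosure k Ω := mem_algebraicClosure_iff.2 ⟨q, hq, h3⟩
    refine le_antisymm ?_ (hno ⟨α, h4⟩)
    exact (B.valuation_le_one_iff _).2 (sub_mem hz (mem_of_algebraic hB h4))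
  have h2 : aeval z q = (q.map (algebraMap k Ω)).leadingCoeff *
      ((q.map (algebraMap k Ω)).roots.map (z - ·)).prod := by
    rw [← (IsAlgClosed.splits (q.map (algebraMap k Ω))).eval_eq_prod_roots z,
      eval_map_algebraMap]
  have h3 : B.valuation ((q.map (algebraMap k Ω)).roots.map (z - ·)).prod = 1 := by
    rw [map_multiset_prod, Multiset.map_map]
    refine Multiset.prod_eq_one fun x hx => ?_
    obtain ⟨α, hα, rfl⟩ := Multiset.mem_map.1 hx
    exact h1 α hα
  have h4 : B.valuation (q.map (algebraMap k Ω)).leadingCoeff = 1 := by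
    rw [leadingCoeff_map]
    refine valuation_eq_one hB (algebraMap_mem (algebraicClosure k Ω) _) ?_
    exact (_root_.map_ne_zero (algebraMap k Ω)).2 (leadingCoeff_ne_zero.2 hq)
  rw [h2, map_mul, h3, h4, one_mul] at h
  exact lt_irrefl _ h

end ResAux

open ResAux

/-- (Res) residues are constants -/
theorem stRes (h : StDep.{u, v, w}) : StRes.{u, v, w} := by
  intro k K Ω i1 i2 i3 i4 i5 i6 i7 hac htr B hB hBt z hz
  have : IsAlgClosed Ω := IsAlgClosure.isAlgClosed K
  obtain ⟨x, hx⟩ : ∃ x : Ω, x ∉ B := by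
    by_contra hno
    push Not at hno
    exact hBt (eq_top_iff.2 fun x _ => hno x)
  have hx0 : x ≠ 0 := fun h0 => hx (by rw [h0]; exact B.zero_mem)
  have hx1 : 1 < B.valuation x := by
    rw [← not_le, B.valuation_le_one_iff]
    exact hx
  have ht : B.valuation x⁻¹ < 1 := by
    rw [map_inv₀]
    exact inv_lt_one_of_one_lt₀ hx1
  obtain ⟨Φ, hΦ, hΦ0⟩ := h k K Ω i1 i2 i3 i4 i5 i6 i7 hac htr z x⁻¹
  have h1 : ∀ P : k[X][X], MvPolynomial.aeval ![z, x⁻¹] (Bivariate.equivMvPolynomial k P) =
      aevalAeval z x⁻¹ P := by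
    intro P
    have h2 : (MvPolynomial.aeval ![z, x⁻¹]).comp
        (Bivariate.equivMvPolynomial k : k[X][X] →ₐ[k] MvPolynomial (Fin 2) k) =
        aevalAeval z x⁻¹ := by
      ext <;> simp
    exact DFunLike.congr_fun h2 P
  have h2 : aevalAeval z x⁻¹ ((Bivariate.equivMvPolynomial k).symm Φ) = 0 := by
    rw [← h1, AlgEquiv.apply_symm_apply, hΦ0]
  have h3 : (Bivariate.equivMvPolynomial k).symm Φ ≠ 0 := by
    intro h0
    exact hΦ ((map_eq_zero_iff _ (Bivariate.equivMvPolynomial k).symm.injective).1 h0)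
  obtain ⟨q, hq, hq1⟩ := exists_poly hB hz (inv_ne_zero hx0) ht h3 h2
  exact exists_const hB hz hq hq1

end Pool.Agent.Lib.MP_c385f6_ag.Semi
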