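import Mathlib
import Pool.Agent.Lib.MP_c385f6_ag.PlaceMain
import Pool.Agent.Lib.MP_c385f6_ag.Semi.Stmts

set_option autoImplicit false

/-!
A rational place gives a section of `Gal(N / K) → Gal_k`.
-/

namespace Pool.Agent.Lib.MP_c385f6_ag.Semi

open Polynomial

namespace SctAux

section

variable {k K Ω : Type*} [Field k] [CharZero k] [Field K] [Field Ω] [Algebra k K] [Algebra k Ω]
  [Algebra K Ω] [IsScalarTower k K Ω] [IsAlgClosure K Ω]

omit [CharZero k] [Algebra k K] [Algebra k Ω] [IsScalarTower k K Ω] [Field k] in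
/-- the elements of `decSub A V` preserve `V` -/
theorem decSub_mem {A : ValuationSubring K} {V : ValuationSubring Ω}
    (hV : ∀ a ∈ A, algebraMap K Ω a ∈ V) {σ : Ω ≃ₐ[K] Ω} (hσ : σ ∈ decSub A V) {y : Ω}
    (hy : y ∈ V) : σ y ∈ V := by
  have halg : Algebra.IsAlgebraic K Ω := IsAlgClosure.isAlgebraic
  obtain ⟨b, c, hb, hc, hc1, rfl⟩ := exists_quotient A hV hy
  have hσb : IsIntegral A (σ b) := IsIntegral.map (σ.toAlgHom.restrictScalars A) hb
  have hσc : IsIntegral A (σ c) := IsIntegral.map (σ.toAlgHom.restrictScalars A) hc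
  have h1 : ¬ V.valuation (σ c) < 1 := by
    rw [hσ c hc, hc1]
    exact lt_irrefl _
  have h2 : V.valuation (σ c) = 1 :=
    le_antisymm ((V.valuation_le_one_iff _).2 (integral_mem A hV hσc)) (not_lt.1 h1)
  rw [← V.valuation_le_one_iff, map_div₀, map_div₀, h2, div_one, V.valuation_le_one_iff]
  exact integral_mem A hV hσb

omit [CharZero k] [Algebra k K] [Algebra k Ω] [IsScalarTower k K Ω] [IsAlgClosure K Ω]
  [Field k] in
/-- a valuation subring above `A` restricts to `A` -/
theorem comap_eq {A : ValuationSubring K} {V : ValuationSubring Ω}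
    (hV : ∀ a ∈ A, algebraMap K Ω a ∈ V)
    (hV' : ∀ a ∈ A, A.valuation a < 1 → V.valuation (algebraMap K Ω a) < 1) :
    V.comap (algebraMap K Ω) = A := by
  ext z
  rw [ValuationSubring.mem_comap]
  refine ⟨fun h => ?_, hV z⟩
  by_contra hz
  have h1 : z⁻¹ ∈ A := (A.mem_or_inv_mem z).resolve_left hz
  have h2 : A.valuation z⁻¹ < 1 := by
    rw [valuation_lt_one_iff_mem]
    right
    rwa [inv_inv]
  have h3 := hV' _ h1 h2
  rw [valuation_lt_one_iff_mem, map_inv₀, inv_inv] at h3
  rcases h3 with h3 | h3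
  · apply hz
    have h4 : z = 0 := by
      apply (algebraMap K Ω).injective
      rw [map_zero]
      exact inv_eq_zero.1 h3
    rw [h4]
    exact A.zero_mem
  · exact h3 h

end

end SctAux

open SctAux in
theorem stSct.{u, v, w} : StSct.{u, v, w} := by
  intro k K Ω _ _ _ _ _ _ _ _ _ N hNn hNc A hA hin
  have hac : IsAlgClosed Ω := IsAlgClosure.isAlgClosed K
  have hcK : CharZero K := charZero_of_injective_algebraMap (algebraMap k K).injective
  have halg : Algebra.IsAlgebraic K Ω := IsAlgClosure.isAlgebraic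
  have hn : Normal K Ω := IsAlgClosure.normal K Ω
  have hg : IsGalois K Ω := {}
  have _ : Normal k (algebraicClosure k Ω) := IsAlgClosure.normal k _
  obtain ⟨V, hV, hV'⟩ := exists_above (Ω := Ω) A
  obtain ⟨hnear, hlift⟩ := exists_dec_lift hA hV hV'
  have hVA : V.comap (algebraMap K Ω) = A := comap_eq hV hV'
  let D := decSub A V
  let ρ : D →* AbsGal k Ω := (resConst k K Ω).comp D.subtype
  let θ : D →* (N ≃ₐ[K] N) := (AlgEquiv.restrictNormalHom N).comp D.subtype
  have hρc : Continuous ρ := resConst_continuous.comp continuous_subtype_val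
  have hθc : Continuous θ :=
    (InfiniteGalois.restrictNormalHom_continuous _).comp continuous_subtype_val
  have hθ : ∀ (d : D) (z : N), ((θ d z : N) : Ω) = d.1 z :=
    fun d z => AlgEquiv.restrictNormal_commutes d.1 N z
  have hρ : ∀ (d : D) (c : algebraicClosure k Ω), ((ρ d c : algebraicClosure k Ω) : Ω) = d.1 c :=
    fun d c => resConst_apply d.1 c
  have hsurj : Function.Surjective ρ := by
    intro g
    obtain ⟨σ, hσ, h⟩ := hlift g
    refine ⟨⟨σ, hσ⟩, ?_⟩
    ext c
    rw [hρ]
    exact h c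
  have hker : ρ.ker ≤ θ.ker := by
    intro d hd
    rw [MonoidHom.mem_ker] at hd ⊢
    have h1 : ∀ c : algebraicClosure k Ω, d.1 (c : Ω) = c := by
      intro c
      rw [← hρ, hd]
      rfl
    have h2 : d.1 ∈ inertia K V := by
      refine mem_inertia A hV fun s hs => ?_
      obtain ⟨c, hc⟩ := hnear s hs
      have hcint : IsIntegral A (c : Ω) := by
        obtain ⟨p, hp, hpc⟩ : IsIntegral k (c : Ω) := c.2
        let f : k →+* A := (algebraMap k K).codRestrict A hA.const_mem
        refine ⟨p.map f, hp.map f, ?_⟩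
        rw [eval₂_map]
        have h1 : (algebraMap A Ω).comp f = algebraMap k Ω := by
          ext x
          exact (IsScalarTower.algebraMap_apply k K Ω x).symm
        rw [h1]
        exact hpc
      have h3 : V.valuation (d.1 (s - c)) < 1 := (d.2 _ (hs.sub hcint)).2 hc
      have h4 : d.1 s - s = d.1 (s - c) - (s - c) := by
        rw [map_sub, h1]
        ring
      rw [h4]
      exact (Valuation.map_sub _ _ _).trans_lt (max_lt h3 hc)
    ext z
    rw [hθ]
    exact hin V hVA d.1 h2 z z.2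
  have hcompact : CompactSpace D :=
    isCompact_iff_compactSpace.1 (decSub_isClosed A V).isCompact
  have hquot : Topology.IsQuotientMap ρ :=
    (hρc.isClosedMap).isQuotientMap hρc hsurj
  let s : AbsGal k Ω →* (N ≃ₐ[K] N) := ρ.liftOfSurjective hsurj ⟨θ, hker⟩
  have hs : ∀ d, s (ρ d) = θ d := fun d => by
    have := MonoidHom.liftOfRightInverse_comp_apply ρ _ (Function.rightInverse_surjInv hsurj)
      ⟨θ, hker⟩ d
    exact this
  refine ⟨s, ⟨?_, ?_⟩, V.comap (algebraMap N Ω), ?_, ?_⟩
  · rw [hquot.continuous_iff]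
    have h1 : (s ∘ ρ : D → (N ≃ₐ[K] N)) = θ := funext hs
    rw [h1]
    exact hθc
  · intro g c z hz
    obtain ⟨d, rfl⟩ := hsurj g
    rw [hs, hθ, hρ, hz]
  · rw [← hVA]
    rfl
  · intro g z hz
    obtain ⟨d, rfl⟩ := hsurj g
    rw [ValuationSubring.mem_comap] at hz ⊢
    rw [hs]
    have h1 : algebraMap N Ω (θ d z) = d.1 (algebraMap N Ω z) := hθ d z
    rw [h1]
    exact decSub_mem hV d.2 hz

end Pool.Agent.Lib.MP_c385f6_ag.Semi
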