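import Mathlib
import Pool.Agent.Lib.MP_c385f6_ag.Semi.Stmts

set_option autoImplicit false

/-!
The Steinberg relation.
-/

namespace Pool.Agent.Lib.MP_c385f6_ag.Semi

open Pool.Agent.Lib.MP_c385f6_ag.Cpl Polynomial

namespace StbAux

theorem prod_shift {M : Type*} [Field M] (f : ℕ → M) (p : ℕ) (h0 : ∀ i, f i ≠ 0)
    (hf : ∀ i, f (i + p) = f i) (j : ℕ) :
    ∏ i ∈ Finset.range p, f (i + j) = ∏ i ∈ Finset.range p, f i := by
  induction j with
  | zero => simp
  | succ j ih =>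
    rw [← ih]
    have h1 := Finset.prod_range_succ (fun i => f (i + j)) p
    have h2 := Finset.prod_range_succ' (fun i => f (i + j)) p
    rw [h1] at h2
    have h3 : f (p + j) = f (0 + j) := by rw [add_comm p j, hf, zero_add]
    rw [h3] at h2
    rw [mul_right_cancel₀ (h0 _) h2]
    refine Finset.prod_congr rfl fun i _ => ?_
    congr 1
    omega

theorem finrank_adj {L : Type*} [Field L] (p : ℕ) (hp : p ≠ 0) (a : L) :
    FiniteDimensional L (AdjoinRoot (X ^ p - C a : L[X])) ∧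
      Module.finrank L (AdjoinRoot (X ^ p - C a : L[X])) = p := by
  have h0 : (X ^ p - C a : L[X]) ≠ 0 := X_pow_sub_C_ne_zero (Nat.pos_of_ne_zero hp) a
  refine ⟨(AdjoinRoot.powerBasis h0).finite, ?_⟩
  rw [(AdjoinRoot.powerBasis h0).finrank, AdjoinRoot.powerBasis_dim, natDegree_X_pow_sub_C]

theorem norm_eq {L E : Type*} [Field L] [CharZero L] [Field E] [IsAlgClosed E] [Algebra L E]
    (p : ℕ) (hp : p ≠ 0) (a : L) [Fact (Irreducible (X ^ p - C a : L[X]))] {ζ : L}
    (hζ : IsPrimitiveRoot ζ p) (σ : ℕ → (AdjoinRoot (X ^ p - C a : L[X]) →ₐ[L] E)) (α : E)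
    (hα : α ≠ 0) (hσ : ∀ i, σ i (AdjoinRoot.root _) = algebraMap L E ζ ^ i * α)
    (x : AdjoinRoot (X ^ p - C a : L[X])) :
    algebraMap L E (Algebra.norm L x) = ∏ i ∈ Finset.range p, σ i x := by
  classical
  obtain ⟨h1, h2⟩ := finrank_adj p hp a
  rw [Algebra.norm_eq_prod_embeddings L E x, ← Fin.prod_univ_eq_prod_range (fun i => σ i x) p]
  symm
  refine Fintype.prod_bijective (fun i : Fin p => σ i) ?_ _ _ fun i => rfl
  rw [Fintype.bijective_iff_injective_and_card]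
  constructor
  · intro i j hij
    have h3 : algebraMap L E ζ ^ (i : ℕ) * α = algebraMap L E ζ ^ (j : ℕ) * α := by
      rw [← hσ, ← hσ]
      exact DFunLike.congr_fun hij _
    have h4 := mul_right_cancel₀ hα h3
    have h5 : IsPrimitiveRoot (algebraMap L E ζ) p :=
      hζ.map_of_injective (algebraMap L E).injective
    exact Fin.ext (h5.pow_inj i.2 j.2 h4)
  · rw [AlgHom.card L _ E, h2, Fintype.card_fin]

end StbAux

open StbAux

theorem stStb.{u, v, w} (h : StKum.{u, v, w}) : StStb.{u, v, w} := by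
  intro p hp k K Ω i1 i2 i3 i4 i5 i6 i7 i8 i9 N hN s hs L j1 j2 j3 φ ζ hζ a b Y Z ha hb hZ hY1 hZ1
    hYZ hρ
  classical
  by_cases hcase : ∃ x : L, a = x ^ p
  · exact Or.inl hcase
  right
  have hp0 : p ≠ 0 := hp.out.ne_zero
  have hac : IsAlgClosed Ω := IsAlgClosure.isAlgClosed K
  have hac2 : IsAlgClosure k (algebraicClosure k Ω) := inferInstance
  have hacF : IsAlgClosed (algebraicClosure k Ω) := IsAlgClosure.isAlgClosed k
  have hcharL : CharZero L := charZero_of_injective_algebraMap (algebraMap k L).injective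
  have hirr : Irreducible (X ^ p - C a : L[X]) :=
    X_pow_sub_C_irreducible_of_prime hp.out fun c hc => hcase ⟨c, hc.symm⟩
  have hfact : Fact (Irreducible (X ^ p - C a : L[X])) := ⟨hirr⟩
  obtain ⟨hfin, hfr⟩ := finrank_adj p hp0 a
  have hfink : FiniteDimensional k (AdjoinRoot (X ^ p - C a : L[X])) :=
    FiniteDimensional.trans k L _
  obtain ⟨α, hα⟩ := IsAlgClosed.exists_pow_nat_eq (φ a) (Nat.pos_of_ne_zero hp0)
  have hφinj : Function.Injective φ := φ.toRingHom.injective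
  have hα0 : α ≠ 0 := by
    rintro rfl
    rw [zero_pow hp0] at hα
    exact ha (hφinj (by rw [← hα, map_zero]))
  -- embeddings
  have hemb : ∀ β : algebraicClosure k Ω, β ^ p = φ a →
      ∃ ψ : AdjoinRoot (X ^ p - C a : L[X]) →ₐ[k] algebraicClosure k Ω,
        (∀ c : L, ψ (algebraMap L _ c) = φ c) ∧ ψ (AdjoinRoot.root _) = β := by
    intro β hβ
    have he : eval₂ (φ : L →+* algebraicClosure k Ω) β (X ^ p - C a : L[X]) = 0 := by
      rw [eval₂_sub, eval₂_pow, eval₂_X, eval₂_C, hβ]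
      exact sub_self _
    refine ⟨{ toRingHom := AdjoinRoot.lift (φ : L →+* algebraicClosure k Ω) β he
              commutes' := fun c => ?_ }, fun c => ?_, ?_⟩
    · show AdjoinRoot.lift (φ : L →+* algebraicClosure k Ω) β he (algebraMap k _ c) = _
      rw [IsScalarTower.algebraMap_apply k L (AdjoinRoot (X ^ p - C a : L[X]))]
      rw [AdjoinRoot.algebraMap_eq, AdjoinRoot.lift_of]
      exact φ.commutes c
    · show AdjoinRoot.lift (φ : L →+* algebraicClosure k Ω) β he (algebraMap L _ c) = _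
      rw [AdjoinRoot.algebraMap_eq, AdjoinRoot.lift_of]
      rfl
    · exact AdjoinRoot.lift_root he
  obtain ⟨φ', hφ'c, hφ'r⟩ := hemb α hα
  obtain ⟨ψ, hψc, hψr⟩ := hemb (φ ζ * α) (by
    rw [mul_pow, ← map_pow, hζ.pow_eq_one, map_one, one_mul, hα])
  obtain ⟨g0, hg0⟩ := exists_extend φ' ψ
  have hg0c : ∀ c : L, g0 (φ c) = φ c := fun c => by
    rw [← hφ'c c, hg0, hψc, hφ'c]
  have hg0α : g0 α = φ ζ * α := by
    rw [← hφ'r, hg0, hψr, hφ'r]
  have hg0ic : ∀ (i : ℕ) (c : L), (g0 ^ i) (φ c) = φ c := by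
    intro i c
    induction i with
    | zero => rfl
    | succ i ih => rw [pow_succ, AlgEquiv.mul_apply, hg0c, ih]
  have hg0iα : ∀ i : ℕ, (g0 ^ i) α = φ ζ ^ i * α := by
    intro i
    induction i with
    | zero => simp
    | succ i ih =>
      rw [pow_succ, AlgEquiv.mul_apply, hg0α, map_mul, hg0ic, ih, pow_succ']
      ring
  have hmem' : ∀ g : AbsGal k Ω, g ∈ fixGrp φ → g α = α → g ∈ fixGrp φ' := by
    intro g hg hgα
    rw [mem_fixGrp] at hg ⊢
    intro x
    have h1 : ((g : algebraicClosure k Ω →+* algebraicClosure k Ω).comp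
        (φ' : AdjoinRoot (X ^ p - C a : L[X]) →+* algebraicClosure k Ω)) =
        (φ' : AdjoinRoot (X ^ p - C a : L[X]) →+* algebraicClosure k Ω) := by
      refine AdjoinRoot.ringHom_ext (RingHom.ext fun c => ?_) ?_
      · show g (φ' (AdjoinRoot.of _ c)) = φ' (AdjoinRoot.of _ c)
        rw [← AdjoinRoot.algebraMap_eq, hφ'c, hg]
      · show g (φ' (AdjoinRoot.root _)) = φ' (AdjoinRoot.root _)
        rw [hφ'r, hgα]
    exact DFunLike.congr_fun h1 x
  have hmem0 : ∀ g : AbsGal k Ω, g ∈ fixGrp φ' → g ∈ fixGrp φ ∧ g α = α := by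
    intro g hg
    rw [mem_fixGrp] at hg
    refine ⟨(mem_fixGrp φ).2 fun c => ?_, ?_⟩
    · rw [← hφ'c, hg]
    · rw [← hφ'r, hg]
  -- constants in `N`
  let ι : algebraicClosure k Ω →+* N :=
    { toFun := fun c => ⟨c, hN c⟩
      map_one' := rfl
      map_mul' := fun _ _ => rfl
      map_zero' := rfl
      map_add' := fun _ _ => rfl }
  have hι : ∀ (g : AbsGal k Ω) (c : algebraicClosure k Ω), s g (ι c) = ι (g c) := fun g c =>
    hs.const g c (hN c) (hN (g c))
  have hYZ' : ι (φ a) * Y ^ p + ι (φ b) * Z ^ p = 1 := Subtype.ext hYZ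
  obtain ⟨ρ', hρ'N, hρ'⟩ := hρ α hα
  obtain ⟨ρ, hρe⟩ : ∃ ρ : N, ρ ^ p = 1 - ι α * Y := ⟨⟨ρ', hρ'N⟩, Subtype.ext hρ'⟩
  have hbZ : ι (φ b) * Z ^ p ≠ 0 := by
    refine mul_ne_zero ?_ (pow_ne_zero _ hZ)
    intro h0
    exact hb (hφinj (ι.injective (by rw [h0, map_zero, map_zero])))
  have hprod : ∏ i ∈ Finset.range p, (1 - ι (φ ζ) ^ i * (ι α * Y)) = ι (φ b) * Z ^ p := by
    have h1 : IsPrimitiveRoot (ι (φ ζ)) p :=
      (hζ.map_of_injective hφinj).map_of_injective ι.injective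
    have h2 := X_pow_sub_C_eq_prod (α := ι α * Y) h1 (Nat.pos_of_ne_zero hp0) rfl
    have h3 := congrArg (eval 1) h2
    rw [eval_prod] at h3
    simp only [eval_sub, eval_pow, eval_X, eval_C, one_pow] at h3
    rw [← h3, mul_pow, ← map_pow, hα, ← hYZ']
    ring
  have hρ0 : ρ ≠ 0 := by
    rintro rfl
    rw [zero_pow hp0] at hρe
    apply hbZ
    rw [← hprod]
    refine Finset.prod_eq_zero (Finset.mem_range.2 (Nat.pos_of_ne_zero hp0)) ?_
    rw [pow_zero, one_mul, ← hρe]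
  obtain ⟨δ, η, hδ0, hη0, hη, hδη⟩ := (h k K Ω i1 i2 i3 i4 i5 i6 i7 i8 i9 N hN s hs
    (AdjoinRoot (X ^ p - C a : L[X])) _ _ hfink φ').2 p hp0 ρ hρ0 (by
      intro g hg
      obtain ⟨hg1, hg2⟩ := hmem0 g hg
      rw [hρe, map_sub, map_one, map_mul, hι, hg2, hY1 g hg1])
  have hδη' : 1 - ι α * Y = ι (φ' δ) * η ^ p := by
    rw [← hρe]
    exact Subtype.ext hδη
  -- the conjugates of `η`
  let f : ℕ → N := fun i => s (g0 ^ i) η
  have hf0 : ∀ i, f i ≠ 0 := fun i h0 => hη0 ((map_eq_zero _).1 h0)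
  have hg0mem : g0 ∈ fixGrp φ := (mem_fixGrp φ).2 hg0c
  have hwell : ∀ g g' : AbsGal k Ω, g ∈ fixGrp φ → g' ∈ fixGrp φ → g α = g' α →
      s g η = s g' η := by
    intro g g' hg hg' hgg
    have h1 : g⁻¹ * g' ∈ fixGrp φ' := by
      refine hmem' _ (Subgroup.mul_mem _ (Subgroup.inv_mem _ hg) hg') ?_
      rw [AlgEquiv.mul_apply, ← hgg]
      show g.symm (g α) = α
      rw [AlgEquiv.symm_apply_apply]
    have h2 := hη _ h1
    have h3 : g' = g * (g⁻¹ * g') := by group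
    rw [h3, map_mul, AlgEquiv.mul_apply, h2]
  have hφζ : IsPrimitiveRoot (φ ζ) p := hζ.map_of_injective hφinj
  have hfp : ∀ i, f (i + p) = f i := by
    intro i
    refine hwell _ _ (Subgroup.pow_mem _ hg0mem _) (Subgroup.pow_mem _ hg0mem _) ?_
    rw [hg0iα, hg0iα, pow_add, hφζ.pow_eq_one, mul_one]
  let H : N := ∏ i ∈ Finset.range p, f i
  have hHfix : ∀ g ∈ fixGrp φ, s g H = H := by
    intro g hg
    have h1 : (g α / α) ^ p = 1 := by
      rw [div_pow, ← map_pow, hα, (mem_fixGrp φ).1 hg, div_self]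
      intro h0
      exact ha (hφinj (by rw [h0, map_zero]))
    have : NeZero p := ⟨hp0⟩
    obtain ⟨j, _, hj⟩ := hφζ.eq_pow_of_pow_eq_one h1
    have h2 : g α = φ ζ ^ j * α := by
      rw [hj]
      field_simp
    show s g (∏ i ∈ Finset.range p, f i) = ∏ i ∈ Finset.range p, f i
    rw [map_prod, ← prod_shift f p hf0 hfp j]
    refine Finset.prod_congr rfl fun i _ => ?_
    show s g (s (g0 ^ i) η) = s (g0 ^ (i + j)) η
    rw [← AlgEquiv.mul_apply, ← map_mul]
    refine hwell _ _ (Subgroup.mul_mem _ hg (Subgroup.pow_mem _ hg0mem _))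
      (Subgroup.pow_mem _ hg0mem _) ?_
    rw [AlgEquiv.mul_apply, hg0iα, hg0iα, map_mul, map_pow, (mem_fixGrp φ).1 hg, h2, pow_add]
    ring
  -- the norm
  let _ : Algebra L (algebraicClosure k Ω) := (φ : L →+* algebraicClosure k Ω).toAlgebra
  have hnorm : φ (Algebra.norm L δ) = ∏ i ∈ Finset.range p, (g0 ^ i) (φ' δ) := by
    refine norm_eq (E := algebraicClosure k Ω) p hp0 a hζ (fun i =>
      { toRingHom := ((g0 ^ i : AbsGal k Ω) : algebraicClosure k Ω →+* algebraicClosure k Ω).comp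
          (φ' : AdjoinRoot (X ^ p - C a : L[X]) →+* algebraicClosure k Ω)
        commutes' := fun c => ?_ }) α hα0 (fun i => ?_) δ
    · show (g0 ^ i) (φ' (algebraMap L _ c)) = φ c
      rw [hφ'c, hg0ic]
    · show (g0 ^ i) (φ' (AdjoinRoot.root _)) = φ ζ ^ i * α
      rw [hφ'r, hg0iα]
  have hmain : ι (φ b) * Z ^ p = ι (φ (Algebra.norm L δ)) * H ^ p := by
    rw [← hprod, hnorm, map_prod, ← Finset.prod_pow, ← Finset.prod_mul_distrib]
    refine Finset.prod_congr rfl fun i _ => ?_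
    have h2 : s (g0 ^ i) (1 - ι α * Y) = 1 - ι (φ ζ) ^ i * (ι α * Y) := by
      rw [map_sub, map_one, map_mul, hι, hg0iα, map_mul, map_pow,
        hY1 _ (Subgroup.pow_mem _ hg0mem i), mul_assoc]
    have h3 : s (g0 ^ i) (ι (φ' δ) * η ^ p) = ι ((g0 ^ i) (φ' δ)) * f i ^ p := by
      rw [map_mul, hι, map_pow]
    rw [← h2, ← h3, hδη']
  have hnd : Algebra.norm L δ ≠ 0 := by
    rw [Ne, Algebra.norm_eq_zero_iff]
    exact hδ0
  have hHZ : (H / Z) ^ p = ι (φ (b / Algebra.norm L δ)) := by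
    have h1 : ι (φ (Algebra.norm L δ)) ≠ 0 := by
      intro h0
      exact hnd (hφinj (ι.injective (by rw [h0, map_zero, map_zero])))
    rw [div_pow, map_div₀, map_div₀, div_eq_div_iff (pow_ne_zero _ hZ) h1, hmain]
    ring
  obtain ⟨t, ht⟩ := (h k K Ω i1 i2 i3 i4 i5 i6 i7 i8 i9 N hN s hs L j1 j2 j3 φ).1 (H / Z) (by
      intro g hg
      rw [map_div₀, hHfix g hg, hZ1 g hg]) (by
      rw [mem_algebraicClosure_iff]
      refine IsAlgebraic.of_pow (Nat.pos_of_ne_zero hp0) ?_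
      have h1 : (((H / Z : N) : Ω)) ^ p = ((φ (b / Algebra.norm L δ) : algebraicClosure k Ω) : Ω) :=
        congrArg (fun x : N => (x : Ω)) hHZ
      rw [h1]
      exact mem_algebraicClosure_iff.1 (φ (b / Algebra.norm L δ)).2)
  have ht' : H / Z = ι (φ t) := Subtype.ext ht
  have htp : t ^ p = b / Algebra.norm L δ := by
    rw [ht', ← map_pow, ← map_pow] at hHZ
    exact hφinj (ι.injective hHZ)
  refine ⟨δ * algebraMap L _ t, ?_⟩
  rw [map_mul, Algebra.norm_algebraMap, hfr, htp]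
  field_simp

end Pool.Agent.Lib.MP_c385f6_ag.Semi
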