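import Mathlib
import Pool.Agent.Lib.MP_c385f6_ag.PlaceLift
import Pool.Agent.Lib.MP_c385f6_ag.Semi.Stmts

set_option autoImplicit false

/-!
Extension of valuation rings to the algebraic closure, and transitivity of the Galois group.
-/

namespace Pool.Agent.Lib.MP_c385f6_ag.Semi

open Polynomial
open scoped Pointwise

namespace Tr

section

variable {K Ω : Type*} [Field K] [Field Ω] [Algebra K Ω]

theorem comap_eq {A : ValuationSubring K} {V : ValuationSubring Ω}
    (h1 : ∀ a ∈ A, algebraMap K Ω a ∈ V)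
    (h2 : ∀ a ∈ A, A.valuation a < 1 → V.valuation (algebraMap K Ω a) < 1) :
    V.comap (algebraMap K Ω) = A := by
  ext x
  rw [ValuationSubring.mem_comap]
  constructor
  · intro hx
    by_contra hxA
    have hx0 : x ≠ 0 := by
      rintro rfl
      exact hxA A.zero_mem
    have h3 : x⁻¹ ∈ A := (A.mem_or_inv_mem x).resolve_left hxA
    have h4 : A.valuation x⁻¹ < 1 := by
      rw [valuation_lt_one_iff_mem]
      right
      rwa [inv_inv]
    have h5 := h2 _ h3 h4
    rw [valuation_lt_one_iff_mem] at h5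
    rcases h5 with h5 | h5
    · rw [map_eq_zero, inv_eq_zero] at h5
      exact hx0 h5
    · rw [map_inv₀, inv_inv] at h5
      exact h5 hx
  · exact h1 x

theorem lt_one_of_comap {A : ValuationSubring K} {V : ValuationSubring Ω}
    (h : V.comap (algebraMap K Ω) = A) (a : K) :
    A.valuation a < 1 → V.valuation (algebraMap K Ω a) < 1 := by
  intro ha
  rw [valuation_lt_one_iff_mem] at ha ⊢
  rcases ha with ha | ha
  · left
    rw [ha, map_zero]
  · right
    rw [← map_inv₀, ← ValuationSubring.mem_comap, h]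
    exact ha

theorem mem_of_mem [CharZero K] [IsAlgClosure K Ω] {A : ValuationSubring K}
    {V V' : ValuationSubring Ω} (hV : ∀ a ∈ A, algebraMap K Ω a ∈ V)
    (hV' : ∀ a ∈ A, algebraMap K Ω a ∈ V') (σ : Ω ≃ₐ[K] Ω)
    (h : ∀ s : Ω, IsIntegral A s → V'.valuation (σ s) < 1 → V.valuation s < 1) {z : Ω}
    (hz : z ∈ V) : σ z ∈ V' := by
  have halg : Algebra.IsAlgebraic K Ω := IsAlgClosure.isAlgebraic
  obtain ⟨b, c, hb, hc, hc1, rfl⟩ := exists_quotient (A := A) hV hz
  have hb' : IsIntegral A (σ b) := IsIntegral.map (σ.toAlgHom.restrictScalars A) hb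
  have hc' : IsIntegral A (σ c) := IsIntegral.map (σ.toAlgHom.restrictScalars A) hc
  have h1 : σ b ∈ V' := integral_mem A hV' hb'
  have h2 : σ c ∈ V' := integral_mem A hV' hc'
  have h3 : ¬ V'.valuation (σ c) < 1 := fun h4 => (h c hc h4).ne hc1
  have h4 : V'.valuation (σ c) = 1 :=
    le_antisymm ((V'.valuation_le_one_iff _).2 h2) (not_lt.1 h3)
  have h5 : V'.valuation (σ (b / c)) ≤ 1 := by
    rw [map_div₀, map_div₀, h4, div_one]
    exact (V'.valuation_le_one_iff _).2 h1
  exact (V'.valuation_le_one_iff _).1 h5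

end

end Tr

universe v w in
/-- Extension of valuation rings and transitivity of the Galois group. -/
theorem stTr : StTr.{v, w} := by
  intro K Ω _ _ _ _ _
  refine ⟨fun A => ?_, fun V V' hVV => ?_⟩
  · obtain ⟨V, h1, h2⟩ := exists_above (Ω := Ω) A
    exact ⟨V, Tr.comap_eq h1 h2⟩
  · obtain ⟨A, hA⟩ : ∃ A, A = V.comap (algebraMap K Ω) := ⟨_, rfl⟩
    have hA1 : V.comap (algebraMap K Ω) = A := hA.symm
    have hA2 : V'.comap (algebraMap K Ω) = A := by rw [← hVV, hA1]
    have hV : ∀ a ∈ A, algebraMap K Ω a ∈ V := by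
      intro a ha
      rw [← hA1] at ha
      exact ha
    have hV' : ∀ a ∈ A, algebraMap K Ω a ∈ V' := by
      intro a ha
      rw [← hA2] at ha
      exact ha
    have hW : ∀ a ∈ A, A.valuation a < 1 → V.valuation (algebraMap K Ω a) < 1 :=
      fun a _ => Tr.lt_one_of_comap hA1 a
    have hW' : ∀ a ∈ A, A.valuation a < 1 → V'.valuation (algebraMap K Ω a) < 1 :=
      fun a _ => Tr.lt_one_of_comap hA2 a
    have halg : Algebra.IsAlgebraic K Ω := IsAlgClosure.isAlgebraic
    have hn : Normal K Ω := IsAlgClosure.normal K Ω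
    have hg : IsGalois K Ω := {}
    let S := integralClosure A Ω
    let P : Ideal S := primeBelow A V hV
    let Q : Ideal S := primeBelow A V' hV'
    have hP : P.IsPrime := primeBelow_isPrime hV
    have hQ : Q.IsPrime := primeBelow_isPrime hV'
    have hPm : P.LiesOver (IsLocalRing.maximalIdeal A) := primeBelow_liesOver hV hW
    have hQm : Q.LiesOver (IsLocalRing.maximalIdeal A) := primeBelow_liesOver hV' hW'
    let _ : MulSemiringAction (Ω ≃ₐ[K] Ω) S := closureAction A
    let _ : TopologicalSpace S := ⊥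
    have _ : DiscreteTopology S := ⟨rfl⟩
    have _ : ContinuousSMul (Ω ≃ₐ[K] Ω) S := closureAction_continuous A
    have _ : Algebra.IsInvariant A S (Ω ≃ₐ[K] Ω) := closureAction_invariant A
    have _ : SMulCommClass (Ω ≃ₐ[K] Ω) A S := by
      constructor
      intro σ a s
      apply Subtype.ext
      show σ (a • (s : Ω)) = a • σ (s : Ω)
      rw [Algebra.smul_def, map_mul, Algebra.smul_def]
      congr 1
      exact σ.commutes _
    obtain ⟨σ, hσ⟩ := Algebra.IsInvariant.exists_smul_of_under_eq_of_profinite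
      (A := A) (G := Ω ≃ₐ[K] Ω) P Q (by rw [← hPm.over, ← hQm.over])
    have key : ∀ s : S, s ∈ P ↔ σ • s ∈ Q := by
      intro s
      rw [hσ, Ideal.smul_mem_pointwise_smul_iff]
    have hc : ∀ (σ : Ω ≃ₐ[K] Ω) (s : Ω), IsIntegral A s → IsIntegral A (σ s) :=
      fun σ s hs => IsIntegral.map (σ.toAlgHom.restrictScalars A) hs
    have key' : ∀ s : Ω, IsIntegral A s → (V.valuation s < 1 ↔ V'.valuation (σ s) < 1) := by
      intro s hs
      exact key ⟨s, hs⟩
    refine ⟨σ, fun z => ⟨fun hz => ?_, fun hz => ?_⟩⟩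
    · exact Tr.mem_of_mem hV hV' σ (fun s hs h => (key' s hs).2 h) hz
    · have h1 : σ⁻¹ (σ z) ∈ V := by
        refine Tr.mem_of_mem hV' hV σ⁻¹ (fun s hs h => ?_) hz
        have h2 := (key' (σ⁻¹ s) (hc σ⁻¹ s hs)).1 h
        have h3 : σ (σ⁻¹ s) = s := by
          show (σ * σ⁻¹) s = s
          rw [mul_inv_cancel]
          rfl
        rwa [h3] at h2
      have h3 : σ⁻¹ (σ z) = z := by
        show (σ⁻¹ * σ) z = z
        rw [inv_mul_cancel]
        rfl
      rwa [h3] at h1

end Pool.Agent.Lib.MP_c385f6_ag.Semi
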