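import Mathlib
import Pool.Agent.Lib.MP_c385f6_ag.Semi.Stmts

set_option autoImplicit false

/-!
(Un) Uniqueness of the valuation ring (blueprint MP_c385f6_semi.md).
-/

namespace Pool.Agent.Lib.MP_c385f6_ag.Semi

open Pool.Agent.Lib.MP_c385f6_ag.Cpl

universe u

namespace UnAux

section

variable {p : ℕ} {L F : Type} [Field L] [Field F] {S : LF p L F} {E : Type u} [Field E]
  {ι : L →+* E} {O : Subring E} {D : E → L} {A : ValuationSubring E}

theorem ut_sub (hL : LimD S ι O D) {x : E} (hx : x ∈ O) {c : L} (hc : Gd ι O x c) :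
    Ut O (x - ι c) := ⟨hc.1, O.sub_mem hx (hL.const c), hc.2⟩

theorem vAt_of_lt (hL : LimD S ι O D) (hA : Plc p ι O D A) {x : E} (hx : x ∈ O) {a : L}
    (h : A.valuation (x - ι a) < 1) : VAt p ι O D x a := by
  intro c hc hca
  refine hA.comp _ (ut_sub hL hx hc) (a - c) (sub_ne_zero.2 (Ne.symm hca)) ?_
  have h1 : x - ι c - ι (a - c) = x - ι a := by
    rw [map_sub]
    ring
  rw [h1]
  exact h

theorem one_lt_of_notMem (hA : Plc p ι O D A) {x : E} (hx : x ∉ A) (c : L) :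
    1 < A.valuation (x - ι c) := by
  rw [← not_le, A.valuation_le_one_iff]
  intro h
  apply hx
  have h1 := A.add_mem _ _ h (hA.const c)
  rwa [sub_add_cancel] at h1

theorem vInf_of_notMem (hL : LimD S ι O D) (hA : Plc p ι O D A) {x : E} (hx : x ∈ O)
    (hxA : x ∉ A) : VInf p ι O D x := by
  intro c c' hc hc'
  have hu := ut_sub hL hx hc
  have hu' := ut_sub hL hx hc'
  have hw : Ut O ((x - ι c) * (x - ι c')⁻¹) := by
    refine ⟨mul_ne_zero hc.1 (inv_ne_zero hc'.1), O.mul_mem hu.2.1 hc'.2, ?_⟩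
    rw [mul_inv_rev, inv_inv]
    exact O.mul_mem hu'.2.1 hc.2
  have h1 : A.valuation ((x - ι c) * (x - ι c')⁻¹ - ι 1) < 1 := by
    have h2 : (x - ι c) * (x - ι c')⁻¹ - ι 1 = ι (c' - c) * (x - ι c')⁻¹ := by
      rw [map_one, map_sub]
      field_simp [hc'.1]
      ring
    rw [h2, map_mul, map_inv₀]
    have h3 := one_lt_of_notMem hA hxA c'
    have h4 : (A.valuation (x - ι c'))⁻¹ < 1 := inv_lt_one_of_one_lt₀ h3
    have h5 : A.valuation (ι (c' - c)) ≤ 1 := (A.valuation_le_one_iff _).2 (hA.const _)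
    calc A.valuation (ι (c' - c)) * (A.valuation (x - ι c'))⁻¹
        ≤ 1 * (A.valuation (x - ι c'))⁻¹ := mul_le_mul_left h5 _
      _ < 1 := by rwa [one_mul]
  obtain ⟨z, hz, hz'⟩ := hA.comp _ hw 1 one_ne_zero h1
  obtain ⟨t, ht, ht'⟩ := hL.mul _ _ hw hu'
  have h6 : (x - ι c) * (x - ι c')⁻¹ * (x - ι c') = x - ι c := by
    rw [mul_assoc, inv_mul_cancel₀ hc'.1, mul_one]
  rw [h6] at ht'
  refine ⟨z * t, mul_ne_zero hz ht, ?_⟩
  rw [ht', hz', mul_pow]
  ring

theorem mem_iff (hL : LimD S ι O D) (hV : Vals p ι O D) (hA : Plc p ι O D A) {z : E} {s : L}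
    (hs : Gd ι O z s) : z ∈ A ↔ ¬ VAt p ι O D (z - ι s)⁻¹ 0 := by
  constructor
  · intro hz h0
    have hy : (z - ι s)⁻¹ ∈ A := by
      by_contra h
      exact hV.excl _ hs.2 0 h0 (vInf_of_notMem hL hA hs.2 h)
    obtain ⟨b, hb⟩ := hA.res _ hy
    have hb0 : b = 0 := hV.uniq _ hs.2 b 0 (vAt_of_lt hL hA hs.2 hb) h0
    rw [hb0, map_zero, sub_zero, map_inv₀] at hb
    have h1 : A.valuation (z - ι s) ≤ 1 :=
      (A.valuation_le_one_iff _).2 (A.sub_mem hz (hA.const s))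
    have h2 : A.valuation (z - ι s) ≠ 0 := (Valuation.ne_zero_iff _).2 hs.1
    have h3 : (1 : A.ValueGroup) ≤ (A.valuation (z - ι s))⁻¹ := by
      rw [one_le_inv₀ (zero_lt_iff.2 h2)]
      exact h1
    exact absurd hb (not_lt.2 h3)
  · intro h
    by_contra hz
    apply h
    refine vAt_of_lt hL hA hs.2 ?_
    rw [map_zero, sub_zero, map_inv₀]
    exact inv_lt_one_of_one_lt₀ (one_lt_of_notMem hA hz s)

end

end UnAux

open UnAux in
theorem stUn : StUn.{u} := by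
  intro p _ L F _ _ S E _ ι O D hL hV A A' hA hA'
  ext z
  obtain ⟨s, -, hs⟩ := hL.dense {z} (Set.finite_singleton z) 0 0
  have hs' := hs z rfl
  rw [mem_iff hL hV hA hs', mem_iff hL hV hA' hs']

end Pool.Agent.Lib.MP_c385f6_ag.Semi
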