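import Mathlib
import Pool.Agent.Lib.MP_c385f6_ag.Cpl.A1
import Pool.Agent.Lib.MP_c385f6_ag.Cpl.Baire
import Pool.Agent.Lib.MP_c385f6_ag.Cpl.Chain
import Pool.Agent.Lib.MP_c385f6_ag.Cpl.Chord
import Pool.Agent.Lib.MP_c385f6_ag.Cpl.Dual
import Pool.Agent.Lib.MP_c385f6_ag.Cpl.Frame
import Pool.Agent.Lib.MP_c385f6_ag.Cpl.Hens
import Pool.Agent.Lib.MP_c385f6_ag.Cpl.LF
import Pool.Agent.Lib.MP_c385f6_ag.Cpl.Lin
import Pool.Agent.Lib.MP_c385f6_ag.Cpl.Move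
import Pool.Agent.Lib.MP_c385f6_ag.Cpl.NR
import Pool.Agent.Lib.MP_c385f6_ag.Cpl.Rich
import Pool.Agent.Lib.MP_c385f6_ag.Cpl.Span
import Pool.Agent.Lib.MP_c385f6_ag.Cpl.Step
import Pool.Agent.Lib.MP_c385f6_ag.Cpl.Sym
import Pool.Agent.Lib.MP_c385f6_ag.Cpl.Val
import Pool.Agent.Lib.MP_c385f6_ag.Bc.Add
import Pool.Agent.Lib.MP_c385f6_ag.Bc.Alt
import Pool.Agent.Lib.MP_c385f6_ag.Bc.Comp
import Pool.Agent.Lib.MP_c385f6_ag.Bc.Mul
import Pool.Agent.Lib.MP_c385f6_ag.Bc.Net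
import Pool.Agent.Lib.MP_c385f6_ag.Bc.One
import Pool.Agent.Lib.MP_c385f6_ag.Bc.Pair
import Pool.Agent.Lib.MP_c385f6_ag.Semi.Bad
import Pool.Agent.Lib.MP_c385f6_ag.Semi.Cj
import Pool.Agent.Lib.MP_c385f6_ag.Semi.Cnj
import Pool.Agent.Lib.MP_c385f6_ag.Semi.Den
import Pool.Agent.Lib.MP_c385f6_ag.Semi.Dep
import Pool.Agent.Lib.MP_c385f6_ag.Semi.Dns
import Pool.Agent.Lib.MP_c385f6_ag.Semi.ExL
import Pool.Agent.Lib.MP_c385f6_ag.Semi.Ext
import Pool.Agent.Lib.MP_c385f6_ag.Semi.Fn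
import Pool.Agent.Lib.MP_c385f6_ag.Semi.Kum
import Pool.Agent.Lib.MP_c385f6_ag.Semi.Bundle
import Pool.Agent.Lib.MP_c385f6_ag.Semi.Mv
import Pool.Agent.Lib.MP_c385f6_ag.Semi.Nf
import Pool.Agent.Lib.MP_c385f6_ag.Semi.Pl
import Pool.Agent.Lib.MP_c385f6_ag.Semi.Res
import Pool.Agent.Lib.MP_c385f6_ag.Semi.Sct
import Pool.Agent.Lib.MP_c385f6_ag.Semi.Stb
import Pool.Agent.Lib.MP_c385f6_ag.Semi.Tr
import Pool.Agent.Lib.MP_c385f6_ag.Semi.Un
import Pool.Agent.Lib.MP_c385f6_ag.Semi.Vl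

set_option autoImplicit false

/-!
All modules of the theorem on sections with restricted ramification.
-/

namespace Pool.Agent.Lib.MP_c385f6_ag.Semi

open Pool.Agent.Lib.MP_c385f6_ag.Cpl

universe u v w

theorem lfAll : StLF := stLF stVal stHens stNR stLin stSym

theorem stA1All : StA1 :=
  stA1 stChord (stFrame stChord stSym) (stChain (stStep stSym stDual (stSpan stSym)) stRich)
    (stBaire stSym) stSym (stMove stChord stSym)

theorem stVAll : StV.{w} :=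
  stV (Bc.stAlt Bc.stPair (Bc.stNet stChord) stA1All stChord) Bc.stOne (Bc.stAdd Bc.stOne)
    (Bc.stMul Bc.stOne (Bc.stAdd Bc.stOne)) stFN

theorem stResAll : StRes.{u, v, w} := stRes stDep

theorem stDnsAll : StDns.{u, v, w} := stDns (stBad stDep stResAll stMv stCj) stDen

theorem mods : Mods.{u, v, w} where
  lf := lfAll
  comp := Bc.stComp stVal
  vals := stVAll
  pl := stPl
  un := stUn
  exl := stExL
  nn := stN
  kum := stKum
  stb := stStb stKum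
  dns := stDnsAll
  res := stResAll
  tr := stTr
  ext := stExt
  sct := stSct
  cnj := stCnj stResAll stTr stTr

end Pool.Agent.Lib.MP_c385f6_ag.Semi
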