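import Mathlib

set_option autoImplicit false

/-!
Polynomials over local fields that split.
-/

namespace Pool.Agent.Lib.MP_c385f6_ag.Semi

open Polynomial Filter Topology

universe u

namespace SplAux

/-- small translates of a polynomial with different roots split -/
theorem exists_split (p : ℕ) (k : Type*) [NontriviallyNormedField k] [CompleteSpace k]
    [CharZero k] : ∀ᶠ ε in 𝓝 (0 : k), ∃ r : Fin p → k, Function.Injective r ∧
      ∀ i, (∏ j : Fin p, (X - C ((j : ℕ) : k)) : k[X]).eval (r i) + ε = 0 := by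
  set P : k[X] := ∏ j : Fin p, (X - C ((j : ℕ) : k)) with hP
  have hinj : Function.Injective fun j : Fin p => ((j : ℕ) : k) := by
    intro a b hab
    exact Fin.ext (Nat.cast_injective hab)
  have hsep : P.Separable := separable_prod_X_sub_C_iff.2 hinj
  have hroot : ∀ i : Fin p, P.eval ((i : ℕ) : k) = 0 := by
    intro i
    rw [hP, eval_prod]
    exact Finset.prod_eq_zero (Finset.mem_univ i) (by simp)
  obtain ⟨U, hU, hdis⟩ := (Set.finite_range fun j : Fin p => ((j : ℕ) : k)).t2_separation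
  have h1 : ∀ i : Fin p, (fun x => P.eval x) '' U ((i : ℕ) : k) ∈ 𝓝 (0 : k) := by
    intro i
    have h2 : P.derivative.eval ((i : ℕ) : k) ≠ 0 := by
      have h3 := hsep.eval₂_derivative_ne_zero (RingHom.id k) (x := ((i : ℕ) : k))
        (by rw [eval₂_id, hroot])
      rwa [eval₂_id] at h3
    have h3 := (P.hasStrictDerivAt ((i : ℕ) : k)).map_nhds_eq h2
    rw [← hroot i, ← h3]
    exact image_mem_map ((hU _).2.mem_nhds (hU _).1)
  have h4 : ∀ᶠ ε in 𝓝 (0 : k), ∀ i : Fin p, -ε ∈ (fun x => P.eval x) '' U ((i : ℕ) : k) := by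
    rw [eventually_all]
    intro i
    have h5 : Tendsto (fun ε : k => -ε) (𝓝 0) (𝓝 0) := by
      have := (continuous_neg (G := k)).tendsto 0
      rwa [neg_zero] at this
    exact h5 (h1 i)
  filter_upwards [h4] with ε hε
  choose r hr1 hr2 using hε
  refine ⟨r, fun a b hab => ?_, fun i => ?_⟩
  · by_contra hne
    have h6 := hdis ⟨a, rfl⟩ ⟨b, rfl⟩ (fun h => hne (hinj h))
    exact Set.disjoint_left.1 h6 (hr1 a) (by rw [hab]; exact hr1 b)
  · have := hr2 i
    simp only at this
    rw [this, neg_add_cancel]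

/-- bounded functions -/
theorem exists_bound {k : Type*} [NontriviallyNormedField k] [ProperSpace k] (f : k[X])
    (h0 : ∀ c, f.eval c ≠ 0) (i : ℕ) (hi : i < f.natDegree) :
    ∃ M : ℝ, ∀ c, ‖c ^ i * (f.eval c)⁻¹‖ ≤ M := by
  have hcont : Continuous fun c : k => c ^ i * (f.eval c)⁻¹ :=
    (continuous_pow i).mul (f.continuous.inv₀ h0)
  have hlim : Tendsto (fun c : k => c ^ i * (f.eval c)⁻¹) (cocompact k) (𝓝 0) := by
    have h1 : Tendsto (fun c : k => c⁻¹) (cocompact k) (𝓝 0) := by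
      rw [← Metric.cobounded_eq_cocompact]
      exact tendsto_inv₀_cobounded
    have h2 : Tendsto (fun c : k => (c⁻¹) ^ (f.natDegree - i) * (f.reverse.eval c⁻¹)⁻¹)
        (cocompact k) (𝓝 (0 ^ (f.natDegree - i) * (f.reverse.eval 0)⁻¹)) := by
      have h3 : ContinuousAt (fun x : k => x ^ (f.natDegree - i) * (f.reverse.eval x)⁻¹) 0 := by
        refine (continuous_pow _).continuousAt.mul
          (f.reverse.continuous.continuousAt.inv₀ ?_)
        rw [← coeff_zero_eq_eval_zero, coeff_zero_reverse]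
        intro h
        rw [leadingCoeff_eq_zero.1 h] at hi
        simp at hi
      exact h3.tendsto.comp h1
    rw [zero_pow (by omega), zero_mul] at h2
    refine h2.congr' ?_
    have h4 : ∀ᶠ c : k in cocompact k, c ≠ 0 := by
      have : ({0} : Set k)ᶜ ∈ cocompact k := isCompact_singleton.compl_mem_cocompact
      exact this
    filter_upwards [h4] with c hc
    have : Invertible c := invertibleOfNonzero hc
    have h5 := eval₂_reverse_mul_pow (RingHom.id k) c f
    rw [eval₂_id, eval₂_id, invOf_eq_inv] at h5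
    have h6 : f.reverse.eval c⁻¹ ≠ 0 := by
      intro h
      rw [h, zero_mul] at h5
      exact h0 c h5.symm
    rw [← h5, mul_inv, inv_pow, ← div_eq_mul_inv, ← div_eq_mul_inv]
    have h7 : c ^ f.natDegree = c ^ i * c ^ (f.natDegree - i) := by
      rw [← pow_add]; congr 1; omega
    rw [h7]
    field_simp
  obtain ⟨M, hM⟩ := (ZeroAtInftyContinuousMap.isBounded_range
    (⟨⟨fun c : k => c ^ i * (f.eval c)⁻¹, hcont⟩, hlim⟩ : ZeroAtInftyContinuousMap k k)).exists_norm_le
  exact ⟨M, fun c => hM _ ⟨c, rfl⟩⟩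

/-- a parameter for which all polynomials split -/
theorem exists_param (p : ℕ) (hp : 0 < p) (k : Type*) [NontriviallyNormedField k] [ProperSpace k]
    [CharZero k] (f : k[X]) (hf : f.natDegree ≠ 0) (h0 : ∀ c, f.eval c ≠ 0) (m : ℕ) :
    ∃ l : k, l ≠ 0 ∧ ∀ s t : k, (s = 0 ∨ ∃ c, s = (f.eval c)⁻¹) →
      (t = 0 ∨ ∃ c, t = c ^ (f.natDegree - 1) * (f.eval c)⁻¹) →
      ∃ r : Fin p → k, Function.Injective r ∧
        (∏ j : Fin p, (X - C ((j : ℕ) : k)) : k[X]) + C (l * (s ^ m * t)) =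
          ∏ j, (X - C (r j)) := by
  have : CompleteSpace k := complete_of_proper
  obtain ⟨δ, hδ, hsp⟩ := Metric.eventually_nhds_iff.1 (exists_split p k)
  obtain ⟨M, hM⟩ := exists_bound f h0 0 (by omega)
  obtain ⟨M', hM'⟩ := exists_bound f h0 (f.natDegree - 1) (by omega)
  have hM0 : 0 ≤ M := (norm_nonneg _).trans (hM 0)
  have hM0' : 0 ≤ M' := (norm_nonneg _).trans (hM' 0)
  obtain ⟨l, hl0, hl⟩ := NormedField.exists_norm_lt k (r := δ / (M ^ m * M' + 1))
    (div_pos hδ (by positivity))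
  have hl0' : l ≠ 0 := norm_pos_iff.1 hl0
  refine ⟨l, hl0', fun s t hs ht => ?_⟩
  have hs' : ‖s‖ ≤ M := by
    rcases hs with rfl | ⟨c, rfl⟩
    · rw [norm_zero]; exact hM0
    · have := hM c
      rwa [pow_zero, one_mul] at this
  have ht' : ‖t‖ ≤ M' := by
    rcases ht with rfl | ⟨c, rfl⟩
    · rw [norm_zero]; exact hM0'
    · exact hM' c
  have hε : dist (l * (s ^ m * t)) 0 < δ := by
    rw [dist_zero_right, norm_mul, norm_mul, norm_pow]
    have h1 : ‖s‖ ^ m * ‖t‖ ≤ M ^ m * M' := by gcongr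
    calc ‖l‖ * (‖s‖ ^ m * ‖t‖) ≤ ‖l‖ * (M ^ m * M' + 1) := by
          gcongr
          linarith
      _ < δ / (M ^ m * M' + 1) * (M ^ m * M' + 1) := by
          gcongr
      _ = δ := by field_simp
  obtain ⟨r, hr, hr'⟩ := hsp hε
  refine ⟨r, hr, ?_⟩
  have hmon : (∏ j : Fin p, (X - C ((j : ℕ) : k)) : k[X]).Monic :=
    monic_prod_of_monic _ _ fun i _ => monic_X_sub_C _
  have hmon' : (∏ j : Fin p, (X - C (r j)) : k[X]).Monic :=
    monic_prod_of_monic _ _ fun i _ => monic_X_sub_C _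
  have hdeg : ∀ g : Fin p → k, (∏ j : Fin p, (X - C (g j)) : k[X]).degree = (p : ℕ) := by
    intro g
    rw [degree_prod]
    simp
  have hlt : (C (l * (s ^ m * t)) : k[X]).degree <
      (∏ j : Fin p, (X - C ((j : ℕ) : k)) : k[X]).degree := by
    rw [hdeg fun j => ((j : ℕ) : k)]
    exact lt_of_le_of_lt degree_C_le (by exact_mod_cast hp)
  refine eq_of_degree_sub_lt_of_eval_index_eq (s := Finset.univ) (v := r) (hr.injOn) ?_ ?_
  · rw [Finset.card_univ, Fintype.card_fin]
    have h2 : ((∏ j : Fin p, (X - C ((j : ℕ) : k)) : k[X]) + C (l * (s ^ m * t))).Monic :=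
      hmon.add_of_left hlt
    have h3 : ((∏ j : Fin p, (X - C ((j : ℕ) : k)) : k[X]) + C (l * (s ^ m * t))).degree =
        (p : ℕ) := by
      rw [degree_add_eq_left_of_degree_lt hlt, hdeg fun j => ((j : ℕ) : k)]
    have h4 := degree_sub_lt_left (h3.trans (hdeg r).symm) h2.ne_zero
      (by rw [h2.leadingCoeff, hmon'.leadingCoeff])
    rwa [h3] at h4
  · intro i _
    rw [eval_add, eval_C, hr' i, eval_prod]
    exact (Finset.prod_eq_zero (Finset.mem_univ i) (by simp)).symm

end SplAux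

open SplAux

/-- a parameter for which all polynomials split -/
theorem exists_lambda (p : ℕ) [hp : Fact p.Prime] (k : Type u) [ik : Field k] [ia : Algebra ℚ_[p] k]
    [FiniteDimensional ℚ_[p] k] (f : k[X]) (hf : f.natDegree ≠ 0) (h0 : ∀ c, f.eval c ≠ 0)
    (m : ℕ) : ∃ l : k, l ≠ 0 ∧ ∀ s t : k, (s = 0 ∨ ∃ c, s = (f.eval c)⁻¹) →
      (t = 0 ∨ ∃ c, t = c ^ (f.natDegree - 1) * (f.eval c)⁻¹) →
      ∃ r : Fin p → k, Function.Injective r ∧
        (∏ j : Fin p, (X - C ((j : ℕ) : k)) : k[X]) + C (l * (s ^ m * t)) =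
          ∏ j, (X - C (r j)) := by
  have hc : CharZero k := charZero_of_injective_algebraMap (algebraMap ℚ_[p] k).injective
  letI : NormedField k := spectralNorm.normedField ℚ_[p] k
  letI : NormedAlgebra ℚ_[p] k := spectralNorm.normedAlgebra ℚ_[p] k
  letI : NontriviallyNormedField k :=
    { (inferInstance : NormedField k) with
      non_trivial := by
        obtain ⟨x, hx⟩ := NormedField.exists_one_lt_norm ℚ_[p]
        exact ⟨algebraMap ℚ_[p] k x, by rwa [norm_algebraMap']⟩ }
  haveI : ProperSpace k := FiniteDimensional.proper ℚ_[p] k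
  exact exists_param p hp.out.pos k f hf h0 m

end Pool.Agent.Lib.MP_c385f6_ag.Semi
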