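import Mathlib
import Pool.Agent.Lib.MP_c385f6_ag.Semi.Sct
import Pool.Agent.Lib.MP_c385f6_ag.Semi.Res
import Pool.Agent.Lib.MP_c385f6_ag.Semi.Dep
import Pool.Agent.Lib.MP_c385f6_ag.Semi.Spl
import Pool.Agent.Lib.MP_c385f6_ag.Semi.Defs3

set_option autoImplicit false

/-!
The maximal extension in which all rational places split completely has divisible value groups.
-/

namespace Pool.Agent.Lib.MP_c385f6_ag.Semi

open Pool.Agent.Lib.MP_c385f6_ag.Cpl Polynomial
open scoped Pointwise

universe u v w

namespace TotAux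

section
variable {Ω : Type*} [Field Ω] {B : ValuationSubring Ω}

theorem val_sub_of_lt {x y : Ω} (h : B.valuation y < B.valuation x) :
    B.valuation (x - y) = B.valuation x := Valuation.map_sub_eq_of_lt_left _ h

/-- the value of a monic-like polynomial at an element with value `> 1` -/
theorem val_aeval {k : Type*} [Field k] [Algebra k Ω] (hB : ∀ c : k, algebraMap k Ω c ∈ B)
    {f : k[X]} (hf : f ≠ 0) {x : Ω} (hx : 1 < B.valuation x) :
    B.valuation (aeval x f) = B.valuation x ^ f.natDegree := by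
  have hc : ∀ c : k, c ≠ 0 → B.valuation (algebraMap k Ω c) = 1 := fun c hc =>
    valuation_eq_one hB (algebraMap_mem (algebraicClosure k Ω) c)
      ((_root_.map_ne_zero (algebraMap k Ω)).2 hc)
  rw [aeval_eq_sum_range]
  have hlead : f.coeff f.natDegree ≠ 0 := by
    rw [← leadingCoeff]
    exact leadingCoeff_ne_zero.2 hf
  have h1 := Valuation.map_sum_eq_of_lt B.valuation (s := Finset.range (f.natDegree + 1))
    (f := fun i => f.coeff i • x ^ i) (j := f.natDegree) (Finset.self_mem_range_succ _) (by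
      intro i hi
      obtain ⟨hi1, hi2⟩ := Finset.mem_sdiff.1 hi
      have hlt : i < f.natDegree := by
        have h2 := Finset.mem_range.1 hi1
        have h3 : i ≠ f.natDegree := by simpa using hi2
        omega
      simp only [Algebra.smul_def, map_mul, map_pow]
      rw [hc _ hlead, one_mul]
      have h4 : B.valuation x ^ i < B.valuation x ^ f.natDegree := pow_lt_pow_right₀ hx hlt
      refine lt_of_le_of_lt ?_ h4
      have h5 : B.valuation (algebraMap k Ω (f.coeff i)) ≤ 1 := (B.valuation_le_one_iff _).2 (hB _)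
      calc B.valuation (algebraMap k Ω (f.coeff i)) * B.valuation x ^ i
          ≤ 1 * B.valuation x ^ i := by gcongr
        _ = _ := one_mul _)
  rw [h1]
  simp only [Algebra.smul_def, map_mul, map_pow]
  rw [hc _ hlead, one_mul]

end

section
variable {k : Type u} {K : Type v} {Ω : Type w} [ik : Field k] [iK : Field K]
  [iO : Field Ω] [iakK : Algebra k K] [iakO : Algebra k Ω] [iaKO : Algebra K Ω]
  [ist : IsScalarTower k K Ω] [ial : IsAlgClosure K Ω]

omit iakO ist ial in
theorem mem_totSplit {z : Ω} : z ∈ totSplit k K Ω ↔ ∀ V : ValuationSubring Ω,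
    IsRationalPlace k K (V.comap (algebraMap K Ω)) → ∀ σ ∈ V.decompositionSubgroup K,
      σ z = z := by
  rw [totSplit, IntermediateField.mem_fixedField_iff]
  constructor
  · intro h V hV σ hσ
    exact h σ (le_iSup (fun V : {V : ValuationSubring Ω //
      IsRationalPlace k K (V.comap (algebraMap K Ω))} => V.1.decompositionSubgroup K) ⟨V, hV⟩ hσ)
  · intro h g hg
    have h1 : (⨆ V : {V : ValuationSubring Ω //
        IsRationalPlace k K (V.comap (algebraMap K Ω))}, V.1.decompositionSubgroup K) ≤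
        MulAction.stabilizer (Ω ≃ₐ[K] Ω) z := by
      refine iSup_le fun V σ hσ => ?_
      rw [MulAction.mem_stabilizer_iff]
      exact h V.1 V.2 σ hσ
    exact MulAction.mem_stabilizer_iff.1 (h1 hg)

omit ik iakK iakO ist ial in
theorem dec_mem {V : ValuationSubring Ω} {σ : Ω ≃ₐ[K] Ω} (hσ : σ ∈ V.decompositionSubgroup K)
    {y : Ω} : σ y ∈ V ↔ y ∈ V := by
  have h1 : σ • V = V := hσ
  constructor
  · intro h
    rw [← h1] at h
    exact (ValuationSubring.smul_mem_pointwise_smul_iff (g := σ) (S := V) (x := y)).1 h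
  · intro h
    rw [← h1]
    exact (ValuationSubring.smul_mem_pointwise_smul_iff (g := σ) (S := V) (x := y)).2 h

omit ik iakK iakO ist ial in
theorem dec_valuation {V : ValuationSubring Ω} {σ : Ω ≃ₐ[K] Ω}
    (hσ : σ ∈ V.decompositionSubgroup K) {y : Ω} (hy : V.valuation y < 1) :
    V.valuation (σ y) < 1 := by
  rw [valuation_lt_one_iff_mem] at hy ⊢
  rcases hy with rfl | hy
  · left; exact map_zero σ
  · right
    rwa [← map_inv₀, dec_mem hσ]

omit ik iakK iakO ist in
theorem mem_dec_of {A : ValuationSubring K} {V : ValuationSubring Ω}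
    (hV : ∀ a ∈ A, algebraMap K Ω a ∈ V) {σ : Ω ≃ₐ[K] Ω} (hσ : σ ∈ decSub A V) :
    σ ∈ V.decompositionSubgroup K := by
  show σ • V = V
  ext x
  rw [ValuationSubring.mem_smul_pointwise_iff_exists]
  constructor
  · rintro ⟨y, hy, rfl⟩
    exact SctAux.decSub_mem hV hσ hy
  · intro hx
    refine ⟨σ⁻¹ x, SctAux.decSub_mem hV (inv_mem hσ) hx, ?_⟩
    show (σ * σ⁻¹) x = x
    rw [mul_inv_cancel]
    rfl

/-- an element of `totSplit` is near a constant of `k` at each rational place -/
theorem exists_const_totSplit [ic : CharZero k] (htr : Algebra.trdeg k K = 1)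
    {V : ValuationSubring Ω} (hV : IsRationalPlace k K (V.comap (algebraMap K Ω))) {z : Ω}
    (hz : z ∈ totSplit k K Ω) (hzV : z ∈ V) : ∃ c : k, V.valuation (z - algebraMap k Ω c) < 1 := by
  have hk : ∀ c : k, algebraMap k Ω c ∈ V := by
    intro c
    have h := hV.const_mem c
    rw [ValuationSubring.mem_comap, ← IsScalarTower.algebraMap_apply] at h
    exact h
  have hne : V ≠ ⊤ := by
    rintro rfl
    exact hV.ne_top (by ext x; simp [ValuationSubring.mem_comap])
  obtain ⟨α, hα⟩ := stRes stDep k K Ω ik iK iO iakK iakO iaKO ist ial htr V hk hne z hzV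
  have hV1 : ∀ a ∈ V.comap (algebraMap K Ω), algebraMap K Ω a ∈ V := fun a ha => ha
  have hV2 : ∀ a ∈ V.comap (algebraMap K Ω), (V.comap (algebraMap K Ω)).valuation a < 1 →
      V.valuation (algebraMap K Ω a) < 1 := by
    intro a _ ha
    rw [valuation_lt_one_iff_mem] at ha ⊢
    rcases ha with rfl | ha
    · left; exact map_zero _
    · right
      intro h
      apply ha
      rw [ValuationSubring.mem_comap, map_inv₀]
      exact h
  have hfix : ∀ g : AbsGal k Ω, g α = α := by
    intro g
    obtain ⟨σ, hσ, hσg⟩ := (exists_dec_lift hV hV1 hV2).2 g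
    have hσV := mem_dec_of hV1 hσ
    have h1 := dec_valuation hσV hα
    rw [map_sub, mem_totSplit.1 hz V hV σ hσV, hσg] at h1
    by_contra hne'
    have h2 : ((g α : algebraicClosure k Ω) : Ω) - (α : Ω) ≠ 0 := by
      rw [sub_ne_zero]
      exact fun h => hne' (Subtype.ext h)
    have h3 := valuation_eq_one hk (sub_mem (g α).2 α.2) h2
    have h4 : ((g α : algebraicClosure k Ω) : Ω) - (α : Ω) = (z - α) - (z - g α) := by ring
    rw [h4] at h3
    exact absurd (Valuation.map_sub_lt _ hα h1) (by rw [h3]; exact lt_irrefl _)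
  obtain ⟨δ, hδ⟩ := const_of_fixGrp (Algebra.ofId k (algebraicClosure k Ω)) K α
    fun g _ => hfix g
  refine ⟨δ, ?_⟩
  have h5 : (α : Ω) = algebraMap k Ω δ := by
    rw [← hδ]
    rfl
  rwa [← h5]

omit iK iakK iaKO ist ial in
/-- values at most one of products -/
theorem exists_factor {V : ValuationSubring Ω} {n : ℕ} {g : Fin n → Ω}
    (h : V.valuation (∏ i, g i) < 1) : ∃ i, V.valuation (g i) < 1 := by
  by_contra hcon
  push Not at hcon
  rw [map_prod] at h
  exact absurd h (not_lt.2 (Finset.one_le_prod' fun i _ => hcon i))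

omit iK iakK iaKO ist ial in
/-- uniqueness of the root with a given residue -/
theorem eq_of_root {V : ValuationSubring Ω} (hk : ∀ c : k, algebraMap k Ω c ∈ V) {n : ℕ}
    {r : Fin n → k} (hr : Function.Injective r) {i : Fin n} {y y' : Ω}
    (hy : V.valuation (y - algebraMap k Ω (r i)) < 1)
    (hy' : V.valuation (y' - algebraMap k Ω (r i)) < 1)
    (h : ∏ j, (y - algebraMap k Ω (r j)) = ∏ j, (y' - algebraMap k Ω (r j))) : y = y' := by
  set Q : V[X] := ∏ j ∈ Finset.univ.erase i, (X - C (⟨algebraMap k Ω (r j), hk _⟩ : V)) with hQ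
  have hmem : ∀ {z : Ω}, V.valuation (z - algebraMap k Ω (r i)) < 1 → z ∈ V := by
    intro z hz
    have h1 : z = (z - algebraMap k Ω (r i)) + algebraMap k Ω (r i) := by ring
    rw [h1]
    exact add_mem ((V.valuation_le_one_iff _).1 hz.le) (hk _)
  have hev : ∀ z : V, ((Q.eval z : V) : Ω) =
      ∏ j ∈ Finset.univ.erase i, ((z : Ω) - algebraMap k Ω (r j)) := by
    intro z
    rw [hQ, eval_prod]
    have h2 := map_prod V.subtype (fun j => eval z (X - C (⟨algebraMap k Ω (r j), hk _⟩ : V)))
      (Finset.univ.erase i)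
    refine h2.trans (Finset.prod_congr rfl fun j _ => ?_)
    rw [eval_sub, eval_X, eval_C, map_sub]
    rfl
  have hprod : ∀ z : Ω, ∏ j, (z - algebraMap k Ω (r j)) = (z - algebraMap k Ω (r i)) *
      ∏ j ∈ Finset.univ.erase i, (z - algebraMap k Ω (r j)) := fun z =>
    (Finset.mul_prod_erase Finset.univ _ (Finset.mem_univ i)).symm
  have hunit : V.valuation (∏ j ∈ Finset.univ.erase i, (y - algebraMap k Ω (r j))) = 1 := by
    rw [map_prod]
    refine Finset.prod_eq_one fun j hj => ?_
    have hji : j ≠ i := (Finset.mem_erase.1 hj).1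
    have h3 : algebraMap k Ω (r i) - algebraMap k Ω (r j) ≠ 0 := by
      rw [← map_sub]
      exact (_root_.map_ne_zero _).2 (sub_ne_zero.2 fun h => hji (hr h).symm)
    have h4 : V.valuation (algebraMap k Ω (r i) - algebraMap k Ω (r j)) = 1 :=
      valuation_eq_one hk (sub_mem (algebraMap_mem (algebraicClosure k Ω) _)
        (algebraMap_mem (algebraicClosure k Ω) _)) h3
    have h5 : y - algebraMap k Ω (r j) = (algebraMap k Ω (r i) - algebraMap k Ω (r j)) +
        (y - algebraMap k Ω (r i)) := by ring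
    rw [h5, Valuation.map_add_eq_of_lt_left _ (by rw [h4]; exact hy), h4]
  obtain ⟨W, hW⟩ := sub_dvd_eval_sub (⟨y', hmem hy'⟩ : V) ⟨y, hmem hy⟩ Q
  have hW' : (∏ j ∈ Finset.univ.erase i, (y' - algebraMap k Ω (r j))) -
      ∏ j ∈ Finset.univ.erase i, (y - algebraMap k Ω (r j)) = (y' - y) * (W : Ω) := by
    have h6 := congrArg (fun z : V => (z : Ω)) hW
    have h7 : ((Q.eval (⟨y', hmem hy'⟩ : V) : V) : Ω) - ((Q.eval (⟨y, hmem hy⟩ : V) : V) : Ω) =
        (y' - y) * (W : Ω) := h6
    rwa [hev, hev] at h7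
  rw [hprod, hprod] at h
  by_contra hne
  have h8 : (∏ j ∈ Finset.univ.erase i, (y - algebraMap k Ω (r j))) =
      -((y' - algebraMap k Ω (r i)) * (W : Ω)) := by
    have h9 : (y' - y) * ((∏ j ∈ Finset.univ.erase i, (y - algebraMap k Ω (r j))) +
        (y' - algebraMap k Ω (r i)) * (W : Ω)) = 0 := by
      linear_combination (y' - algebraMap k Ω (r i)) * hW'.symm - h
    rcases mul_eq_zero.1 h9 with h10 | h10
    · exact absurd (sub_eq_zero.1 h10).symm hne
    · exact eq_neg_of_add_eq_zero_left h10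
  rw [h8, Valuation.map_neg, map_mul] at hunit
  exact absurd hunit (mul_lt_one_of_lt_of_le hy' (V.valuation_le_one W)).ne

/-- a root of a polynomial that splits at all rational places is in `totSplit` -/
theorem root_mem_totSplit {n : ℕ} {h y : Ω} (hh : h ∈ totSplit k K Ω)
    (hy : ∏ j : Fin n, (y - ((j : ℕ) : Ω)) + h = 0)
    (hsp : ∀ V : ValuationSubring Ω, IsRationalPlace k K (V.comap (algebraMap K Ω)) →
      ∃ (e : k) (r : Fin n → k), Function.Injective r ∧
        V.valuation (h - algebraMap k Ω e) < 1 ∧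
        (∏ j : Fin n, (X - C ((j : ℕ) : k)) : k[X]) + C e = ∏ j, (X - C (r j))) :
    y ∈ totSplit k K Ω := by
  refine mem_totSplit.2 fun V hV σ hσ => ?_
  obtain ⟨e, r, hr, he, hP⟩ := hsp V hV
  have hk : ∀ c : k, algebraMap k Ω c ∈ V := by
    intro c
    have h := hV.const_mem c
    rw [ValuationSubring.mem_comap, ← IsScalarTower.algebraMap_apply] at h
    exact h
  have hev : ∀ z : Ω, ∏ j : Fin n, (z - ((j : ℕ) : Ω)) + algebraMap k Ω e =
      ∏ j, (z - algebraMap k Ω (r j)) := by
    intro z
    have h1 := congrArg (aeval z) hP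
    rw [map_add, map_prod, map_prod, aeval_C] at h1
    simpa using h1
  have h1 : ∏ j, (y - algebraMap k Ω (r j)) = -(h - algebraMap k Ω e) := by
    rw [← hev]
    linear_combination hy
  have hσk : ∀ c : k, σ (algebraMap k Ω c) = algebraMap k Ω c := by
    intro c
    rw [IsScalarTower.algebraMap_apply k K Ω, σ.commutes]
  have h2 : ∏ j, (σ y - algebraMap k Ω (r j)) = -(h - algebraMap k Ω e) := by
    have h3 := congrArg σ h1
    rw [map_prod, map_neg, map_sub, hσk, mem_totSplit.1 hh V hV σ hσ] at h3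
    rw [← h3]
    refine Finset.prod_congr rfl fun j _ => ?_
    rw [map_sub, hσk]
  obtain ⟨i, hi⟩ := exists_factor (V := V) (g := fun j => y - algebraMap k Ω (r j))
    (by rw [h1, Valuation.map_neg]; exact he)
  have hi' : V.valuation (σ y - algebraMap k Ω (r i)) < 1 := by
    have h4 := dec_valuation hσ hi
    rwa [map_sub, hσk] at h4
  exact (eq_of_root hk hr hi hi' (h1.trans h2.symm)).symm

/-- the value groups are archimedean -/
theorem exists_pow_ge (htr : Algebra.trdeg k K = 1) {B : ValuationSubring Ω}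
    (hB : ∀ c : k, algebraMap k Ω c ∈ B) {h x : Ω} (hh : 1 < B.valuation h) :
    ∃ m : ℕ, B.valuation x ≤ B.valuation h ^ m := by
  by_contra hcon
  push Not at hcon
  let S : Subring Ω :=
    { carrier := {z | ∃ m : ℕ, B.valuation z ≤ B.valuation h ^ m}
      mul_mem' := by
        rintro a b ⟨m, hm⟩ ⟨n, hn⟩
        refine ⟨m + n, ?_⟩
        rw [map_mul, pow_add]
        exact mul_le_mul' hm hn
      one_mem' := ⟨0, by rw [map_one, pow_zero]⟩
      add_mem' := by
        rintro a b ⟨m, hm⟩ ⟨n, hn⟩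
        refine ⟨m + n, (Valuation.map_add _ _ _).trans (max_le (hm.trans ?_) (hn.trans ?_))⟩
        · exact pow_le_pow_right₀ hh.le (by omega)
        · exact pow_le_pow_right₀ hh.le (by omega)
      zero_mem' := ⟨0, by rw [map_zero]; exact zero_le⟩
      neg_mem' := by
        rintro a ⟨m, hm⟩
        exact ⟨m, by rw [Valuation.map_neg]; exact hm⟩ }
  have hBS : B.toSubring ≤ S := fun z hz => ⟨0, by
    rw [pow_zero]
    exact (B.valuation_le_one_iff z).2 hz⟩
  let B' : ValuationSubring Ω := ValuationSubring.ofLE B S hBS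
  have hmem : ∀ z, z ∈ B' ↔ ∃ m : ℕ, B.valuation z ≤ B.valuation h ^ m := fun z => Iff.rfl
  have hne : B' ≠ ⊤ := by
    intro htop
    have h1 : x ∈ B' := by rw [htop]; exact ValuationSubring.mem_top x
    obtain ⟨m, hm⟩ := (hmem x).1 h1
    exact absurd hm (not_le.2 (hcon m))
  obtain ⟨α, hα⟩ := stRes stDep k K Ω ik iK iO iakK iakO iaKO ist ial htr B'
    (fun c => hBS (hB c)) hne h ((hmem h).2 ⟨1, by rw [pow_one]⟩)
  have h2 : h - (α : Ω) ∈ B := by
    rw [valuation_lt_one_iff_mem] at hα
    rcases hα with h3 | h3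
    · rw [h3]; exact B.zero_mem
    · rcases B.mem_or_inv_mem (h - (α : Ω)) with h4 | h4
      · exact h4
      · exact absurd (hBS h4) h3
  have h3 : h ∈ B := by
    have h4 := add_mem h2 (mem_of_algebraic hB α.2)
    rwa [sub_add_cancel] at h4
  exact absurd ((B.valuation_le_one_iff h).2 h3) (not_le.2 hh)

end

end TotAux

end Pool.Agent.Lib.MP_c385f6_ag.Semi
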