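import Mathlib
import Pool.Agent.Lib.MP_c385f6_ag.Semi.Tot
import Pool.Agent.Lib.MP_c385f6_ag.Semi.Div

set_option autoImplicit false

/-!
The value groups of `totSplit` are divisible.
-/

namespace Pool.Agent.Lib.MP_c385f6_ag.Semi

open Pool.Agent.Lib.MP_c385f6_ag.Cpl Polynomial TotAux

universe u v w

section
variable {k : Type u} {K : Type v} {Ω : Type w} [ik : Field k] [ic : CharZero k] [iK : Field K]
  [iO : Field Ω] [iakK : Algebra k K] [iakO : Algebra k Ω] [iaKO : Algebra K Ω]
  [ist : IsScalarTower k K Ω] [ial : IsAlgClosure K Ω]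

namespace TotAux

omit iK iakK iaKO ist ial in
/-- residues of `(f a)⁻¹` and `a ^ i * (f a)⁻¹` -/
theorem residue_frac {V : ValuationSubring Ω} (hk : ∀ c : k, algebraMap k Ω c ∈ V) {f : k[X]}
    (hf : f.natDegree ≠ 0) (h0 : ∀ c : k, f.eval c ≠ 0) {i : ℕ} (hi : i < f.natDegree) {a : Ω}
    (ha : a ∈ V → ∃ c : k, V.valuation (a - algebraMap k Ω c) < 1) :
    ∃ s : k, (s = 0 ∨ ∃ c, s = c ^ i * (f.eval c)⁻¹) ∧
      V.valuation (a ^ i * (aeval a f)⁻¹ - algebraMap k Ω s) < 1 := by
  have hf0 : f ≠ 0 := by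
    rintro rfl
    simp at hf
  by_cases haV : a ∈ V
  · obtain ⟨c, hc⟩ := ha haV
    refine ⟨_, Or.inr ⟨c, rfl⟩, ?_⟩
    -- `f a` is near `f c`
    let φ : k →+* V := (algebraMap k Ω).codRestrict V hk
    let a' : V := ⟨a, haV⟩
    have h1 : ∀ g : k[X], (((g.map φ).eval a' : V) : Ω) = aeval a g := by
      intro g
      rw [eval_map]
      show V.subtype (eval₂ φ a' g) = _
      rw [hom_eval₂]
      rfl
    have h2 : ∀ g : k[X], V.valuation (aeval a g - algebraMap k Ω (g.eval c)) < 1 := by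
      intro g
      obtain ⟨q, hq⟩ := sub_dvd_eval_sub a' (φ c) (g.map φ)
      have h3 : (((g.map φ).eval (φ c) : V) : Ω) = algebraMap k Ω (g.eval c) := by
        rw [eval_map, eval₂_at_apply]
        rfl
      have h4 : aeval a g - algebraMap k Ω (g.eval c) = (a - algebraMap k Ω c) * (q : Ω) := by
        rw [← h1, ← h3]
        exact congrArg (fun z : V => (z : Ω)) hq
      rw [h4, map_mul]
      exact mul_lt_one_of_lt_of_le hc (V.valuation_le_one q)
    have hfc : V.valuation (algebraMap k Ω (f.eval c)) = 1 :=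
      valuation_eq_one hk (algebraMap_mem (algebraicClosure k Ω) _)
        ((_root_.map_ne_zero _).2 (h0 c))
    have hfa : V.valuation (aeval a f) = 1 := by
      have h5 : aeval a f = algebraMap k Ω (f.eval c) +
          (aeval a f - algebraMap k Ω (f.eval c)) := by ring
      rw [h5, Valuation.map_add_eq_of_lt_left _ (by rw [hfc]; exact h2 f), hfc]
    have hfa0 : aeval a f ≠ 0 := by
      intro h
      rw [h, map_zero] at hfa
      exact zero_ne_one hfa
    have hfc0 : algebraMap k Ω (f.eval c) ≠ 0 := (_root_.map_ne_zero _).2 (h0 c)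
    have h6 : a ^ i * (aeval a f)⁻¹ - algebraMap k Ω (c ^ i * (f.eval c)⁻¹) =
        ((aeval a (X ^ i : k[X]) - algebraMap k Ω ((X ^ i : k[X]).eval c)) *
            algebraMap k Ω (f.eval c) -
          algebraMap k Ω ((X ^ i : k[X]).eval c) * (aeval a f - algebraMap k Ω (f.eval c))) /
          (aeval a f * algebraMap k Ω (f.eval c)) := by
      rw [eq_div_iff (mul_ne_zero hfa0 hfc0)]
      simp only [map_pow, aeval_X, eval_pow, eval_X, map_mul, map_inv₀]
      field_simp
      ring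
    rw [h6, map_div₀, map_mul V.valuation (aeval a f), hfa, hfc, one_mul, div_one]
    have h7 : V.valuation (algebraMap k Ω ((X ^ i : k[X]).eval c)) ≤ 1 :=
      (V.valuation_le_one_iff _).2 (hk _)
    refine Valuation.map_sub_lt _ ?_ ?_
    · rw [map_mul, hfc, mul_one]
      exact h2 _
    · rw [map_mul, mul_comm]
      exact mul_lt_one_of_lt_of_le (h2 f) h7
  · refine ⟨0, Or.inl rfl, ?_⟩
    have hva : 1 < V.valuation a := by
      rw [← not_le, V.valuation_le_one_iff]
      exact haV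
    have hva0 : V.valuation a ≠ 0 := (zero_lt_one.trans hva).ne'
    rw [map_zero, sub_zero, map_mul, map_inv₀, map_pow, val_aeval hk hf0 hva,
      ← div_eq_mul_inv, div_lt_one₀ (pow_pos (zero_lt_iff.2 hva0) _)]
    exact pow_lt_pow_right₀ hva hi

end TotAux

/-- the value groups of `totSplit` are divisible -/
theorem valuesDivisible_totSplit (p : ℕ) [hp : Fact p.Prime] [iA : Algebra ℚ_[p] k]
    [iD : FiniteDimensional ℚ_[p] k] (htr : Algebra.trdeg k K = 1) {f : k[X]}
    (hf : f.natDegree ≠ 0) (h0 : ∀ c : k, f.eval c ≠ 0) :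
    ValuesDivisible (totSplit k K Ω) p f := by
  have hac : IsAlgClosed Ω := IsAlgClosure.isAlgClosed K
  have hf0 : f ≠ 0 := by
    rintro rfl
    simp at hf
  intro A hA hno x
  obtain ⟨B, hB1, hB2⟩ := exists_above (Ω := Ω) A
  have hkB : ∀ c : k, algebraMap k Ω c ∈ B := fun c => hB1 _ (hA c)
  -- comparison of the two valuations
  have hcmp : ∀ a b : totSplit k K Ω, B.valuation (a : Ω) ≤ B.valuation (b : Ω) →
      A.valuation a ≤ A.valuation b := by
    intro a b hab
    by_contra hcon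
    rw [not_le] at hcon
    have ha : a ≠ 0 := by
      rintro rfl
      rw [map_zero] at hcon
      exact absurd hcon (not_lt.2 zero_le)
    have ha' : A.valuation a ≠ 0 := (Valuation.ne_zero_iff _).2 ha
    have h1 : A.valuation (b / a) < 1 := by
      rw [map_div₀, div_lt_one₀ (zero_lt_iff.2 ha')]
      exact hcon
    have h2 := hB2 _ ((A.valuation_le_one_iff _).1 h1.le) h1
    have h3 : B.valuation (a : Ω) ≠ 0 :=
      (Valuation.ne_zero_iff _).2 (fun h => ha (Subtype.ext h))
    have h4 : algebraMap (totSplit k K Ω) Ω (b / a) = (b : Ω) / (a : Ω) := map_div₀ _ _ _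
    rw [h4, map_div₀, div_lt_one₀ (zero_lt_iff.2 h3)] at h2
    exact absurd hab (not_le.2 h2)
  suffices h : ∃ y : totSplit k K Ω, B.valuation ((y : Ω) ^ p) = B.valuation (x : Ω) by
    obtain ⟨y, hy⟩ := h
    exact ⟨y, le_antisymm (hcmp _ _ hy.le) (hcmp _ _ hy.ge)⟩
  by_cases hex : ∃ V : ValuationSubring Ω, IsRationalPlace k K (V.comap (algebraMap K Ω))
  swap
  · obtain ⟨y, hy⟩ := IsAlgClosed.exists_pow_nat_eq (x : Ω) hp.out.pos
    exact ⟨⟨y, mem_totSplit.2 fun V hV => absurd ⟨V, hV⟩ hex⟩, by rw [hy]⟩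
  obtain ⟨V₀, hV₀⟩ := hex
  have hkV : ∀ V : ValuationSubring Ω, IsRationalPlace k K (V.comap (algebraMap K Ω)) →
      ∀ c : k, algebraMap k Ω c ∈ V := by
    intro V hV c
    have h := hV.const_mem c
    rw [ValuationSubring.mem_comap, ← IsScalarTower.algebraMap_apply] at h
    exact h
  -- the element `a`
  obtain ⟨a, haA, hfa⟩ : ∃ a ∈ A, A.valuation (aeval a f) < 1 := by
    unfold NoRoot at hno
    push Not at hno
    exact hno
  have haf : ((aeval a f : totSplit k K Ω) : Ω) = aeval (a : Ω) f := by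
    have h1 := (aeval_algHom_apply ((totSplit k K Ω).val.restrictScalars k) a f).symm
    exact h1
  have hfaB : B.valuation (aeval (a : Ω) f) < 1 := by
    rw [← haf]
    exact hB2 _ ((A.valuation_le_one_iff _).1 hfa.le) hfa
  have hfa0 : aeval (a : Ω) f ≠ 0 := by
    intro h
    have h1 : (a : Ω) ∈ algebraicClosure k Ω := mem_algebraicClosure_iff.2 ⟨f, hf0, h⟩
    obtain ⟨c, hc⟩ := exists_const_totSplit htr hV₀ a.2 (mem_of_algebraic (hkV V₀ hV₀) h1)
    have h2 : (a : Ω) - algebraMap k Ω c = 0 := by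
      by_contra h3
      rw [valuation_eq_one (hkV V₀ hV₀)
        (sub_mem h1 (algebraMap_mem (algebraicClosure k Ω) c)) h3] at hc
      exact lt_irrefl _ hc
    rw [sub_eq_zero.1 h2, aeval_algebraMap_apply, _root_.map_eq_zero] at h
    rw [coe_aeval_eq_eval] at h
    exact h0 c h
  -- large elements
  have key : ∀ x : totSplit k K Ω, 1 < B.valuation (x : Ω) →
      ∃ y : totSplit k K Ω, B.valuation ((y : Ω) ^ p) = B.valuation (x : Ω) := by
    intro x hx
    have hx0 : B.valuation (x : Ω) ≠ 0 := (zero_lt_one.trans hx).ne'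
    set s₀ : Ω := (aeval (a : Ω) f)⁻¹ with hs₀
    set t₀ : Ω := (x : Ω) ^ (f.natDegree - 1) * (aeval (x : Ω) f)⁻¹ with ht₀
    have hfaB0 : B.valuation (aeval (a : Ω) f) ≠ 0 := (Valuation.ne_zero_iff _).2 hfa0
    have hs₀1 : 1 < B.valuation s₀ := by
      rw [hs₀, map_inv₀, one_lt_inv₀ (zero_lt_iff.2 hfaB0)]
      exact hfaB
    have hfx : B.valuation (aeval (x : Ω) f) = B.valuation (x : Ω) ^ f.natDegree :=
      val_aeval hkB hf0 hx
    have ht₀1 : B.valuation t₀ = (B.valuation (x : Ω))⁻¹ := by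
      rw [ht₀, map_mul, map_inv₀, map_pow, hfx]
      have h1 : B.valuation (x : Ω) ^ f.natDegree =
          B.valuation (x : Ω) ^ (f.natDegree - 1) * B.valuation (x : Ω) := by
        rw [← pow_succ]
        congr 1
        omega
      rw [h1, mul_inv, ← mul_assoc, mul_inv_cancel₀ (pow_ne_zero _ hx0), one_mul]
    obtain ⟨m, hm⟩ := exists_pow_ge htr hkB (x := (x : Ω)) hs₀1
    set M : ℕ := p * (m + 1) with hM
    obtain ⟨l, hl0, hl⟩ := exists_lambda p k f hf h0 M
    set h : Ω := algebraMap k Ω l * (s₀ ^ M * t₀) with hh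
    have hlB : B.valuation (algebraMap k Ω l) = 1 :=
      valuation_eq_one hkB (algebraMap_mem (algebraicClosure k Ω) l) ((_root_.map_ne_zero _).2 hl0)
    have hs₀0 : B.valuation s₀ ≠ 0 := (zero_lt_one.trans hs₀1).ne'
    have hhB : B.valuation h = (B.valuation s₀ ^ (m + 1)) ^ p * (B.valuation (x : Ω))⁻¹ := by
      rw [hh, map_mul, map_mul, map_pow, hlB, one_mul, ht₀1, hM, mul_comm p, pow_mul]
    have hh1 : 1 < B.valuation h := by
      rw [hhB, ← div_eq_mul_inv, one_lt_div₀ (zero_lt_iff.2 hx0)]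
      have h1 : 1 < B.valuation s₀ ^ (m + 1) := one_lt_pow₀ hs₀1 (by omega)
      calc B.valuation (x : Ω) ≤ B.valuation s₀ ^ m := hm
        _ < B.valuation s₀ ^ (m + 1) := pow_lt_pow_right₀ hs₀1 (by omega)
        _ ≤ (B.valuation s₀ ^ (m + 1)) ^ p := le_self_pow₀ h1.le hp.out.ne_zero
    have hkE : ∀ c : k, algebraMap k Ω c ∈ totSplit k K Ω := by
      intro c
      rw [IsScalarTower.algebraMap_apply k K Ω]
      exact (totSplit k K Ω).algebraMap_mem _
    have hfE : ∀ z ∈ totSplit k K Ω, aeval z f ∈ totSplit k K Ω := by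
      intro z hz
      rw [aeval_eq_sum_range]
      refine sum_mem fun i _ => ?_
      rw [Algebra.smul_def]
      exact mul_mem (hkE _) (pow_mem hz i)
    have hhE : h ∈ totSplit k K Ω :=
      mul_mem (hkE l) (mul_mem (pow_mem (inv_mem (hfE _ a.2)) M)
        (mul_mem (pow_mem x.2 _) (inv_mem (hfE _ x.2))))
    -- the root
    obtain ⟨y, hy⟩ : ∃ y : Ω, ∏ j : Fin p, (y - ((j : ℕ) : Ω)) + h = 0 := by
      have hdeg : (∏ j : Fin p, (X - C ((j : ℕ) : Ω)) : Polynomial Ω).degree = (p : ℕ) := by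
        rw [degree_prod]
        simp only [degree_X_sub_C, Finset.sum_const, Finset.card_univ, Fintype.card_fin,
          nsmul_one]
      have hlt : (C h : Polynomial Ω).degree < (∏ j : Fin p, (X - C ((j : ℕ) : Ω)) : Polynomial Ω).degree := by
        rw [hdeg]
        exact lt_of_le_of_lt degree_C_le (by exact_mod_cast hp.out.pos)
      obtain ⟨y, hy⟩ := IsAlgClosed.exists_root
        ((∏ j : Fin p, (X - C ((j : ℕ) : Ω)) : Polynomial Ω) + C h) (by
          rw [degree_add_eq_left_of_degree_lt hlt, hdeg]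
          exact_mod_cast hp.out.ne_zero)
      refine ⟨y, ?_⟩
      rw [IsRoot.def, eval_add, eval_C, eval_prod] at hy
      simpa using hy
    have hyE : y ∈ totSplit k K Ω := by
      refine root_mem_totSplit hhE hy fun V hV => ?_
      obtain ⟨s, hs, hsV⟩ := residue_frac (hkV V hV) hf h0 (i := 0) (by omega) (a := (a : Ω))
        fun haV => exists_const_totSplit htr hV a.2 haV
      obtain ⟨t, ht, htV⟩ := residue_frac (hkV V hV) hf h0 (i := f.natDegree - 1) (by omega)
        (a := (x : Ω)) fun hxV => exists_const_totSplit htr hV x.2 hxV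
      rw [pow_zero, one_mul, ← hs₀] at hsV
      rw [← ht₀] at htV
      obtain ⟨r, hr, hP⟩ := hl s t (hs.imp id fun ⟨c, hc⟩ => ⟨c, by rw [hc, pow_zero, one_mul]⟩) ht
      refine ⟨l * (s ^ M * t), r, hr, ?_, hP⟩
      have hsV' : s₀ ∈ V := by
        have h1 := add_mem ((V.valuation_le_one_iff _).1 hsV.le) (hkV V hV s)
        rwa [sub_add_cancel] at h1
      have hpow : ∀ n : ℕ, V.valuation (s₀ ^ n - algebraMap k Ω s ^ n) < 1 := by
        intro n
        have h1 := sub_dvd_pow_sub_pow (⟨s₀, hsV'⟩ : V) ⟨algebraMap k Ω s, hkV V hV s⟩ n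
        obtain ⟨q, hq⟩ := h1
        have h2 : s₀ ^ n - algebraMap k Ω s ^ n = (s₀ - algebraMap k Ω s) * (q : Ω) :=
          congrArg (fun z : V => (z : Ω)) hq
        rw [h2, map_mul]
        exact mul_lt_one_of_lt_of_le hsV (V.valuation_le_one q)
      have h3 : h - algebraMap k Ω (l * (s ^ M * t)) = algebraMap k Ω l *
          (s₀ ^ M * (t₀ - algebraMap k Ω t) +
            algebraMap k Ω t * (s₀ ^ M - algebraMap k Ω s ^ M)) := by
        rw [hh]
        simp only [map_mul, map_pow]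
        ring
      rw [h3, map_mul, mul_comm]
      refine mul_lt_one_of_lt_of_le ?_ ((V.valuation_le_one_iff _).2 (hkV V hV l))
      refine Valuation.map_add_lt _ ?_ ?_
      · rw [map_mul, mul_comm]
        exact mul_lt_one_of_lt_of_le htV ((V.valuation_le_one_iff _).2 (pow_mem hsV' M))
      · rw [map_mul, mul_comm]
        exact mul_lt_one_of_lt_of_le (hpow M) ((V.valuation_le_one_iff _).2 (hkV V hV t))
    -- the valuation of the root
    have hcB : ∀ j : ℕ, ((j : ℕ) : Ω) ∈ B := fun j => by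
      have h1 := hkB (j : k)
      rwa [map_natCast] at h1
    have hyB : 1 < B.valuation y := by
      rw [← not_le, B.valuation_le_one_iff]
      intro hyB
      have h1 : ∏ j : Fin p, (y - ((j : ℕ) : Ω)) ∈ B :=
        prod_mem fun j _ => sub_mem hyB (hcB j)
      have h2 : h = -(∏ j : Fin p, (y - ((j : ℕ) : Ω))) := by linear_combination hy
      have h3 : h ∈ B := by
        rw [h2]
        exact neg_mem h1
      exact absurd ((B.valuation_le_one_iff _).2 h3) (not_le.2 hh1)
    have hyp : B.valuation y ^ p = B.valuation h := by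
      have h2 : h = -(∏ j : Fin p, (y - ((j : ℕ) : Ω))) := by linear_combination hy
      rw [h2, Valuation.map_neg, map_prod]
      have h3 : ∀ j : Fin p, B.valuation (y - ((j : ℕ) : Ω)) = B.valuation y := fun j =>
        val_sub_of_lt (lt_of_le_of_lt ((B.valuation_le_one_iff _).2 (hcB (j : ℕ))) hyB)
      simp only [h3, Finset.prod_const, Finset.card_univ, Fintype.card_fin]
    have hy0 : B.valuation y ≠ 0 := (zero_lt_one.trans hyB).ne'
    refine ⟨⟨s₀ ^ (m + 1) / y, div_mem (pow_mem (inv_mem (hfE _ a.2)) _) hyE⟩, ?_⟩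
    show B.valuation ((s₀ ^ (m + 1) / y) ^ p) = B.valuation (x : Ω)
    rw [map_pow, map_div₀, div_pow, hyp, hhB, map_pow, div_eq_iff]
    · rw [mul_comm (B.valuation (x : Ω)), mul_assoc, inv_mul_cancel₀ hx0, mul_one]
    · exact mul_ne_zero (pow_ne_zero _ (pow_ne_zero _ hs₀0)) (inv_ne_zero hx0)
  rcases eq_or_ne x 0 with rfl | hx0
  · refine ⟨0, ?_⟩
    rw [ZeroMemClass.coe_zero, zero_pow hp.out.ne_zero]
  have hxΩ : B.valuation (x : Ω) ≠ 0 :=
    (Valuation.ne_zero_iff _).2 fun h => hx0 (Subtype.ext h)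
  rcases lt_trichotomy (B.valuation (x : Ω)) 1 with hlt | heq | hgt
  · obtain ⟨y, hy⟩ := key x⁻¹ (by
      rw [IntermediateField.coe_inv, map_inv₀, one_lt_inv₀ (zero_lt_iff.2 hxΩ)]
      exact hlt)
    refine ⟨y⁻¹, ?_⟩
    rw [IntermediateField.coe_inv, map_inv₀] at hy
    rw [IntermediateField.coe_inv, inv_pow, map_inv₀, hy, inv_inv]
  · exact ⟨1, by rw [heq]; simp⟩
  · exact key x hgt

end

end Pool.Agent.Lib.MP_c385f6_ag.Semi
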