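import Mathlib
import Pool.Agent.Lib.MP_c385f6_ag.Semi.Final
import Pool.Agent.Lib.MP_c385f6_ag.Semi.TotDiv

set_option autoImplicit false

/-!
The section conjecture for the maximal extension in which the rational places split completely.
-/

namespace Pool.Agent.Lib.MP_c385f6_ag.Semi

open Pool.Agent.Lib.MP_c385f6_ag.Cpl Polynomial TotAux

universe u v w

section
variable {k : Type u} {K : Type v} {Ω : Type w} [ik : Field k] [ic : CharZero k] [iK : Field K]
  [iO : Field Ω] [iakK : Algebra k K] [iakO : Algebra k Ω] [iaKO : Algebra K Ω]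
  [ist : IsScalarTower k K Ω] [ial : IsAlgClosure K Ω]

omit ic ial in
theorem tower_totSplit : IsScalarTower k (totSplit k K Ω) Ω :=
  IsScalarTower.of_algebraMap_eq fun _ => rfl

/-- the rational places of `totSplit` are the places above rational places -/
theorem rational_totSplit_iff (htr : Algebra.trdeg k K = 1)
    (A : ValuationSubring (totSplit k K Ω)) :
    IsRationalPlace k (totSplit k K Ω) A ↔
      IsRationalPlace k K (A.comap (algebraMap K (totSplit k K Ω))) := by
  have htow : IsScalarTower k (totSplit k K Ω) Ω := tower_totSplit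
  have hval : ∀ (a b : K), A.valuation (algebraMap K (totSplit k K Ω) a) <
      A.valuation (algebraMap K (totSplit k K Ω) b) ↔
      (A.comap (algebraMap K (totSplit k K Ω))).valuation a <
        (A.comap (algebraMap K (totSplit k K Ω))).valuation b := by
    have h1 : ∀ (a b : K), (A.comap (algebraMap K (totSplit k K Ω))).valuation a ≤
        (A.comap (algebraMap K (totSplit k K Ω))).valuation b ↔
        A.valuation (algebraMap K (totSplit k K Ω) a) ≤
        A.valuation (algebraMap K (totSplit k K Ω) b) := by
      intro a b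
      rcases eq_or_ne b 0 with rfl | hb
      · rw [map_zero, map_zero, map_zero, nonpos_iff_eq_zero, nonpos_iff_eq_zero,
          Valuation.zero_iff, Valuation.zero_iff, _root_.map_eq_zero]
      have hb1 : (A.comap (algebraMap K (totSplit k K Ω))).valuation b ≠ 0 :=
        (Valuation.ne_zero_iff _).2 hb
      have hb2 : A.valuation (algebraMap K (totSplit k K Ω) b) ≠ 0 :=
        (Valuation.ne_zero_iff _).2 ((_root_.map_ne_zero _).2 hb)
      rw [← div_le_one₀ (zero_lt_iff.2 hb1), ← div_le_one₀ (zero_lt_iff.2 hb2), ← map_div₀,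
        ← map_div₀, ← map_div₀, ValuationSubring.valuation_le_one_iff,
        ValuationSubring.valuation_le_one_iff, ValuationSubring.mem_comap]
    intro a b
    rw [← not_le, ← not_le, h1]
  have hval1 : ∀ a : K, A.valuation (algebraMap K (totSplit k K Ω) a) < 1 ↔
      (A.comap (algebraMap K (totSplit k K Ω))).valuation a < 1 := by
    intro a
    have := hval a 1
    rwa [map_one, map_one, map_one] at this
  constructor
  · intro h
    refine ⟨?_, ?_, ?_⟩
    · intro htop
      apply h.ne_top
      rw [eq_top_iff]
      intro z _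
      have hint : IsIntegral K z := by
        have h1 : IsAlgebraic K (z : Ω) :=
          (IsAlgClosure.isAlgebraic (R := K) (K := Ω)).isAlgebraic (z : Ω)
        have h2 : IsIntegral K (z : Ω) := h1.isIntegral
        exact (isIntegral_algebraMap_iff (algebraMap (totSplit k K Ω) Ω).injective).1 h2
      let φ : K →+* A := (algebraMap K (totSplit k K Ω)).codRestrict A fun a => by
        have h3 : a ∈ A.comap (algebraMap K (totSplit k K Ω)) := by
          rw [htop]; exact ValuationSubring.mem_top a
        exact h3
      have hint' : IsIntegral A z := by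
        obtain ⟨q, hq, hqz⟩ := hint
        refine ⟨q.map φ, hq.map φ, ?_⟩
        rw [eval₂_map]
        exact hqz
      obtain ⟨y, hy⟩ := (IsIntegrallyClosed.isIntegral_iff (R := A)
        (K := totSplit k K Ω)).1 hint'
      rw [← hy]
      exact y.2
    · intro c
      rw [ValuationSubring.mem_comap, ← IsScalarTower.algebraMap_apply]
      exact h.const_mem c
    · intro z hz
      obtain ⟨c, hc⟩ := h.residue _ hz
      refine ⟨c, ?_⟩
      rw [← hval1, map_sub, ← IsScalarTower.algebraMap_apply]
      exact hc
  · intro h
    obtain ⟨B, hB1, hB2⟩ := exists_above (Ω := Ω) A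
    have hBA : B.comap (algebraMap (totSplit k K Ω) Ω) = A := SctAux.comap_eq hB1 hB2
    have hBK : B.comap (algebraMap K Ω) = A.comap (algebraMap K (totSplit k K Ω)) := by
      rw [← hBA]
      rfl
    have hconst : ∀ c : k, algebraMap k (totSplit k K Ω) c ∈ A := by
      intro c
      have := h.const_mem c
      rwa [ValuationSubring.mem_comap, ← IsScalarTower.algebraMap_apply] at this
    refine ⟨?_, hconst, ?_⟩
    · rintro rfl
      exact h.ne_top (by ext x; simp [ValuationSubring.mem_comap])
    · intro z hz
      obtain ⟨c, hc⟩ := exists_const_totSplit htr (V := B) (by rw [hBK]; exact h) z.2 (hB1 z hz)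
      refine ⟨c, ?_⟩
      by_contra hcon
      rw [not_lt] at hcon
      have h3 : z - algebraMap k (totSplit k K Ω) c ≠ 0 := by
        intro h0
        rw [h0, map_zero] at hcon
        exact absurd hcon (not_le.2 zero_lt_one)
      have h4 : (z - algebraMap k (totSplit k K Ω) c)⁻¹ ∈ A := by
        rw [← A.valuation_le_one_iff, map_inv₀]
        exact inv_le_one_of_one_le₀ hcon
      have h5 := hB1 _ h4
      have h6 : algebraMap (totSplit k K Ω) Ω (z - algebraMap k (totSplit k K Ω) c)⁻¹ =
          ((z : Ω) - algebraMap k Ω c)⁻¹ := by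
        rw [map_inv₀, map_sub, ← IsScalarTower.algebraMap_apply]
        rfl
      rw [h6, ← B.valuation_le_one_iff, map_inv₀] at h5
      have h7 : B.valuation ((z : Ω) - algebraMap k Ω c) ≠ 0 := by
        intro h0
        rw [Valuation.zero_iff, sub_eq_zero] at h0
        exact h3 (sub_eq_zero.2 (Subtype.ext h0))
      rw [inv_le_one₀ (zero_lt_iff.2 h7)] at h5
      exact absurd hc (not_lt.2 h5)

/-- the section conjecture for the maximal extension in which the rational places split -/
theorem sectionConjecture_totSplit (p : ℕ) [hp : Fact p.Prime] [iA : Algebra ℚ_[p] k]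
    [iD : FiniteDimensional ℚ_[p] k] (htr : Algebra.trdeg k K = 1) {f : k[X]}
    (hf : f.natDegree ≠ 0) (h0 : ∀ c : k, f.eval c ≠ 0) :
    SectionConjecture k (totSplit k K Ω) Ω (maxUnramified k (totSplit k K Ω) Ω) ∧
      SectionConjecture k (totSplit k K Ω) Ω
        (maxProP k (totSplit k K Ω) Ω p (maxUnramified k (totSplit k K Ω) Ω)) := by
  have hac : IsAlgClosed Ω := IsAlgClosure.isAlgClosed K
  have halg : Algebra.IsAlgebraic K Ω := IsAlgClosure.isAlgebraic
  have htow : IsScalarTower k (totSplit k K Ω) Ω := tower_totSplit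
  have halg' : Algebra.IsAlgebraic (totSplit k K Ω) Ω := Algebra.IsAlgebraic.tower_top (K := K) _
  have hcl : IsAlgClosure (totSplit k K Ω) Ω := ⟨hac, halg'⟩
  have halg2 : Algebra.IsAlgebraic K (totSplit k K Ω) := Algebra.IsAlgebraic.tower_bot _ _ Ω
  have htr' : Algebra.trdeg k (totSplit k K Ω) = 1 := by
    have h1 := lift_trdeg_add_eq k K (totSplit k K Ω)
    rw [htr, trdeg_eq_zero (R := K) (A := totSplit k K Ω), Cardinal.lift_one,
      Cardinal.lift_zero, add_zero] at h1
    exact Cardinal.lift_eq_one.mp h1.symm
  have hR : RootClosed p f (maxUnramified k (totSplit k K Ω) Ω) :=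
    rootClosed_maxUnramified hp.out (valuesDivisible_totSplit p htr hf h0)
  exact ⟨sectionConjecture p mods htr' f hf h0 hR,
    sectionConjecture p mods htr' f hf h0 (hR.maxProP hp.out.ne_zero)⟩

end

end Pool.Agent.Lib.MP_c385f6_ag.Semi
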