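import Mathlib
import Pool.Agent.Lib.MP_c385f6_ag.Cpl.Chord
import Pool.Agent.Lib.MP_c385f6_ag.Cpl.Sym
import Pool.Agent.Lib.MP_c385f6_ag.Semi.Stmts

set_option autoImplicit false

/-!
Finite nets in the projective line of a local field.
-/

namespace Pool.Agent.Lib.MP_c385f6_ag.Semi

open Pool.Agent.Lib.MP_c385f6_ag.Cpl

namespace FnAux

variable {p : ℕ} {L F : Type} [Field L] [Field F] (S : LF p L F)

/-- Finite nets in the ring of integers. -/
theorem exists_int (m : ℕ) : ∃ R : Set L, R.Finite ∧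
    ∀ x, 0 ≤ S.v x → ∃ r ∈ R, 0 ≤ S.v r ∧ (x = r ∨ (m : ℤ) ≤ S.v (x - r)) := by
  induction m with
  | zero =>
    refine ⟨{0}, Set.finite_singleton 0, fun x hx => ⟨0, rfl, S.v_zero.ge, Or.inr ?_⟩⟩
    rw [sub_zero]
    exact_mod_cast hx
  | succ m ih =>
    obtain ⟨R, hR, h⟩ := ih
    choose g hg hg' using S.res_surj
    have := S.finF
    refine ⟨Set.image2 (fun r t => r + S.π ^ m * t) R (Set.range g),
      hR.image2 _ (Set.finite_range g), fun x hx => ?_⟩
    obtain ⟨r, hr, hr0, hxr⟩ := h x hx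
    have hpi : S.π ^ m ≠ 0 := pow_ne_zero m S.pi_ne
    have hvpi : S.v (S.π ^ m) = m := by
      rw [SymAux.v_pow S _ S.pi_ne, S.v_pi, mul_one]
    obtain ⟨y, hy⟩ : ∃ y, y = (x - r) / S.π ^ m := ⟨_, rfl⟩
    have hxy : x = r + S.π ^ m * y := by
      rw [hy, mul_div_cancel₀ _ hpi]
      ring
    have hy0 : 0 ≤ S.v y := by
      by_cases h0 : x - r = 0
      · rw [hy, h0, zero_div, S.v_zero]
      · rcases hxr with h1 | h1
        · exact absurd (sub_eq_zero.2 h1) h0
        · rw [hy, ChordAux.v_div S h0 hpi, hvpi]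
          omega
    have ht0 := hg (S.res y)
    have htr := hg' (S.res y)
    obtain ⟨t, ht⟩ : ∃ t, t = g (S.res y) := ⟨_, rfl⟩
    rw [← ht] at ht0 htr
    have hyt : 0 ≤ S.v (y - t) := by
      rw [sub_eq_add_neg]
      exact SymAux.int_add S hy0 (by rw [ChordAux.v_neg]; exact ht0)
    have hres : S.res (y - t) = 0 := by
      have h2 := S.res_add (y - t) t hyt ht0
      rw [sub_add_cancel, htr] at h2
      exact (right_eq_add.1 h2)
    have hint : 0 ≤ S.v (S.π ^ m * t) :=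
      SymAux.int_mul S (by rw [hvpi]; positivity) ht0
    refine ⟨r + S.π ^ m * t, ⟨r, hr, t, ⟨S.res y, ht.symm⟩, rfl⟩, SymAux.int_add S hr0 hint, ?_⟩
    rcases (S.res_zero _ hyt).1 hres with h3 | h3
    · left
      rw [hxy, sub_eq_zero.1 h3]
    · by_cases h4 : y - t = 0
      · left
        rw [hxy, sub_eq_zero.1 h4]
      · right
        have h5 : x - (r + S.π ^ m * t) = S.π ^ m * (y - t) := by
          rw [hxy]
          ring
        rw [h5, S.v_mul _ _ hpi h4, hvpi]
        push_cast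
        omega

end FnAux

open FnAux

theorem stFN : StFN := by
  intro p _ L F _ _ S m
  obtain ⟨R, hR, h⟩ := exists_int S m.toNat
  obtain ⟨M, hM⟩ : ∃ M : ℕ, M = m.toNat := ⟨_, rfl⟩
  rw [← hM] at h
  have hmM : m ≤ M := by
    rw [hM]
    exact Int.self_le_toNat m
  refine ⟨R ∪ (fun r => r⁻¹) '' R ∪ {(S.π ^ M)⁻¹},
    (hR.union (hR.image _)).union (Set.finite_singleton _), fun x => ?_⟩
  rcases le_or_gt 0 (S.v x) with hx | hx
  · obtain ⟨r, hr, hr0, hxr⟩ := h x hx
    refine ⟨r, Or.inl (Or.inl hr), ?_⟩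
    rcases hxr with h1 | h1
    · exact Or.inl h1
    · right
      unfold LF.dl
      rw [min_eq_left hx, min_eq_left hr0]
      omega
  · have hx0 : x ≠ 0 := by
      rintro rfl
      rw [S.v_zero] at hx
      exact lt_irrefl _ hx
    have hvx : S.v x⁻¹ = -S.v x := ChordAux.v_inv S x
    obtain ⟨r, hr, hr0, hxr⟩ := h x⁻¹ (by omega)
    by_cases hc : (M : ℤ) ≤ -S.v x
    · refine ⟨(S.π ^ M)⁻¹, Or.inr rfl, ?_⟩
      have hpi : (S.π ^ M)⁻¹ ≠ 0 := inv_ne_zero (pow_ne_zero M S.pi_ne)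
      have hvpi : S.v (S.π ^ M)⁻¹ = -M := by
        rw [ChordAux.v_inv, SymAux.v_pow S _ S.pi_ne, S.v_pi, mul_one]
      by_cases h1 : x = (S.π ^ M)⁻¹
      · exact Or.inl h1
      · right
        have h2 := ChordAux.v_sub_ge S hx0 hpi h1
        unfold LF.dl
        rw [hvpi] at h2 ⊢
        omega
    · have hnr : x⁻¹ = r ∨ (x⁻¹ ≠ r ∧ (M : ℤ) ≤ S.v (x⁻¹ - r)) := by
        by_cases h1 : x⁻¹ = r
        · exact Or.inl h1
        · rcases hxr with h2 | h2
          · exact Or.inl h2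
          · exact Or.inr ⟨h1, h2⟩
      refine ⟨r⁻¹, Or.inl (Or.inr ⟨r, hr, rfl⟩), ?_⟩
      rcases hnr with h1 | ⟨h1, h2⟩
      · left
        rw [← h1, inv_inv]
      · right
        have h3 : S.v r = -S.v x := by
          have h4 := ChordAux.v_sub_lt S (inv_ne_zero hx0) (y := x⁻¹ - r) (Or.inr (by omega))
          rw [sub_sub_cancel] at h4
          omega
        have hr0' : r ≠ 0 := by
          rintro rfl
          rw [S.v_zero] at h3
          omega
        have h5 : x - r⁻¹ = -((x⁻¹ - r) * (x * r⁻¹)) := by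
          field_simp
          ring
        have h6 : S.v (x - r⁻¹) = S.v (x⁻¹ - r) + S.v x - S.v r := by
          rw [h5, ChordAux.v_neg, S.v_mul _ _ (sub_ne_zero.2 h1)
            (mul_ne_zero hx0 (inv_ne_zero hr0')), S.v_mul _ _ hx0 (inv_ne_zero hr0'),
            ChordAux.v_inv]
          ring
        unfold LF.dl
        rw [h6, ChordAux.v_inv]
        omega

end Pool.Agent.Lib.MP_c385f6_ag.Semi
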