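import Mathlib
import Pool.Agent.Lib.MP_c385f6_ag.Bc.Basic
import Pool.Agent.Lib.MP_c385f6_ag.Semi.Stmts

set_option autoImplicit false

/-!
(V) The values of the elements of a subring with many units (blueprint MP_c385f6_semi.md).
-/

namespace Pool.Agent.Lib.MP_c385f6_ag.Semi

open Pool.Agent.Lib.MP_c385f6_ag.Cpl

universe u

namespace VlAux

section units

variable {E : Type*} [Field E] {O : Subring E}

theorem isUnit_iff (x : O) : IsUnit x ↔ Ut O (x : E) := by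
  constructor
  · intro h
    obtain ⟨y, hy⟩ := h.exists_right_inv
    have h1 : (x : E) * (y : E) = 1 := by
      have h2 := congrArg (fun z : O => (z : E)) hy
      simpa using h2
    have h0 : (x : E) ≠ 0 := left_ne_zero_of_mul_eq_one h1
    refine ⟨h0, x.2, ?_⟩
    have h3 : (x : E)⁻¹ = (y : E) := inv_eq_of_mul_eq_one_right h1
    rw [h3]
    exact y.2
  · rintro ⟨h0, -, h2⟩
    exact IsUnit.of_mul_eq_one ⟨(x : E)⁻¹, h2⟩ (Subtype.ext (mul_inv_cancel₀ h0))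

end units

section sys

variable {p : ℕ} [Fact p.Prime] {L F : Type} [Field L] [Field F] {S : LF p L F} {E : Type u}
  [Field E] {ι : L →+* E} {O : Subring E} {D : E → L}

/-- the constants as elements of the subring -/
def cst (hL : LimD S ι O D) : L →+* O := ι.codRestrict O hL.const

/-- the subring as an algebra over the constants -/
abbrev alg (hL : LimD S ι O D) : Algebra L O := (cst hL).toAlgebra

theorem mem_Gd (hL : LimD S ι O D) (x : O) (c : L) :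
    letI := alg hL
    c ∈ Bc.Gd L x ↔ Gd ι O (x : E) c := by
  letI := alg hL
  show IsUnit (x - cst hL c) ↔ _
  rw [isUnit_iff]
  constructor
  · rintro ⟨h0, -, h2⟩
    exact ⟨h0, h2⟩
  · rintro ⟨h0, h2⟩
    exact ⟨h0, (x - cst hL c).2, h2⟩

theorem sys (hL : LimD S ι O D) :
    letI := alg hL
    Bc.Sys S (fun x : O => D (x : E)) := by
  letI := alg hL
  refine ⟨?_, ?_, ?_, ?_⟩
  · intro u hu
    exact hL.ne _ ((isUnit_iff u).1 hu)
  · intro u v hu hv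
    exact hL.mul _ _ ((isUnit_iff u).1 hu) ((isUnit_iff v).1 hv)
  · intro c hc
    exact hL.cst c hc
  · intro u hu hv
    refine hL.stein _ _ ((isUnit_iff u).1 hu) ((isUnit_iff (1 - u)).1 hv) ?_
    show (u : E) + ((1 : E) - (u : E)) = 1
    ring

theorem gnr (hL : LimD S ι O D) :
    letI := alg hL
    Bc.Gnr S O := by
  letI := alg hL
  intro x x' a a' n
  obtain ⟨c, hc, h1⟩ := hL.dense {(x : E)} (Set.finite_singleton _) a n
  obtain ⟨c', hc', h2⟩ := hL.dense {(x' : E), (x : E) + (x' : E) - ι c}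
    ((Set.finite_singleton _).insert _) a' n
  refine ⟨c, (mem_Gd hL x c).2 (h1 _ (Set.mem_singleton _)), c',
    (mem_Gd hL x' c').2 (h2 _ (Set.mem_insert _ _)), (mem_Gd hL (x + x') (c + c')).2 ?_, hc, hc'⟩
  have h3 := h2 ((x : E) + (x' : E) - ι c) (Set.mem_insert_of_mem _ (Set.mem_singleton _))
  have h4 : ((x + x' : O) : E) - ι (c + c') = (x : E) + (x' : E) - ι c - ι c' := by
    rw [map_add]
    show (x : E) + (x' : E) - (ι c + ι c') = _
    ring
  unfold Gd at h3 ⊢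
  rw [h4]
  exact h3

theorem ctx (h1 : Bc.StAlt.{u}) (h5 : StFN) (hC : Bc.Comp.{0} L S) (hL : LimD S ι O D) :
    letI := alg hL
    Bc.Ctx S (fun x : O => D (x : E)) := by
  letI := alg hL
  exact ⟨sys hL, gnr hL, h1 p inferInstance L F inferInstance inferInstance S O inferInstance
    inferInstance _ hC (h5 p inferInstance L F inferInstance inferInstance S) (sys hL) (gnr hL)⟩

theorem val_iff (h2 : Bc.StOne.{u}) (hL : LimD S ι O D) (x : O) (y : L) :
    letI := alg hL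
    Bc.Val p (fun x : O => D (x : E)) x y ↔ VAt p ι O D (x : E) y := by
  letI := alg hL
  constructor
  · intro h c hc hne
    exact (h2 p inferInstance L F inferInstance inferInstance S O inferInstance
      inferInstance _ (sys hL) (gnr hL)).1 x y h c ((mem_Gd hL x c).2 hc) hne
  · intro h c hc c' hc' hne hne'
    exact Bc.eqv_div (h c ((mem_Gd hL x c).1 hc) hne) (h c' ((mem_Gd hL x c').1 hc') hne')

theorem valInf_iff (hL : LimD S ι O D) (x : O) :
    letI := alg hL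
    Bc.ValInf p (fun x : O => D (x : E)) x ↔ VInf p ι O D (x : E) := by
  letI := alg hL
  constructor
  · intro h c c' hc hc'
    exact h c ((mem_Gd hL x c).2 hc) c' ((mem_Gd hL x c').2 hc')
  · intro h c hc c' hc'
    exact h c c' ((mem_Gd hL x c).1 hc) ((mem_Gd hL x c').1 hc')

theorem inv_val (hL : LimD S ι O D) {x : E} (hx : x ∈ O) (hv : VInf p ι O D x) {c : L}
    (hc : Gd ι O x c) : VAt p ι O D (x - ι c)⁻¹ 0 := by
  intro d hd hd0
  have hd0' : ι d ≠ 0 := (map_ne_zero ι).2 hd0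
  -- the element `t = x - c` and its inverse
  have ht0 : x - ι c ≠ 0 := hc.1
  have hdi : ι (d⁻¹) = (ι d)⁻¹ := map_inv₀ ι d
  have e1 : x - ι (c + d⁻¹) = -(ι d)⁻¹ * ((x - ι c) * ((x - ι c)⁻¹ - ι d)) := by
    rw [map_add, hdi]
    field_simp
    ring
  have hg : Gd ι O x (c + d⁻¹) := by
    refine ⟨?_, ?_⟩
    · rw [e1]
      exact mul_ne_zero (neg_ne_zero.2 (inv_ne_zero hd0')) (mul_ne_zero ht0 hd.1)
    · rw [e1, mul_inv, mul_inv, inv_neg, inv_inv]
      exact O.mul_mem (O.neg_mem (hL.const d)) (O.mul_mem hc.2 hd.2)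
  have e2 : (x - ι c)⁻¹ - ι d = ι (-d) * ((x - ι (c + d⁻¹)) * (x - ι c)⁻¹) := by
    rw [map_add, hdi, map_neg]
    field_simp
    ring
  have ut : Ut O (x - ι c) := ⟨ht0, O.sub_mem hx (hL.const c), hc.2⟩
  have uti : Ut O (x - ι c)⁻¹ := ⟨inv_ne_zero ht0, hc.2, by rw [inv_inv]; exact ut.2.1⟩
  have ut' : Ut O (x - ι (c + d⁻¹)) := ⟨hg.1, O.sub_mem hx (hL.const _), hg.2⟩
  have utc : ∀ a : L, a ≠ 0 → Ut O (ι a) := fun a ha =>
    ⟨(map_ne_zero ι).2 ha, hL.const a, by rw [← map_inv₀]; exact hL.const _⟩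
  have utm : ∀ {a b : E}, Ut O a → Ut O b → Ut O (a * b) := fun ha hb =>
    ⟨mul_ne_zero ha.1 hb.1, O.mul_mem ha.2.1 hb.2.1, by rw [mul_inv]; exact O.mul_mem ha.2.2 hb.2.2⟩
  -- the class of the inverse
  have f0 : Eqv p (D 1) 1 := by
    have := hL.cst 1 one_ne_zero
    rwa [map_one] at this
  have f1 : Eqv p (D (x - ι c)⁻¹) (D (x - ι c))⁻¹ := by
    have h1 := hL.mul _ _ ut uti
    rw [mul_inv_cancel₀ ht0] at h1
    have h2 := Bc.eqv_mul (Bc.eqv_refl (p := p) (D (x - ι c))⁻¹)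
      (Bc.eqv_trans (Bc.eqv_symm h1) f0)
    rwa [inv_mul_cancel_left₀ (hL.ne _ ut), mul_one] at h2
  have f2 : Eqv p (D (x - ι (c + d⁻¹))) (D (x - ι c)) := hv _ _ hg hc
  have f3 : Eqv p (D ((x - ι (c + d⁻¹)) * (x - ι c)⁻¹)) 1 := by
    have h1 := Bc.eqv_trans (hL.mul _ _ ut' uti) (Bc.eqv_mul f2 f1)
    rwa [mul_inv_cancel₀ (hL.ne _ ut)] at h1
  rw [e2]
  have f4 := Bc.eqv_trans (hL.mul _ _ (utc (-d) (neg_ne_zero.2 hd0)) (utm ut' uti))
    (Bc.eqv_mul (hL.cst (-d) (neg_ne_zero.2 hd0)) f3)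
  rw [mul_one] at f4
  rwa [zero_sub]

end sys

end VlAux

open VlAux in
theorem stV (h1 : Bc.StAlt.{u}) (h2 : Bc.StOne.{u}) (h3 : Bc.StAdd.{u}) (h4 : Bc.StMul.{u})
    (h5 : StFN) : StV.{u} := by
  intro p hp L F iL iF S E iE ι O D hC hL
  letI : Algebra L O := alg hL
  have hx := ctx h1 h5 hC hL
  obtain ⟨-, o2, o3, o4, -, -⟩ := h2 p hp L F iL iF S O inferInstance inferInstance _
    (sys hL) (gnr hL)
  refine ⟨?_, ?_, ?_, ?_, ?_, ?_, ?_⟩
  · intro x hxO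
    rcases hx.alt ⟨x, hxO⟩ with ⟨y, hy⟩ | h
    · exact Or.inl ⟨y, (val_iff h2 hL ⟨x, hxO⟩ y).1 hy⟩
    · exact Or.inr ((valInf_iff hL ⟨x, hxO⟩).1 h)
  · intro x hxO a a' ha ha'
    exact o2 ⟨x, hxO⟩ a a' ((val_iff h2 hL ⟨x, hxO⟩ a).2 ha) ((val_iff h2 hL ⟨x, hxO⟩ a').2 ha')
  · intro x hxO a ha hi
    exact o3 ⟨x, hxO⟩ a ((val_iff h2 hL ⟨x, hxO⟩ a).2 ha) ((valInf_iff hL ⟨x, hxO⟩).2 hi)
  · intro c
    exact (val_iff h2 hL (cst hL c) c).1 (o4 c)
  · intro x hxO x' hxO' a a' ha ha'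
    exact (val_iff h2 hL (⟨x, hxO⟩ + ⟨x', hxO'⟩) (a + a')).1
      (h3 p hp L F iL iF S O inferInstance inferInstance _ hx ⟨x, hxO⟩ ⟨x', hxO'⟩ a a'
        ((val_iff h2 hL ⟨x, hxO⟩ a).2 ha) ((val_iff h2 hL ⟨x', hxO'⟩ a').2 ha'))
  · intro x hxO x' hxO' a a' ha ha'
    exact (val_iff h2 hL (⟨x, hxO⟩ * ⟨x', hxO'⟩) (a * a')).1
      (h4 p hp L F iL iF S O inferInstance inferInstance _ hx ⟨x, hxO⟩ ⟨x', hxO'⟩ a a'
        ((val_iff h2 hL ⟨x, hxO⟩ a).2 ha) ((val_iff h2 hL ⟨x', hxO'⟩ a').2 ha'))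
  · intro x hxO hi c hc
    exact inv_val hL hxO hi hc

end Pool.Agent.Lib.MP_c385f6_ag.Semi
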